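import Mathlib

/-!
# The Chudnovsky–Demailly bound for Waldschmidt constants of fat points

We prove that for every field `K`, every `N ≥ 1`, every fat point scheme `Z` in `ℙ^N` and every
`m ≥ 1` the Waldschmidt constant `lim α(I(kZ)) / k` is at least `(α(I(mZ)) + N - 1) / (m + N - 1)`.

Sketch of the proof. Let `W = mZ`, with support `Y`.

* Characteristic `p`, `K` perfect, `q = p ^ e`. Let `D ≠ 0` be a form of degree `t` vanishing to
  order at least `q w_i + (N - 1)(q - 1)` at each point, where `w_i` are the multiplicities of `W`.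
  Then `D ∈ I(W)^[q]` (Frobenius power). If `t < q α(W) + (N - 1)(q - 1)` then, comparing in
  coordinates centred at a point the monomials `x ^ (q c + b)` (`0 ≤ b_i < q`) of `D`, one gets
  inductively `D ∈ I(W + kY)^[q]` for all `k`: a monomial with `|c| = w_i + k` would need
  `|b| ≥ (N - 1)(q - 1) - q k`, and `t ≥ q α(W + kY) + |b|` where `α(W + kY) ≥ α(W) + k`. This is
  absurd, so `α(q W + (N - 1)(q - 1) Y) ≥ q α(W) + (N - 1)(q - 1)`. The inequality
  `α(W + Y) ≥ α(W) + 1` follows by taking a derivative, or a `p`-th root if all derivatives vanish.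
* An arbitrary field is reduced to this case by a valuation ring of `K` with positive residue
  characteristic containing the coordinates of the points and the entries of a left inverse of the
  matrix of the vanishing conditions in degree `α(W) - 1`.
* Let `e → ∞`.
-/

open MvPolynomial

namespace Pool.Agent.Results.MP_6bebef_ag.ChudnovskyDemailly

section defs

variable {K : Type*} [Field K] {N : ℕ}

/-- The homogeneous prime ideal `I(p)` of a point `p` of `ℙ^N`: the ideal of `K[x_0, …, x_N]`
generated by the forms vanishing at `p`. -/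
noncomputable def pointIdeal (p : Projectivization K (Fin (N + 1) → K)) :
    Ideal (MvPolynomial (Fin (N + 1)) K) :=
  Ideal.span {F | (∃ d, F.IsHomogeneous d) ∧ eval p.rep F = 0}

/-- The ideal `I(Z) = ⋂ I(p) ^ (m_p)` of the fat point scheme `Z = ∑ m_p p`. -/
noncomputable def fatIdeal (Z : Projectivization K (Fin (N + 1) → K) →₀ ℕ) :
    Ideal (MvPolynomial (Fin (N + 1)) K) :=
  ⨅ p ∈ Z.support, pointIdeal p ^ Z p

/-- `α(I)`: the least degree of a nonzero element of `I`. -/
noncomputable def alpha (I : Ideal (MvPolynomial (Fin (N + 1)) K)) : ℕ :=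
  sInf {d | ∃ F ∈ I, F ≠ 0 ∧ F.totalDegree = d}

/-- The Waldschmidt constant `lim α(I(mZ)) / m`. -/
noncomputable def waldschmidt (Z : Projectivization K (Fin (N + 1) → K) →₀ ℕ) : ℝ :=
  Filter.limUnder Filter.atTop (fun m : ℕ => (alpha (fatIdeal (m • Z)) : ℝ) / m)

end defs

end Pool.Agent.Results.MP_6bebef_ag.ChudnovskyDemailly
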