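import Mathlib
import Pool.Agent.H20.SPL.ChudnovskyDemaillyDefs

/-!
# The Chudnovsky–Demailly bound for Waldschmidt constants of fat points

We prove that for every field `K`, every `N ≥ 1`, every fat point scheme `Z` in `ℙ^N` and every
`m ≥ 1` the Waldschmidt constant `lim α(I(kZ)) / k` is at least `(α(I(mZ)) + N - 1) / (m + N - 1)`.

Sketch of the proof. Let `W = mZ`, with support `Y`.

* Characteristic `p`, `K` perfect, `q = p ^ e`. Let `D ≠ 0` be a form of degree `t` vanishing to
  order at least `q w_i + (N - 1)(q - 1)` at each point, where `w_i` are the multiplicities of `W`.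
  Then `D ∈ I(W)^[q]` (Frobenius power). If `t < q α(W) + (N - 1)(q - 1)` then, comparing in
  coordinates centred at a point the monomials `x ^ (q c + b)` (`0 ≤ b_i < q`) of `D`, one gets
  inductively `D ∈ I(W + kY)^[q]` for all `k`: a monomial with `|c| = w_i + k` would need
  `|b| ≥ (N - 1)(q - 1) - q k`, and `t ≥ q α(W + kY) + |b|` where `α(W + kY) ≥ α(W) + k`. This is
  absurd, so `α(q W + (N - 1)(q - 1) Y) ≥ q α(W) + (N - 1)(q - 1)`. The inequality
  `α(W + Y) ≥ α(W) + 1` follows by taking a derivative, or a `p`-th root if all derivatives vanish.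
* An arbitrary field is reduced to this case by a valuation ring of `K` with positive residue
  characteristic containing the coordinates of the points and the entries of a left inverse of the
  matrix of the vanishing conditions in degree `α(W) - 1`.
* Let `e → ∞`.
-/

open MvPolynomial

namespace Pool.Agent.Results.MP_6bebef_ag.ChudnovskyDemailly

section defs

variable {K : Type*} [Field K] {N : ℕ}


end defs

section partA

variable {σ : Type*} [Fintype σ] [DecidableEq σ]

/-- the degree of a monomial in the variables other than `i0` -/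
def wt (i0 : σ) (u : σ →₀ ℕ) : ℕ := ∑ j ∈ Finset.univ.erase i0, u j

lemma wt_add (i0 : σ) (u v : σ →₀ ℕ) : wt i0 (u + v) = wt i0 u + wt i0 v := by
  simp [wt, Finset.sum_add_distrib]

lemma wt_nsmul (i0 : σ) (n : ℕ) (u : σ →₀ ℕ) : wt i0 (n • u) = n * wt i0 u := by
  simp [wt, Finset.mul_sum]

lemma wt_mono (i0 : σ) {u v : σ →₀ ℕ} (h : u ≤ v) : wt i0 u ≤ wt i0 v :=
  Finset.sum_le_sum fun j _ => h j

lemma wt_le_degree (i0 : σ) (u : σ →₀ ℕ) : wt i0 u ≤ u.degree := by
  rw [Finsupp.degree_eq_sum]
  exact Finset.sum_le_sum_of_subset (Finset.erase_subset _ _)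

lemma wt_zero (i0 : σ) : wt i0 (0 : σ →₀ ℕ) = 0 := by simp [wt]

section Q
variable {R : Type*} [CommRing R]

/-- the ideal of polynomials all of whose monomials have degree at least `w` in the variables
other than `i0` -/
noncomputable def Q (R : Type*) [CommRing R] (i0 : σ) (w : ℕ) : Ideal (MvPolynomial σ R) :=
  Ideal.span ((fun s => monomial s (1 : R)) '' {s | w ≤ wt i0 s})

lemma mem_Q {i0 : σ} {w : ℕ} {F : MvPolynomial σ R} :
    F ∈ Q R i0 w ↔ ∀ u ∈ F.support, w ≤ wt i0 u := by
  rw [Q, mem_ideal_span_monomial_image]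
  constructor
  · intro h u hu
    obtain ⟨s, hs, hsu⟩ := h u hu
    exact le_trans hs (wt_mono i0 hsu)
  · intro h u hu
    exact ⟨u, h u hu, le_rfl⟩

lemma mul_mem_Q {i0 : σ} {a b : ℕ} {F G : MvPolynomial σ R} (hF : F ∈ Q R i0 a)
    (hG : G ∈ Q R i0 b) : F * G ∈ Q R i0 (a + b) := by
  rw [mem_Q] at *
  intro u hu
  have := support_mul F G hu
  rw [Finset.mem_add] at this
  obtain ⟨x, hx, y, hy, rfl⟩ := this
  rw [wt_add]
  exact add_le_add (hF x hx) (hG y hy)

lemma Q_anti {i0 : σ} {a b : ℕ} (h : a ≤ b) : Q R i0 b ≤ Q R i0 a := by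
  intro F hF
  rw [mem_Q] at *
  intro u hu
  exact le_trans h (hF u hu)

lemma Q_zero {i0 : σ} : Q R i0 0 = ⊤ := by
  rw [eq_top_iff]
  intro F _
  rw [mem_Q]
  intro u _
  exact Nat.zero_le _

lemma Q_one_pow (i0 : σ) (w : ℕ) : (Q R i0 1) ^ w = Q R i0 w := by
  apply le_antisymm
  · induction w with
    | zero => rw [Q_zero]; exact le_top
    | succ n ih =>
      rw [pow_succ]
      rw [Ideal.mul_le]
      intro F hF G hG
      exact mul_mem_Q (ih hF) hG
  · rw [Q, Ideal.span_le]
    rintro _ ⟨s, hs, rfl⟩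
    simp only [Set.mem_ofPred_eq] at hs
    simp only [SetLike.mem_coe]
    induction w generalizing s with
    | zero => simp
    | succ n ih =>
      have : ∃ j ∈ Finset.univ.erase i0, s j ≠ 0 := by
        by_contra hcon
        push Not at hcon
        have : wt i0 s = 0 := Finset.sum_eq_zero hcon
        omega
      obtain ⟨j, hj, hsj⟩ := this
      have hle : Finsupp.single j 1 ≤ s := by
        rw [Finsupp.single_le_iff]
        exact Nat.one_le_iff_ne_zero.mpr hsj
      have hs2 : s = (s - Finsupp.single j 1) + Finsupp.single j 1 :=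
        (tsub_add_cancel_of_le hle).symm
      have hw1 : wt i0 (Finsupp.single j 1) = 1 := by
        rw [wt, Finset.sum_eq_single j]
        · simp
        · intro b _ hb
          simp [Finsupp.single_apply, Ne.symm hb]
        · intro h; exact absurd hj h
      have hw : wt i0 s = wt i0 (s - Finsupp.single j 1) + 1 := by
        conv_lhs => rw [hs2]
        rw [wt_add, hw1]
      have h1 : n ≤ wt i0 (s - Finsupp.single j 1) := by omega
      have h2 := ih _ h1
      have h3 : (monomial (Finsupp.single j 1) (1 : R)) ∈ Q R i0 1 := by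
        rw [mem_Q]
        intro u hu
        have := support_monomial_subset hu
        rw [Finset.mem_singleton] at this
        rw [this, hw1]
      have h4 : monomial s (1 : R) = monomial (s - Finsupp.single j 1) 1 *
          monomial (Finsupp.single j 1) 1 := by
        rw [monomial_mul, ← hs2, one_mul]
      rw [h4, pow_succ]
      exact Ideal.mul_mem_mul h2 h3

end Q

section shift
variable {R : Type*} [CommRing R]

/-- linear change of variables moving the point `v` (with `v i0 = 1`) to the coordinate point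
`i0` -/
noncomputable def sh (i0 : σ) (v : σ → R) : MvPolynomial σ R →ₐ[R] MvPolynomial σ R :=
  aeval (fun j => if j = i0 then X i0 else X j + C (v j) * X i0)

lemma sh_X_self (i0 : σ) (v : σ → R) : sh i0 v (X i0) = X i0 := by
  simp [sh]

lemma sh_X_ne (i0 : σ) (v : σ → R) {j : σ} (h : j ≠ i0) :
    sh i0 v (X j) = X j + C (v j) * X i0 := by
  simp [sh, h]

lemma sh_sh_neg (i0 : σ) (v : σ → R) : (sh i0 v).comp (sh i0 (-v)) = AlgHom.id R _ := by
  apply algHom_ext
  intro j
  by_cases h : j = i0
  · subst h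
    simp [sh_X_self]
  · simp [sh_X_ne _ _ h, sh_X_self, algHom_C]

lemma sh_neg_sh (i0 : σ) (v : σ → R) : (sh i0 (-v)).comp (sh i0 v) = AlgHom.id R _ := by
  have := sh_sh_neg i0 (-v)
  rwa [neg_neg] at this

/-- `sh` as an equivalence -/
noncomputable def she (i0 : σ) (v : σ → R) : MvPolynomial σ R ≃ₐ[R] MvPolynomial σ R :=
  AlgEquiv.ofAlgHom (sh i0 v) (sh i0 (-v)) (sh_sh_neg i0 v) (sh_neg_sh i0 v)

lemma she_apply (i0 : σ) (v : σ → R) (F : MvPolynomial σ R) : she i0 v F = sh i0 v F := rfl

lemma sh_homog (i0 : σ) (v : σ → R) {F : MvPolynomial σ R} {d : ℕ} (hF : F.IsHomogeneous d) :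
    (sh i0 v F).IsHomogeneous d := by
  have := hF.aeval (fun j => if j = i0 then X i0 else X j + C (v j) * X i0) (n := 1) (by
    intro j
    by_cases h : j = i0
    · simp only [h, if_true]
      exact isHomogeneous_X _ _
    · simp only [h, if_false]
      refine (isHomogeneous_X _ _).add ?_
      have := (isHomogeneous_C (R := R) σ (v j)).mul (isHomogeneous_X R i0)
      simpa using this)
  rwa [one_mul] at this

/-- the ideal of forms with multiplicity at least `w` at the point `(i0, v)` -/
noncomputable def PI (i0 : σ) (v : σ → R) (w : ℕ) : Ideal (MvPolynomial σ R) :=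
  (Q R i0 w).comap (she i0 v)

lemma mem_PI {i0 : σ} {v : σ → R} {w : ℕ} {F : MvPolynomial σ R} :
    F ∈ PI i0 v w ↔ ∀ u ∈ (sh i0 v F).support, w ≤ wt i0 u := by
  rw [PI, Ideal.mem_comap, mem_Q]
  rfl

lemma PI_pow (i0 : σ) (v : σ → R) (w : ℕ) : PI i0 v w = (PI i0 v 1) ^ w := by
  have key : ∀ I : Ideal (MvPolynomial σ R), I.comap (she i0 v) = I.map (she i0 v).symm := by
    intro I
    ext F
    rw [Ideal.mem_comap, Ideal.mem_map_of_equiv]
    constructor
    · intro h
      exact ⟨_, h, AlgEquiv.symm_apply_apply _ _⟩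
    · rintro ⟨x, hx, rfl⟩
      rwa [AlgEquiv.apply_symm_apply]
  rw [PI, PI, ← Q_one_pow, key, key, Ideal.map_pow]

lemma mul_mem_PI {i0 : σ} {v : σ → R} {a b : ℕ} {F G : MvPolynomial σ R} (hF : F ∈ PI i0 v a)
    (hG : G ∈ PI i0 v b) : F * G ∈ PI i0 v (a + b) := by
  rw [PI, Ideal.mem_comap] at *
  rw [map_mul]
  exact mul_mem_Q hF hG

lemma PI_anti {i0 : σ} {v : σ → R} {a b : ℕ} (h : a ≤ b) : PI i0 v b ≤ PI i0 v a :=
  Ideal.comap_mono (Q_anti h)

end shift

section frob
variable {K : Type*} [Field K]

/-- the box of exponents below `q` -/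
noncomputable def bx (q : ℕ) (β : σ → Fin q) : σ →₀ ℕ :=
  Finsupp.equivFunOnFinite.symm (fun i => (β i : ℕ))

lemma bx_apply (q : ℕ) (β : σ → Fin q) (i : σ) : bx q β i = (β i : ℕ) := rfl

lemma bx_lt (q : ℕ) (β : σ → Fin q) (i : σ) : bx q β i < q := (β i).2

/-- The `β`-component of `F` with respect to the decomposition `F = ∑ x ^ β * (F_β) ^ q`. -/
noncomputable def T (q : ℕ) (root : K →+ K) (b : σ →₀ ℕ) (F : MvPolynomial σ K) :
    MvPolynomial σ K :=
  ∑ u ∈ F.support, if (∀ i, u i % q = b i) then
    monomial (u.mapRange (· / q) (Nat.zero_div q)) (root (coeff u F)) else 0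

lemma coeff_T {q : ℕ} (root : K →+ K) {b : σ →₀ ℕ} (hb : ∀ i, b i < q)
    (F : MvPolynomial σ K) (c : σ →₀ ℕ) :
    coeff c (T q root b F) = root (coeff (q • c + b) F) := by
  rw [T, coeff_sum]
  rw [Finset.sum_eq_single (q • c + b)]
  · have h1 : ∀ i, (q • c + b) i % q = b i := by
      intro i
      simp [Nat.mul_add_mod, Nat.mod_eq_of_lt (hb i)]
    rw [if_pos h1, coeff_monomial, if_pos]
    ext i
    have hq : 0 < q := lt_of_le_of_lt (Nat.zero_le _) (hb i)
    simp [Nat.mul_add_div hq, Nat.div_eq_of_lt (hb i)]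
  · intro u _ hne
    split_ifs with h
    · rw [coeff_monomial, if_neg]
      intro hc
      apply hne
      ext i
      have := h i
      have h2 := Nat.div_add_mod (u i) q
      rw [← hc]
      simp only [Finsupp.coe_add, Finsupp.coe_smul, Pi.add_apply, Pi.smul_apply, smul_eq_mul,
        Finsupp.mapRange_apply]
      rw [← this]
      exact h2.symm
    · simp
  · intro h
    have : coeff (q • c + b) F = 0 := by
      rwa [notMem_support_iff] at h
    simp [this]

lemma T_add {q : ℕ} (root : K →+ K) {b : σ →₀ ℕ} (hb : ∀ i, b i < q)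
    (F G : MvPolynomial σ K) : T q root b (F + G) = T q root b F + T q root b G := by
  ext c
  simp [coeff_T root hb]

lemma T_zero {q : ℕ} (root : K →+ K) {b : σ →₀ ℕ} (hb : ∀ i, b i < q) :
    T q root b (0 : MvPolynomial σ K) = 0 := by
  ext c
  simp [coeff_T root hb]

lemma T_sum {q : ℕ} (root : K →+ K) {b : σ →₀ ℕ} (hb : ∀ i, b i < q) {ι : Type*}
    (s : Finset ι) (F : ι → MvPolynomial σ K) :
    T q root b (∑ i ∈ s, F i) = ∑ i ∈ s, T q root b (F i) := by
  classical
  induction s using Finset.induction_on with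
  | empty => simp [T_zero root hb]
  | insert a s ha ih => rw [Finset.sum_insert ha, Finset.sum_insert ha, T_add root hb, ih]

variable {p : ℕ} [Fact p.Prime] [CharP K p] [PerfectRing K p]

/-- the `p ^ e`-th root on a perfect field -/
noncomputable def rt (K : Type*) [Field K] (p : ℕ) [Fact p.Prime] [CharP K p] [PerfectRing K p]
    (e : ℕ) : K →+ K :=
  ((iterateFrobeniusEquiv K p e).symm : K →+* K)

lemma rt_pow (e : ℕ) (x : K) : (rt K p e x) ^ p ^ e = x := by
  have := (iterateFrobeniusEquiv K p e).apply_symm_apply x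
  rw [iterateFrobeniusEquiv_apply, iterateFrobenius_def] at this
  exact this

lemma rt_mul (e : ℕ) (x y : K) : rt K p e (x ^ p ^ e * y) = x * rt K p e y := by
  have h : rt K p e (x ^ p ^ e * y) = rt K p e (x ^ p ^ e) * rt K p e y :=
    map_mul ((iterateFrobeniusEquiv K p e).symm : K →+* K) _ _
  have h2 : rt K p e (x ^ p ^ e) = x := by
    have := (iterateFrobeniusEquiv K p e).symm_apply_apply x
    rw [iterateFrobeniusEquiv_apply, iterateFrobenius_def] at this
    exact this
  rw [h, h2]

lemma rt_inj (e : ℕ) {x : K} (h : rt K p e x = 0) : x = 0 := by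
  rw [← rt_pow (p := p) e x, h, zero_pow]
  exact pow_ne_zero _ (Fact.out : p.Prime).ne_zero

lemma pow_add_q (e : ℕ) (F G : MvPolynomial σ K) :
    (F + G) ^ p ^ e = F ^ p ^ e + G ^ p ^ e := add_pow_char_pow ..

lemma T_mul (e : ℕ) {b : σ →₀ ℕ} (hb : ∀ i, b i < p ^ e) (h g : MvPolynomial σ K) :
    T (p ^ e) (rt K p e) b (h ^ p ^ e * g) = h * T (p ^ e) (rt K p e) b g := by
  induction h using MvPolynomial.induction_on' with
  | add h₁ h₂ ih₁ ih₂ =>
    rw [pow_add_q, add_mul, T_add _ hb, ih₁, ih₂, add_mul]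
  | monomial d a =>
    induction g using MvPolynomial.induction_on' with
    | add g₁ g₂ ih₁ ih₂ =>
      rw [mul_add, T_add _ hb, T_add _ hb, ih₁, ih₂, mul_add]
    | monomial u a' =>
      ext c
      rw [coeff_T _ hb, coeff_monomial_mul', monomial_pow, monomial_mul, coeff_monomial]
      by_cases hdc : d ≤ c
      · rw [if_pos hdc, coeff_T _ hb, coeff_monomial]
        have key : (p ^ e • d + u = p ^ e • c + b) ↔ (u = p ^ e • (c - d) + b) := by
          have : p ^ e • c = p ^ e • d + p ^ e • (c - d) := by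
            rw [← nsmul_add, add_tsub_cancel_of_le hdc]
          rw [this, add_assoc]
          constructor
          · intro h; exact add_left_cancel h
          · intro h; rw [h]
        by_cases hu : u = p ^ e • (c - d) + b
        · rw [if_pos (key.mpr hu), if_pos hu, rt_mul]
        · rw [if_neg (fun h => hu (key.mp h)), if_neg hu]
          simp
      · rw [if_neg hdc, if_neg, map_zero]
        intro h
        apply hdc
        intro i
        have hi := DFunLike.congr_fun h i
        simp only [Finsupp.coe_add, Finsupp.coe_smul, Pi.add_apply, Pi.smul_apply,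
          smul_eq_mul] at hi
        have hbi := hb i
        by_contra hcd
        push Not at hcd
        have : p ^ e * (c i + 1) ≤ p ^ e * d i := Nat.mul_le_mul_left _ hcd
        rw [mul_add, mul_one] at this
        omega

lemma decomp (e : ℕ) (F : MvPolynomial σ K) :
    F = ∑ β : σ → Fin (p ^ e), monomial (bx _ β) 1 * (T (p ^ e) (rt K p e) (bx _ β) F) ^ p ^ e := by
  have hq : 0 < p ^ e := pow_pos (Fact.out : p.Prime).pos _
  induction F using MvPolynomial.induction_on' with
  | add F G ihF ihG =>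
    conv_lhs => rw [ihF, ihG]
    rw [← Finset.sum_add_distrib]
    apply Finset.sum_congr rfl
    intro β _
    rw [T_add _ (bx_lt _ β), pow_add_q, mul_add]
  | monomial u a =>
    rw [Finset.sum_eq_single (fun i => (⟨u i % p ^ e, Nat.mod_lt _ hq⟩ : Fin (p ^ e)))]
    · set β : σ → Fin (p ^ e) := fun i => (⟨u i % p ^ e, Nat.mod_lt _ hq⟩ : Fin (p ^ e)) with hβ
      have hT : T (p ^ e) (rt K p e) (bx _ β) (monomial u a) =
          monomial (u.mapRange (· / p ^ e) (Nat.zero_div _)) (rt K p e a) := by
        ext c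
        rw [coeff_T _ (bx_lt _ β), coeff_monomial, coeff_monomial]
        have key : (u = p ^ e • c + bx _ β) ↔
            (u.mapRange (· / p ^ e) (Nat.zero_div _) = c) := by
          constructor
          · intro h
            ext i
            simp only [Finsupp.mapRange_apply]
            rw [h]
            simp [Nat.mul_add_div hq, Nat.div_eq_of_lt (bx_lt _ β i)]
          · intro h
            ext i
            rw [← h]
            simp only [Finsupp.coe_add, Finsupp.coe_smul, Pi.add_apply, Pi.smul_apply,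
              smul_eq_mul, Finsupp.mapRange_apply, bx_apply, hβ]
            exact (Nat.div_add_mod (u i) (p ^ e)).symm
        by_cases hu : u = p ^ e • c + bx _ β
        · rw [if_pos hu, if_pos (key.mp hu)]
        · rw [if_neg hu, if_neg (fun h => hu (key.mpr h)), map_zero]
      have hexp : bx _ β + p ^ e • (u.mapRange (· / p ^ e) (Nat.zero_div _)) = u := by
        ext i
        simp only [Finsupp.coe_add, Finsupp.coe_smul, Pi.add_apply, Pi.smul_apply,
              smul_eq_mul, Finsupp.mapRange_apply, bx_apply, hβ]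
        rw [add_comm]
        exact Nat.div_add_mod (u i) (p ^ e)
      rw [hT, monomial_pow, monomial_mul, rt_pow, one_mul, hexp]
    · intro β _ hβ
      have : T (p ^ e) (rt K p e) (bx _ β) (monomial u a) = 0 := by
        ext c
        rw [coeff_T _ (bx_lt _ β), coeff_monomial, if_neg, map_zero, coeff_zero]
        intro h
        apply hβ
        ext i
        rw [h]
        simp [bx_apply, Nat.mul_add_mod, Nat.mod_eq_of_lt (β i).2]
      rw [this, zero_pow hq.ne', mul_zero]
    · intro h
      exact absurd (Finset.mem_univ _) h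

/-- the ideal generated by `q`-th powers of the elements of `J` -/
noncomputable def FP (p e : ℕ) [Fact p.Prime] [CharP K p] (J : Ideal (MvPolynomial σ K)) :
    Ideal (MvPolynomial σ K) :=
  Ideal.span ((fun h => h ^ p ^ e) '' (J : Set (MvPolynomial σ K)))

lemma mem_FP (e : ℕ) (J : Ideal (MvPolynomial σ K)) (F : MvPolynomial σ K) :
    F ∈ FP p e J ↔ ∀ β : σ → Fin (p ^ e), T (p ^ e) (rt K p e) (bx _ β) F ∈ J := by
  constructor
  · intro hF
    induction hF using Submodule.span_induction with
    | mem x hx =>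
      obtain ⟨h, hh, rfl⟩ := hx
      intro β
      have := T_mul e (bx_lt _ β) h 1
      rw [mul_one] at this
      simp only
      rw [this]
      exact Ideal.mul_mem_right _ _ hh
    | zero =>
      intro β
      rw [T_zero _ (bx_lt _ β)]
      exact J.zero_mem
    | add x y _ _ ihx ihy =>
      intro β
      rw [T_add _ (bx_lt _ β)]
      exact J.add_mem (ihx β) (ihy β)
    | smul a x _ ih =>
      intro β
      rw [smul_eq_mul, decomp (p := p) e x, Finset.mul_sum, T_sum _ (bx_lt _ β)]
      apply J.sum_mem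
      intro γ _
      have : a * (monomial (bx _ γ) 1 * (T (p ^ e) (rt K p e) (bx _ γ) x) ^ p ^ e) =
        (T (p ^ e) (rt K p e) (bx _ γ) x) ^ p ^ e * (a * monomial (bx _ γ) 1) := by ring
      rw [this, T_mul e (bx_lt _ β)]
      exact Ideal.mul_mem_right _ _ (ih γ)
  · intro h
    rw [decomp (p := p) e F]
    apply Ideal.sum_mem
    intro β _
    apply Ideal.mul_mem_left
    exact Ideal.subset_span ⟨_, h β, rfl⟩

end frob

section mainp
variable {K : Type*} [Field K]

lemma homog_deg {R : Type*} [CommRing R] {F : MvPolynomial σ R} {d : ℕ} (hF : F.IsHomogeneous d)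
    {u : σ →₀ ℕ} (hu : coeff u F ≠ 0) : u.degree = d := by
  by_contra h
  exact hu (hF.coeff_eq_zero h)

lemma homog_of_deg {R : Type*} [CommRing R] {F : MvPolynomial σ R} {d : ℕ}
    (h : ∀ u, coeff u F ≠ 0 → u.degree = d) : F.IsHomogeneous d := by
  intro u hu
  have := h u hu
  rw [Finsupp.degree_eq_weight_one] at this
  exact this

/-- the ideal of forms with multiplicity at least `w i` at the point `P i` -/
noncomputable def VI {R : Type*} [CommRing R] {ι : Type*} (P : ι → σ × (σ → R)) (w : ι → ℕ) :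
    Ideal (MvPolynomial σ R) :=
  ⨅ i, PI (P i).1 (P i).2 (w i)

lemma mem_VI {R : Type*} [CommRing R] {ι : Type*} {P : ι → σ × (σ → R)} {w : ι → ℕ}
    {F : MvPolynomial σ R} : F ∈ VI P w ↔ ∀ i, F ∈ PI (P i).1 (P i).2 (w i) := by
  simp [VI, Ideal.mem_iInf]

lemma mul_mem_VI {R : Type*} [CommRing R] {ι : Type*} {P : ι → σ × (σ → R)} {w₁ w₂ : ι → ℕ}
    {F G : MvPolynomial σ R} (hF : F ∈ VI P w₁) (hG : G ∈ VI P w₂) :
    F * G ∈ VI P (fun i => w₁ i + w₂ i) := by
  rw [mem_VI] at *
  intro i
  exact mul_mem_PI (hF i) (hG i)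

lemma pow_mem_VI {R : Type*} [CommRing R] {ι : Type*} {P : ι → σ × (σ → R)} {w : ι → ℕ}
    {F : MvPolynomial σ R} (hF : F ∈ VI P w) (n : ℕ) :
    F ^ n ∈ VI P (fun i => n * w i) := by
  induction n with
  | zero =>
    rw [mem_VI]
    intro i
    rw [mem_PI]
    intro u _
    simp
  | succ n ih =>
    rw [pow_succ]
    have := mul_mem_VI ih hF
    refine (?_ : VI P _ ≤ VI P _) this
    apply iInf_mono
    intro i
    apply PI_anti
    simp only
    rw [Nat.succ_mul]

lemma VI_anti {R : Type*} [CommRing R] {ι : Type*} {P : ι → σ × (σ → R)} {w₁ w₂ : ι → ℕ}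
    (h : ∀ i, w₁ i ≤ w₂ i) : VI P w₂ ≤ VI P w₁ :=
  iInf_mono fun i => PI_anti (h i)

/-- a derivation maps `I ^ (n + 1)` into `I ^ n` -/
lemma deriv_mem {R A : Type*} [CommRing R] [CommRing A] [Algebra R A] (δ : Derivation R A A)
    (I : Ideal A) (n : ℕ) {F : A} (hF : F ∈ I ^ (n + 1)) : δ F ∈ I ^ n := by
  induction n generalizing F with
  | zero => simp
  | succ n ih =>
    rw [pow_succ] at hF
    induction hF using Submodule.mul_induction_on' with
    | mem_mul_mem m hm x hx =>
      rw [Derivation.leibniz, smul_eq_mul, smul_eq_mul]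
      apply Ideal.add_mem
      · exact Ideal.mul_mem_right _ _ hm
      · rw [pow_succ, mul_comm x]
        exact Ideal.mul_mem_mul (ih hm) hx
    | add x _ y _ ihx ihy =>
      rw [map_add]
      exact Ideal.add_mem _ ihx ihy

lemma pderiv_mem_VI {R : Type*} [CommRing R] {ι : Type*} {P : ι → σ × (σ → R)} {w : ι → ℕ}
    {F : MvPolynomial σ R} (hF : F ∈ VI P (fun i => w i + 1)) (j : σ) :
    pderiv j F ∈ VI P w := by
  rw [mem_VI] at *
  intro i
  have := hF i
  rw [PI_pow] at this ⊢
  exact deriv_mem _ _ _ this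

variable {p : ℕ} [Fact p.Prime] [CharP K p] [PerfectRing K p]

lemma T_homog (e : ℕ) {b : σ →₀ ℕ} (hb : ∀ i, b i < p ^ e) {D : MvPolynomial σ K} {t : ℕ}
    (hD : D.IsHomogeneous t) (h0 : T (p ^ e) (rt K p e) b D ≠ 0) :
    ∃ d, (T (p ^ e) (rt K p e) b D).IsHomogeneous d ∧ p ^ e * d + b.degree = t := by
  have hq : 0 < p ^ e := pow_pos (Fact.out : p.Prime).pos _
  obtain ⟨c, hc⟩ := MvPolynomial.ne_zero_iff.mp h0
  have key : ∀ c, coeff c (T (p ^ e) (rt K p e) b D) ≠ 0 → p ^ e * c.degree + b.degree = t := by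
    intro c hc
    rw [coeff_T _ hb] at hc
    have h1 : coeff (p ^ e • c + b) D ≠ 0 := by
      intro h
      apply hc
      rw [h, map_zero]
    have := homog_deg hD h1
    rw [map_add, map_nsmul, smul_eq_mul] at this
    exact this
  refine ⟨c.degree, homog_of_deg ?_, key c hc⟩
  intro u hu
  have h1 := key u hu
  have h2 := key c hc
  have h3 : p ^ e * u.degree = p ^ e * c.degree := by omega
  exact Nat.eq_of_mul_eq_mul_left hq h3

lemma FP_hom (e : ℕ) (f : MvPolynomial σ K →+* MvPolynomial σ K) {J₁ J₂ : Ideal (MvPolynomial σ K)}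
    (hf : ∀ F ∈ J₁, f F ∈ J₂) {F : MvPolynomial σ K} (hF : F ∈ FP p e J₁) : f F ∈ FP p e J₂ := by
  induction hF using Submodule.span_induction with
  | mem x hx =>
    obtain ⟨h, hh, rfl⟩ := hx
    simp only
    rw [map_pow]
    exact Ideal.subset_span ⟨_, hf h hh, rfl⟩
  | zero => rw [map_zero]; exact Ideal.zero_mem _
  | add x y _ _ ihx ihy => rw [map_add]; exact Ideal.add_mem _ ihx ihy
  | smul a x _ ih =>
    rw [smul_eq_mul, map_mul]
    exact Ideal.mul_mem_left _ _ ih

lemma sh_neg_apply {R : Type*} [CommRing R] (i0 : σ) (v : σ → R) (F : MvPolynomial σ R) :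
    sh i0 (-v) (sh i0 v F) = F := by
  have := AlgHom.congr_fun (sh_neg_sh i0 v) F
  simpa using this

lemma sh_apply_neg {R : Type*} [CommRing R] (i0 : σ) (v : σ → R) (F : MvPolynomial σ R) :
    sh i0 v (sh i0 (-v) F) = F := by
  have := AlgHom.congr_fun (sh_sh_neg i0 v) F
  simpa using this

lemma mem_PI' {R : Type*} [CommRing R] {i0 : σ} {v : σ → R} {w : ℕ} {F : MvPolynomial σ R} :
    F ∈ PI i0 v w ↔ sh i0 v F ∈ Q R i0 w := Iff.rfl

lemma mem_FP_PI (e : ℕ) (i0 : σ) (v : σ → K) (w : ℕ) (F : MvPolynomial σ K) :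
    F ∈ FP p e (PI i0 v w) ↔ sh i0 v F ∈ FP p e (Q K i0 w) := by
  constructor
  · intro h
    exact FP_hom e (sh i0 v : MvPolynomial σ K →+* MvPolynomial σ K) (fun F hF => hF) h
  · intro h
    have := FP_hom e (sh i0 (-v) : MvPolynomial σ K →+* MvPolynomial σ K)
      (J₁ := Q K i0 w) (J₂ := PI i0 v w) (fun F hF => by
        rw [mem_PI']
        simp only [RingHom.coe_coe]
        rw [sh_apply_neg]
        exact hF) h
    simp only [RingHom.coe_coe] at this
    rwa [sh_neg_apply] at this

lemma sh_ne_zero {R : Type*} [CommRing R] (i0 : σ) (v : σ → R) {F : MvPolynomial σ R}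
    (h : F ≠ 0) : sh i0 v F ≠ 0 := by
  intro h0
  apply h
  rw [← sh_neg_apply i0 v F, h0, map_zero]

/-- raising all multiplicities by one raises the least degree by at least one -/
lemma step_deg (p : ℕ) [Fact p.Prime] [CharP K p] [PerfectRing K p] {ι : Type*} [Nonempty ι] (P : ι → σ × (σ → K)) (d : ℕ) :
    ∀ (w : ι → ℕ) (G : MvPolynomial σ K), G ∈ VI P (fun i => w i + 1) → G ≠ 0 →
      G.IsHomogeneous d → ∃ G' ∈ VI P w, G' ≠ 0 ∧ ∃ d' < d, G'.IsHomogeneous d' := by
  induction d using Nat.strong_induction_on with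
  | _ d ih =>
    intro w G hG hG0 hGd
    by_cases hd : d = 0
    · exfalso
      obtain ⟨i⟩ := (inferInstance : Nonempty ι)
      have h1 := (mem_VI.mp hG) i
      rw [mem_PI] at h1
      obtain ⟨u, hu⟩ := MvPolynomial.ne_zero_iff.mp (sh_ne_zero (P i).1 (P i).2 hG0)
      have h2 := h1 u (mem_support_iff.mpr hu)
      have h3 := homog_deg (sh_homog (P i).1 (P i).2 hGd) hu
      have h4 := wt_le_degree (P i).1 u
      omega
    · by_cases hder : ∃ j, pderiv j G ≠ 0
      · obtain ⟨j, hj⟩ := hder
        exact ⟨pderiv j G, pderiv_mem_VI hG j, hj, d - 1, by omega, hGd.pderiv⟩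
      · push Not at hder
        have hp : p.Prime := Fact.out
        -- all exponents of `G` are divisible by `p`
        have hdiv : ∀ u, coeff u G ≠ 0 → ∀ j, p ∣ u j := by
          intro u hu j
          by_contra hcon
          have huj : u j ≠ 0 := by
            intro h
            apply hcon
            rw [h]
            exact dvd_zero _
          have h1 := congrArg (coeff (u - Finsupp.single j 1)) (hder j)
          rw [coeff_zero] at h1
          rw [coeff_pderiv] at h1
          have hle : Finsupp.single j 1 ≤ u := by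
            rw [Finsupp.single_le_iff]
            exact Nat.one_le_iff_ne_zero.mpr huj
          rw [tsub_add_cancel_of_le hle] at h1
          rcases mul_eq_zero.mp h1 with h2 | h2
          · exact hu h2
          · apply hcon
            rw [← CharP.cast_eq_zero_iff K p]
            have h3 : ((u - Finsupp.single j 1 : σ →₀ ℕ)) j + 1 = u j := by
              simp only [Finsupp.coe_tsub, Pi.sub_apply, Finsupp.single_eq_same]
              omega
            rw [← h3]
            push_cast
            exact h2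
        -- `G` is a `p`-th power
        have hpe : p ^ 1 = p := pow_one p
        have h0lt : ∀ i : σ, (0 : σ →₀ ℕ) i < p ^ 1 := by
          intro i
          rw [hpe]
          exact hp.pos
        set f := T (p ^ 1) (rt K p 1) 0 G with hf
        have hGf : f ^ p ^ 1 = G := by
          have hdec := decomp (p := p) 1 G
          rw [Finset.sum_eq_single (fun _ => (⟨0, by rw [hpe]; exact hp.pos⟩ : Fin (p ^ 1)))] at hdec
          · have hbx : bx (p ^ 1) (fun _ : σ => (⟨0, by rw [hpe]; exact hp.pos⟩ : Fin (p ^ 1))) = 0 := by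
              ext i
              simp [bx_apply]
            rw [hbx] at hdec
            rw [hf]
            conv_rhs => rw [hdec]
            have : (monomial 0 (1 : K) : MvPolynomial σ K) = 1 := rfl
            rw [this, one_mul]
          · intro β _ hβ
            have : T (p ^ 1) (rt K p 1) (bx _ β) G = 0 := by
              ext c
              rw [coeff_T _ (bx_lt _ β), coeff_zero]
              have : coeff (p ^ 1 • c + bx _ β) G = 0 := by
                by_contra hne
                apply hβ
                ext i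
                have h1 := hdiv _ hne i
                simp only [Finsupp.coe_add, Finsupp.coe_smul, Pi.add_apply, Pi.smul_apply,
                  smul_eq_mul, bx_apply] at h1
                have h2 : p ∣ (β i : ℕ) := (Nat.dvd_add_right
                  (Dvd.dvd.mul_right (dvd_pow_self p one_ne_zero) _)).mp h1
                have h3 : (β i : ℕ) < p := lt_of_lt_of_eq (β i).2 hpe
                exact Nat.eq_zero_of_dvd_of_lt h2 h3
              rw [this, map_zero]
            rw [this, zero_pow (by rw [hpe]; exact hp.ne_zero), mul_zero]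
          · intro h
            exact absurd (Finset.mem_univ _) h
        rw [hpe] at hGf
        have hf0 : f ≠ 0 := by
          intro h
          apply hG0
          rw [← hGf, h, zero_pow hp.ne_zero]
        obtain ⟨m, hm, hmd⟩ := T_homog 1 h0lt hGd hf0
        rw [map_zero, add_zero, hpe] at hmd
        have hmd' : m < d := by
          rw [← hmd]
          have : 0 < m := by
            rcases Nat.eq_zero_or_pos m with h | h
            · rw [h] at hmd; omega
            · exact h
          calc m = 1 * m := (one_mul m).symm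
            _ < p * m := Nat.mul_lt_mul_of_pos_right hp.one_lt this
        have hfV : f ∈ VI P (fun i => w i / p + 1) := by
          rw [mem_VI]
          intro i
          rw [mem_PI]
          intro c hc
          have h1 := (mem_VI.mp hG) i
          rw [mem_PI, ← hGf, map_pow] at h1
          have h2 : coeff (p ^ 1 • c + 0) ((sh (P i).1 (P i).2 f) ^ p) ≠ 0 := by
            intro h
            have h3 := coeff_T (rt K p 1) h0lt ((sh (P i).1 (P i).2 f) ^ p) c
            rw [h, map_zero] at h3
            have h4 := T_mul (p := p) 1 h0lt (sh (P i).1 (P i).2 f) 1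
            rw [mul_one, hpe] at h4
            rw [hpe] at h3
            rw [h4] at h3
            have h5 := T_mul (p := p) 1 h0lt (1 : MvPolynomial σ K) 1
            have h6 : T p (rt K p 1) 0 (1 : MvPolynomial σ K) = 1 := by
              ext c
              have h0lt' : ∀ i : σ, (0 : σ →₀ ℕ) i < p := fun i => hp.pos
              rw [coeff_T _ h0lt', coeff_one, coeff_one]
              by_cases hc0 : 0 = c
              · subst hc0
                have := rt_mul (p := p) 1 (1 : K) 1
                simp only [one_pow, mul_one, smul_zero, add_zero, if_true]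
                exact map_one ((iterateFrobeniusEquiv K p 1).symm : K →+* K)
              · rw [if_neg hc0, if_neg, map_zero]
                intro h7
                apply hc0
                rw [add_zero] at h7
                ext i
                have := DFunLike.congr_fun h7 i
                simp only [Finsupp.coe_zero, Pi.zero_apply, Finsupp.coe_smul, Pi.smul_apply,
                  smul_eq_mul] at this
                have h8 := (mul_eq_zero.mp this.symm).resolve_left hp.ne_zero
                simp [h8]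
            rw [h6, mul_one] at h3
            exact (mem_support_iff.mp hc) h3
          have h7 := h1 _ (mem_support_iff.mpr h2)
          rw [add_zero, wt_nsmul, hpe] at h7
          have h8 : w i < p * wt (P i).1 c := h7
          have h9 : w i / p < wt (P i).1 c := Nat.div_lt_of_lt_mul h8
          exact h9
        obtain ⟨g', hg'V, hg'0, d', hd', hg'd⟩ := ih m hmd' (fun i => w i / p) f hfV hf0 hm
        refine ⟨f ^ (p - 1) * g', ?_, mul_ne_zero (pow_ne_zero _ hf0) hg'0,
          m * (p - 1) + d', ?_, (hm.pow _).mul hg'd⟩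
        · have := mul_mem_VI (pow_mem_VI hfV (p - 1)) hg'V
          refine VI_anti ?_ this
          intro i
          have h1 := Nat.div_add_mod (w i) p
          have h2 := Nat.mod_lt (w i) hp.pos
          obtain ⟨k, hk⟩ : ∃ k, p = k + 1 := ⟨p - 1, by have := hp.pos; omega⟩
          have h3 : p - 1 = k := by omega
          rw [h3, mul_add, mul_one]
          have h4 : p * (w i / p) = k * (w i / p) + w i / p := by
            rw [hk]; ring
          omega
        · rw [← hmd]
          obtain ⟨k, hk⟩ : ∃ k, p = k + 1 := ⟨p - 1, by have := hp.pos; omega⟩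
          have h3 : p - 1 = k := by omega
          rw [h3]
          have h4 : p * m = m * k + m := by rw [hk]; ring
          omega

/-- `LB P w a` : every nonzero form in `VI P w` has degree at least `a` -/
def LB {R : Type*} [CommRing R] {ι : Type*} (P : ι → σ × (σ → R)) (w : ι → ℕ) (a : ℕ) : Prop :=
  ∀ G ∈ VI P w, G ≠ 0 → ∀ d, G.IsHomogeneous d → a ≤ d

lemma LB_add (p : ℕ) [Fact p.Prime] [CharP K p] [PerfectRing K p] {ι : Type*} [Nonempty ι] (P : ι → σ × (σ → K)) (w : ι → ℕ) (a : ℕ)
    (h : LB P w a) (k : ℕ) : LB P (fun i => w i + k) (a + k) := by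
  induction k with
  | zero => exact h
  | succ k ih =>
    intro G hG hG0 d hd
    obtain ⟨G', hG', hG'0, d', hd', hG'd⟩ := step_deg p P d (fun i => w i + k) G hG hG0 hd
    have := ih G' hG' hG'0 d' hG'd
    omega

/-- the key degree bound in characteristic `p` -/
theorem key_charp (p : ℕ) [Fact p.Prime] [CharP K p] [PerfectRing K p] {ι : Type*} [Nonempty ι] (r : ℕ) (hr : Fintype.card σ = r + 2)
    (P : ι → σ × (σ → K)) (w : ι → ℕ) (a : ℕ) (h : LB P w a) (e : ℕ) :
    LB P (fun i => p ^ e * w i + r * (p ^ e - 1)) (p ^ e * a + r * (p ^ e - 1)) := by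
  have hp : p.Prime := Fact.out
  have hq : 0 < p ^ e := pow_pos hp.pos _
  intro D hD hD0 t hDt
  by_contra hlt
  push Not at hlt
  -- the claim
  have claim : ∀ k, D ∈ FP p e (VI P (fun i => w i + k)) := by
    intro k
    induction k with
    | zero =>
      rw [mem_FP]
      intro β
      rw [mem_VI]
      intro i
      have : D ∈ FP p e (PI (P i).1 (P i).2 (w i + 0)) := by
        rw [mem_FP_PI, mem_FP]
        intro γ
        rw [mem_Q]
        intro c hc
        rw [mem_support_iff, coeff_T _ (bx_lt _ γ)] at hc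
        have h1 : coeff (p ^ e • c + bx _ γ) (sh (P i).1 (P i).2 D) ≠ 0 := by
          intro h; apply hc; rw [h, map_zero]
        have h2 := (mem_PI.mp ((mem_VI.mp hD) i)) _ (mem_support_iff.mpr h1)
        rw [wt_add, wt_nsmul] at h2
        have h3 : wt (P i).1 (bx _ γ) ≤ (r + 1) * (p ^ e - 1) := by
          rw [wt]
          calc ∑ j ∈ Finset.univ.erase (P i).1, (bx (p ^ e) γ) j
              ≤ ∑ j ∈ Finset.univ.erase (P i).1, (p ^ e - 1) := by
                apply Finset.sum_le_sum
                intro j _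
                have := bx_lt (p ^ e) γ j
                omega
            _ = (r + 1) * (p ^ e - 1) := by
                rw [Finset.sum_const, Finset.card_erase_of_mem (Finset.mem_univ _),
                  Finset.card_univ, hr, smul_eq_mul]
                rfl
        rw [add_mul, one_mul] at h3
        have h4 : p ^ e * w i < p ^ e * wt (P i).1 c + p ^ e := by omega
        have h5 : p ^ e * w i < p ^ e * (wt (P i).1 c + 1) := by rw [mul_add, mul_one]; exact h4
        have h6 := Nat.lt_of_mul_lt_mul_left h5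
        omega
      exact ((mem_FP e _ D).mp this) β
    | succ k ih =>
      rw [mem_FP]
      intro β
      rw [mem_VI]
      intro i
      have : D ∈ FP p e (PI (P i).1 (P i).2 (w i + (k + 1))) := by
        rw [mem_FP_PI, mem_FP]
        intro γ
        rw [mem_Q]
        intro c hc
        -- `T γ (sh D)` is the transform of an element of the ideal
        have hJ : sh (P i).1 (P i).2 D ∈ FP p e
            ((VI P (fun i => w i + k)).map (she (P i).1 (P i).2)) :=
          FP_hom e (sh (P i).1 (P i).2 : MvPolynomial σ K →+* MvPolynomial σ K)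
            (fun F hF => Ideal.mem_map_of_mem (she (P i).1 (P i).2) hF) ih
        have hTJ := ((mem_FP e _ _).mp hJ) γ
        rw [Ideal.mem_map_of_equiv] at hTJ
        obtain ⟨G, hG, hGT⟩ := hTJ
        have hT0 : T (p ^ e) (rt K p e) (bx _ γ) (sh (P i).1 (P i).2 D) ≠ 0 := by
          intro h
          rw [h] at hc
          simp at hc
        obtain ⟨d, hd, hdt⟩ := T_homog e (bx_lt _ γ) (sh_homog (P i).1 (P i).2 hDt) hT0
        have hG0 : G ≠ 0 := by
          intro h
          apply hT0
          rw [← hGT, h, map_zero]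
        have hGd : G.IsHomogeneous d := by
          have h1 : G = sh (P i).1 (-(P i).2) (T (p ^ e) (rt K p e) (bx _ γ)
              (sh (P i).1 (P i).2 D)) := by
            rw [← hGT, she_apply, sh_neg_apply]
          rw [h1]
          exact sh_homog _ _ hd
        have hLB := LB_add p P w a h k G hG hG0 d hGd
        have hcw : w i + k ≤ wt (P i).1 c := by
          have h1 := mem_PI.mp ((mem_VI.mp hG) i)
          apply h1
          rw [← she_apply, hGT]
          exact hc
        by_contra hcon
        have hcw' : wt (P i).1 c = w i + k := by omega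
        rw [mem_support_iff, coeff_T _ (bx_lt _ γ)] at hc
        have h1 : coeff (p ^ e • c + bx _ γ) (sh (P i).1 (P i).2 D) ≠ 0 := by
          intro h; apply hc; rw [h, map_zero]
        have h2 := (mem_PI.mp ((mem_VI.mp hD) i)) _ (mem_support_iff.mpr h1)
        rw [wt_add, wt_nsmul, hcw', mul_add] at h2
        have h3 := wt_le_degree (P i).1 (bx _ γ)
        have h4 : p ^ e * (a + k) ≤ p ^ e * d := Nat.mul_le_mul_left _ hLB
        rw [mul_add] at h4
        omega
      exact ((mem_FP e _ D).mp this) β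
  -- conclusion
  have h1 := claim (t + 1)
  rw [mem_FP] at h1
  have h2 : ∃ β : σ → Fin (p ^ e), T (p ^ e) (rt K p e) (bx _ β) D ≠ 0 := by
    by_contra hcon
    push Not at hcon
    apply hD0
    rw [decomp (p := p) e D]
    apply Finset.sum_eq_zero
    intro β _
    rw [hcon β, zero_pow hq.ne', mul_zero]
  obtain ⟨β, hβ⟩ := h2
  obtain ⟨d, hd, hdt⟩ := T_homog e (bx_lt _ β) hDt hβ
  have h3 := LB_add p P w a h (t + 1) _ (h1 β) hβ d hd
  have h4 : d ≤ p ^ e * d := Nat.le_mul_of_pos_left d hq
  omega

end mainp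

end partA

section partB

lemma jacobsonInt : IsJacobsonRing ℤ := by
  rw [isJacobsonRing_iff_prime_eq]
  intro P hP
  by_cases h : P = ⊥
  · subst h
    rw [eq_bot_iff]
    intro x hx
    rw [Ideal.mem_jacobson_bot] at hx
    have := hx x
    rw [Int.isUnit_iff] at this
    rw [Ideal.mem_bot]
    rcases this with h | h
    · have : x * x = 0 := by linarith
      exact mul_self_eq_zero.mp this
    · nlinarith [mul_self_nonneg x]
  · have : P.IsMaximal := hP.isMaximal h
    exact Ideal.jacobson_eq_self_of_isMaximal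

/-- valuation rings with positive residue characteristic containing a given finite set -/
lemma exists_valuation {K : Type*} [Field K] (S : Set K) (hS : S.Finite) :
    ∃ (p : ℕ) (O : ValuationSubring K), p.Prime ∧ (∀ x ∈ S, x ∈ O) ∧ (p : K) ∈ O.nonunits := by
  set A := Algebra.adjoin ℤ S with hA
  have hfg : A.FG := Subalgebra.fg_def.mpr ⟨S, hS, rfl⟩
  have : Algebra.FiniteType ℤ A := (Subalgebra.fg_iff_finiteType _).mp hfg
  obtain ⟨M, hM⟩ := Ideal.exists_maximal A
  let : Field (A ⧸ M) := Ideal.Quotient.field M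
  have : Algebra.FiniteType ℤ (A ⧸ M) := Algebra.FiniteType.trans (R := ℤ) (S := A) inferInstance
    inferInstance
  have := jacobsonInt
  have : Module.Finite ℤ (A ⧸ M) := finite_of_finite_type_of_isJacobsonRing ℤ (A ⧸ M)
  obtain ⟨c, hc⟩ := CharP.exists (A ⧸ M)
  have hc0 : c ≠ 0 := by
    intro h
    subst h
    have : CharZero (A ⧸ M) := CharP.charP_to_charZero _
    have hinj : Function.Injective (algebraMap ℤ (A ⧸ M)) := by
      intro a b hab
      simpa using hab
    exact Int.not_isField (isField_of_isIntegral_of_isField hinj (Field.toIsField _))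
  have hcp : c.Prime := (CharP.char_is_prime_or_zero (A ⧸ M) c).resolve_right hc0
  have hmem : ((c : ℕ) : A) ∈ M := by
    rw [← Ideal.Quotient.eq_zero_iff_mem, map_natCast]
    exact CharP.cast_eq_zero _ _
  obtain ⟨B, hAB, hB⟩ := Ideal.image_subset_nonunits_valuationSubring (A := A.toSubring) M hM.ne_top
  refine ⟨c, B, hcp, ?_, ?_⟩
  · intro x hx
    exact hAB (Algebra.subset_adjoin hx)
  · apply hB
    exact ⟨_, hmem, by simp⟩

variable {σ : Type*} [Fintype σ] [DecidableEq σ]

lemma map_sh {R S : Type*} [CommRing R] [CommRing S] (ψ : R →+* S) (i0 : σ) (v : σ → R)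
    (F : MvPolynomial σ R) : map ψ (sh i0 v F) = sh i0 (fun j => ψ (v j)) (map ψ F) := by
  have : (map ψ).comp (sh i0 v : MvPolynomial σ R →+* MvPolynomial σ R) =
      (sh i0 (fun j => ψ (v j)) : MvPolynomial σ S →+* MvPolynomial σ S).comp (map ψ) := by
    apply MvPolynomial.ringHom_ext
    · intro r
      simp [algHom_C]
    · intro j
      by_cases h : j = i0
      · subst h
        simp [sh_X_self]
      · simp [sh_X_ne _ _ h]
  exact RingHom.congr_fun this F

section linalg

/-- exponents of degree `d` -/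
abbrev Mon (σ : Type*) (d : ℕ) := {u : σ →₀ ℕ // u.degree = d}

instance monFinite (d : ℕ) : Finite (Mon σ d) := by
  have : Set.Finite {u : σ →₀ ℕ | u.degree = d} :=
    (Finsupp.finite_of_degree_le d).subset fun u hu => le_of_eq hu
  exact this

noncomputable instance monFintype (d : ℕ) : Fintype (Mon σ d) := Fintype.ofFinite _

/-- the form with given coefficients -/
noncomputable def poly {R : Type*} [CommRing R] {d : ℕ} (g : Mon σ d → R) : MvPolynomial σ R :=
  ∑ u : Mon σ d, monomial u.1 (g u)

lemma coeff_poly {R : Type*} [CommRing R] {d : ℕ} (g : Mon σ d → R) (u : Mon σ d) :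
    coeff u.1 (poly g) = g u := by
  classical
  rw [poly, coeff_sum, Finset.sum_eq_single u]
  · simp
  · intro b _ hb
    rw [coeff_monomial, if_neg]
    intro h
    exact hb (Subtype.ext h)
  · intro h
    exact absurd (Finset.mem_univ _) h

lemma poly_homog {R : Type*} [CommRing R] {d : ℕ} (g : Mon σ d → R) :
    (poly g).IsHomogeneous d := by
  apply IsHomogeneous.sum
  intro u _
  exact isHomogeneous_monomial _ u.2

lemma poly_coeff {R : Type*} [CommRing R] {d : ℕ} {G : MvPolynomial σ R}
    (hG : G.IsHomogeneous d) : poly (fun u : Mon σ d => coeff u.1 G) = G := by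
  ext u
  by_cases hu : u.degree = d
  · exact coeff_poly _ (⟨u, hu⟩ : Mon σ d)
  · rw [hG.coeff_eq_zero hu, (poly_homog _).coeff_eq_zero hu]

/-- the matrix of the vanishing conditions in degree `d` -/
noncomputable def condM {R : Type*} [CommRing R] {ι : Type*} (P : ι → σ × (σ → R)) (w : ι → ℕ)
    (d : ℕ) : Matrix (ι × Mon σ d) (Mon σ d) R :=
  fun c u => if wt (P c.1).1 c.2.1 < w c.1 then
    coeff c.2.1 (sh (P c.1).1 (P c.1).2 (monomial u.1 (1 : R))) else 0

lemma condM_mulVec {R : Type*} [CommRing R] {ι : Type*} (P : ι → σ × (σ → R)) (w : ι → ℕ)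
    (d : ℕ) (g : Mon σ d → R) (c : ι × Mon σ d) :
    (condM P w d).mulVec g c = if wt (P c.1).1 c.2.1 < w c.1 then
      coeff c.2.1 (sh (P c.1).1 (P c.1).2 (poly g)) else 0 := by
  unfold Matrix.mulVec dotProduct condM
  by_cases h : wt (P c.1).1 c.2.1 < w c.1
  · simp only [if_pos h]
    rw [poly, map_sum, coeff_sum]
    apply Finset.sum_congr rfl
    intro u _
    have : monomial u.1 (g u) = C (g u) * monomial u.1 (1 : R) := by
      rw [C_mul_monomial, mul_one]
    rw [this, map_mul, algHom_C, algebraMap_eq, coeff_C_mul, mul_comm]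
  · simp only [if_neg h, zero_mul, Finset.sum_const_zero]

lemma condM_map {R S : Type*} [CommRing R] [CommRing S] (ψ : R →+* S) {ι : Type*}
    (P : ι → σ × (σ → R)) (w : ι → ℕ) (d : ℕ) :
    (condM P w d).map ψ = condM (fun i => ((P i).1, fun j => ψ ((P i).2 j))) w d := by
  ext c u
  simp only [Matrix.map_apply, condM]
  by_cases h : wt (P c.1).1 c.2.1 < w c.1
  · rw [if_pos h, if_pos h, ← coeff_map, map_sh, map_monomial, map_one]
  · rw [if_neg h, if_neg h, map_zero]

lemma condM_inj {R : Type*} [CommRing R] {ι : Type*} (P : ι → σ × (σ → R)) (w : ι → ℕ)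
    (d : ℕ) (h : ∀ G ∈ VI P w, G.IsHomogeneous d → G = 0) (g : Mon σ d → R)
    (hg : (condM P w d).mulVec g = 0) : g = 0 := by
  have h1 : poly g = 0 := by
    apply h _ _ (poly_homog g)
    rw [mem_VI]
    intro i
    rw [mem_PI]
    intro u hu
    by_contra hcon
    push Not at hcon
    have hud : u.degree = d := homog_deg (sh_homog _ _ (poly_homog g)) (mem_support_iff.mp hu)
    have h2 := congrFun hg (i, ⟨u, hud⟩)
    rw [condM_mulVec, if_pos hcon] at h2
    exact (mem_support_iff.mp hu) h2
  funext u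
  rw [← coeff_poly g u, h1, coeff_zero]
  rfl

lemma condM_left_inv {R : Type*} [CommRing R] {ι : Type*} [Fintype ι] (P : ι → σ × (σ → R))
    (w : ι → ℕ) (d : ℕ) [DecidableEq (Mon σ d)] (B : Matrix (Mon σ d) (ι × Mon σ d) R)
    (hB : B * condM P w d = 1) :
    ∀ G ∈ VI P w, G.IsHomogeneous d → G = 0 := by
  intro G hG hGd
  have h1 : (condM P w d).mulVec (fun u : Mon σ d => coeff u.1 G) = 0 := by
    funext c
    rw [condM_mulVec, poly_coeff hGd]
    split_ifs with h
    · by_contra hne
      have := (mem_PI.mp ((mem_VI.mp hG) c.1)) _ (mem_support_iff.mpr hne)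
      omega
    · rfl
  have h2 : (fun u : Mon σ d => coeff u.1 G) = 0 := by
    have := congrArg B.mulVec h1
    rw [Matrix.mulVec_mulVec, hB, Matrix.one_mulVec, Matrix.mulVec_zero] at this
    exact this
  rw [← poly_coeff hGd, h2]
  simp [poly]

lemma condM_exists_inv {K : Type*} [Field K] {ι : Type*} [Fintype ι] [DecidableEq ι]
    (P : ι → σ × (σ → K)) (w : ι → ℕ) (d : ℕ) [DecidableEq (Mon σ d)]
    (h : ∀ G ∈ VI P w, G.IsHomogeneous d → G = 0) :
    ∃ B : Matrix (Mon σ d) (ι × Mon σ d) K, B * condM P w d = 1 := by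
  have hker : LinearMap.ker (condM P w d).mulVecLin = ⊥ := by
    rw [LinearMap.ker_eq_bot']
    intro g hg
    exact condM_inj P w d h g hg
  obtain ⟨g, hg⟩ := LinearMap.exists_leftInverse_of_injective _ hker
  refine ⟨LinearMap.toMatrix' g, ?_⟩
  have := congrArg LinearMap.toMatrix' hg
  rw [LinearMap.toMatrix'_comp, LinearMap.toMatrix'_id] at this
  rw [← this]
  congr 1
  rw [← Matrix.toLin'_apply', LinearMap.toMatrix'_toLin']

end linalg

section transfer

universe u v

lemma lift_LB {K : Type*} [Field K] {ι : Type*} [Finite ι] [Nonempty σ] (P : ι → σ × (σ → K))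
    (w : ι → ℕ) (a : ℕ) (h : LB P w a) :
    ∃ S : Set K, S.Finite ∧ ∀ (O : Subring K) (F : Type v) [Field F] (ψ : O →+* F)
      (hv : ∀ i j, (P i).2 j ∈ O), (∀ x ∈ S, x ∈ O) →
      LB (fun i => ((P i).1, fun j => ψ ⟨(P i).2 j, hv i j⟩)) w a := by
  classical
  cases nonempty_fintype ι
  cases a with
  | zero =>
    refine ⟨∅, Set.finite_empty, ?_⟩
    intro O F _ ψ hv _ G _ _ d _
    exact Nat.zero_le d
  | succ d =>
    obtain ⟨B, hB⟩ := condM_exists_inv P w d (by
      intro G hG hGd
      by_contra h0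
      have := h G hG h0 d hGd
      omega)
    refine ⟨Set.range (fun x : Mon σ d × (ι × Mon σ d) => B x.1 x.2), Set.finite_range _, ?_⟩
    intro O F _ ψ hv hS
    have hBO : ∀ x y, B x y ∈ O := fun x y => hS _ ⟨(x, y), rfl⟩
    set BO : Matrix (Mon σ d) (ι × Mon σ d) O := fun x y => ⟨B x y, hBO x y⟩ with hBOdef
    set PO : ι → σ × (σ → O) := fun i => ((P i).1, fun j => ⟨(P i).2 j, hv i j⟩) with hPO
    have h1 : (condM PO w d).map O.subtype = condM P w d := by
      rw [condM_map]
      rfl
    have h2 : BO.map O.subtype = B := rfl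
    have h3 : BO * condM PO w d = 1 := by
      have hinj : Function.Injective (fun M : Matrix (Mon σ d) (Mon σ d) O => M.map O.subtype) :=
        Matrix.map_injective (Subring.subtype_injective O)
      apply hinj
      simp only
      rw [Matrix.map_mul, h1, h2, hB]
      simp
    have h4 : BO.map ψ * condM (fun i => ((PO i).1, fun j => ψ ((PO i).2 j))) w d = 1 := by
      rw [← condM_map, ← Matrix.map_mul, h3]
      simp
    have h5 := condM_left_inv _ w d _ h4
    intro G hG hG0 d' hGd'
    by_contra hlt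
    push Not at hlt
    obtain ⟨j0⟩ := (inferInstance : Nonempty σ)
    have h6 : G * X j0 ^ (d - d') = 0 := by
      apply h5
      · exact Ideal.mul_mem_right _ _ hG
      · have := hGd'.mul (isHomogeneous_X_pow (R := F) j0 (d - d'))
        have hdd : d' + (d - d') = d := by omega
        rwa [hdd] at this
    rcases mul_eq_zero.mp h6 with h7 | h7
    · exact hG0 h7
    · exact (pow_ne_zero _ (X_ne_zero j0)) h7

lemma lower_LB {K : Type*} [Field K] {ι : Type*} (P : ι → σ × (σ → K)) (O : ValuationSubring K)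
    (F : Type v) [Field F] (ψ : O →+* F) (hv : ∀ i j, (P i).2 j ∈ O) (w : ι → ℕ) (a : ℕ)
    (h : LB (fun i => ((P i).1, fun j => ψ ⟨(P i).2 j, hv i j⟩)) w a) : LB P w a := by
  classical
  intro D hD hD0 t hDt
  obtain ⟨u0, hu0, hmax⟩ := Finset.exists_max_image D.support
    (fun u => O.valuation (coeff u D)) (support_nonempty.mpr hD0)
  have hc0 : coeff u0 D ≠ 0 := mem_support_iff.mp hu0
  set c := (coeff u0 D)⁻¹ with hc
  set D1 := C c * D with hD1
  have hmem : ∀ u, coeff u D1 ∈ O := by
    intro u
    rw [hD1, coeff_C_mul, ← ValuationSubring.valuation_le_one_iff, map_mul, hc, map_inv₀]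
    have hpos : 0 < O.valuation (coeff u0 D) := by
      rw [zero_lt_iff]
      exact (Valuation.ne_zero_iff _).mpr hc0
    by_cases hu : u ∈ D.support
    · have h1 := hmax u hu
      rw [inv_mul_le_iff₀ hpos, mul_one]
      exact h1
    · rw [notMem_support_iff.mp hu, map_zero, mul_zero]
      exact zero_le
  set DO : MvPolynomial σ O := ∑ u ∈ D1.support, monomial u ⟨coeff u D1, hmem u⟩ with hDO
  have hmap : map O.subtype DO = D1 := by
    rw [hDO, map_sum]
    conv_rhs => rw [← support_sum_monomial_coeff D1]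
    apply Finset.sum_congr rfl
    intro u _
    rw [map_monomial]
    rfl
  have hcoeff : ∀ u, O.subtype (coeff u DO) = coeff u D1 := by
    intro u
    rw [← coeff_map, hmap]
  have hinj : Function.Injective O.subtype := Subtype.val_injective
  have h1 : coeff u0 DO = 1 := by
    apply hinj
    rw [hcoeff, hD1, coeff_C_mul, hc, inv_mul_cancel₀ hc0, map_one]
  have hD1t : D1.IsHomogeneous t := hDt.C_mul c
  have hDOt : DO.IsHomogeneous t := by
    apply IsHomogeneous.of_map hinj
    rw [hmap]
    exact hD1t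
  have hD1V : D1 ∈ VI P w := Ideal.mul_mem_left _ _ hD
  apply h (map ψ DO) _ _ t (hDOt.map ψ)
  · rw [mem_VI]
    intro i
    rw [mem_PI]
    intro u hu
    have h2 : sh (P i).1 (fun j => ψ ⟨(P i).2 j, hv i j⟩) (map ψ DO) =
        map ψ (sh (P i).1 (fun j => (⟨(P i).2 j, hv i j⟩ : O)) DO) := (map_sh ψ _ _ _).symm
    have h3 : coeff u (sh (P i).1 (fun j => (⟨(P i).2 j, hv i j⟩ : O)) DO) ≠ 0 := by
      intro h0
      apply mem_support_iff.mp hu
      simp only
      rw [h2, coeff_map, h0, map_zero]
    have h4 : coeff u (sh (P i).1 (P i).2 D1) ≠ 0 := by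
      have h5 := map_sh O.subtype (P i).1 (fun j => (⟨(P i).2 j, hv i j⟩ : O)) DO
      rw [hmap] at h5
      have h6 : sh (P i).1 (P i).2 D1 =
          map O.subtype (sh (P i).1 (fun j => (⟨(P i).2 j, hv i j⟩ : O)) DO) := by
        rw [h5]
        rfl
      rw [h6, coeff_map]
      intro h0
      apply h3
      apply hinj
      rw [h0, map_zero]
    exact (mem_PI.mp ((mem_VI.mp hD1V) i)) u (mem_support_iff.mpr h4)
  · intro h0
    have := congrArg (coeff u0) h0
    rw [coeff_map, h1, map_one, coeff_zero] at this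
    exact one_ne_zero this

/-- the key degree bound over an arbitrary field -/
theorem key_all {K : Type u} [Field K] {ι : Type*} [Nonempty ι] [Finite ι]
    (r : ℕ) (hr : Fintype.card σ = r + 2) (P : ι → σ × (σ → K)) (w : ι → ℕ) (a : ℕ)
    (h : LB P w a) : ∃ p : ℕ, p.Prime ∧ ∀ e : ℕ,
    LB P (fun i => p ^ e * w i + r * (p ^ e - 1)) (p ^ e * a + r * (p ^ e - 1)) := by
  have hne : Nonempty σ := by
    rw [← Fintype.card_pos_iff]
    omega
  obtain ⟨S, hSfin, hS⟩ := lift_LB.{u} P w a h
  have hfin : (S ∪ Set.range (fun x : ι × σ => (P x.1).2 x.2)).Finite :=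
    hSfin.union (Set.finite_range _)
  obtain ⟨p, O, hp, hO, hpO⟩ := exists_valuation _ hfin
  have hv : ∀ i j, (P i).2 j ∈ O := fun i j => hO _ (Or.inr ⟨(i, j), rfl⟩)
  have : Fact p.Prime := ⟨hp⟩
  let κ := IsLocalRing.ResidueField O
  let F := AlgebraicClosure κ
  have hpκ : (p : κ) = 0 := by
    rw [ValuationSubring.mem_nonunits_iff_exists_mem_maximalIdeal] at hpO
    obtain ⟨h1, h2⟩ := hpO
    have h3 : (IsLocalRing.residue O) ⟨(p : K), h1⟩ = 0 := by
      rw [IsLocalRing.residue_eq_zero_iff]
      exact h2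
    have h4 : (⟨(p : K), h1⟩ : O) = ((p : ℕ) : O) := by
      apply Subtype.ext
      simp
    rw [h4, map_natCast] at h3
    exact h3
  have hκ : CharP κ p := by
    obtain ⟨c, hc⟩ := CharP.exists κ
    have h1 : c ∣ p := (CharP.cast_eq_zero_iff κ c p).mp hpκ
    have h2 : c ≠ 1 := CharP.char_ne_one κ c
    have h3 := (Nat.dvd_prime hp).mp h1
    rcases h3 with h3 | h3
    · exact absurd h3 h2
    · rwa [h3] at hc
  have hF : CharP F p := charP_of_injective_algebraMap (algebraMap κ F).injective p
  let ψ : O →+* F := (algebraMap κ F).comp (IsLocalRing.residue O)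
  refine ⟨p, hp, fun e => ?_⟩
  apply lower_LB P O F ψ hv
  apply key_charp p r hr
  exact hS O.toSubring F ψ hv (fun x hx => hO x (Or.inl hx))

end transfer

end partB

section partC

open Filter Topology

section aux
variable {σ : Type*} [Fintype σ] [DecidableEq σ]

lemma eval_single {R : Type*} [CommRing R] {G : MvPolynomial σ R} {d : ℕ}
    (hG : G.IsHomogeneous d) (i0 : σ) :
    eval (Pi.single i0 1) G = coeff (Finsupp.single i0 d) G := by
  rw [eval_eq']
  rw [Finset.sum_eq_single (Finsupp.single i0 d)]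
  · rw [Finset.prod_eq_single i0]
    · simp
    · intro b _ hb
      rw [Finsupp.single_apply, if_neg (Ne.symm hb), pow_zero]
    · intro h
      exact absurd (Finset.mem_univ _) h
  · intro u hu hne
    have hud := homog_deg hG (mem_support_iff.mp hu)
    have : ∃ j, j ≠ i0 ∧ u j ≠ 0 := by
      by_contra hcon
      push Not at hcon
      apply hne
      have h1 : u = Finsupp.single i0 (u i0) := by
        ext j
        by_cases hj : j = i0
        · subst hj; simp
        · rw [hcon j hj, Finsupp.single_apply, if_neg (Ne.symm hj)]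
      have h2 : u i0 = d := by
        rw [h1] at hud
        simpa using hud
      rw [h1, h2]
    obtain ⟨j, hj, huj⟩ := this
    rw [Finset.prod_eq_zero (i := j) (Finset.mem_univ j), mul_zero]
    rw [Pi.single_eq_of_ne hj, zero_pow huj]
  · intro h
    rw [notMem_support_iff.mp h, zero_mul]

lemma eval_homog_smul {R : Type*} [CommRing R] {G : MvPolynomial σ R} {d : ℕ}
    (hG : G.IsHomogeneous d) (c : R) (x : σ → R) :
    eval (fun j => c * x j) G = c ^ d * eval x G := by
  rw [eval_eq', eval_eq', Finset.mul_sum]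
  apply Finset.sum_congr rfl
  intro u hu
  have hud := homog_deg hG (mem_support_iff.mp hu)
  rw [← hud, Finsupp.degree_eq_sum]
  simp_rw [mul_pow]
  rw [Finset.prod_mul_distrib, Finset.prod_pow_eq_pow_sum]
  ring

lemma eval_sh {R : Type*} [CommRing R] (i0 : σ) (v : σ → R) (hv : v i0 = 1)
    (F : MvPolynomial σ R) : eval (Pi.single i0 1) (sh i0 v F) = eval v F := by
  have : (eval (Pi.single i0 1)).comp (sh i0 v : MvPolynomial σ R →+* MvPolynomial σ R) =
      eval v := by
    apply MvPolynomial.ringHom_ext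
    · intro r
      simp [algHom_C]
    · intro j
      by_cases h : j = i0
      · subst h
        simp [sh_X_self, hv]
      · simp [sh_X_ne _ _ h, h]
  exact RingHom.congr_fun this F

lemma wt_single_self (i0 : σ) (d : ℕ) : wt i0 (Finsupp.single i0 d) = 0 := by
  rw [wt]
  apply Finset.sum_eq_zero
  intro j hj
  rw [Finsupp.single_apply, if_neg]
  exact (Finset.ne_of_mem_erase hj).symm

lemma eq_single_of_wt_zero {i0 : σ} {u : σ →₀ ℕ} (h : wt i0 u = 0) :
    u = Finsupp.single i0 u.degree := by
  have h1 : ∀ j, j ≠ i0 → u j = 0 := by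
    intro j hj
    rw [wt, Finset.sum_eq_zero_iff] at h
    exact h j (Finset.mem_erase.mpr ⟨hj, Finset.mem_univ _⟩)
  have h2 : u = Finsupp.single i0 (u i0) := by
    ext j
    by_cases hj : j = i0
    · subst hj; simp
    · rw [h1 j hj, Finsupp.single_apply, if_neg (Ne.symm hj)]
  have h3 : u.degree = u i0 := by
    rw [h2]; simp
  rw [h3]
  exact h2

/-- the forms vanishing at `c • v` generate the ideal `PI i0 v 1` -/
lemma span_eq_PI {K : Type*} [Field K] (i0 : σ) (x : σ → K) (hx : x i0 ≠ 0) :
    Ideal.span {F : MvPolynomial σ K | (∃ d, F.IsHomogeneous d) ∧ eval x F = 0} =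
      PI i0 (fun j => x j / x i0) 1 := by
  set v : σ → K := fun j => x j / x i0 with hv
  have hv1 : v i0 = 1 := by rw [hv]; exact div_self hx
  have hxv : x = fun j => x i0 * v j := by
    funext j
    rw [hv]
    field_simp
  apply le_antisymm
  · rw [Ideal.span_le]
    rintro F ⟨⟨d, hd⟩, hF⟩
    rw [SetLike.mem_coe, mem_PI]
    intro u hu
    by_contra hcon
    have hw : wt i0 u = 0 := by omega
    have h1 := eq_single_of_wt_zero hw
    have h2 := homog_deg (sh_homog i0 v hd) (mem_support_iff.mp hu)
    rw [h2] at h1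
    have h3 : coeff u (sh i0 v F) = 0 := by
      rw [h1, ← eval_single (sh_homog i0 v hd), eval_sh i0 v hv1]
      rw [hxv, eval_homog_smul hd] at hF
      exact (mul_eq_zero.mp hF).resolve_left (pow_ne_zero _ hx)
    exact (mem_support_iff.mp hu) h3
  · intro F hF
    have hle : Q K i0 1 ≤ (Ideal.span {F : MvPolynomial σ K | (∃ d, F.IsHomogeneous d) ∧
        eval x F = 0}).comap (sh i0 (-v) : MvPolynomial σ K →+* MvPolynomial σ K) := by
      rw [Q, Ideal.span_le]
      rintro _ ⟨s, hs, rfl⟩
      have hs' : 1 ≤ wt i0 s := hs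
      have : ∃ j ∈ Finset.univ.erase i0, s j ≠ 0 := by
        by_contra hcon
        push Not at hcon
        have : wt i0 s = 0 := Finset.sum_eq_zero hcon
        omega
      obtain ⟨j, hj, hsj⟩ := this
      have hji : j ≠ i0 := Finset.ne_of_mem_erase hj
      have hle : Finsupp.single j 1 ≤ s := by
        rw [Finsupp.single_le_iff]
        exact Nat.one_le_iff_ne_zero.mpr hsj
      have hs2 : s = (s - Finsupp.single j 1) + Finsupp.single j 1 :=
        (tsub_add_cancel_of_le hle).symm
      have h4 : monomial s (1 : K) = monomial (s - Finsupp.single j 1) 1 * X j := by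
        rw [X, monomial_mul, ← hs2, one_mul]
      rw [SetLike.mem_coe, Ideal.mem_comap]
      simp only [RingHom.coe_coe]
      rw [h4, map_mul]
      apply Ideal.mul_mem_left
      rw [sh_X_ne _ _ hji]
      apply Ideal.subset_span
      refine ⟨⟨1, ?_⟩, ?_⟩
      · refine (isHomogeneous_X _ _).add ?_
        exact isHomogeneous_C_mul_X _ _
      · simp only [Pi.neg_apply, map_add, eval_X, map_mul, eval_C]
        rw [hv]
        field_simp
        ring
    have h1 : sh i0 v F ∈ Q K i0 1 := hF
    have h2 := hle h1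
    rw [Ideal.mem_comap] at h2
    simp only [RingHom.coe_coe] at h2
    rwa [sh_neg_apply] at h2

end aux

section main
variable {K : Type*} [Field K] {N : ℕ}

/-- a nonzero coordinate of a projective point -/
lemma exists_coord (p : Projectivization K (Fin (N + 1) → K)) : ∃ i, p.rep i ≠ 0 := by
  by_contra hcon
  push Not at hcon
  exact p.rep_nonzero (funext hcon)

/-- coordinates of a projective point, normalised -/
noncomputable def Pt (p : Projectivization K (Fin (N + 1) → K)) :
    Fin (N + 1) × (Fin (N + 1) → K) :=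
  ((exists_coord p).choose, fun j => p.rep j / p.rep (exists_coord p).choose)

lemma pointIdeal_pow (p : Projectivization K (Fin (N + 1) → K)) (w : ℕ) :
    pointIdeal p ^ w = PI (Pt p).1 (Pt p).2 w := by
  rw [PI_pow, pointIdeal, span_eq_PI _ _ (exists_coord p).choose_spec]
  rfl

/-- the family of points in the support of `Z` -/
noncomputable def Pf (Z : Projectivization K (Fin (N + 1) → K) →₀ ℕ) (i : Z.support) :
    Fin (N + 1) × (Fin (N + 1) → K) := Pt i.1

lemma fatIdeal_eq (Z : Projectivization K (Fin (N + 1) → K) →₀ ℕ) (m : ℕ) :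
    fatIdeal (m • Z) = VI (Pf Z) (fun i => m * Z i.1) := by
  ext F
  rw [fatIdeal, mem_VI]
  simp only [Ideal.mem_iInf, pointIdeal_pow]
  constructor
  · intro h i
    by_cases hm : m = 0
    · subst hm
      rw [mem_PI]
      intro u _
      simp
    · have := h i.1 (by
        rw [Finsupp.mem_support_iff, Finsupp.smul_apply, smul_eq_mul]
        exact mul_ne_zero hm (Finsupp.mem_support_iff.mp i.2))
      rw [Finsupp.smul_apply, smul_eq_mul] at this
      exact this
  · intro h p hp
    have hpZ : p ∈ Z.support := by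
      rw [Finsupp.mem_support_iff] at hp ⊢
      intro h0
      apply hp
      rw [Finsupp.smul_apply, h0, smul_zero]
    have := h ⟨p, hpZ⟩
    rw [Finsupp.smul_apply, smul_eq_mul]
    exact this

/-- homogeneous components stay in the ideal -/
lemma comp_mem_VI {σ : Type*} [Fintype σ] [DecidableEq σ] {ι : Type*} (P : ι → σ × (σ → K))
    (w : ι → ℕ) {F : MvPolynomial σ K} (hF : F ∈ VI P w) (n : ℕ) :
    homogeneousComponent n F ∈ VI P w := by
  rw [mem_VI] at hF ⊢
  intro i
  rw [mem_PI]
  intro u hu
  apply mem_PI.mp (hF i)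
  rw [mem_support_iff] at hu ⊢
  have hun : u.degree = n :=
    homog_deg (sh_homog _ _ (homogeneousComponent_isHomogeneous n F)) hu
  have h1 : coeff u (sh (P i).1 (P i).2 F) =
      coeff u (sh (P i).1 (P i).2 (homogeneousComponent n F)) := by
    conv_lhs => rw [← sum_homogeneousComponent F]
    rw [map_sum, coeff_sum]
    by_cases hn : n ∈ Finset.range (F.totalDegree + 1)
    · rw [Finset.sum_eq_single n]
      · intro b _ hb
        apply (sh_homog _ _ (homogeneousComponent_isHomogeneous b F)).coeff_eq_zero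
        rw [hun]
        exact hb.symm
      · intro h
        exact absurd hn h
    · exfalso
      apply hu
      rw [homogeneousComponent_eq_zero, map_zero, coeff_zero]
      rw [Finset.mem_range] at hn
      omega
  rw [h1]
  exact hu

lemma top_comp_ne_zero {σ : Type*} {F : MvPolynomial σ K} (hF : F ≠ 0) :
    homogeneousComponent F.totalDegree F ≠ 0 := by
  obtain ⟨u, hu, hud⟩ := Finset.exists_mem_eq_sup F.support (support_nonempty.mpr hF)
    (fun s => s.sum fun _ e => e)
  intro h
  have h1 := congrArg (coeff u) h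
  rw [coeff_homogeneousComponent, coeff_zero, if_pos] at h1
  · exact (mem_support_iff.mp hu) h1
  · rw [totalDegree, hud]
    rfl

/-- there are nonzero forms with given multiplicities -/
lemma exists_form {σ : Type*} [Fintype σ] [DecidableEq σ] (hσ : 2 ≤ Fintype.card σ)
    {ι : Type*} [Finite ι] (P : ι → σ × (σ → K)) (w : ι → ℕ) :
    ∃ F ∈ VI P w, F ≠ 0 := by
  classical
  cases nonempty_fintype ι
  have hex : ∀ i : σ, ∃ j, j ≠ i := by
    have : Nontrivial σ := Fintype.one_lt_card_iff_nontrivial.mp (by omega)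
    intro i
    exact exists_ne i
  choose nx hnx using hex
  refine ⟨∏ i, (sh (P i).1 (-(P i).2) (X (nx (P i).1))) ^ w i, ?_, ?_⟩
  · rw [mem_VI]
    intro i
    rw [← Finset.mul_prod_erase _ _ (Finset.mem_univ i)]
    apply Ideal.mul_mem_right
    rw [PI_pow]
    apply Ideal.pow_mem_pow
    rw [mem_PI', sh_apply_neg, mem_Q]
    intro u hu
    rw [support_X, Finset.mem_singleton] at hu
    rw [hu]
    by_contra hcon
    have h0 : wt (P i).1 (Finsupp.single (nx (P i).1) 1) = 0 := by omega
    have h1 := eq_single_of_wt_zero h0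
    have h2 := DFunLike.congr_fun h1 (nx (P i).1)
    rw [Finsupp.single_eq_same, Finsupp.single_apply, if_neg (hnx (P i).1).symm] at h2
    exact one_ne_zero h2
  · rw [Finset.prod_ne_zero_iff]
    intro i _
    exact pow_ne_zero _ (sh_ne_zero _ _ (X_ne_zero _))

variable (Z : Projectivization K (Fin (N + 1) → K) →₀ ℕ)

lemma LB_alpha (m : ℕ) : LB (Pf Z) (fun i => m * Z i.1) (alpha (fatIdeal (m • Z))) := by
  intro G hG hG0 d hd
  rw [← fatIdeal_eq] at hG
  exact Nat.sInf_le ⟨G, hG, hG0, hd.totalDegree hG0⟩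

lemma exists_alpha (hN : 1 ≤ N) (m : ℕ) : ∃ F ∈ VI (Pf Z) (fun i => m * Z i.1), F ≠ 0 ∧
    F.IsHomogeneous (alpha (fatIdeal (m • Z))) := by
  obtain ⟨F, hF, hF0⟩ := exists_form (by rw [Fintype.card_fin]; omega) (Pf Z)
    (fun i => m * Z i.1)
  have hne : {d | ∃ F ∈ fatIdeal (m • Z), F ≠ 0 ∧ F.totalDegree = d}.Nonempty := by
    refine ⟨F.totalDegree, F, ?_, hF0, rfl⟩
    rw [fatIdeal_eq]
    exact hF
  obtain ⟨G, hG, hG0, hGd⟩ := Nat.sInf_mem hne
  refine ⟨homogeneousComponent G.totalDegree G, ?_, top_comp_ne_zero hG0, ?_⟩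
  · rw [fatIdeal_eq] at hG
    exact comp_mem_VI _ _ hG _
  · have : alpha (fatIdeal (m • Z)) = G.totalDegree := hGd.symm
    rw [this]
    exact homogeneousComponent_isHomogeneous _ _

lemma alpha_subadd (hN : 1 ≤ N) (m n : ℕ) : alpha (fatIdeal ((m + n) • Z)) ≤
    alpha (fatIdeal (m • Z)) + alpha (fatIdeal (n • Z)) := by
  obtain ⟨F, hF, hF0, hFd⟩ := exists_alpha Z hN m
  obtain ⟨G, hG, hG0, hGd⟩ := exists_alpha Z hN n
  apply LB_alpha Z (m + n) (F * G) _ (mul_ne_zero hF0 hG0) _ (hFd.mul hGd)
  have := mul_mem_VI hF hG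
  refine VI_anti ?_ this
  intro i
  exact le_of_eq (add_mul m n (Z i.1))

lemma key_alpha (hN : 1 ≤ N) (hZ : Z ≠ 0) (m : ℕ) : ∃ p : ℕ, p.Prime ∧ ∀ e : ℕ,
    p ^ e * alpha (fatIdeal (m • Z)) + (N - 1) * (p ^ e - 1) ≤
      alpha (fatIdeal ((p ^ e * m + (N - 1) * (p ^ e - 1)) • Z)) := by
  have hne : Nonempty Z.support := by
    rw [nonempty_subtype]
    obtain ⟨x, hx⟩ := Finsupp.support_nonempty_iff.mpr hZ
    exact ⟨x, hx⟩
  obtain ⟨p, hp, hpe⟩ := key_all (σ := Fin (N + 1)) (N - 1) (by rw [Fintype.card_fin]; omega)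
    (Pf Z) (fun i => m * Z i.1) _ (LB_alpha Z m)
  refine ⟨p, hp, fun e => ?_⟩
  obtain ⟨F, hF, hF0, hFd⟩ := exists_alpha Z hN (p ^ e * m + (N - 1) * (p ^ e - 1))
  refine hpe e F ?_ hF0 _ hFd
  refine VI_anti ?_ hF
  intro i
  have h1 : 1 ≤ Z i.1 := Nat.one_le_iff_ne_zero.mpr (Finsupp.mem_support_iff.mp i.2)
  have h2 : (N - 1) * (p ^ e - 1) ≤ (N - 1) * (p ^ e - 1) * Z i.1 :=
    Nat.le_mul_of_pos_right _ h1
  rw [add_mul, mul_assoc]
  omega

theorem main_aux (hN : 1 ≤ N) (hZ : Z ≠ 0) :
    Tendsto (fun m : ℕ => (alpha (fatIdeal (m • Z)) : ℝ) / m) atTop (𝓝 (waldschmidt Z)) ∧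
    ∀ m : ℕ, 1 ≤ m →
      ((alpha (fatIdeal (m • Z)) : ℝ) + N - 1) / (m + N - 1) ≤ waldschmidt Z := by
  have hsub : Subadditive (fun m : ℕ => (alpha (fatIdeal (m • Z)) : ℝ)) := by
    intro m n
    simp only
    exact_mod_cast alpha_subadd Z hN m n
  have hbdd : BddBelow (Set.range fun m : ℕ => (alpha (fatIdeal (m • Z)) : ℝ) / m) := by
    refine ⟨0, ?_⟩
    rintro _ ⟨m, rfl⟩
    positivity
  have hlim := hsub.tendsto_lim hbdd
  have hW : waldschmidt Z = hsub.lim := hlim.limUnder_eq
  rw [← hW] at hlim
  refine ⟨hlim, ?_⟩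
  intro m hm
  obtain ⟨p, hp, hpe⟩ := key_alpha Z hN hZ m
  set a := alpha (fatIdeal (m • Z)) with ha
  set n : ℕ → ℕ := fun e => p ^ e * m + (N - 1) * (p ^ e - 1) with hn
  have hp1 : (1 : ℝ) < p := by exact_mod_cast hp.one_lt
  have hp0 : (0 : ℝ) < p := by linarith
  -- the sequence `n e` tends to infinity
  have hntop : Tendsto n atTop atTop := by
    apply tendsto_atTop_mono _ (tendsto_pow_atTop_atTop_of_one_lt hp.one_lt)
    intro e
    have : p ^ e * 1 ≤ p ^ e * m := Nat.mul_le_mul_left _ hm
    simp only [hn]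
    omega
  have h1 : Tendsto (fun e => (alpha (fatIdeal (n e • Z)) : ℝ) / (n e)) atTop
      (𝓝 (waldschmidt Z)) := hlim.comp hntop
  have hx : Tendsto (fun e : ℕ => ((1 : ℝ) / p) ^ e) atTop (𝓝 0) := by
    apply tendsto_pow_atTop_nhds_zero_of_lt_one
    · positivity
    · rw [div_lt_one hp0]
      exact hp1
  have hm1 : (1 : ℝ) ≤ m := by exact_mod_cast hm
  have hN1 : (1 : ℝ) ≤ N := by exact_mod_cast hN
  have h2 : Tendsto (fun e : ℕ => ((a : ℝ) + (N - 1) * (1 - ((1 : ℝ) / p) ^ e)) /
      (m + (N - 1) * (1 - ((1 : ℝ) / p) ^ e))) atTop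
      (𝓝 (((a : ℝ) + (N - 1) * (1 - 0)) / (m + (N - 1) * (1 - 0)))) := by
    apply Tendsto.div
    · exact tendsto_const_nhds.add (tendsto_const_nhds.mul (tendsto_const_nhds.sub hx))
    · exact tendsto_const_nhds.add (tendsto_const_nhds.mul (tendsto_const_nhds.sub hx))
    · have : (0 : ℝ) < m + (N - 1) * (1 - 0) := by nlinarith
      exact this.ne'
  have h3 : ((a : ℝ) + N - 1) / (m + N - 1) =
      ((a : ℝ) + (N - 1) * (1 - 0)) / (m + (N - 1) * (1 - 0)) := by
    congr 1 <;> ring
  rw [h3]
  apply le_of_tendsto_of_tendsto' h2 h1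
  intro e
  have hpe1 : 1 ≤ p ^ e := Nat.one_le_pow _ _ hp.pos
  have hpe0 : (0 : ℝ) < (p : ℝ) ^ e := by positivity
  have hcast1 : ((n e : ℕ) : ℝ) = (p : ℝ) ^ e * (m + (N - 1) * (1 - ((1 : ℝ) / p) ^ e)) := by
    simp only [hn]
    push_cast [Nat.cast_sub hpe1, Nat.cast_sub hN]
    have : (p : ℝ) ^ e * ((1 : ℝ) / p) ^ e = 1 := by
      rw [← mul_pow, mul_one_div_cancel hp0.ne', one_pow]
    linear_combination (N - 1 : ℝ) * this
  have hcast2 : (p : ℝ) ^ e * ((a : ℝ) + (N - 1) * (1 - ((1 : ℝ) / p) ^ e)) ≤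
      (alpha (fatIdeal (n e • Z)) : ℝ) := by
    have h4 := hpe e
    have h5 : ((p ^ e * a + (N - 1) * (p ^ e - 1) : ℕ) : ℝ) ≤
        (alpha (fatIdeal (n e • Z)) : ℝ) := by exact_mod_cast h4
    refine le_trans (le_of_eq ?_) h5
    push_cast [Nat.cast_sub hpe1, Nat.cast_sub hN]
    have : (p : ℝ) ^ e * ((1 : ℝ) / p) ^ e = 1 := by
      rw [← mul_pow, mul_one_div_cancel hp0.ne', one_pow]
    linear_combination -(N - 1 : ℝ) * this
  have hle1 : ((1 : ℝ) / p) ^ e ≤ 1 := by
    apply pow_le_one₀
    · positivity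
    · rw [div_le_one hp0]
      exact hp1.le
  have hden : (0 : ℝ) < m + (N - 1) * (1 - ((1 : ℝ) / p) ^ e) := by
    have : (0 : ℝ) ≤ (N - 1) * (1 - ((1 : ℝ) / p) ^ e) := by
      apply mul_nonneg <;> linarith
    linarith
  rw [div_le_div_iff₀ hden (by rw [hcast1]; positivity)]
  rw [hcast1]
  calc ((a : ℝ) + (N - 1) * (1 - ((1 : ℝ) / p) ^ e)) *
        ((p : ℝ) ^ e * (m + (N - 1) * (1 - ((1 : ℝ) / p) ^ e)))
      = ((p : ℝ) ^ e * ((a : ℝ) + (N - 1) * (1 - ((1 : ℝ) / p) ^ e))) *
        (m + (N - 1) * (1 - ((1 : ℝ) / p) ^ e)) := by ring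
    _ ≤ _ := mul_le_mul_of_nonneg_right hcast2 hden.le

end main

end partC

/-- **Chudnovsky–Demailly bound for fat points.** For every field `K`, every `N ≥ 1` and every
fat point scheme `Z ≠ 0` in `ℙ^N` over `K`, the limit defining the Waldschmidt constant exists
and `α̂(I(Z)) ≥ (α(I(mZ)) + N - 1) / (m + N - 1)` for all `m ≥ 1`. -/
theorem result_proof {K : Type*} [Field K] {N : ℕ} (hN : 1 ≤ N)
    (Z : Projectivization K (Fin (N + 1) → K) →₀ ℕ) (hZ : Z ≠ 0) :
    Filter.Tendsto (fun m : ℕ => (alpha (fatIdeal (m • Z)) : ℝ) / m) Filter.atTop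
      (nhds (waldschmidt Z)) ∧
    ∀ m : ℕ, 1 ≤ m →
      ((alpha (fatIdeal (m • Z)) : ℝ) + N - 1) / (m + N - 1) ≤ waldschmidt Z :=
  main_aux Z hN hZ

end Pool.Agent.Results.MP_6bebef_ag.ChudnovskyDemailly
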