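import Mathlib

set_option autoImplicit false

namespace Pool.Agent.Results.MP_8dea01_co.EntranceOrder

open Filter Topology

/-- Organizer of type `O^+`.  `hist` is the list of past outputs (newest first), `box` is the
content of the box sorted by entrance time (oldest first).  The rule `f` sees the last `m` outputs,
the ordered content and the next `l` inputs, and returns the position of the removed object. -/
def runOrd (m l : ℕ) (f : List Bool → List Bool → List Bool → ℕ) :
    List Bool → List Bool → List Bool → List Bool
  | _, _, [] => []
  | hist, box, x :: xs =>
      box.getD (f (hist.take m) box (xs.take l)) false ::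
        runOrd m l f (box.getD (f (hist.take m) box (xs.take l)) false :: hist)
          (box.eraseIdx (f (hist.take m) box (xs.take l)) ++ [x]) xs

/-- The rule removes an object of the box, for a box of size `β`. -/
def ValidOrd (β : ℕ) (f : List Bool → List Bool → List Bool → ℕ) : Prop :=
  ∀ (mem box look : List Bool), box.length = β → f mem box look < β

/-- All outputs of length `n` of the rule `f` (`O^+`, no timer), over all inputs and all
initial contents. -/
def outputsOrd (m β l n : ℕ) (f : List Bool → List Bool → List Bool → ℕ) : Set (List Bool) :=
  {y | ∃ box x : List Bool, box.length = β ∧ x.length = n ∧ y = runOrd m l f [] box x}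

/-- Minimal number of outputs of length `n` over all rules of type `(T^-, O^+)`. -/
noncomputable def minOrd (m β l n : ℕ) : ℕ :=
  sInf {N | ∃ f, ValidOrd β f ∧ N = (outputsOrd m β l n f).ncard}

/-- New state after output `y` and input `x`; `s i` is the number of objects with label `i`. -/
def stepState (s : Bool → ℕ) (y x : Bool) : Bool → ℕ :=
  fun i => s i - (if i = y then 1 else 0) + (if i = x then 1 else 0)

/-- Organizer of type `O^-`: the rule `g` sees the last `m` outputs, the state and the next `l`
inputs, and returns the label of the removed object. -/
def runState (m l : ℕ) (g : List Bool → (Bool → ℕ) → List Bool → Bool) :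
    List Bool → (Bool → ℕ) → List Bool → List Bool
  | _, _, [] => []
  | hist, s, x :: xs =>
      g (hist.take m) s (xs.take l) ::
        runState m l g (g (hist.take m) s (xs.take l) :: hist)
          (stepState s (g (hist.take m) s (xs.take l)) x) xs

/-- The rule removes a label present in the box, for a box of size `β`. -/
def ValidState (β : ℕ) (g : List Bool → (Bool → ℕ) → List Bool → Bool) : Prop :=
  ∀ (mem : List Bool) (s : Bool → ℕ) (look : List Bool),
    s false + s true = β → 0 < s (g mem s look)

/-- All outputs of length `n` of the rule `g` (`O^-`, no timer), over all inputs and all
initial states. -/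
def outputsState (m β l n : ℕ) (g : List Bool → (Bool → ℕ) → List Bool → Bool) :
    Set (List Bool) :=
  {y | ∃ (s : Bool → ℕ) (x : List Bool),
    s false + s true = β ∧ x.length = n ∧ y = runState m l g [] s x}

/-- Minimal number of outputs of length `n` over all rules of type `(T^-, O^-)`. -/
noncomputable def minState (m β l n : ℕ) : ℕ :=
  sInf {N | ∃ g, ValidState β g ∧ N = (outputsState m β l n g).ncard}

end Pool.Agent.Results.MP_8dea01_co.EntranceOrder
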