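import Mathlib
import Pool.Agent.H20.SPL.EntranceOrderDefs

set_option autoImplicit false

namespace Pool.Agent.Results.MP_8dea01_co.EntranceOrder

open Filter Topology


/-! ### Abstract machines -/

section Machine

variable {σ : Type} (out : σ → Bool) (nxt : σ → Bool → σ)

/-- output word along an input word -/
def outs : σ → List Bool → List Bool
  | _, [] => []
  | s, x :: xs => out s :: outs (nxt s x) xs

/-- output words of length `n` from a state -/
def W : ℕ → σ → Finset (List Bool)
  | 0, _ => {[]}
  | n + 1, s => (W n (nxt s false) ∪ W n (nxt s true)).image (fun w => out s :: w)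

theorem cons_inj' (a : Bool) : Function.Injective (fun w : List Bool => a :: w) :=
  fun _ _ h => (List.cons.inj h).2

theorem W_succ_card (n : ℕ) (s : σ) :
    (W out nxt (n + 1) s).card = (W out nxt n (nxt s false) ∪ W out nxt n (nxt s true)).card := by
  rw [W, Finset.card_image_of_injective _ (cons_inj' _)]

theorem cons_mem_W {n : ℕ} {s : σ} {w : List Bool} (x : Bool) (h : w ∈ W out nxt n (nxt s x)) :
    out s :: w ∈ W out nxt (n + 1) s := by
  rw [W, Finset.mem_image]
  refine ⟨w, ?_, rfl⟩
  cases x
  · exact Finset.mem_union_left _ h
  · exact Finset.mem_union_right _ h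

theorem head_mem_W {n : ℕ} {s : σ} {w : List Bool} (h : w ∈ W out nxt (n + 1) s) :
    ∃ v, w = out s :: v := by
  rw [W, Finset.mem_image] at h
  obtain ⟨v, _, rfl⟩ := h
  exact ⟨v, rfl⟩

theorem append_mem_W (xs : List Bool) : ∀ (n : ℕ) (s : σ) (w : List Bool),
    w ∈ W out nxt n (xs.foldl nxt s) → outs out nxt s xs ++ w ∈ W out nxt (n + xs.length) s := by
  induction xs with
  | nil => intro n s w h; simpa [outs] using h
  | cons x xs ih =>
    intro n s w h
    rw [List.foldl_cons] at h
    have := ih n (nxt s x) w h
    rw [outs, List.cons_append, List.length_cons, ← Nat.add_assoc]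
    exact cons_mem_W out nxt x this

theorem outs_length (xs : List Bool) : ∀ s : σ, (outs out nxt s xs).length = xs.length := by
  induction xs with
  | nil => intro s; rfl
  | cons x xs ih => intro s; simp [outs, ih]

theorem outs_mem_W (xs : List Bool) (s : σ) : outs out nxt s xs ∈ W out nxt xs.length s := by
  have := append_mem_W out nxt xs 0 s [] (by simp [W])
  simpa using this

theorem mem_W_iff (n : ℕ) : ∀ (s : σ) (w : List Bool),
    w ∈ W out nxt n s ↔ ∃ xs : List Bool, xs.length = n ∧ w = outs out nxt s xs := by
  induction n with
  | zero =>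
    intro s w
    constructor
    · intro h
      refine ⟨[], rfl, ?_⟩
      simpa [W, outs] using h
    · rintro ⟨xs, h1, rfl⟩
      rw [← h1]; exact outs_mem_W out nxt xs s
  | succ n ih =>
    intro s w
    constructor
    · intro h
      rw [W, Finset.mem_image] at h
      obtain ⟨v, hv, rfl⟩ := h
      rw [Finset.mem_union] at hv
      rcases hv with hv | hv
      · obtain ⟨xs, h1, h2⟩ := (ih _ _).1 hv
        exact ⟨false :: xs, by simp [h1], by simp [outs, h2]⟩
      · obtain ⟨xs, h1, h2⟩ := (ih _ _).1 hv
        exact ⟨true :: xs, by simp [h1], by simp [outs, h2]⟩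
    · rintro ⟨xs, h1, rfl⟩
      rw [← h1]; exact outs_mem_W out nxt xs s

/-- The outputs do not depend on the last input. -/
theorem outs_append_singleton (xs : List Bool) : ∀ (s : σ) (x y : Bool),
    outs out nxt s (xs ++ [x]) = outs out nxt s (xs ++ [y]) := by
  induction xs with
  | nil => intro s x y; rfl
  | cons z xs ih => intro s x y; simp only [List.cons_append, outs]; rw [ih]

theorem replicate_mem_W {s : σ} {b : Bool} (h1 : out s = b) (h2 : nxt s b = s) (n : ℕ) :
    List.replicate n b ∈ W out nxt n s := by
  induction n with
  | zero => simp [W]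
  | succ n ih =>
    rw [List.replicate_succ]
    have : List.replicate n b ∈ W out nxt n (nxt s b) := by rw [h2]; exact ih
    have h := cons_mem_W out nxt b this
    rwa [h1] at h

/-- Growth lemma for machines with loops. -/
theorem growth (k β : ℕ) (lam : ℝ) (h1 : 1 < lam) (hk : 1 ≤ k) (hlam : lam ^ k = lam ^ (k - 1) + 1)
    (hkβ : k ≤ β) (S : Bool → Set σ)
    (H1 : ∀ b s, s ∈ S b → out s = b ∧ nxt s b = s)
    (H : ∀ b s, s ∈ S b → ∃ i, i ≤ β ∧ ∀ n, β < n →
      (∀ m, m < n → ∀ b' s', s' ∈ S b' → lam ^ m / lam ^ β ≤ ((W out nxt m s').card : ℝ)) →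
      ∃ P : Finset (List Bool), P ⊆ W out nxt n s ∧
        (∀ w ∈ P, ∃ v, w = List.replicate i b ++ (!b) :: v) ∧
        lam ^ (n - k) / lam ^ β ≤ (P.card : ℝ)) :
    ∀ n b s, s ∈ S b → lam ^ n / lam ^ β ≤ ((W out nxt n s).card : ℝ) := by
  have hpos : 0 < lam := by linarith
  have hβpos : 0 < lam ^ β := pow_pos hpos β
  choose! i hi hP using H
  -- stronger claim
  have key : ∀ n b s, s ∈ S b → lam ^ n / lam ^ β ≤
      (((W out nxt n s).filter (fun w => List.replicate (min (i b s) n) b <+: w)).card : ℝ) := by
    intro n
    induction n using Nat.strong_induction_on with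
    | _ n ih =>
      intro b s hs
      rcases Nat.lt_or_ge β n with hn | hn
      · -- n > β
        obtain ⟨P, hPW, hPv, hPc⟩ := hP b s hs n hn (by
          intro m hm b' s' hs'
          refine (ih m hm b' s' hs').trans ?_
          exact_mod_cast Finset.card_le_card (Finset.filter_subset _ _))
        obtain ⟨m, rfl⟩ : ∃ m, n = m + 1 := ⟨n - 1, by omega⟩
        have hile : i b s ≤ m := (hi b s hs).trans (by omega)
        have ihm := ih m (by omega) b s hs
        set Q := (W out nxt m s).filter (fun w => List.replicate (min (i b s) m) b <+: w) with hQ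
        have hsub : (Q.image (fun w => b :: w)) ∪ P ⊆
            (W out nxt (m + 1) s).filter
              (fun w => List.replicate (min (i b s) (m + 1)) b <+: w) := by
          intro w hw
          rw [Finset.mem_union] at hw
          rw [Finset.mem_filter, min_eq_left (by omega)]
          rcases hw with hw | hw
          · rw [Finset.mem_image] at hw
            obtain ⟨v, hv, rfl⟩ := hw
            rw [hQ, Finset.mem_filter, min_eq_left hile] at hv
            refine ⟨?_, ?_⟩
            · have : v ∈ W out nxt m (nxt s b) := by rw [(H1 b s hs).2]; exact hv.1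
              have h := cons_mem_W out nxt b this
              rwa [(H1 b s hs).1] at h
            · have h2 : List.replicate (i b s + 1) b <+: b :: v := by
                rw [List.replicate_succ]
                exact (List.cons_prefix_cons).2 ⟨rfl, hv.2⟩
              refine List.IsPrefix.trans ?_ h2
              rw [List.replicate_succ']
              exact List.prefix_append _ _
          · refine ⟨hPW hw, ?_⟩
            obtain ⟨v, rfl⟩ := hPv w hw
            exact List.prefix_append _ _
        have hdisj : Disjoint (Q.image (fun w => b :: w)) P := by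
          rw [Finset.disjoint_left]
          intro w hw hwP
          rw [Finset.mem_image] at hw
          obtain ⟨v, hv, rfl⟩ := hw
          rw [hQ, Finset.mem_filter, min_eq_left hile] at hv
          obtain ⟨v', hv'⟩ := hPv _ hwP
          obtain ⟨t, ht⟩ := hv.2
          rw [← ht, ← List.cons_append, ← List.replicate_succ, List.replicate_succ',
            List.append_assoc] at hv'
          have := List.append_cancel_left hv'
          rw [List.singleton_append] at this
          have h3 := (List.cons.inj this).1
          cases b <;> simp at h3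
        have hcard : (Q.card : ℝ) + P.card ≤
            (((W out nxt (m + 1) s).filter
              (fun w => List.replicate (min (i b s) (m + 1)) b <+: w)).card : ℝ) := by
          have h := Finset.card_le_card hsub
          rw [Finset.card_union_of_disjoint hdisj,
            Finset.card_image_of_injective _ (cons_inj' b)] at h
          exact_mod_cast h
        refine le_trans ?_ hcard
        have hsplit : lam ^ (m + 1) / lam ^ β = lam ^ m / lam ^ β + lam ^ (m + 1 - k) / lam ^ β := by
          rw [← add_div]
          congr 1
          have e1 : m + 1 = (m + 1 - k) + k := by omega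
          have e2 : m = (m + 1 - k) + (k - 1) := by omega
          calc lam ^ (m + 1) = lam ^ ((m + 1 - k) + k) := by rw [← e1]
            _ = lam ^ (m + 1 - k) * lam ^ k := pow_add _ _ _
            _ = lam ^ (m + 1 - k) * lam ^ (k - 1) + lam ^ (m + 1 - k) := by rw [hlam]; ring
            _ = lam ^ ((m + 1 - k) + (k - 1)) + lam ^ (m + 1 - k) := by rw [pow_add]
            _ = lam ^ m + lam ^ (m + 1 - k) := by rw [← e2]
        rw [hsplit]
        exact add_le_add ihm hPc
      · -- n ≤ β
        have hmem : List.replicate n b ∈ (W out nxt n s).filter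
            (fun w => List.replicate (min (i b s) n) b <+: w) := by
          rw [Finset.mem_filter]
          refine ⟨replicate_mem_W out nxt (H1 b s hs).1 (H1 b s hs).2 n, ?_⟩
          refine ⟨List.replicate (n - min (i b s) n) b, ?_⟩
          rw [List.replicate_append_replicate]
          congr 1
          omega
        have h1c : (1 : ℝ) ≤ (((W out nxt n s).filter
            (fun w => List.replicate (min (i b s) n) b <+: w)).card : ℝ) := by
          exact_mod_cast Finset.card_pos.2 ⟨_, hmem⟩
        refine le_trans ?_ h1c
        rw [div_le_one hβpos]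
        exact pow_le_pow_right₀ h1.le hn
  intro n b s hs
  refine (key n b s hs).trans ?_
  exact_mod_cast Finset.card_le_card (Finset.filter_subset _ _)

end Machine

/-! ### Upper bound -/

/-- Words of length `n` starting with at least `j` forced letters `a`, all later inner runs having
length at least `k`. -/
def G (k : ℕ) : ℕ → Bool → ℕ → Finset (List Bool)
  | 0, _, _ => {[]}
  | n + 1, a, 0 => (G k n a 0).image (fun w => a :: w) ∪
      (G k n (!a) (k - 1)).image (fun w => (!a) :: w)
  | n + 1, a, j + 1 => (G k n a j).image (fun w => a :: w)

theorem G_card (k : ℕ) (lam : ℝ) (h1 : 1 < lam) (hk : 1 ≤ k) (hlam : lam ^ k = lam ^ (k - 1) + 1) :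
    ∀ n a j, j ≤ k → ((G k n a j).card : ℝ) ≤ lam ^ (n + (k - j)) := by
  intro n
  induction n with
  | zero =>
    intro a j _
    simp only [G, Finset.card_singleton, Nat.cast_one]
    exact one_le_pow₀ h1.le
  | succ n ih =>
    intro a j hj
    cases j with
    | zero =>
      rw [G]
      have hA := ih a 0 (Nat.zero_le _)
      have hB := ih (!a) (k - 1) (Nat.sub_le _ _)
      have hU : (((G k n a 0).image (fun w => a :: w) ∪
          (G k n (!a) (k - 1)).image (fun w => (!a) :: w)).card : ℝ) ≤
          (G k n a 0).card + (G k n (!a) (k - 1)).card := by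
        have hN := (Finset.card_union_le ((G k n a 0).image (fun w => a :: w))
          ((G k n (!a) (k - 1)).image (fun w => (!a) :: w))).trans
          (add_le_add Finset.card_image_le Finset.card_image_le)
        exact_mod_cast hN
      refine hU.trans ((add_le_add hA hB).trans (le_of_eq ?_))
      have e : k - (k - 1) = 1 := by omega
      rw [e, Nat.sub_zero]
      calc lam ^ (n + k) + lam ^ (n + 1) = lam ^ (n + 1) * (lam ^ (k - 1) + 1) := by
            rw [mul_add, ← pow_add, mul_one]
            congr 2
            omega
        _ = lam ^ (n + 1) * lam ^ k := by rw [hlam]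
        _ = lam ^ (n + 1 + k) := by rw [← pow_add]
    | succ j =>
      rw [G]
      have hA := ih a j (by omega)
      refine le_trans (by exact_mod_cast Finset.card_image_le) (hA.trans (le_of_eq ?_))
      congr 1
      omega

theorem G_switch (k : ℕ) (hk : 1 ≤ k) (n : ℕ) (a : Bool) : G k n (!a) k ⊆ G k n a 0 := by
  cases n with
  | zero => simp [G]
  | succ n =>
    obtain ⟨k', rfl⟩ : ∃ k', k = k' + 1 := ⟨k - 1, by omega⟩
    intro w hw
    rw [G] at hw
    rw [G]
    exact Finset.mem_union_right _ (by simpa using hw)

theorem G_stay (k : ℕ) (n : ℕ) (a : Bool) : G k n a 1 ⊆ G k n a 0 := by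
  cases n with
  | zero => simp [G]
  | succ n =>
    intro w hw
    rw [G] at hw
    rw [G]
    exact Finset.mem_union_left _ hw

/-! ### Known entrance order -/

/-- output of the ordered box -/
def outO (f : List Bool → ℕ) (s : List Bool) : Bool := s.getD (f s) false

/-- next content of the ordered box -/
def nxtO (f : List Bool → ℕ) (s : List Bool) (x : Bool) : List Bool := s.eraseIdx (f s) ++ [x]

theorem runOrd_eq (f : List Bool → List Bool → List Bool → ℕ) (xs : List Bool) :
    ∀ hist box : List Bool, runOrd 0 0 f hist box xs =
      outs (outO fun s => f [] s []) (nxtO fun s => f [] s []) box xs := by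
  induction xs with
  | nil => intro hist box; rfl
  | cons x xs ih =>
    intro hist box
    simp only [runOrd, outs, List.take_zero, ih]
    rfl

theorem length_nxtO {β : ℕ} {f : List Bool → ℕ} (hf : ∀ s : List Bool, s.length = β → f s < β)
    {s : List Bool} (hs : s.length = β) (x : Bool) : (nxtO f s x).length = β := by
  have h := hf s hs
  rw [nxtO, List.length_append, List.length_eraseIdx_of_lt (by omega), List.length_singleton]
  omega

theorem length_foldl_nxtO {β : ℕ} {f : List Bool → ℕ}
    (hf : ∀ s : List Bool, s.length = β → f s < β) (xs : List Bool) :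
    ∀ s : List Bool, s.length = β → (xs.foldl (nxtO f) s).length = β := by
  induction xs with
  | nil => intro s hs; exact hs
  | cons x xs ih => intro s hs; exact ih _ (length_nxtO hf hs x)

/-- content `s` repeats forever when `c` is fed -/
def Stuck (f : List Bool → ℕ) (c : Bool) (s : List Bool) : Prop :=
  outO f s = c ∧ nxtO f s c = s

theorem step_or_stuck {β : ℕ} {f : List Bool → ℕ} (hf : ∀ s : List Bool, s.length = β → f s < β)
    (c : Bool) (w : List Bool) (hw : w.length ≤ β) :
    Stuck f c (w ++ List.replicate (β - w.length) c) ∨
    ∃ w' : List Bool, w'.length + 1 = w.length ∧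
      nxtO f (w ++ List.replicate (β - w.length) c) c =
        w' ++ List.replicate (β - w'.length) c := by
  have hlen : (w ++ List.replicate (β - w.length) c).length = β := by
    rw [List.length_append, List.length_replicate]; omega
  have hi := hf _ hlen
  rcases Nat.lt_or_ge (f (w ++ List.replicate (β - w.length) c)) w.length with h | h
  · right
    refine ⟨w.eraseIdx (f (w ++ List.replicate (β - w.length) c)), ?_, ?_⟩
    · rw [List.length_eraseIdx_of_lt h]; omega
    · rw [nxtO, List.eraseIdx_append_of_lt_length h, List.append_assoc]
      congr 1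
      rw [← List.replicate_succ', List.length_eraseIdx_of_lt h]
      congr 1
      omega
  · left
    constructor
    · rw [outO, List.getD_append_right _ _ _ _ h, List.getD_replicate]
      omega
    · rw [nxtO, List.eraseIdx_append_of_length_le h, List.eraseIdx_replicate,
        if_pos (by omega), List.append_assoc, ← List.replicate_succ']
      congr 2
      omega

theorem path_to_stuck {β : ℕ} {f : List Bool → ℕ} (hf : ∀ s : List Bool, s.length = β → f s < β)
    (c : Bool) : ∀ (m : ℕ) (w : List Bool), w.length = m → m ≤ β →
    ∃ l, l ≤ m ∧
      Stuck f c ((List.replicate l c).foldl (nxtO f) (w ++ List.replicate (β - w.length) c)) ∧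
      (l = m → (List.replicate l c).foldl (nxtO f) (w ++ List.replicate (β - w.length) c) =
        List.replicate β c) := by
  intro m
  induction m with
  | zero =>
    intro w hw _
    have hw0 : w = [] := List.length_eq_zero_iff.1 hw
    subst hw0
    refine ⟨0, le_rfl, ?_, ?_⟩
    · rcases step_or_stuck hf c [] (Nat.zero_le _) with h | ⟨w', hw', _⟩
      · exact h
      · simp at hw'
    · intro _; simp
  | succ m ih =>
    intro w hw hm
    rcases step_or_stuck hf c w (by omega) with h | ⟨w', hw', h⟩
    · exact ⟨0, Nat.zero_le _, h, fun h0 => absurd h0 (by omega)⟩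
    · obtain ⟨l, hl, h1, h2⟩ := ih w' (by omega) (by omega)
      refine ⟨l + 1, by omega, ?_, ?_⟩
      · rw [List.replicate_succ, List.foldl_cons, h]; exact h1
      · intro hlm
        rw [List.replicate_succ, List.foldl_cons, h]
        exact h2 (by omega)

theorem lead (b : Bool) (u : List Bool) : ∃ i, i ≤ u.length ∧ ∀ z : List Bool,
    ∃ v, u ++ (!b) :: z = List.replicate i b ++ (!b) :: v := by
  induction u with
  | nil => exact ⟨0, le_rfl, fun z => ⟨z, rfl⟩⟩
  | cons a u ih =>
    obtain ⟨i, hi, h⟩ := ih
    by_cases hab : a = b
    · refine ⟨i + 1, by simpa using hi, fun z => ?_⟩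
      obtain ⟨v, hv⟩ := h z
      exact ⟨v, by rw [List.cons_append, hv, hab, List.replicate_succ, List.cons_append]⟩
    · refine ⟨0, Nat.zero_le _, fun z => ⟨u ++ (!b) :: z, ?_⟩⟩
      have : a = !b := by revert hab; cases a <;> cases b <;> simp
      rw [this]; rfl

theorem append_left_inj' (u : List Bool) : Function.Injective (fun w : List Bool => u ++ w) :=
  fun _ _ h => List.append_cancel_left h

/-- Main lower bound when `c^(β-1) (!c)` always outputs `c`. -/
theorem lower_main {k : ℕ} (hk : 1 ≤ k) {f : List Bool → ℕ}
    (hf : ∀ s : List Bool, s.length = k + 1 → f s < k + 1)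
    (lam : ℝ) (h1 : 1 < lam) (hlam : lam ^ k = lam ^ (k - 1) + 1)
    (hstar : ∀ c : Bool, outO f (List.replicate k c ++ [!c]) = c) (n : ℕ) (c : Bool) :
    lam ^ n / lam ^ (k + 1) ≤ ((W (outO f) (nxtO f) n (List.replicate (k + 1) c)).card : ℝ) := by
  have hpos : 0 < lam := by linarith
  have hall : ∀ c : Bool, Stuck f c (List.replicate (k + 1) c) := by
    intro c
    rcases step_or_stuck hf c [] (Nat.zero_le _) with h | ⟨w', hw', _⟩
    · exact h
    · simp at hw'
  refine growth (outO f) (nxtO f) k (k + 1) lam h1 hk hlam (by omega)
    (fun b => {s | s.length = k + 1 ∧ Stuck f b s}) (fun b s hs => hs.2) ?_ n c _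
    ⟨by simp, hall c⟩
  rintro b s ⟨hs, hsb⟩
  obtain ⟨l, hl, hst, hfull⟩ := path_to_stuck hf (!b) (k + 1) s hs le_rfl
  rw [hs, Nat.sub_self, List.replicate_zero, List.append_nil] at hst hfull
  set s' := (List.replicate l (!b)).foldl (nxtO f) s with hs'
  set u := outs (outO f) (nxtO f) s (List.replicate l (!b)) with hu
  have hul : u.length = l := by rw [hu, outs_length, List.length_replicate]
  have hs'len : s'.length = k + 1 := length_foldl_nxtO hf _ _ hs
  obtain ⟨i, hi, hlead⟩ := lead b u
  have hl1 : 1 ≤ l := by
    by_contra h0
    have h0' : l = 0 := by omega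
    have e : s' = s := by rw [hs', h0']; rfl
    rw [e] at hst
    have h3 := hst.1
    rw [hsb.1] at h3
    cases b <;> simp at h3
  refine ⟨i, by omega, ?_⟩
  intro n hn IH
  rcases Nat.lt_or_ge l (k + 1) with hlk | hlk
  · -- short path
    refine ⟨(W (outO f) (nxtO f) (n - l) s').image (fun w => u ++ w), ?_, ?_, ?_⟩
    · intro w hw
      rw [Finset.mem_image] at hw
      obtain ⟨z, hz, rfl⟩ := hw
      have := append_mem_W (outO f) (nxtO f) (List.replicate l (!b)) (n - l) s z hz
      rw [List.length_replicate, Nat.sub_add_cancel (by omega)] at this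
      exact this
    · intro w hw
      rw [Finset.mem_image] at hw
      obtain ⟨z, hz, rfl⟩ := hw
      obtain ⟨n', hn'⟩ : ∃ n', n - l = n' + 1 := ⟨n - l - 1, by omega⟩
      rw [hn'] at hz
      obtain ⟨v, rfl⟩ := head_mem_W _ _ hz
      rw [hst.1]
      exact hlead v
    · rw [Finset.card_image_of_injective _ (append_left_inj' u)]
      refine le_trans ?_ (IH (n - l) (by omega) (!b) s' ⟨hs'len, hst⟩)
      gcongr
      · exact h1.le
      · omega
  · -- full replacement
    have hl' : l = k + 1 := by omega
    have hC : s' = List.replicate (k + 1) (!b) := hfull hl'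
    -- content before the last step
    set t := (List.replicate k (!b)).foldl (nxtO f) s with ht
    have htC : nxtO f t (!b) = List.replicate (k + 1) (!b) := by
      rw [← hC, hs', hl', List.replicate_succ', List.foldl_append]
      rfl
    have htE : t.eraseIdx (f t) = List.replicate k (!b) := by
      rw [nxtO, List.replicate_succ'] at htC
      exact (List.append_inj' htC rfl).1
    have htD : nxtO f t b = List.replicate k (!b) ++ [b] := by rw [nxtO, htE]
    have hu2 : u = outs (outO f) (nxtO f) s (List.replicate k (!b) ++ [b]) := by
      rw [hu, hl', List.replicate_succ']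
      exact outs_append_singleton _ _ _ _ _ _
    have hCs : nxtO f (List.replicate (k + 1) (!b)) (!b) = List.replicate (k + 1) (!b) :=
      (hall (!b)).2
    have hCE : (List.replicate (k + 1) (!b)).eraseIdx (f (List.replicate (k + 1) (!b))) =
        List.replicate k (!b) := by
      have h := hCs
      rw [nxtO] at h
      have h' : List.replicate (k + 1) (!b) = List.replicate k (!b) ++ [!b] :=
        List.replicate_succ'
      exact (List.append_inj' (h.trans h') rfl).1
    have hCb : nxtO f (List.replicate (k + 1) (!b)) b = List.replicate k (!b) ++ [b] := by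
      rw [nxtO, hCE]
    refine ⟨(W (outO f) (nxtO f) (n - (k + 1)) (List.replicate (k + 1) (!b)) ∪
      W (outO f) (nxtO f) (n - (k + 1)) (List.replicate k (!b) ++ [b])).image
        (fun w => u ++ w), ?_, ?_, ?_⟩
    · intro w hw
      rw [Finset.mem_image] at hw
      obtain ⟨z, hz, rfl⟩ := hw
      rw [Finset.mem_union] at hz
      rcases hz with hz | hz
      · rw [← hC] at hz
        have := append_mem_W (outO f) (nxtO f) (List.replicate l (!b)) (n - (k + 1)) s z hz
        rw [List.length_replicate, hl', Nat.sub_add_cancel (by omega), ← hl'] at this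
        exact this
      · have hz' : z ∈ W (outO f) (nxtO f) (n - (k + 1))
            ((List.replicate k (!b) ++ [b]).foldl (nxtO f) s) := by
          rw [List.foldl_append]
          change z ∈ W (outO f) (nxtO f) (n - (k + 1)) (nxtO f t b)
          rw [htD]; exact hz
        have := append_mem_W (outO f) (nxtO f) (List.replicate k (!b) ++ [b]) (n - (k + 1)) s z hz'
        rw [List.length_append, List.length_replicate, List.length_singleton,
          Nat.sub_add_cancel (by omega), ← hu2] at this
        exact this
    · intro w hw
      rw [Finset.mem_image] at hw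
      obtain ⟨z, hz, rfl⟩ := hw
      obtain ⟨n', hn'⟩ : ∃ n', n - (k + 1) = n' + 1 := ⟨n - (k + 1) - 1, by omega⟩
      rw [hn', Finset.mem_union] at hz
      rcases hz with hz | hz
      · obtain ⟨v, rfl⟩ := head_mem_W _ _ hz
        rw [(hall (!b)).1]
        exact hlead v
      · obtain ⟨v, rfl⟩ := head_mem_W _ _ hz
        have := hstar (!b)
        rw [Bool.not_not] at this
        rw [this]
        exact hlead v
    · rw [Finset.card_image_of_injective _ (append_left_inj' u)]
      have hcard : (W (outO f) (nxtO f) (n - (k + 1)) (List.replicate (k + 1) (!b)) ∪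
          W (outO f) (nxtO f) (n - (k + 1)) (List.replicate k (!b) ++ [b])).card =
          (W (outO f) (nxtO f) (n - k) (List.replicate (k + 1) (!b))).card := by
        have e : n - k = n - (k + 1) + 1 := by omega
        rw [e, W_succ_card]
        cases b
        · have hCs' : nxtO f (List.replicate (k + 1) (!false)) true =
            List.replicate (k + 1) (!false) := hCs
          rw [hCb, hCs', Finset.union_comm]
        · have hCs' : nxtO f (List.replicate (k + 1) (!true)) false =
            List.replicate (k + 1) (!true) := hCs
          rw [hCb, hCs']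
      rw [hcard]
      exact IH (n - k) (by omega) (!b) _ ⟨by simp, hall (!b)⟩

/-- Degenerate case: full growth. -/
theorem lower_degenerate {k : ℕ} {f : List Bool → ℕ}
    (hf : ∀ s : List Bool, s.length = k + 1 → f s < k + 1) (c : Bool)
    (hc : outO f (List.replicate k c ++ [!c]) = !c) (n : ℕ) :
    2 ^ n ≤ (W (outO f) (nxtO f) n (List.replicate (k + 1) c) ∪
      W (outO f) (nxtO f) n (List.replicate k c ++ [!c])).card := by
  have hCst : Stuck f c (List.replicate (k + 1) c) := by
    rcases step_or_stuck hf c [] (Nat.zero_le _) with h | ⟨w', hw', _⟩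
    · exact h
    · simp at hw'
  have hCE : (List.replicate (k + 1) c).eraseIdx (f (List.replicate (k + 1) c)) =
      List.replicate k c := by
    have h := hCst.2
    rw [nxtO] at h
    have h' : List.replicate (k + 1) c = List.replicate k c ++ [c] := List.replicate_succ'
    exact (List.append_inj' (h.trans h') rfl).1
  -- position of the removed object in the second content
  have hpos : f (List.replicate k c ++ [!c]) = k := by
    have hlt := hf (List.replicate k c ++ [!c]) (by simp)
    by_contra hne
    have hlt' : f (List.replicate k c ++ [!c]) < k := by omega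
    rw [outO, List.getD_append _ _ _ _ (by simpa using hlt'), List.getD_replicate _ hlt'] at hc
    cases c <;> simp at hc
  have hDE : (List.replicate k c ++ [!c]).eraseIdx (f (List.replicate k c ++ [!c])) =
      List.replicate k c := by
    rw [hpos, List.eraseIdx_append_of_length_le (by simp)]
    simp
  have hn1 : ∀ x, nxtO f (List.replicate (k + 1) c) x = List.replicate k c ++ [x] := by
    intro x; rw [nxtO, hCE]
  have hn2 : ∀ x, nxtO f (List.replicate k c ++ [!c]) x = List.replicate k c ++ [x] := by
    intro x; rw [nxtO, hDE]
  have hcc : List.replicate (k + 1) c = List.replicate k c ++ [c] := List.replicate_succ'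
  induction n with
  | zero => simp [W]
  | succ n ih =>
    have hset : W (outO f) (nxtO f) n (List.replicate k c ++ [false]) ∪
        W (outO f) (nxtO f) n (List.replicate k c ++ [true]) =
        W (outO f) (nxtO f) n (List.replicate (k + 1) c) ∪
        W (outO f) (nxtO f) n (List.replicate k c ++ [!c]) := by
      rw [hcc]
      cases c
      · rfl
      · rw [Finset.union_comm]; rfl
    rw [W, W, hn1, hn1, hn2, hn2, hset, hCst.1, hc, Finset.card_union_of_disjoint,
      Finset.card_image_of_injective _ (cons_inj' _),
      Finset.card_image_of_injective _ (cons_inj' _), pow_succ]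
    · omega
    · rw [Finset.disjoint_left]
      intro w hw hw'
      rw [Finset.mem_image] at hw hw'
      obtain ⟨v, _, rfl⟩ := hw
      obtain ⟨v', _, h⟩ := hw'
      have := (List.cons.inj h).1
      cases c <;> simp at this

/-- Lower bound for the box with known entrance order. -/
theorem lower_ord {k : ℕ} (hk : 1 ≤ k) {f : List Bool → ℕ}
    (hf : ∀ s : List Bool, s.length = k + 1 → f s < k + 1)
    (lam : ℝ) (h1 : 1 < lam) (h2 : lam ≤ 2) (hlam : lam ^ k = lam ^ (k - 1) + 1) :
    ∃ box : List Bool, box.length = k + 1 ∧
      ∀ n, lam ^ n / lam ^ (k + 1) ≤ ((W (outO f) (nxtO f) n box).card : ℝ) := by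
  have hpos : 0 < lam := by linarith
  by_cases hstar : ∀ c : Bool, outO f (List.replicate k c ++ [!c]) = c
  · exact ⟨List.replicate (k + 1) false, by simp, fun n =>
      lower_main hk hf lam h1 hlam hstar n false⟩
  · push Not at hstar
    obtain ⟨c, hc⟩ := hstar
    have hc' : outO f (List.replicate k c ++ [!c]) = !c := by
      revert hc
      cases outO f (List.replicate k c ++ [!c]) <;> cases c <;> simp
    refine ⟨List.replicate (k + 1) c, by simp, ?_⟩
    intro n
    cases n with
    | zero =>
      have : (1 : ℝ) ≤ ((W (outO f) (nxtO f) 0 (List.replicate (k + 1) c)).card : ℝ) := by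
        simp [W]
      refine le_trans ?_ this
      rw [div_le_one (pow_pos hpos _)]
      exact pow_le_pow_right₀ h1.le (Nat.zero_le _)
    | succ n =>
      have h := lower_degenerate hf c hc' n
      have hCst : Stuck f c (List.replicate (k + 1) c) := by
        rcases step_or_stuck hf c [] (Nat.zero_le _) with h | ⟨w', hw', _⟩
        · exact h
        · simp at hw'
      have hCE : (List.replicate (k + 1) c).eraseIdx (f (List.replicate (k + 1) c)) =
          List.replicate k c := by
        have h := hCst.2
        rw [nxtO] at h
        have h' : List.replicate (k + 1) c = List.replicate k c ++ [c] := List.replicate_succ'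
        exact (List.append_inj' (h.trans h') rfl).1
      have hn1 : ∀ x, nxtO f (List.replicate (k + 1) c) x = List.replicate k c ++ [x] := by
        intro x; rw [nxtO, hCE]
      have hcard : (W (outO f) (nxtO f) (n + 1) (List.replicate (k + 1) c)).card =
          (W (outO f) (nxtO f) n (List.replicate (k + 1) c) ∪
            W (outO f) (nxtO f) n (List.replicate k c ++ [!c])).card := by
        rw [W_succ_card, hn1, hn1]
        have hcc : List.replicate (k + 1) c = List.replicate k c ++ [c] := List.replicate_succ'
        rw [hcc]
        cases c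
        · rfl
        · rw [Finset.union_comm]; rfl
      rw [hcard]
      have h3 : (2 : ℝ) ^ n ≤ ((W (outO f) (nxtO f) n (List.replicate (k + 1) c) ∪
            W (outO f) (nxtO f) n (List.replicate k c ++ [!c])).card : ℝ) := by
        exact_mod_cast h
      refine le_trans ?_ h3
      rw [div_le_iff₀ (pow_pos hpos _)]
      calc lam ^ (n + 1) = lam ^ n * lam ^ 1 := pow_add _ _ _
        _ ≤ 2 ^ n * lam ^ (k + 1) := by
          gcongr
          · exact h1.le
          · omega

/-- the marker rule -/
def markerIdx : List Bool → ℕ
  | [] => 0
  | a :: rest => if a ∈ rest then rest.idxOf a + 1 else 0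

theorem markerIdx_lt (s : List Bool) (β : ℕ) (hβ : 1 ≤ β) (hs : s.length = β) :
    markerIdx s < β := by
  cases s with
  | nil => simp [markerIdx]; omega
  | cons a rest =>
    rw [markerIdx]
    split_ifs with h
    · have := List.idxOf_lt_length_iff.2 h
      rw [List.length_cons] at hs
      omega
    · omega

theorem marker_out (a : Bool) (rest : List Bool) : outO markerIdx (a :: rest) = a := by
  rw [outO, markerIdx]
  split_ifs with h
  · rw [List.getD_cons_succ]
    have hlt := List.idxOf_lt_length_iff.2 h
    rw [List.getD_eq_getElem _ _ hlt]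
    exact List.getElem_idxOf hlt
  · rfl

theorem marker_upper {k : ℕ} (hk : 1 ≤ k) : ∀ (n : ℕ) (a : Bool) (rest : List Bool) (j : ℕ),
    rest.length = k → j ≤ List.count a (a :: rest) →
    W (outO markerIdx) (nxtO markerIdx) n (a :: rest) ⊆ G k n a j := by
  intro n
  induction n with
  | zero => intro a rest j _ _; cases j <;> simp [W, G]
  | succ n ih =>
    intro a rest j hlen hj
    -- main step for positive j
    have main : ∀ j', j' + 1 ≤ List.count a (a :: rest) →
        W (outO markerIdx) (nxtO markerIdx) (n + 1) (a :: rest) ⊆ G k (n + 1) a (j' + 1) := by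
      intro j' hj'
      rw [W, G, marker_out]
      apply Finset.image_subset_image
      have hx : ∀ x, W (outO markerIdx) (nxtO markerIdx) n (nxtO markerIdx (a :: rest) x) ⊆
          G k n a j' := by
        intro x
        by_cases h : a ∈ rest
        · have hn : nxtO markerIdx (a :: rest) x = a :: (rest.erase a ++ [x]) := by
            rw [nxtO, markerIdx, if_pos h, List.eraseIdx_cons_succ,
              List.erase_eq_eraseIdx_of_idxOf rfl]
            rfl
          rw [hn]
          apply ih
          · rw [List.length_append, List.length_erase_of_mem h, List.length_singleton]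
            omega
          · rw [List.count_cons_self] at hj' ⊢
            rw [List.count_append, List.count_erase_self]
            have := List.count_pos_iff.2 h
            omega
        · have hn : nxtO markerIdx (a :: rest) x = rest ++ [x] := by
            rw [nxtO, markerIdx, if_neg h]; rfl
          have hcount : List.count a (a :: rest) = 1 := by
            rw [List.count_cons_self, List.count_eq_zero_of_not_mem h]
          have hj0 : j' = 0 := by omega
          subst hj0
          rw [hn]
          have hall : ∀ y ∈ rest, y = !a := by
            intro y hy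
            have : y ≠ a := fun h' => h (h' ▸ hy)
            revert this
            cases y <;> cases a <;> simp
          obtain ⟨r0, rest', rfl⟩ : ∃ r0 rest', rest = r0 :: rest' := by
            cases rest with
            | nil => simp at hlen; omega
            | cons r0 rest' => exact ⟨r0, rest', rfl⟩
          have hr0 : r0 = !a := hall r0 (by simp)
          subst hr0
          refine subset_trans ?_ (G_switch k hk n a)
          rw [List.cons_append]
          apply ih
          · rw [List.length_append, List.length_singleton]
            simpa using hlen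
          · rw [List.count_cons_self, List.count_append]
            have : List.count (!a) rest' = rest'.length := by
              rw [List.count_eq_length]
              intro y hy
              exact (hall y (by simp [hy])).symm
            rw [this]
            have : rest'.length + 1 = k := by simpa using hlen
            omega
      exact Finset.union_subset (hx false) (hx true)
    cases j with
    | zero =>
      refine subset_trans (main 0 ?_) (G_stay k (n + 1) a)
      rw [List.count_cons_self]; omega
    | succ j' => exact main j' hj

/-! ### Knowing only the state, with memory one -/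

/-- output, knowing last output and state -/
def outS (g : List Bool → (Bool → ℕ) → Bool) (p : List Bool × (Bool → ℕ)) : Bool := g p.1 p.2

/-- next memory and state -/
def nxtS (g : List Bool → (Bool → ℕ) → Bool) (p : List Bool × (Bool → ℕ)) (x : Bool) :
    List Bool × (Bool → ℕ) := ([g p.1 p.2], stepState p.2 (g p.1 p.2) x)

theorem runState_eq (g : List Bool → (Bool → ℕ) → List Bool → Bool) (xs : List Bool) :
    ∀ (hist : List Bool) (s : Bool → ℕ), runState 1 0 g hist s xs =
      outs (outS fun m s => g m s []) (nxtS fun m s => g m s []) (hist.take 1, s) xs := by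
  induction xs with
  | nil => intro hist s; rfl
  | cons x xs ih =>
    intro hist s
    simp only [runState, outs, List.take_zero, ih]
    rfl

/-- the state with `j` ones and `k - j` zeros -/
def st (k j : ℕ) : Bool → ℕ := fun i => cond i j (k - j)

theorem st_ff {k j : ℕ} (hj : j < k) : stepState (st k j) false false = st k j := by
  funext i
  cases i
  · simp [stepState, st]; omega
  · simp [stepState, st]

theorem st_ft {k j : ℕ} (hj : j < k) : stepState (st k j) false true = st k (j + 1) := by
  funext i
  cases i
  · simp [stepState, st]; omega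
  · simp [stepState, st]

theorem st_tt {k j : ℕ} (hj : 1 ≤ j) : stepState (st k j) true true = st k j := by
  funext i
  cases i
  · simp [stepState, st]
  · simp [stepState, st]; omega

theorem st_tf {k j : ℕ} (hj : 1 ≤ j) (hjk : j ≤ k) :
    stepState (st k j) true false = st k (j - 1) := by
  funext i
  cases i
  · simp [stepState, st]; omega
  · simp [stepState, st]

section StateLower

variable {k : ℕ} {g : List Bool → (Bool → ℕ) → Bool}

theorem path_up (a : ℕ) (hak : a ≤ k) (hg : ∀ j, j < a → g [false] (st k j) = false) :
    ∀ (d j : ℕ), j + d ≤ a →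
      (List.replicate d true).foldl (nxtS g) ([false], st k j) = ([false], st k (j + d)) ∧
      outs (outS g) (nxtS g) ([false], st k j) (List.replicate d true) =
        List.replicate d false := by
  intro d
  induction d with
  | zero => intro j _; exact ⟨rfl, rfl⟩
  | succ d ih =>
    intro j hj
    have h0 : nxtS g ([false], st k j) true = ([false], st k (j + 1)) := by
      simp only [nxtS, hg j (by omega), st_ft (show j < k by omega)]
    obtain ⟨h1, h2⟩ := ih (j + 1) (by omega)
    constructor
    · rw [List.replicate_succ, List.foldl_cons, h0, h1]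
      congr 2
      omega
    · rw [List.replicate_succ, outs, h0, h2, List.replicate_succ, outS, hg j (by omega)]

theorem path_down (a b : ℕ) (hak : a ≤ k)
    (hg : ∀ j, b < j → j < a → g [true] (st k j) = true) :
    ∀ (d j : ℕ), b + d ≤ j → j < a →
      (List.replicate d false).foldl (nxtS g) ([true], st k j) = ([true], st k (j - d)) ∧
      outs (outS g) (nxtS g) ([true], st k j) (List.replicate d false) =
        List.replicate d true := by
  intro d
  induction d with
  | zero => intro j _ _; exact ⟨rfl, rfl⟩
  | succ d ih =>
    intro j hj hja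
    have h0 : nxtS g ([true], st k j) false = ([true], st k (j - 1)) := by
      simp only [nxtS, hg j (by omega) hja, st_tf (show 1 ≤ j by omega) (show j ≤ k by omega)]
    obtain ⟨h1, h2⟩ := ih (j - 1) (by omega) (by omega)
    constructor
    · rw [List.replicate_succ, List.foldl_cons, h0, h1]
      congr 2
      omega
    · rw [List.replicate_succ, outs, h0, h2, List.replicate_succ, outS, hg j (by omega) hja]

theorem W_congr_state {p q : List Bool × (Bool → ℕ)} (h1 : outS g p = outS g q)
    (h2 : ∀ x, nxtS g p x = nxtS g q x) (n : ℕ) :
    W (outS g) (nxtS g) n p = W (outS g) (nxtS g) n q := by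
  cases n with
  | zero => rfl
  | succ n => rw [W, W, h1, h2, h2]

theorem exists_last (p : ℕ → Prop) (a : ℕ) (ha : 1 ≤ a) (h0 : p 0) :
    ∃ b, b < a ∧ p b ∧ ∀ j, b < j → j < a → ¬ p j := by
  induction a with
  | zero => omega
  | succ a ih =>
    by_cases hp : p a
    · exact ⟨a, by omega, hp, fun j h1 h2 => by omega⟩
    · rcases Nat.eq_zero_or_pos a with h | h
      · subst h; exact absurd h0 hp
      · obtain ⟨b, hb, hpb, hb'⟩ := ih h
        refine ⟨b, by omega, hpb, fun j h1 h2 => ?_⟩
        rcases Nat.lt_or_ge j a with h3 | h3
        · exact hb' j h1 h3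
        · have : j = a := by omega
          subst this; exact hp

theorem lower_state (hk : 1 ≤ k)
    (hg : ∀ (mem : List Bool) (s : Bool → ℕ), s false + s true = k → 0 < s (g mem s))
    (lam : ℝ) (h1 : 1 < lam) (hlam : lam ^ k = lam ^ (k - 1) + 1) :
    ∃ j, j ≤ k ∧ (∀ i, i < j → g [false] (st k i) = false) ∧
      ∀ n, lam ^ n / lam ^ k ≤ ((W (outS g) (nxtS g) n ([false], st k j)).card : ℝ) := by
  classical
  have hsum : ∀ j, j ≤ k → st k j false + st k j true = k := by
    intro j hj; simp only [st, cond_false, cond_true]; omega
  have hz : ∀ mem, g mem (st k 0) = false := by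
    intro mem
    have := hg mem (st k 0) (hsum 0 (Nat.zero_le _))
    cases h : g mem (st k 0)
    · rfl
    · rw [h] at this; simp [st] at this
  have hkk : ∀ mem, g mem (st k k) = true := by
    intro mem
    have := hg mem (st k k) (hsum k le_rfl)
    cases h : g mem (st k k)
    · rw [h] at this; simp [st] at this
    · rfl
  have hex : ∃ j, g [false] (st k j) = true := ⟨k, hkk _⟩
  set a := Nat.find hex with ha
  have ha1 : g [false] (st k a) = true := Nat.find_spec hex
  have ha2 : ∀ j, j < a → g [false] (st k j) = false := by
    intro j hj
    have := Nat.find_min hex hj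
    simpa using this
  have hak : a ≤ k := Nat.find_min' hex (hkk _)
  have ha0 : 1 ≤ a := by
    rcases Nat.eq_zero_or_pos a with h | h
    · rw [h, hz] at ha1; simp at ha1
    · exact h
  obtain ⟨b, hba, hb, hb'⟩ := exists_last (fun j => g [true] (st k j) = false) a ha0 (hz _)
  have hb2 : ∀ j, b < j → j < a → g [true] (st k j) = true := by
    intro j h1 h2
    have := hb' j h1 h2
    simpa using this
  rcases Nat.lt_or_ge (b + 1) a with hL | hL
  · -- gap at least two
    refine ⟨b + 1, by omega, fun i hi => ha2 i (by omega), ?_⟩
    have hS : ∀ bb s, s ∈ (fun c : Bool => cond c ({([true], st k (a - 1))} : Set _)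
        {([false], st k (b + 1))}) bb → outS g s = bb ∧ nxtS g s bb = s := by
      intro bb s hs
      cases bb
      · have hs' : s = ([false], st k (b + 1)) := hs
        subst hs'
        have := ha2 (b + 1) hL
        exact ⟨this, by simp only [nxtS, this, st_ff (show b + 1 < k by omega)]⟩
      · have hs' : s = ([true], st k (a - 1)) := hs
        subst hs'
        have := hb2 (a - 1) (by omega) (by omega)
        exact ⟨this, by simp only [nxtS, this, st_tt (show 1 ≤ a - 1 by omega)]⟩
    intro n
    refine growth (outS g) (nxtS g) k k lam h1 hk hlam le_rfl _ hS ?_ n false _ rfl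
    intro bb s hs
    refine ⟨a - b - 1, by omega, ?_⟩
    intro n hn IH
    cases bb
    · have hs' : s = ([false], st k (b + 1)) := hs
      subst hs'
      obtain ⟨e1, e2⟩ := path_up a hak ha2 (a - b - 1) (b + 1) (by omega)
      have eidx : b + 1 + (a - b - 1) = a := by omega
      rw [eidx] at e1
      have e3 : (List.replicate (a - b - 1) true ++ [false]).foldl (nxtS g)
          ([false], st k (b + 1)) = ([true], st k (a - 1)) := by
        rw [List.foldl_append, e1]
        simp only [List.foldl_cons, List.foldl_nil, nxtS, ha1, st_tf ha0 hak]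
      have e4 : ∀ (xs : List Bool) (p : List Bool × (Bool → ℕ)) (x : Bool),
          outs (outS g) (nxtS g) p (xs ++ [x]) =
            outs (outS g) (nxtS g) p xs ++ [outS g (xs.foldl (nxtS g) p)] := by
        intro xs
        induction xs with
        | nil => intro p x; rfl
        | cons y ys ih => intro p x; simp only [List.cons_append, outs, ih, List.foldl_cons]
      have e5 : outs (outS g) (nxtS g) ([false], st k (b + 1))
          (List.replicate (a - b - 1) true ++ [false]) =
            List.replicate (a - b - 1) false ++ [true] := by
        rw [e4, e2, e1]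
        simp only [outS, ha1]
      refine ⟨(W (outS g) (nxtS g) (n - (a - b)) ([true], st k (a - 1))).image
        (fun w => (List.replicate (a - b - 1) false ++ [true]) ++ w), ?_, ?_, ?_⟩
      · intro w hw
        rw [Finset.mem_image] at hw
        obtain ⟨z, hz', rfl⟩ := hw
        rw [← e3] at hz'
        have := append_mem_W (outS g) (nxtS g) _ _ _ _ hz'
        rw [e5] at this
        have e6 : n - (a - b) + (List.replicate (a - b - 1) true ++ [false]).length = n := by
          simp; omega
        rwa [e6] at this
      · intro w hw
        rw [Finset.mem_image] at hw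
        obtain ⟨z, hz', rfl⟩ := hw
        exact ⟨z, by simp⟩
      · rw [Finset.card_image_of_injective _ (append_left_inj' _)]
        refine le_trans ?_ (IH (n - (a - b)) (by omega) true ([true], st k (a - 1)) rfl)
        gcongr
        · exact h1.le
        · omega
    · have hs' : s = ([true], st k (a - 1)) := hs
      subst hs'
      obtain ⟨e1, e2⟩ := path_down a b hak hb2 (a - b - 1) (a - 1) (by omega) (by omega)
      have eidx : a - 1 - (a - b - 1) = b := by omega
      rw [eidx] at e1
      have e3 : (List.replicate (a - b - 1) false ++ [true]).foldl (nxtS g)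
          ([true], st k (a - 1)) = ([false], st k (b + 1)) := by
        rw [List.foldl_append, e1]
        simp only [List.foldl_cons, List.foldl_nil, nxtS, hb, st_ft (show b < k by omega)]
      have e4 : ∀ (xs : List Bool) (p : List Bool × (Bool → ℕ)) (x : Bool),
          outs (outS g) (nxtS g) p (xs ++ [x]) =
            outs (outS g) (nxtS g) p xs ++ [outS g (xs.foldl (nxtS g) p)] := by
        intro xs
        induction xs with
        | nil => intro p x; rfl
        | cons y ys ih => intro p x; simp only [List.cons_append, outs, ih, List.foldl_cons]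
      have e5 : outs (outS g) (nxtS g) ([true], st k (a - 1))
          (List.replicate (a - b - 1) false ++ [true]) =
            List.replicate (a - b - 1) true ++ [false] := by
        rw [e4, e2, e1]
        simp only [outS, hb]
      refine ⟨(W (outS g) (nxtS g) (n - (a - b)) ([false], st k (b + 1))).image
        (fun w => (List.replicate (a - b - 1) true ++ [false]) ++ w), ?_, ?_, ?_⟩
      · intro w hw
        rw [Finset.mem_image] at hw
        obtain ⟨z, hz', rfl⟩ := hw
        rw [← e3] at hz'
        have := append_mem_W (outS g) (nxtS g) _ _ _ _ hz'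
        rw [e5] at this
        have e6 : n - (a - b) + (List.replicate (a - b - 1) false ++ [true]).length = n := by
          simp; omega
        rwa [e6] at this
      · intro w hw
        rw [Finset.mem_image] at hw
        obtain ⟨z, hz', rfl⟩ := hw
        exact ⟨z, by simp⟩
      · rw [Finset.card_image_of_injective _ (append_left_inj' _)]
        refine le_trans ?_ (IH (n - (a - b)) (by omega) false ([false], st k (b + 1)) rfl)
        gcongr
        · exact h1.le
        · omega
  · -- gap one
    have hab : a = b + 1 := by omega
    refine ⟨b, by omega, fun i hi => ha2 i (by omega), ?_⟩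
    have hbf : g [false] (st k b) = false := ha2 b hba
    rcases Nat.lt_or_ge 1 k with hk2 | hk2
    · -- k at least two
      have hS : ∀ bb s, s ∈ (fun c : Bool => cond c (∅ : Set _)
          {([false], st k b)}) bb → outS g s = bb ∧ nxtS g s bb = s := by
        intro bb s hs
        cases bb
        · have hs' : s = ([false], st k b) := hs
          subst hs'
          exact ⟨hbf, by simp only [nxtS, hbf, st_ff (show b < k by omega)]⟩
        · exact absurd hs (Set.notMem_empty _)
      intro n
      refine growth (outS g) (nxtS g) k k lam h1 hk hlam le_rfl _ hS ?_ n false _ rfl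
      intro bb s hs
      refine ⟨1, hk, ?_⟩
      intro n hn IH
      cases bb
      · have hs' : s = ([false], st k b) := hs
        subst hs'
        have e1 : nxtS g ([false], st k b) true = ([false], st k a) := by
          simp only [nxtS, hbf, st_ft (show b < k by omega), hab]
        have e2 : nxtS g ([false], st k a) false = ([true], st k b) := by
          simp only [nxtS, ha1, st_tf ha0 hak]
          rw [hab, Nat.add_sub_cancel]
        have e3 : W (outS g) (nxtS g) (n - 2) ([true], st k b) =
            W (outS g) (nxtS g) (n - 2) ([false], st k b) := by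
          apply W_congr_state
          · simp only [outS, hb, hbf]
          · intro x; simp only [nxtS, hb, hbf]
        refine ⟨(W (outS g) (nxtS g) (n - 2) ([true], st k b)).image
          (fun w => [false, true] ++ w), ?_, ?_, ?_⟩
        · intro w hw
          rw [Finset.mem_image] at hw
          obtain ⟨z, hz', rfl⟩ := hw
          rw [← e2, ← e1] at hz'
          have h := append_mem_W (outS g) (nxtS g) [true, false] (n - 2) ([false], st k b) z hz'
          have e6 : n - 2 + [true, false].length = n := by simp; omega
          rw [e6] at h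
          simp only [outs, e1, outS, hbf, ha1] at h
          exact h
        · intro w hw
          rw [Finset.mem_image] at hw
          obtain ⟨z, hz', rfl⟩ := hw
          exact ⟨z, rfl⟩
        · rw [Finset.card_image_of_injective _ (append_left_inj' _), e3]
          refine le_trans ?_ (IH (n - 2) (by omega) false ([false], st k b) rfl)
          gcongr
          · exact h1.le
          · omega
      · exact absurd hs (Set.notMem_empty _)
    · -- k = 1
      have hk1 : k = 1 := by omega
      subst hk1
      have hb0 : b = 0 := by omega
      subst hb0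
      have hS : ∀ bb s, s ∈ (fun c : Bool => cond c ({([true], st 1 1)} : Set _)
          {([false], st 1 0)}) bb → outS g s = bb ∧ nxtS g s bb = s := by
        intro bb s hs
        cases bb
        · have hs' : s = ([false], st 1 0) := hs
          subst hs'
          exact ⟨hz _, by simp only [nxtS, hz, st_ff (show 0 < 1 by omega)]⟩
        · have hs' : s = ([true], st 1 1) := hs
          subst hs'
          exact ⟨hkk _, by simp only [nxtS, hkk, st_tt (show 1 ≤ 1 by omega)]⟩
      intro n
      refine growth (outS g) (nxtS g) 1 1 lam h1 le_rfl hlam le_rfl _ hS ?_ n false _ rfl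
      intro bb s hs
      refine ⟨1, le_rfl, ?_⟩
      intro n hn IH
      obtain ⟨n', rfl⟩ : ∃ n', n = n' + 1 + 1 := ⟨n - 2, by omega⟩
      cases bb
      · have hs' : s = ([false], st 1 0) := hs
        subst hs'
        have e1 : nxtS g ([false], st 1 0) true = ([false], st 1 1) := by
          simp only [nxtS, hz, st_ft (show 0 < 1 by omega), Nat.zero_add]
        have e3 : W (outS g) (nxtS g) (n' + 1) ([false], st 1 1) =
            W (outS g) (nxtS g) (n' + 1) ([true], st 1 1) := by
          apply W_congr_state
          · simp only [outS, hkk]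
          · intro x; simp only [nxtS, hkk]
        refine ⟨(W (outS g) (nxtS g) (n' + 1) ([true], st 1 1)).image
          (fun w => false :: w), ?_, ?_, ?_⟩
        · intro w hw
          rw [Finset.mem_image] at hw
          obtain ⟨z, hz', rfl⟩ := hw
          rw [← e3, ← e1] at hz'
          have h := cons_mem_W (outS g) (nxtS g) true hz'
          simp only [outS, hz] at h
          exact h
        · intro w hw
          rw [Finset.mem_image] at hw
          obtain ⟨z, hz', rfl⟩ := hw
          obtain ⟨v, rfl⟩ := head_mem_W _ _ hz'
          refine ⟨v, ?_⟩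
          simp only [outS, hkk]
          rfl
        · rw [Finset.card_image_of_injective _ (cons_inj' _)]
          exact IH (n' + 1) (by omega) true ([true], st 1 1) rfl
      · have hs' : s = ([true], st 1 1) := hs
        subst hs'
        have e1 : nxtS g ([true], st 1 1) false = ([true], st 1 0) := by
          simp only [nxtS, hkk, st_tf (show 1 ≤ 1 by omega) (show 1 ≤ 1 by omega), Nat.sub_self]
        have e3 : W (outS g) (nxtS g) (n' + 1) ([true], st 1 0) =
            W (outS g) (nxtS g) (n' + 1) ([false], st 1 0) := by
          apply W_congr_state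
          · simp only [outS, hz]
          · intro x; simp only [nxtS, hz]
        refine ⟨(W (outS g) (nxtS g) (n' + 1) ([false], st 1 0)).image
          (fun w => true :: w), ?_, ?_, ?_⟩
        · intro w hw
          rw [Finset.mem_image] at hw
          obtain ⟨z, hz', rfl⟩ := hw
          rw [← e3, ← e1] at hz'
          have h := cons_mem_W (outS g) (nxtS g) false hz'
          simp only [outS, hkk] at h
          exact h
        · intro w hw
          rw [Finset.mem_image] at hw
          obtain ⟨z, hz', rfl⟩ := hw
          obtain ⟨v, rfl⟩ := head_mem_W _ _ hz'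
          refine ⟨v, ?_⟩
          simp only [outS, hz]
          rfl
        · rw [Finset.card_image_of_injective _ (cons_inj' _)]
          exact IH (n' + 1) (by omega) false ([false], st 1 0) rfl

end StateLower

/-- the rule repeating the last output as long as possible -/
def repeatRule (mem : List Bool) (s : Bool → ℕ) : Bool :=
  if 0 < s (mem.headD true) then mem.headD true else !(mem.headD true)

theorem sum_step {k : ℕ} {s : Bool → ℕ} (hs : s false + s true = k) (y : Bool) (hy : 0 < s y)
    (x : Bool) : stepState s y x false + stepState s y x true = k := by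
  cases y <;> cases x <;> simp [stepState] <;> omega

theorem repeat_upper {k : ℕ} (hk : 1 ≤ k) : ∀ (n : ℕ) (mem : List Bool) (s : Bool → ℕ) (j : ℕ),
    s false + s true = k → j ≤ s (mem.headD true) →
    W (outS repeatRule) (nxtS repeatRule) n (mem, s) ⊆ G k n (mem.headD true) j := by
  intro n
  induction n with
  | zero => intro mem s j _ _; cases j <;> simp [W, G]
  | succ n ih =>
    intro mem s j hs hj
    set a := mem.headD true with ha
    have main : ∀ j', j' + 1 ≤ s a →
        W (outS repeatRule) (nxtS repeatRule) (n + 1) (mem, s) ⊆ G k (n + 1) a (j' + 1) := by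
      intro j' hj'
      have hout : repeatRule mem s = a := by rw [repeatRule, ← ha, if_pos (by omega)]
      have hout' : outS repeatRule (mem, s) = a := hout
      rw [W, G, hout']
      apply Finset.image_subset_image
      have hx : ∀ x, W (outS repeatRule) (nxtS repeatRule) n (nxtS repeatRule (mem, s) x) ⊆
          G k n a j' := by
        intro x
        have hn : nxtS repeatRule (mem, s) x = ([a], stepState s a x) := by
          simp only [nxtS, hout]
        rw [hn]
        have := ih [a] (stepState s a x) j' (sum_step hs a (by omega) x) (by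
          simp only [List.headD_cons, stepState]
          simp only [if_true]
          omega)
        simpa using this
      exact Finset.union_subset (hx false) (hx true)
    cases j with
    | succ j' => exact main j' hj
    | zero =>
      rcases Nat.eq_zero_or_pos (s a) with h0 | h0
      · have hout : repeatRule mem s = !a := by rw [repeatRule, ← ha, if_neg (by omega)]
        have hout' : outS repeatRule (mem, s) = !a := hout
        have hsk : s (!a) = k := by
          rw [← hs]
          revert h0
          cases a <;> simp
        rw [W, hout']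
        have hx : ∀ x, W (outS repeatRule) (nxtS repeatRule) n (nxtS repeatRule (mem, s) x) ⊆
            G k n (!a) (k - 1) := by
          intro x
          have hn : nxtS repeatRule (mem, s) x = ([!a], stepState s (!a) x) := by
            simp only [nxtS, hout]
          rw [hn]
          have := ih [!a] (stepState s (!a) x) (k - 1) (sum_step hs (!a) (by omega) x) (by
            simp only [List.headD_cons, stepState]
            simp only [if_true]
            omega)
          simpa using this
        have h3 := Finset.union_subset (hx false) (hx true)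
        intro w hw
        have h4 := Finset.image_subset_image (f := fun w => (!a) :: w) h3 hw
        rw [G]
        exact Finset.mem_union_right _ h4
      · exact subset_trans (main 0 h0) (G_stay k (n + 1) a)

/-! ### Limits -/

theorem rate_of_bounds (N : ℕ → ℕ) (lam c C : ℝ) (h1 : 1 < lam) (hc : 0 < c) (hC : 0 < C)
    (hlow : ∀ n, c * lam ^ n ≤ (N n : ℝ)) (hup : ∀ n, (N n : ℝ) ≤ C * lam ^ n) :
    Tendsto (fun n : ℕ => Real.logb 2 (N n) / n) atTop (𝓝 (Real.logb 2 lam)) := by
  have hpos : 0 < lam := by linarith
  have hlimc : ∀ d : ℝ, Tendsto (fun n : ℕ => Real.logb 2 d / (n : ℝ) + Real.logb 2 lam) atTop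
      (𝓝 (Real.logb 2 lam)) := by
    intro d
    have h := (tendsto_const_div_atTop_nhds_zero_nat (Real.logb 2 d)).add_const (Real.logb 2 lam)
    rwa [zero_add] at h
  have hlog : ∀ d : ℝ, 0 < d → ∀ n : ℕ, 0 < n →
      Real.logb 2 (d * lam ^ n) / (n : ℝ) = Real.logb 2 d / (n : ℝ) + Real.logb 2 lam := by
    intro d hd n hn
    have hn' : (n : ℝ) ≠ 0 := by exact_mod_cast hn.ne'
    rw [Real.logb_mul hd.ne' (pow_pos hpos n).ne', Real.logb_pow, add_div,
      mul_div_cancel_left₀ _ hn']
  refine tendsto_of_tendsto_of_tendsto_of_le_of_le' (hlimc c) (hlimc C) ?_ ?_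
  · filter_upwards [eventually_gt_atTop 0] with n hn
    rw [← hlog c hc n hn]
    gcongr
    · norm_num
    · exact hlow n
  · filter_upwards [eventually_gt_atTop 0] with n hn
    rw [← hlog C hC n hn]
    have hNpos : (0 : ℝ) < N n := lt_of_lt_of_le (mul_pos hc (pow_pos hpos n)) (hlow n)
    gcongr
    · norm_num
    · exact hup n

theorem finite_len (n : ℕ) (Y : Set (List Bool)) (hY : ∀ y ∈ Y, y.length = n) : Y.Finite :=
  (List.finite_length_eq Bool n).subset hY

theorem exists_lam (k : ℕ) (hk : 1 ≤ k) :
    ∃ lam : ℝ, 1 < lam ∧ lam ≤ 2 ∧ lam ^ k = lam ^ (k - 1) + 1 := by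
  have hcont : ContinuousOn (fun x : ℝ => x ^ k - x ^ (k - 1) - 1) (Set.Icc 1 2) := by
    fun_prop
  have h := intermediate_value_Icc (by norm_num : (1 : ℝ) ≤ 2) hcont
  have h0 : (0 : ℝ) ∈ Set.Icc ((1 : ℝ) ^ k - 1 ^ (k - 1) - 1) ((2 : ℝ) ^ k - 2 ^ (k - 1) - 1) := by
    constructor
    · simp
    · obtain ⟨k', rfl⟩ : ∃ k', k = k' + 1 := ⟨k - 1, by omega⟩
      have : (1 : ℝ) ≤ 2 ^ k' := one_le_pow₀ (by norm_num)
      rw [Nat.add_sub_cancel, pow_succ]
      linarith
  obtain ⟨x, hx, hx0⟩ := h h0
  have hx0' : x ^ k - x ^ (k - 1) - 1 = 0 := hx0
  refine ⟨x, ?_, hx.2, by linarith⟩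
  rcases eq_or_lt_of_le hx.1 with h1 | h1
  · rw [← h1] at hx0'
    simp at hx0'
  · exact h1

theorem minOrd_bounds (k : ℕ) (hk : 1 ≤ k) (lam : ℝ) (h1 : 1 < lam) (h2 : lam ≤ 2)
    (hlam : lam ^ k = lam ^ (k - 1) + 1) (n : ℕ) :
    (lam ^ (k + 1))⁻¹ * lam ^ n ≤ (minOrd 0 (k + 1) 0 n : ℝ) ∧
      (minOrd 0 (k + 1) 0 n : ℝ) ≤ (2 * lam ^ k) * lam ^ n := by
  have hout : ∀ f : List Bool → List Bool → List Bool → ℕ, ∀ y,
      y ∈ outputsOrd 0 (k + 1) 0 n f ↔ ∃ box : List Bool, box.length = k + 1 ∧
        y ∈ W (outO fun s => f [] s []) (nxtO fun s => f [] s []) n box := by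
    intro f y
    constructor
    · rintro ⟨box, x, hb, hx, rfl⟩
      exact ⟨box, hb, (mem_W_iff _ _ n box _).2 ⟨x, hx, runOrd_eq f x [] box⟩⟩
    · rintro ⟨box, hb, hy⟩
      obtain ⟨x, hx, rfl⟩ := (mem_W_iff _ _ n box _).1 hy
      exact ⟨box, x, hb, hx, (runOrd_eq f x [] box).symm⟩
  have hfin : ∀ f, (outputsOrd 0 (k + 1) 0 n f).Finite := by
    intro f
    apply finite_len n
    intro y hy
    obtain ⟨box, _, hy'⟩ := (hout f y).1 hy
    obtain ⟨x, hx, rfl⟩ := (mem_W_iff _ _ n box _).1 hy'
    rw [outs_length, hx]
  -- the set of values
  have hvalid : ValidOrd (k + 1) (fun _ s _ => markerIdx s) := by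
    intro _ box _ hbox
    exact markerIdx_lt box (k + 1) (by omega) hbox
  have hne : {N | ∃ f, ValidOrd (k + 1) f ∧ N = (outputsOrd 0 (k + 1) 0 n f).ncard}.Nonempty :=
    ⟨_, _, hvalid, rfl⟩
  constructor
  · obtain ⟨f, hf, hN⟩ := Nat.sInf_mem hne
    change _ ≤ ((sInf {N | ∃ f, ValidOrd (k + 1) f ∧
      N = (outputsOrd 0 (k + 1) 0 n f).ncard} : ℕ) : ℝ)
    rw [hN]
    obtain ⟨box, hbox, hlow⟩ := lower_ord hk (f := fun s => f [] s [])
      (fun s hs => hf [] s [] hs) lam h1 h2 hlam
    rw [inv_mul_eq_div]
    refine (hlow n).trans ?_
    have hsub : ((W (outO fun s => f [] s []) (nxtO fun s => f [] s []) n box : Finset (List Bool)) :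
        Set (List Bool)) ⊆ outputsOrd 0 (k + 1) 0 n f := by
      intro y hy
      exact (hout f y).2 ⟨box, hbox, hy⟩
    have h := Set.ncard_le_ncard hsub (hfin f)
    rw [Set.ncard_coe_finset] at h
    exact_mod_cast h
  · have hle : minOrd 0 (k + 1) 0 n ≤
        (outputsOrd 0 (k + 1) 0 n (fun _ s _ => markerIdx s)).ncard :=
      Nat.sInf_le ⟨_, hvalid, rfl⟩
    have hsub : outputsOrd 0 (k + 1) 0 n (fun _ s _ => markerIdx s) ⊆
        ((G k n false 0 ∪ G k n true 0 : Finset (List Bool)) : Set (List Bool)) := by
      intro y hy
      obtain ⟨box, hbox, hy'⟩ := (hout _ y).1 hy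
      rw [Finset.mem_coe, Finset.mem_union]
      cases box with
      | nil => simp at hbox
      | cons a rest =>
        have h := marker_upper hk n a rest 0 (by simpa using hbox) (Nat.zero_le _) hy'
        cases a
        · exact Or.inl h
        · exact Or.inr h
    have h := Set.ncard_le_ncard hsub (Finset.finite_toSet _)
    rw [Set.ncard_coe_finset] at h
    have hcard : ((G k n false 0 ∪ G k n true 0).card : ℝ) ≤ (2 * lam ^ k) * lam ^ n := by
      have hA := G_card k lam h1 hk hlam n false 0 (Nat.zero_le _)
      have hB := G_card k lam h1 hk hlam n true 0 (Nat.zero_le _)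
      have hU : ((G k n false 0 ∪ G k n true 0).card : ℝ) ≤
          (G k n false 0).card + (G k n true 0).card := by
        exact_mod_cast Finset.card_union_le _ _
      rw [Nat.sub_zero, pow_add] at hA hB
      nlinarith
    refine le_trans ?_ hcard
    exact_mod_cast hle.trans h

theorem minState_bounds (k : ℕ) (hk : 1 ≤ k) (lam : ℝ) (h1 : 1 < lam)
    (hlam : lam ^ k = lam ^ (k - 1) + 1) (n : ℕ) :
    (lam ^ (2 * k + 1))⁻¹ * lam ^ n ≤ (minState 1 k 0 n : ℝ) ∧
      (minState 1 k 0 n : ℝ) ≤ (2 * lam ^ k) * lam ^ n := by
  have hpos : 0 < lam := by linarith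
  have hout : ∀ g : List Bool → (Bool → ℕ) → List Bool → Bool, ∀ y,
      y ∈ outputsState 1 k 0 n g ↔ ∃ s : Bool → ℕ, s false + s true = k ∧
        y ∈ W (outS fun m s => g m s []) (nxtS fun m s => g m s []) n ([], s) := by
    intro g y
    constructor
    · rintro ⟨s, x, hs, hx, rfl⟩
      exact ⟨s, hs, (mem_W_iff _ _ n _ _).2 ⟨x, hx, runState_eq g x [] s⟩⟩
    · rintro ⟨s, hs, hy⟩
      obtain ⟨x, hx, rfl⟩ := (mem_W_iff _ _ n _ _).1 hy
      exact ⟨s, x, hs, hx, (runState_eq g x [] s).symm⟩
  have hfin : ∀ g, (outputsState 1 k 0 n g).Finite := by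
    intro g
    apply finite_len n
    intro y hy
    obtain ⟨s, _, hy'⟩ := (hout g y).1 hy
    obtain ⟨x, hx, rfl⟩ := (mem_W_iff _ _ n _ _).1 hy'
    rw [outs_length, hx]
  have hvalid : ValidState k (fun m s _ => repeatRule m s) := by
    intro m s _ hs
    simp only [repeatRule]
    split_ifs with h
    · exact h
    · revert h
      cases m.headD true <;> simp <;> omega
  have hne : {N | ∃ g, ValidState k g ∧ N = (outputsState 1 k 0 n g).ncard}.Nonempty :=
    ⟨_, _, hvalid, rfl⟩
  constructor
  · obtain ⟨g, hg, hN⟩ := Nat.sInf_mem hne
    change _ ≤ ((sInf {N | ∃ g, ValidState k g ∧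
      N = (outputsState 1 k 0 n g).ncard} : ℕ) : ℝ)
    rw [hN]
    have hgv : ∀ (mem : List Bool) (s : Bool → ℕ), s false + s true = k →
        0 < s ((fun m s => g m s []) mem s) := fun mem s hs => hg mem s [] hs
    obtain ⟨j, hjk, hup, hlow⟩ := lower_state hk (g := fun m s => g m s []) hgv lam h1 hlam
    have hsum0 : st k 0 false + st k 0 true = k := by simp [st]
    have hg0 : g [] (st k 0) [] = false := by
      have := hg [] (st k 0) [] hsum0
      cases h : g [] (st k 0) []
      · rfl
      · rw [h] at this; simp [st] at this
    -- lower bound on the words from the empty box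
    have hW : (lam ^ (2 * k + 1))⁻¹ * lam ^ n ≤
        ((W (outS fun m s => g m s []) (nxtS fun m s => g m s []) n ([], st k 0)).card : ℝ) := by
      rcases Nat.lt_or_ge n (j + 1) with hn | hn
      · have hne' : (W (outS fun m s => g m s []) (nxtS fun m s => g m s []) n
            ([], st k 0)).Nonempty := by
          refine ⟨_, (mem_W_iff _ _ n _ _).2 ⟨List.replicate n false, by simp, rfl⟩⟩
        have h1c : (1 : ℝ) ≤ ((W (outS fun m s => g m s []) (nxtS fun m s => g m s []) n
            ([], st k 0)).card : ℝ) := by exact_mod_cast Finset.card_pos.2 hne'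
        refine le_trans ?_ h1c
        rw [inv_mul_le_iff₀ (pow_pos hpos _), mul_one]
        exact pow_le_pow_right₀ h1.le (by omega)
      · -- use the path to ([false], st k j)
        have e1 : nxtS (fun m s => g m s []) ([], st k 0) false = ([false], st k 0) := by
          simp only [nxtS, hg0, st_ff (show 0 < k by omega)]
        obtain ⟨e2, _⟩ := path_up (g := fun m s => g m s []) j hjk hup j 0 (by omega)
        rw [Nat.zero_add] at e2
        have e3 : (false :: List.replicate j true).foldl (nxtS fun m s => g m s [])
            ([], st k 0) = ([false], st k j) := by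
          rw [List.foldl_cons, e1, e2]
        have hsub : (W (outS fun m s => g m s []) (nxtS fun m s => g m s []) (n - (j + 1))
            ([false], st k j)).image
              (fun w => outs (outS fun m s => g m s []) (nxtS fun m s => g m s [])
                ([], st k 0) (false :: List.replicate j true) ++ w) ⊆
            W (outS fun m s => g m s []) (nxtS fun m s => g m s []) n ([], st k 0) := by
          intro w hw
          rw [Finset.mem_image] at hw
          obtain ⟨z, hz, rfl⟩ := hw
          rw [← e3] at hz
          have h := append_mem_W (outS fun m s => g m s []) (nxtS fun m s => g m s [])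
            (false :: List.replicate j true) (n - (j + 1)) ([], st k 0) z hz
          have e6 : n - (j + 1) + (false :: List.replicate j true).length = n := by
            simp; omega
          rwa [e6] at h
        have hc := Finset.card_le_card hsub
        rw [Finset.card_image_of_injective _ (append_left_inj' _)] at hc
        have hc' : ((W (outS fun m s => g m s []) (nxtS fun m s => g m s []) (n - (j + 1))
            ([false], st k j)).card : ℝ) ≤
            ((W (outS fun m s => g m s []) (nxtS fun m s => g m s []) n ([], st k 0)).card : ℝ) := by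
          exact_mod_cast hc
        refine le_trans ?_ ((hlow (n - (j + 1))).trans hc')
        rw [inv_mul_eq_div, div_le_div_iff₀ (pow_pos hpos _) (pow_pos hpos _), ← pow_add, ← pow_add]
        exact pow_le_pow_right₀ h1.le (by omega)
    refine hW.trans ?_
    have hsub : ((W (outS fun m s => g m s []) (nxtS fun m s => g m s []) n ([], st k 0) :
        Finset (List Bool)) : Set (List Bool)) ⊆ outputsState 1 k 0 n g := by
      intro y hy
      exact (hout g y).2 ⟨st k 0, hsum0, hy⟩
    have h := Set.ncard_le_ncard hsub (hfin g)
    rw [Set.ncard_coe_finset] at h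
    exact_mod_cast h
  · have hle : minState 1 k 0 n ≤
        (outputsState 1 k 0 n (fun m s _ => repeatRule m s)).ncard :=
      Nat.sInf_le ⟨_, hvalid, rfl⟩
    have hsub : outputsState 1 k 0 n (fun m s _ => repeatRule m s) ⊆
        ((G k n true 0 : Finset (List Bool)) : Set (List Bool)) := by
      intro y hy
      obtain ⟨s, hs, hy'⟩ := (hout _ y).1 hy
      exact repeat_upper hk n [] s 0 hs (Nat.zero_le _) hy'
    have h := Set.ncard_le_ncard hsub (Finset.finite_toSet _)
    rw [Set.ncard_coe_finset] at h
    have hcard : ((G k n true 0).card : ℝ) ≤ (2 * lam ^ k) * lam ^ n := by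
      have hB := G_card k lam h1 hk hlam n true 0 (Nat.zero_le _)
      rw [Nat.sub_zero, pow_add] at hB
      have hpos' : 0 < lam ^ k * lam ^ n := by positivity
      nlinarith
    refine le_trans ?_ hcard
    exact_mod_cast hle.trans h

/-- For every box size `β ≥ 2` the optimal rate with known entrance order, no output memory and no
look-ahead equals the optimal rate of a box of size `β - 1` knowing only the state and the last
output; both equal `log₂ λ`, where `λ ^ (β-1) - λ ^ (β-2) - 1 = 0`. -/
theorem result_proof (β : ℕ) (hβ : 2 ≤ β) :
    ∃ lam : ℝ, 1 < lam ∧ lam ^ (β - 1) - lam ^ (β - 2) - 1 = 0 ∧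
      Tendsto (fun n : ℕ => Real.logb 2 (minOrd 0 β 0 n) / n) atTop (𝓝 (Real.logb 2 lam)) ∧
      Tendsto (fun n : ℕ => Real.logb 2 (minState 1 (β - 1) 0 n) / n) atTop
        (𝓝 (Real.logb 2 lam)) := by
  obtain ⟨k, rfl⟩ : ∃ k, β = k + 1 := ⟨β - 1, by omega⟩
  have hk : 1 ≤ k := by omega
  obtain ⟨lam, h1, h2, hlam⟩ := exists_lam k hk
  have hpos : 0 < lam := by linarith
  refine ⟨lam, h1, ?_, ?_, ?_⟩
  · have e1 : k + 1 - 1 = k := rfl
    have e2 : k + 1 - 2 = k - 1 := rfl
    rw [e1, e2, hlam]; ring
  · exact rate_of_bounds _ lam (lam ^ (k + 1))⁻¹ (2 * lam ^ k) h1 (by positivity) (by positivity)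
      (fun n => (minOrd_bounds k hk lam h1 h2 hlam n).1)
      (fun n => (minOrd_bounds k hk lam h1 h2 hlam n).2)
  · exact rate_of_bounds _ lam (lam ^ (2 * k + 1))⁻¹ (2 * lam ^ k) h1 (by positivity)
      (by positivity) (fun n => (minState_bounds k hk lam h1 hlam n).1)
      (fun n => (minState_bounds k hk lam h1 hlam n).2)

end Pool.Agent.Results.MP_8dea01_co.EntranceOrder
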