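import Mathlib

/-!
# A finite basis for the laws of the ten-element loop

The loop is the Steiner loop of the affine plane of order three.  We give an explicit finite basis
of its laws (29 laws, each in at most five variables).
-/

namespace Pool.Agent.Results.MP_8f735f_al.FiniteBasis

/-- Terms in the signature `(·, \, /, 1)` of loops. -/
inductive LTerm : Type
  | var (n : ℕ) : LTerm
  | one : LTerm
  | mul (s t : LTerm) : LTerm
  | ldiv (s t : LTerm) : LTerm
  | rdiv (s t : LTerm) : LTerm

/-- An algebra in the signature of loops. -/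
structure LoopOps (A : Type) where
  /-- the product `a · b` -/
  mul : A → A → A
  /-- the left division `a \ b` -/
  ldiv : A → A → A
  /-- the right division `a / b` -/
  rdiv : A → A → A
  /-- the identity element -/
  one : A

namespace LTerm

/-- The value of a term under an assignment of the variables. -/
def eval {A : Type} (O : LoopOps A) (v : ℕ → A) : LTerm → A
  | var n => v n
  | one => O.one
  | mul s t => O.mul (eval O v s) (eval O v t)
  | ldiv s t => O.ldiv (eval O v s) (eval O v t)
  | rdiv s t => O.rdiv (eval O v s) (eval O v t)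

/-- Substitution of terms for the variables. -/
def subst (σ : ℕ → LTerm) : LTerm → LTerm
  | var n => σ n
  | one => one
  | mul s t => mul (subst σ s) (subst σ t)
  | ldiv s t => ldiv (subst σ s) (subst σ t)
  | rdiv s t => rdiv (subst σ s) (subst σ t)

/-- All variables of the term have index smaller than `k`. -/
def VarsLT (k : ℕ) : LTerm → Prop
  | var n => n < k
  | one => True
  | mul s t => VarsLT k s ∧ VarsLT k t
  | ldiv s t => VarsLT k s ∧ VarsLT k t
  | rdiv s t => VarsLT k s ∧ VarsLT k t

end LTerm

open LTerm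

/-- `Derives E s t`: the identity `s = t` is derivable from the set `E` of identities by
equational logic. -/
inductive Derives (E : Set (LTerm × LTerm)) : LTerm → LTerm → Prop
  | ax (e : LTerm × LTerm) (he : e ∈ E) (σ : ℕ → LTerm) : Derives E (e.1.subst σ) (e.2.subst σ)
  | refl (s : LTerm) : Derives E s s
  | symm {s t : LTerm} : Derives E s t → Derives E t s
  | trans {s t r : LTerm} : Derives E s t → Derives E t r → Derives E s r
  | mul {s s' t t' : LTerm} : Derives E s s' → Derives E t t' → Derives E (mul s t) (mul s' t')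
  | ldiv {s s' t t' : LTerm} : Derives E s s' → Derives E t t' → Derives E (ldiv s t) (ldiv s' t')
  | rdiv {s s' t t' : LTerm} : Derives E s s' → Derives E t t' → Derives E (rdiv s t) (rdiv s' t')

/-- The multiplication table of the loop `L` on `{1, …, 10}`. -/
def table : List (List ℕ) :=
  [[1, 2, 3, 4, 5, 6, 7, 8, 9, 10],
   [2, 1, 4, 3, 8, 9, 10, 5, 6, 7],
   [3, 4, 1, 2, 9, 10, 8, 7, 5, 6],
   [4, 3, 2, 1, 10, 8, 9, 6, 7, 5],
   [5, 8, 9, 10, 1, 7, 6, 2, 3, 4],
   [6, 9, 10, 8, 7, 1, 5, 4, 2, 3],
   [7, 10, 8, 9, 6, 5, 1, 3, 4, 2],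
   [8, 5, 7, 6, 2, 4, 3, 1, 10, 9],
   [9, 6, 5, 7, 3, 2, 4, 10, 1, 8],
   [10, 7, 6, 5, 4, 3, 2, 9, 8, 1]]

/-- The product of the loop, read off from the table; `i : Fin 10` stands for the element
`i + 1 ∈ {1, …, 10}`. -/
def tenMul (i j : Fin 10) : Fin 10 :=
  Fin.ofNat 10 (((table.getD i.val []).getD j.val 0) - 1)

/-- The solution `x` of `a · x = b`. -/
def tenLdiv (a b : Fin 10) : Fin 10 :=
  ((List.finRange 10).find? (fun x => tenMul a x = b)).getD 0

/-- The solution `y` of `y · b = a`. -/
def tenRdiv (a b : Fin 10) : Fin 10 :=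
  ((List.finRange 10).find? (fun y => tenMul y b = a)).getD 0

/-- The ten-element loop `L`. -/
def tenLoop : LoopOps (Fin 10) where
  mul := tenMul
  ldiv := tenLdiv
  rdiv := tenRdiv
  one := 0

/-- `s = t` is a law of the loop `L`. -/
def IsLaw (s t : LTerm) : Prop := ∀ v : ℕ → Fin 10, eval tenLoop v s = eval tenLoop v t

section Terms

/-- The associator term `((x y) z) (x (y z))`. -/
def tT (x y z : LTerm) : LTerm := mul (mul (mul x y) z) (mul x (mul y z))

/-- The term `p(x, y, z, w)`: in `L` it is `w` if `x, y, z` generate `L`, and `1` otherwise. -/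
def pT (x y z w : LTerm) : LTerm :=
  let x' := tT z x y
  let y' := tT x y z
  let z' := tT y z x
  let w1 := tT x' w z'
  let w2 := tT x' (mul w w1) y'
  let w3 := tT y' (mul (mul w w1) w2) z'
  mul (mul w1 w2) w3

/-- The basis of the laws of `L`. -/
def basis : List (LTerm × LTerm) :=
  let x := var 0
  let y := var 1
  let z := var 2
  let w := var 3
  let u := var 4
  let x' := tT z x y
  let y' := tT x y z
  let z' := tT y z x
  let xy := mul x' y'
  let yz := mul y' z'
  let xyz := mul xy z'
  let w0 := mul w (tT x' w z')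
  let w2 := tT x' w0 y'
  let e := mul w0 w2
  let w4 := tT y' w2 z'
  let w3 := mul w2 w4
  [ -- the laws of Steiner loops
    (ldiv x y, mul x y),
    (rdiv x y, mul x y),
    (mul x y, mul y x),
    (mul x (mul x y), y),
    (mul one x, x),
    -- the decomposition laws
    (pT x y z (mul w u), mul (pT x y z w) (pT x y z u)),
    (mul (mul w u) (pT x y z (mul w u)), mul (mul w (pT x y z w)) (mul u (pT x y z u))),
    (pT x y z (pT x y z w), pT x y z w),
    (pT x y z x, x'),
    (pT x y z y, y'),
    (pT x y z z, z'),
    -- the laws locating the fourth point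
    (tT x' (tT y' (tT xy w yz) xyz) z', one),
    (tT y' x' xyz, x'),
    (tT xy x' yz, x'),
    (tT x' e z', one),
    (tT x' e y', one),
    (pT y' e z' (mul e x'), one),
    (tT x' w3 z', one),
    (tT y' w3 z', one),
    (pT x' w3 y' (mul w3 z'), one),
    (tT x' w4 z', one),
    (pT x' w4 y' (mul w4 (mul x' z')), one),
    (pT y' w4 z' (mul w4 (mul x' z')), one),
    -- the remaining lines of the plane
    (mul x' (mul y' xyz), yz),
    (mul x' xyz, mul xy yz),
    (mul z' (mul y' xyz), mul xy yz),
    (mul (mul x' z') y', mul xy yz),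
    (mul (mul x' z') (mul y' xyz), xy),
    (mul (mul x' z') xyz, yz) ]

end Terms

end Pool.Agent.Results.MP_8f735f_al.FiniteBasis
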