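import Mathlib
import Pool.Agent.H20.SPL.FiniteBasisDefs

/-!
# A finite basis for the laws of the ten-element loop

The loop is the Steiner loop of the affine plane of order three.  We give an explicit finite basis
of its laws (29 laws, each in at most five variables).
-/

namespace Pool.Agent.Results.MP_8f735f_al.FiniteBasis

/-! ### Terms, algebras, equational logic -/


namespace LTerm


end LTerm

open LTerm


/-! ### The ten-element loop -/


/-- The table is that of a loop, and the divisions are those of the loop. -/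
theorem tenLoop_isLoop :
    (∀ x, tenLoop.mul tenLoop.one x = x ∧ tenLoop.mul x tenLoop.one = x) ∧
    (∀ a b x, tenLoop.mul a x = b ↔ x = tenLoop.ldiv a b) ∧
    (∀ a b y, tenLoop.mul y b = a ↔ y = tenLoop.rdiv a b) := by
  decide +kernel


/-! ### The terms used in the basis -/

section Terms


end Terms

/-! ### The same terms as functions -/

section Functions

variable {Q : Type} [Mul Q] [One Q]

/-- The associator. -/
def tF (x y z : Q) : Q := ((x * y) * z) * (x * (y * z))

/-- The function `p` in terms of the restricted elements. -/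
def pF' (x' y' z' w : Q) : Q :=
  (tF x' w z' * tF x' (w * tF x' w z') y') *
    tF y' ((w * tF x' w z') * tF x' (w * tF x' w z') y') z'

/-- The function `p`. -/
def pF (x y z w : Q) : Q := pF' (tF z x y) (tF x y z) (tF y z x) w

/-- The algebra in the signature of loops with both divisions equal to the product. -/
def opsOf (Q : Type) [Mul Q] [One Q] : LoopOps Q where
  mul a b := a * b
  ldiv a b := a * b
  rdiv a b := a * b
  one := 1

theorem eval_mul (v : ℕ → Q) (s t : LTerm) :
    eval (opsOf Q) v (mul s t) = eval (opsOf Q) v s * eval (opsOf Q) v t := rfl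

theorem eval_one (v : ℕ → Q) : eval (opsOf Q) v one = 1 := rfl

theorem eval_var (v : ℕ → Q) (n : ℕ) : eval (opsOf Q) v (var n) = v n := rfl

theorem eval_tT (v : ℕ → Q) (x y z : LTerm) : eval (opsOf Q) v (tT x y z) =
    tF (eval (opsOf Q) v x) (eval (opsOf Q) v y) (eval (opsOf Q) v z) := rfl

theorem eval_pT (v : ℕ → Q) (x y z w : LTerm) : eval (opsOf Q) v (pT x y z w) =
    pF (eval (opsOf Q) v x) (eval (opsOf Q) v y) (eval (opsOf Q) v z)
      (eval (opsOf Q) v w) := rfl

/-- The algebra satisfies the identities of the basis. -/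
def Sat (Q : Type) [Mul Q] [One Q] : Prop :=
  ∀ e ∈ basis, ∀ v : ℕ → Q, eval (opsOf Q) v e.1 = eval (opsOf Q) v e.2

/-- The identities of the basis, written out. -/
structure Laws (Q : Type) [Mul Q] [One Q] : Prop where
  comm : ∀ x y : Q, x * y = y * x
  st : ∀ x y : Q, x * (x * y) = y
  one_mul : ∀ x : Q, 1 * x = x
  p_mul : ∀ x y z w u : Q, pF x y z (w * u) = pF x y z w * pF x y z u
  k_mul : ∀ x y z w u : Q, (w * u) * pF x y z (w * u) =
    (w * pF x y z w) * (u * pF x y z u)
  p_p : ∀ x y z w : Q, pF x y z (pF x y z w) = pF x y z w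
  p_x : ∀ x y z : Q, pF x y z x = tF z x y
  p_y : ∀ x y z : Q, pF x y z y = tF x y z
  p_z : ∀ x y z : Q, pF x y z z = tF y z x
  main : ∀ x y z w x' y' z' : Q, x' = tF z x y → y' = tF x y z → z' = tF y z x →
    tF x' (tF y' (tF (x' * y') w (y' * z')) (x' * y' * z')) z' = 1 ∧
    tF y' x' (x' * y' * z') = x' ∧
    tF (x' * y') x' (y' * z') = x' ∧
    (∀ w0 w2 e w3 w4, w0 = w * tF x' w z' → w2 = tF x' w0 y' → e = w0 * w2 →
      w4 = tF y' w2 z' → w3 = w2 * w4 →
      tF x' e z' = 1 ∧ tF x' e y' = 1 ∧ pF y' e z' (e * x') = 1 ∧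
      tF x' w3 z' = 1 ∧ tF y' w3 z' = 1 ∧ pF x' w3 y' (w3 * z') = 1 ∧
      tF x' w4 z' = 1 ∧ pF x' w4 y' (w4 * (x' * z')) = 1 ∧
      pF y' w4 z' (w4 * (x' * z')) = 1) ∧
    x' * (y' * (x' * y' * z')) = y' * z' ∧
    x' * (x' * y' * z') = (x' * y') * (y' * z') ∧
    z' * (y' * (x' * y' * z')) = (x' * y') * (y' * z') ∧
    (x' * z') * y' = (x' * y') * (y' * z') ∧
    (x' * z') * (y' * (x' * y' * z')) = x' * y' ∧
    (x' * z') * (x' * y' * z') = y' * z'

/-- The five-tuple as an assignment. -/
def asg (a b c d e : Q) : ℕ → Q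
  | 0 => a
  | 1 => b
  | 2 => c
  | 3 => d
  | 4 => e
  | _ => a

theorem Sat.laws (h : Sat Q) : Laws Q := by
  unfold Sat basis at h
  simp only [List.mem_cons, forall_eq_or_imp, List.not_mem_nil, eval_mul, eval_tT, eval_pT,
    eval_one, eval_var, or_false, forall_eq] at h
  obtain ⟨-, -, h3, h4, h5, h6, h7, h8, h9, h10, h11, h12, h13, h14, h15, h16, h17, h18, h19, h20,
    h21, h22, h23, h24, h25, h26, h27, h28, h29⟩ := h
  constructor
  · intro x y; exact h3 (asg x y x x x)
  · intro x y; exact h4 (asg x y x x x)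
  · intro x; exact h5 (asg x x x x x)
  · intro x y z w u; exact h6 (asg x y z w u)
  · intro x y z w u; exact h7 (asg x y z w u)
  · intro x y z w; exact h8 (asg x y z w w)
  · intro x y z; exact h9 (asg x y z z z)
  · intro x y z; exact h10 (asg x y z z z)
  · intro x y z; exact h11 (asg x y z z z)
  · rintro x y z w _ _ _ rfl rfl rfl
    have a0 : asg x y z w w 0 = x := rfl
    have a1 : asg x y z w w 1 = y := rfl
    have a2 : asg x y z w w 2 = z := rfl
    have a3 : asg x y z w w 3 = w := rfl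
    have h12 := h12 (asg x y z w w)
    have h13 := h13 (asg x y z w w)
    have h14 := h14 (asg x y z w w)
    have h15 := h15 (asg x y z w w)
    have h16 := h16 (asg x y z w w)
    have h17 := h17 (asg x y z w w)
    have h18 := h18 (asg x y z w w)
    have h19 := h19 (asg x y z w w)
    have h20 := h20 (asg x y z w w)
    have h21 := h21 (asg x y z w w)
    have h22 := h22 (asg x y z w w)
    have h23 := h23 (asg x y z w w)
    have h24 := h24 (asg x y z w w)
    have h25 := h25 (asg x y z w w)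
    have h26 := h26 (asg x y z w w)
    have h27 := h27 (asg x y z w w)
    have h28 := h28 (asg x y z w w)
    have h29 := h29 (asg x y z w w)
    rw [a0, a1, a2] at h13 h14 h24 h25 h26 h27 h28 h29
    rw [a0, a1, a2, a3] at h12 h15 h16 h17 h18 h19 h20 h21 h22 h23
    refine ⟨h12, h13, h14, ?_, h24, h25, h26, h27, h28, h29⟩
    rintro _ _ _ _ _ rfl rfl rfl rfl rfl
    exact ⟨h15, h16, h17, h18, h19, h20, h21, h22, h23⟩

end Functions

/-! ### Subdirectly irreducible algebras satisfying the laws -/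

namespace Laws

variable {Q : Type} [Mul Q] [One Q]

theorem mul_one (h : Laws Q) (x : Q) : x * 1 = x := by rw [h.comm, h.one_mul]

theorem mul_self (h : Laws Q) (x : Q) : x * x = 1 := by
  have := h.st x 1
  rwa [h.mul_one] at this

theorem eq_of_mul_eq_one (h : Laws Q) {x y : Q} (hxy : x * y = 1) : x = y := by
  have := h.st x y
  rwa [hxy, h.mul_one] at this

theorem tF_one_left (h : Laws Q) (y z : Q) : tF 1 y z = 1 := by
  unfold tF
  rw [h.one_mul, h.one_mul, h.mul_self]

theorem tF_one_right (h : Laws Q) (x y : Q) : tF x y 1 = 1 := by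
  unfold tF
  rw [h.mul_one, h.mul_one, h.mul_self]

theorem tF_one_mid (h : Laws Q) (x z : Q) : tF x 1 z = 1 := by
  unfold tF
  rw [h.mul_one, h.one_mul, h.mul_self]

theorem pF'_one (h : Laws Q) (w : Q) : pF' 1 1 1 w = 1 := by
  unfold pF'
  rw [h.tF_one_left, h.tF_one_left, h.mul_one, h.tF_one_left, h.mul_one]

end Laws

/-- `Q` is subdirectly irreducible, and its monolith contains the pair `(a, b)`. -/
def IsSI (Q : Type) [Mul Q] (a b : Q) : Prop :=
  a ≠ b ∧ ∀ c : Con Q, (∃ x y, x ≠ y ∧ c x y) → c a b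

/-- A triple for which `p(x, y, z, ·)` is the identity. -/
def Full {Q : Type} [Mul Q] [One Q] (x y z : Q) : Prop := ∀ w, pF x y z w = w

/-- A triple for which `p(x, y, z, ·)` is constant. -/
def Null {Q : Type} [Mul Q] [One Q] (x y z : Q) : Prop := ∀ w, pF x y z w = 1

section SI

variable {Q : Type} [Mul Q] [One Q] {a b : Q}

theorem full_or_null (h : Laws Q) (hs : IsSI Q a b) (x y z : Q) : Full x y z ∨ Null x y z := by
  let c1 : Con Q :=
    { r := fun u v => pF x y z u = pF x y z v
      iseqv := ⟨fun _ => rfl, fun h => h.symm, fun h1 h2 => h1.trans h2⟩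
      mul' := by
        intro u v u' v' h1 h2
        rw [h.p_mul, h.p_mul, h1, h2] }
  let c2 : Con Q :=
    { r := fun u v => u * pF x y z u = v * pF x y z v
      iseqv := ⟨fun _ => rfl, fun h => h.symm, fun h1 h2 => h1.trans h2⟩
      mul' := by
        intro u v u' v' h1 h2
        rw [h.k_mul, h.k_mul, h1, h2] }
  by_cases hn : ∃ u v, u ≠ v ∧ c1 u v
  · right
    by_cases hn2 : ∃ u v, u ≠ v ∧ c2 u v
    · exfalso
      have e1 : pF x y z a = pF x y z b := hs.2 c1 hn
      have e2 : a * pF x y z a = b * pF x y z b := hs.2 c2 hn2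
      rw [e1] at e2
      apply hs.1
      have e3 := h.st (pF x y z b) a
      rw [h.comm _ a, e2, h.comm b, h.st] at e3
      exact e3.symm
    · push Not at hn2
      intro w
      by_contra hw
      have e0 : pF x y z (w * pF x y z w) = 1 := by rw [h.p_mul, h.p_p, h.mul_self]
      have e1 : c2 (w * pF x y z w) w := by
        show (w * pF x y z w) * pF x y z (w * pF x y z w) = w * pF x y z w
        rw [e0, h.mul_one]
      have e2 : w * pF x y z w ≠ w := by
        intro e
        apply hw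
        have := h.st w (pF x y z w)
        rw [e, h.mul_self] at this
        exact this.symm
      exact hn2 _ _ e2 e1
  · left
    push Not at hn
    intro w
    by_contra hw
    exact hn _ _ hw (h.p_p x y z w)

theorem Full.t (h : Laws Q) {x y z : Q} (hf : Full x y z) : tF x y z = y := by
  rw [← h.p_y, hf]

theorem Full.tx (h : Laws Q) {x y z : Q} (hf : Full x y z) : tF z x y = x := by
  rw [← h.p_x, hf]

theorem Full.tz (h : Laws Q) {x y z : Q} (hf : Full x y z) : tF y z x = z := by
  rw [← h.p_z, hf]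

theorem Null.t (h : Laws Q) {x y z : Q} (hf : Null x y z) : tF x y z = 1 := by
  rw [← h.p_y, hf]

theorem t_or (h : Laws Q) (hs : IsSI Q a b) (x y z : Q) : tF x y z = y ∨ tF x y z = 1 := by
  rcases full_or_null h hs x y z with hf | hf
  · left; exact hf.t h
  · right; exact hf.t h

theorem full_of_t (h : Laws Q) (hs : IsSI Q a b) {x y z : Q} (ht : tF x y z ≠ 1) :
    Full x y z := by
  rcases full_or_null h hs x y z with hf | hf
  · exact hf
  · exact absurd (hf.t h) ht

theorem Full.ne_one_left (h : Laws Q) (hs : IsSI Q a b) {x y z : Q} (hf : Full x y z) :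
    x ≠ 1 := by
  rintro rfl
  have hy : y = 1 := by rw [← hf.t h, h.tF_one_left]
  subst hy
  have hz : z = 1 := by rw [← hf.tz h, h.tF_one_left]
  subst hz
  have : ∀ w : Q, w = 1 := by
    intro w
    rw [← hf w, pF, h.tF_one_left, h.pF'_one]
  exact hs.1 (by rw [this a, this b])

theorem Full.cover (h : Laws Q) (hs : IsSI Q a b) {x y z : Q} (hf : Full x y z) {u : Q}
    (hu : u ≠ 1) : Full x u z ∨ Full x u y ∨ Full y u z := by
  have h1 := hf u
  rw [pF, hf.t h, hf.tx h, hf.tz h, pF'] at h1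
  rcases full_or_null h hs x u z with h2 | h2
  · exact Or.inl h2
  · rw [h2.t h, h.mul_one] at h1
    rcases full_or_null h hs x u y with h3 | h3
    · exact Or.inr (Or.inl h3)
    · rw [h3.t h, h.mul_one, h.one_mul, h.mul_one] at h1
      exact Or.inr (Or.inr (full_of_t h hs (by rw [h1]; exact hu)))

/-- The restricted elements of a full triple are the elements themselves. -/
theorem Full.mainLaws (h : Laws Q) {x y z : Q} (hf : Full x y z) (w : Q) :
    tF x (tF y (tF (x * y) w (y * z)) (x * y * z)) z = 1 ∧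
    tF y x (x * y * z) = x ∧
    tF (x * y) x (y * z) = x ∧
    (∀ w0 w2 e w3 w4, w0 = w * tF x w z → w2 = tF x w0 y → e = w0 * w2 →
      w4 = tF y w2 z → w3 = w2 * w4 →
      tF x e z = 1 ∧ tF x e y = 1 ∧ pF y e z (e * x) = 1 ∧
      tF x w3 z = 1 ∧ tF y w3 z = 1 ∧ pF x w3 y (w3 * z) = 1 ∧
      tF x w4 z = 1 ∧ pF x w4 y (w4 * (x * z)) = 1 ∧
      pF y w4 z (w4 * (x * z)) = 1) ∧
    x * (y * (x * y * z)) = y * z ∧
    x * (x * y * z) = (x * y) * (y * z) ∧
    z * (y * (x * y * z)) = (x * y) * (y * z) ∧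
    (x * z) * y = (x * y) * (y * z) ∧
    (x * z) * (y * (x * y * z)) = x * y ∧
    (x * z) * (x * y * z) = y * z :=
  h.main x y z w x y z (hf.tx h).symm (hf.t h).symm (hf.tz h).symm

theorem line (h : Laws Q) (hs : IsSI Q a b) {x y z : Q} (hf : Full x y z) {w : Q}
    (hw : tF x w z = 1) : w = 1 ∨ w = x ∨ w = z ∨ w = x * z := by
  obtain ⟨-, -, -, hR, -⟩ := hf.mainLaws h w
  by_cases hw1 : w = 1
  · exact Or.inl hw1
  rcases t_or h hs x w y with h1 | h1
  · -- `w2 = w`
    obtain ⟨-, -, -, r4, r5, r6, r7, r8, r9⟩ := hR w w 1 (w * tF y w z) (tF y w z)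
      (by rw [hw, h.mul_one]) h1.symm (h.mul_self w).symm rfl rfl
    rcases t_or h hs y w z with h2 | h2
    · rw [h2] at r7 r8 r9
      rcases hf.cover h hs hw1 with h3 | h3 | h3
      · exact absurd (by rw [← h3.t h]; exact r7) hw1
      · right; right; right
        rw [h3] at r8
        exact h.eq_of_mul_eq_one r8
      · right; right; right
        rw [h3] at r9
        exact h.eq_of_mul_eq_one r9
    · rw [h2, h.mul_one] at r4 r5 r6
      rcases hf.cover h hs hw1 with h3 | h3 | h3
      · exact absurd (by rw [← h3.t h]; exact r4) hw1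
      · right; right; left
        rw [h3] at r6
        exact h.eq_of_mul_eq_one r6
      · exact absurd (by rw [← h3.t h]; exact r5) hw1
  · -- `e = w`
    obtain ⟨r1, r2, r3, -⟩ := hR w 1 w 1 1 (by rw [hw, h.mul_one]) h1.symm (h.mul_one w).symm
      (h.tF_one_mid y z).symm (h.mul_one 1).symm
    rcases hf.cover h hs hw1 with h3 | h3 | h3
    · exact absurd (by rw [← h3.t h]; exact r1) hw1
    · exact absurd (by rw [← h3.t h]; exact r2) hw1
    · right; left
      rw [h3] at r3
      exact h.eq_of_mul_eq_one r3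

/-- Every element lies in the plane generated by a full triple. -/
theorem plane (h : Laws Q) (hs : IsSI Q a b) {x y z : Q} (hf : Full x y z) (w : Q) :
    w = 1 ∨ w = x ∨ w = z ∨ w = x * z ∨ w = y ∨ w = y * (x * y * z) ∨ w = x * y * z ∨
      w = x * y ∨ w = y * z ∨ w = (x * y) * (y * z) := by
  obtain ⟨hN, hM1, hM2, -⟩ := hf.mainLaws h w
  have hx := hf.ne_one_left h hs
  have f1 : Full y x (x * y * z) := full_of_t h hs (by rw [hM1]; exact hx)
  have f2 : Full (x * y) x (y * z) := full_of_t h hs (by rw [hM2]; exact hx)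
  rcases t_or h hs (x * y) w (y * z) with h1 | h1
  · rw [h1] at hN
    rcases t_or h hs y w (x * y * z) with h2 | h2
    · rw [h2] at hN
      rcases line h hs hf hN with h3 | h3 | h3 | h3 <;> simp [h3]
    · rcases line h hs f1 h2 with h3 | h3 | h3 | h3 <;> simp [h3]
  · rcases line h hs f2 h1 with h3 | h3 | h3 | h3 <;> simp [h3]

end SI

/-! ### The laws hold in the ten-element loop -/

section Verification

/-- The carrier `Fin 10` of the loop `L`, with the product of `L` as multiplication. -/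
def Ten : Type := Fin 10

instance : Mul Ten := ⟨tenMul⟩
instance : One Ten := ⟨(0 : Fin 10)⟩
instance : DecidableEq Ten := inferInstanceAs (DecidableEq (Fin 10))

theorem tenLoop_eq : tenLoop = opsOf Ten := by
  have h1 : tenLdiv = tenMul := by
    funext i j
    revert i j
    decide +kernel
  have h2 : tenRdiv = tenMul := by
    funext i j
    revert i j
    decide +kernel
  show (⟨tenMul, tenLdiv, tenRdiv, 0⟩ : LoopOps (Fin 10)) = ⟨tenMul, tenMul, tenMul, 0⟩
  rw [h1, h2]

/-- The table of the loop, coded by a number. -/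
def code : ℕ :=
  781234569709312645889023156471320458796213406798532156098744658790123546798103265498723019876543210

/-- The product, computed from the code. -/
def fm (i j : ℕ) : ℕ := (code / 10 ^ (10 * i + j)) % 10

theorem val_mul (i j : Ten) : Fin.val (i * j : Ten) = fm (Fin.val i) (Fin.val j) := by
  have : ∀ i j : Fin 10, (tenMul i j).val = fm i.val j.val := by decide +kernel
  exact this i j

theorem ten_ext {i j : Ten} (h : Fin.val i = Fin.val j) : i = j := Fin.ext h

/-- The associator, computed from the code. -/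
def tN (x y z : ℕ) : ℕ := fm (fm (fm x y) z) (fm x (fm y z))

theorem val_tF (x y z : Ten) :
    Fin.val (tF x y z : Ten) = tN (Fin.val x) (Fin.val y) (Fin.val z) := by
  unfold tF tN
  simp only [val_mul]

/-- The function `pF'`, computed from the code. -/
def pN (x y z w : ℕ) : ℕ :=
  fm (fm (tN x w z) (tN x (fm w (tN x w z)) y))
    (tN y (fm (fm w (tN x w z)) (tN x (fm w (tN x w z)) y)) z)

theorem val_pF' (x y z w : Ten) :
    Fin.val (pF' x y z w : Ten) = pN (Fin.val x) (Fin.val y) (Fin.val z) (Fin.val w) := by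
  unfold pF' pN
  simp only [val_mul, val_tF]

/-- Bounded quantification, as a Boolean. -/
def allN : ℕ → (ℕ → Bool) → Bool
  | 0, _ => true
  | n + 1, p => p n && allN n p

theorem allN_spec {n : ℕ} {p : ℕ → Bool} (h : allN n p = true) : ∀ k < n, p k = true := by
  induction n with
  | zero => intro k hk; omega
  | succ n ih =>
    intro k hk
    rw [allN, Bool.and_eq_true] at h
    rcases Nat.lt_succ_iff_lt_or_eq.1 hk with h1 | h1
    · exact ih h.2 k h1
    · rw [h1]; exact h.1

/-- The checks for triples. -/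
def chk3 (x y z : ℕ) : Bool :=
  let t := tN x y z
  let tx := tN z x y
  let tz := tN y z x
  (t.beq 0 && tx.beq 0 && tz.beq 0) ||
  (!(t.beq 0) && t.beq y && tx.beq x && tz.beq z &&
    (let xy := fm x y
     let yz := fm y z
     let xz := fm x z
     let xyz := fm xy z
     let c := fm xy yz
     (tN y x xyz).beq x && (tN xy x yz).beq x &&
     (fm x (fm y xyz)).beq yz && (fm x xyz).beq c && (fm z (fm y xyz)).beq c &&
     (fm xz y).beq c && (fm xz (fm y xyz)).beq xy && (fm xz xyz).beq yz))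

/-- The checks for quadruples. -/
def chk4 (x y z w : ℕ) : Bool :=
  (tN x y z).beq 0 ||
  ((pN x y z w).beq w &&
   (tN x (tN y (tN (fm x y) w (fm y z)) (fm (fm x y) z)) z).beq 0 &&
   (let w0 := fm w (tN x w z)
    let w2 := tN x w0 y
    let e := fm w0 w2
    let w4 := tN y w2 z
    let w3 := fm w2 w4
    (e.beq 0 || e.beq x) && (w3.beq 0 || w3.beq z) && (w4.beq 0 || w4.beq (fm x z))))

theorem all3 : allN 10 (fun x => allN 10 fun y => allN 10 fun z => chk3 x y z) = true := by
  decide +kernel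

theorem all4 : allN 10 (fun x => allN 10 fun y => allN 10 fun z => allN 10 fun w =>
    chk4 x y z w) = true := by
  decide +kernel

theorem chk3_ten (x y z : Ten) : chk3 (Fin.val x) (Fin.val y) (Fin.val z) = true :=
  allN_spec (allN_spec (allN_spec all3 _ (Fin.isLt x)) _ (Fin.isLt y)) _ (Fin.isLt z)

theorem chk4_ten (x y z w : Ten) :
    chk4 (Fin.val x) (Fin.val y) (Fin.val z) (Fin.val w) = true :=
  allN_spec (allN_spec (allN_spec (allN_spec all4 _ (Fin.isLt x)) _ (Fin.isLt y)) _
    (Fin.isLt z)) _ (Fin.isLt w)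

theorem ten_one_val : Fin.val (1 : Ten) = 0 := rfl

theorem ten_comm (x y : Ten) : x * y = y * x := by
  have : ∀ i j : Fin 10, tenMul i j = tenMul j i := by decide +kernel
  exact this x y

theorem ten_st (x y : Ten) : x * (x * y) = y := by
  have : ∀ i j : Fin 10, tenMul i (tenMul i j) = j := by decide +kernel
  exact this x y

theorem ten_one_mul (x : Ten) : 1 * x = x := by
  have : ∀ i : Fin 10, tenMul 0 i = i := by decide +kernel
  exact this x

theorem ten_mul_one (x : Ten) : x * 1 = x := by rw [ten_comm, ten_one_mul]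

theorem ten_mul_self (x : Ten) : x * x = 1 := by
  have := ten_st x 1
  rwa [ten_mul_one] at this

theorem ten_t11 (w : Ten) : tF 1 w 1 = 1 := by
  unfold tF
  rw [ten_one_mul, ten_mul_one, ten_one_mul, ten_mul_self]

theorem ten_p111 (w : Ten) : pF' 1 1 1 w = 1 := by
  unfold pF'
  simp only [ten_t11, ten_mul_one]

/-- The dichotomy for triples in `L`. -/
theorem ten_tri (x y z : Ten) :
    (tF x y z = 1 ∧ tF z x y = 1 ∧ tF y z x = 1) ∨
    (tF x y z ≠ 1 ∧ tF x y z = y ∧ tF z x y = x ∧ tF y z x = z ∧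
      tF y x (x * y * z) = x ∧ tF (x * y) x (y * z) = x ∧
      x * (y * (x * y * z)) = y * z ∧
      x * (x * y * z) = (x * y) * (y * z) ∧
      z * (y * (x * y * z)) = (x * y) * (y * z) ∧
      (x * z) * y = (x * y) * (y * z) ∧
      (x * z) * (y * (x * y * z)) = x * y ∧
      (x * z) * (x * y * z) = y * z) := by
  have h := chk3_ten x y z
  unfold chk3 at h
  simp only [← val_mul, ← val_tF, Bool.or_eq_true, Bool.and_eq_true, Nat.beq_eq,
    Bool.not_eq_true'] at h
  rcases h with ⟨⟨h1, h2⟩, h3⟩ | h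
  · left
    exact ⟨ten_ext h1, ten_ext h2, ten_ext h3⟩
  · right
    obtain ⟨⟨⟨⟨h0, h1⟩, h2⟩, h3⟩, ⟨⟨⟨⟨⟨⟨⟨h4, h5⟩, h6⟩, h7⟩, h8⟩, h9⟩, h10⟩, h11⟩⟩ := h
    refine ⟨fun hc => by rw [hc] at h0; exact absurd h0 (by decide), ten_ext h1, ten_ext h2, ten_ext h3, ten_ext h4,
      ten_ext h5, ten_ext h6, ten_ext h7, ten_ext h8, ten_ext h9, ten_ext h10, ten_ext h11⟩

/-- The facts about quadruples in `L`. -/
theorem ten_quad (x y z w : Ten) (hne : tF x y z ≠ 1) :
    pF' x y z w = w ∧
    tF x (tF y (tF (x * y) w (y * z)) (x * y * z)) z = 1 ∧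
    ∀ w0 w2 e w3 w4, w0 = w * tF x w z → w2 = tF x w0 y → e = w0 * w2 →
      w4 = tF y w2 z → w3 = w2 * w4 →
      (e = 1 ∨ e = x) ∧ (w3 = 1 ∨ w3 = z) ∧ (w4 = 1 ∨ w4 = x * z) := by
  have h := chk4_ten x y z w
  unfold chk4 at h
  simp only [← val_mul, ← val_tF, ← val_pF', Bool.or_eq_true, Bool.and_eq_true, Nat.beq_eq] at h
  rcases h with h | h
  · exact absurd (ten_ext h) hne
  · obtain ⟨⟨h1, h2⟩, ⟨⟨h3, h4⟩, h5⟩⟩ := h
    refine ⟨ten_ext h1, ten_ext h2, ?_⟩
    rintro _ _ _ _ _ rfl rfl rfl rfl rfl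
    refine ⟨?_, ?_, ?_⟩
    · rcases h3 with h | h
      · exact Or.inl (ten_ext h)
      · exact Or.inr (ten_ext h)
    · rcases h4 with h | h
      · exact Or.inl (ten_ext h)
      · exact Or.inr (ten_ext h)
    · rcases h5 with h | h
      · exact Or.inl (ten_ext h)
      · exact Or.inr (ten_ext h)

/-- The meaning of `p` in `L`. -/
theorem ten_p (x y z w : Ten) : pF x y z w = if tF x y z = 1 then 1 else w := by
  rcases ten_tri x y z with ⟨h1, h2, h3⟩ | ⟨h0, h1, h2, h3, -⟩
  · rw [pF, h1, h2, h3, if_pos rfl, ten_p111]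
  · rw [if_neg h0, pF, h1, h2, h3, (ten_quad x y z w h0).1]

theorem ten_p11 (u w : Ten) : pF 1 u 1 w = 1 := by
  rw [ten_p, if_pos (ten_t11 u)]

theorem ten_t1 (x z : Ten) : tF x 1 z = 1 := by
  unfold tF
  rw [ten_mul_one, ten_one_mul, ten_mul_self]

theorem ten_mul_cancel (x z : Ten) : (x * z) * z = x := by
  rw [ten_comm, ten_comm x z, ten_st]

theorem ten_txx (x z : Ten) : tF x x z = 1 := by
  unfold tF
  rw [ten_mul_self, ten_one_mul, ten_st, ten_mul_self]

theorem ten_tzz (x z : Ten) : tF x z z = 1 := by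
  unfold tF
  rw [ten_mul_self, ten_mul_one, ten_mul_cancel, ten_mul_self]

theorem ten_txz (x z : Ten) : tF x (x * z) z = 1 := by
  unfold tF
  rw [ten_st, ten_mul_cancel, ten_mul_self, ten_mul_self, ten_mul_one]

theorem ten_p_one (x y z : Ten) : pF x y z 1 = 1 := by
  rw [ten_p, ite_self]

theorem ten_p_mid (x z w : Ten) : pF x 1 z w = 1 := by
  rw [ten_p, if_pos (ten_t1 x z)]

theorem sat_ten : Sat Ten := by
  unfold Sat basis
  simp only [List.mem_cons, forall_eq_or_imp, List.not_mem_nil, eval_mul, eval_tT, eval_pT,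
    eval_one, eval_var, or_false, forall_eq]
  refine ⟨fun v => rfl, fun v => rfl, fun v => ten_comm _ _, fun v => ten_st _ _,
    fun v => ten_one_mul _, ?_⟩
  refine ⟨?_, ?_, ?_, ?_, ?_, ?_, ?_⟩
  · intro v
    rw [ten_p, ten_p, ten_p]
    split_ifs
    · rw [ten_mul_one]
    · rfl
  · intro v
    rw [ten_p, ten_p, ten_p]
    split_ifs
    · rw [ten_mul_one, ten_mul_one, ten_mul_one]
    · rw [ten_mul_self, ten_mul_self, ten_mul_self, ten_mul_one]
  · intro v
    rw [ten_p, ten_p]
    split_ifs <;> rfl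
  · intro v
    rw [ten_p]
    rcases ten_tri (v 0) (v 1) (v 2) with ⟨h1, h2, h3⟩ | ⟨h0, h1, h2, h3, -⟩
    · rw [if_pos h1, h2]
    · rw [if_neg h0, h2]
  · intro v
    rw [ten_p]
    rcases ten_tri (v 0) (v 1) (v 2) with ⟨h1, h2, h3⟩ | ⟨h0, h1, h2, h3, -⟩
    · rw [if_pos h1, h1]
    · rw [if_neg h0, h1]
  · intro v
    rw [ten_p]
    rcases ten_tri (v 0) (v 1) (v 2) with ⟨h1, h2, h3⟩ | ⟨h0, h1, h2, h3, -⟩
    · rw [if_pos h1, h3]
    · rw [if_neg h0, h3]
  · have hall : ∀ v : ℕ → Ten,
        (tF (v 2) (v 0) (v 1) = 1 ∧ tF (v 0) (v 1) (v 2) = 1 ∧ tF (v 1) (v 2) (v 0) = 1) ∨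
        (tF (v 0) (v 1) (v 2) ≠ 1 ∧ tF (v 2) (v 0) (v 1) = v 0 ∧ tF (v 0) (v 1) (v 2) = v 1 ∧
          tF (v 1) (v 2) (v 0) = v 2) := by
      intro v
      rcases ten_tri (v 0) (v 1) (v 2) with ⟨h1, h2, h3⟩ | ⟨h0, h1, h2, h3, -⟩
      · exact Or.inl ⟨h2, h1, h3⟩
      · exact Or.inr ⟨h0, h2, h1, h3⟩
    have hR : ∀ v : ℕ → Ten, tF (v 0) (v 1) (v 2) ≠ 1 →
        (v 3 * tF (v 0) (v 3) (v 2) * tF (v 0) (v 3 * tF (v 0) (v 3) (v 2)) (v 1) = 1 ∨
          v 3 * tF (v 0) (v 3) (v 2) * tF (v 0) (v 3 * tF (v 0) (v 3) (v 2)) (v 1) = v 0) ∧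
        (tF (v 0) (v 3 * tF (v 0) (v 3) (v 2)) (v 1) *
            tF (v 1) (tF (v 0) (v 3 * tF (v 0) (v 3) (v 2)) (v 1)) (v 2) = 1 ∨
          tF (v 0) (v 3 * tF (v 0) (v 3) (v 2)) (v 1) *
            tF (v 1) (tF (v 0) (v 3 * tF (v 0) (v 3) (v 2)) (v 1)) (v 2) = v 2) ∧
        (tF (v 1) (tF (v 0) (v 3 * tF (v 0) (v 3) (v 2)) (v 1)) (v 2) = 1 ∨
          tF (v 1) (tF (v 0) (v 3 * tF (v 0) (v 3) (v 2)) (v 1)) (v 2) = v 0 * v 2) := by
      intro v h0
      exact (ten_quad (v 0) (v 1) (v 2) (v 3) h0).2.2 _ _ _ _ _ rfl rfl rfl rfl rfl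
    refine ⟨?_, ?_, ?_, ?_, ?_, ?_, ?_, ?_, ?_, ?_, ?_, ?_, ?_, ?_, ?_, ?_, ?_, ?_⟩ <;> intro v <;>
      rcases hall v with ⟨h1, h2, h3⟩ | ⟨h0, h1, h2, h3⟩ <;> rw [h1, h2, h3]
    · exact ten_t11 _
    · exact (ten_quad _ _ _ (v 3) h0).2.1
    · simp only [ten_mul_one, ten_t1]
    · exact ((ten_tri (v 0) (v 1) (v 2)).resolve_left (fun hc => h0 hc.1)).2.2.2.2.1
    · simp only [ten_mul_one, ten_t1]
    · exact ((ten_tri (v 0) (v 1) (v 2)).resolve_left (fun hc => h0 hc.1)).2.2.2.2.2.1
    -- R1
    · exact ten_t11 _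
    · rcases (hR v h0).1 with q | q <;> rw [q]
      · exact ten_t1 _ _
      · exact ten_txx _ _
    -- R2
    · exact ten_t11 _
    · rcases (hR v h0).1 with q | q <;> rw [q]
      · exact ten_t1 _ _
      · exact ten_txx _ _
    -- R3
    · exact ten_p11 _ _
    · rcases (hR v h0).1 with q | q <;> rw [q]
      · exact ten_p_mid _ _ _
      · rw [ten_mul_self]; exact ten_p_one _ _ _
    -- R4
    · exact ten_t11 _
    · rcases (hR v h0).2.1 with q | q <;> rw [q]
      · exact ten_t1 _ _
      · exact ten_tzz _ _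
    -- R5
    · exact ten_t11 _
    · rcases (hR v h0).2.1 with q | q <;> rw [q]
      · exact ten_t1 _ _
      · exact ten_tzz _ _
    -- R6
    · exact ten_p11 _ _
    · rcases (hR v h0).2.1 with q | q <;> rw [q]
      · exact ten_p_mid _ _ _
      · rw [ten_mul_self]; exact ten_p_one _ _ _
    -- R7
    · exact ten_t11 _
    · rcases (hR v h0).2.2 with q | q <;> rw [q]
      · exact ten_t1 _ _
      · exact ten_txz _ _
    -- R8
    · exact ten_p11 _ _
    · rcases (hR v h0).2.2 with q | q <;> rw [q]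
      · exact ten_p_mid _ _ _
      · rw [ten_mul_self]; exact ten_p_one _ _ _
    -- R9
    · exact ten_p11 _ _
    · rcases (hR v h0).2.2 with q | q <;> rw [q]
      · exact ten_p_mid _ _ _
      · rw [ten_mul_self]; exact ten_p_one _ _ _
    -- G1
    · simp only [ten_mul_one]
    · exact ((ten_tri (v 0) (v 1) (v 2)).resolve_left (fun hc => h0 hc.1)).2.2.2.2.2.2.1
    · simp only [ten_mul_one]
    · exact ((ten_tri (v 0) (v 1) (v 2)).resolve_left (fun hc => h0 hc.1)).2.2.2.2.2.2.2.1
    · simp only [ten_mul_one]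
    · exact ((ten_tri (v 0) (v 1) (v 2)).resolve_left (fun hc => h0 hc.1)).2.2.2.2.2.2.2.2.1
    · simp only [ten_mul_one]
    · exact ((ten_tri (v 0) (v 1) (v 2)).resolve_left (fun hc => h0 hc.1)).2.2.2.2.2.2.2.2.2.1
    · simp only [ten_mul_one]
    · exact ((ten_tri (v 0) (v 1) (v 2)).resolve_left (fun hc => h0 hc.1)).2.2.2.2.2.2.2.2.2.2.1
    · simp only [ten_mul_one]
    · exact ((ten_tri (v 0) (v 1) (v 2)).resolve_left (fun hc => h0 hc.1)).2.2.2.2.2.2.2.2.2.2.2

/-- The identities of the basis are laws of `L`. -/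
theorem basis_isLaw : ∀ e ∈ basis, IsLaw e.1 e.2 := by
  intro e he v
  rw [tenLoop_eq]
  exact sat_ten e he v

end Verification

/-! ### Subdirectly irreducible quotients -/

section Quotients

/-- A congruence maximal among those not relating `a` and `b`. -/
theorem exists_con {A : Type} [Mul A] (a b : A) (hab : a ≠ b) :
    ∃ c : Con A, ¬ c a b ∧ ∀ d : Con A, c < d → d a b := by
  have hz := zorn_le_nonempty₀ ({c : Con A | ¬ c a b}) ?_ ⊥ ?_
  · obtain ⟨m, -, hm⟩ := hz
    refine ⟨m, hm.1, fun d hd => ?_⟩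
    by_contra hcon
    exact absurd (hm.2 hcon hd.le) (not_le_of_gt hd)
  · intro C hC hchain y hy
    refine ⟨
      { r := fun u v => ∃ c ∈ C, c u v
        iseqv := ⟨fun u => ⟨y, hy, y.refl u⟩, fun ⟨c, hc, h⟩ => ⟨c, hc, c.symm h⟩, ?_⟩
        mul' := ?_ }, ?_, ?_⟩
    · rintro u v w ⟨c, hc, h1⟩ ⟨d, hd, h2⟩
      rcases hchain.total hc hd with h | h
      · exact ⟨d, hd, d.trans (h h1) h2⟩
      · exact ⟨c, hc, c.trans h1 (h h2)⟩
    · rintro u v u' v' ⟨c, hc, h1⟩ ⟨d, hd, h2⟩
      rcases hchain.total hc hd with h | h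
      · exact ⟨d, hd, d.mul (h h1) h2⟩
      · exact ⟨c, hc, c.mul h1 (h h2)⟩
    · rintro ⟨c, hc, h⟩
      exact hC hc h
    · intro c hc u v h
      exact ⟨c, hc, h⟩
  · exact hab

variable {Q : Type} [Mul Q] [One Q]

theorem eval_hom {Q' : Type} [Mul Q'] [One Q'] (f : Q → Q') (h1 : f 1 = 1)
    (hm : ∀ x y, f (x * y) = f x * f y) (v : ℕ → Q) (s : LTerm) :
    f (eval (opsOf Q) v s) = eval (opsOf Q') (fun n => f (v n)) s := by
  induction s with
  | var n => rfl
  | one => exact h1
  | mul s t hs ht =>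
    show f (eval (opsOf Q) v s * eval (opsOf Q) v t) = _ * _
    rw [hm, hs, ht]
  | ldiv s t hs ht =>
    show f (eval (opsOf Q) v s * eval (opsOf Q) v t) = _ * _
    rw [hm, hs, ht]
  | rdiv s t hs ht =>
    show f (eval (opsOf Q) v s * eval (opsOf Q) v t) = _ * _
    rw [hm, hs, ht]

theorem Sat.of_surjective {Q' : Type} [Mul Q'] [One Q'] (h : Sat Q) (f : Q → Q') (h1 : f 1 = 1)
    (hm : ∀ x y, f (x * y) = f x * f y) (hf : Function.Surjective f) : Sat Q' := by
  intro e he v
  choose g hg using hf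
  have hv : v = fun n => f (g (v n)) := by
    funext n
    exact (hg (v n)).symm
  rw [hv, ← eval_hom f h1 hm, ← eval_hom f h1 hm, h e he]

/-- The quotient by a maximal congruence is subdirectly irreducible. -/
theorem isSI_quotient {A : Type} [Mul A] {a b : A} (c : Con A) (hc : ¬ c a b)
    (hmax : ∀ d : Con A, c < d → d a b) : IsSI c.Quotient (a : c.Quotient) (b : c.Quotient) := by
  refine ⟨fun h => hc ((Con.eq c).1 h), ?_⟩
  rintro d ⟨x, y, hxy, hd⟩
  have hlt : c < d.comap (fun u : A => (u : c.Quotient)) (fun _ _ => rfl) := by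
    refine lt_of_le_of_ne ?_ ?_
    · intro u v huv
      show d (u : c.Quotient) (v : c.Quotient)
      rw [(Con.eq c).2 huv]
      exact d.refl _
    · intro heq
      induction x using Con.induction_on with | _ x
      induction y using Con.induction_on with | _ y
      apply hxy
      apply (Con.eq c).2
      rw [heq]
      exact hd
  exact hmax _ hlt

end Quotients

/-! ### The two types of subdirectly irreducible algebras -/

section Types

variable {Q : Type} [Mul Q] [One Q] {a b : Q}

/-- A law of `L`, in terms of the multiplication. -/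
def TenLaw (s t : LTerm) : Prop := ∀ v : ℕ → Ten, eval (opsOf Ten) v s = eval (opsOf Ten) v t

/-- If all triples are null, `Q` has two elements and embeds in `L`. -/
theorem typeA (h : Laws Q) (hs : IsSI Q a b) (hnull : ∀ x y z : Q, Null x y z) {s t : LTerm}
    (hst : TenLaw s t) (v : ℕ → Q) : eval (opsOf Q) v s = eval (opsOf Q) v t := by
  have assoc : ∀ x y z : Q, (x * y) * z = x * (y * z) := fun x y z =>
    h.eq_of_mul_eq_one ((hnull x y z).t h)
  have key : ∀ c : Q, c ≠ 1 → c = a * b := by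
    intro c hc
    let r : Con Q :=
      { r := fun u v => u = v ∨ u = c * v
        iseqv := by
          refine ⟨fun u => Or.inl rfl, ?_, ?_⟩
          · rintro u v (rfl | rfl)
            · exact Or.inl rfl
            · right; rw [h.st]
          · rintro u v w (rfl | rfl) (rfl | rfl)
            · exact Or.inl rfl
            · exact Or.inr rfl
            · exact Or.inr rfl
            · left; rw [h.st]
        mul' := by
          rintro u v u' v' (rfl | rfl) (rfl | rfl)
          · exact Or.inl rfl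
          · right
            rw [← assoc, h.comm u c, assoc]
          · right
            rw [assoc]
          · left
            rw [assoc, ← assoc v c v', h.comm v c, assoc, h.st] }
    have hr : r a b := hs.2 r ⟨c, 1, hc, Or.inr (h.mul_one c).symm⟩
    rcases hr with hr | hr
    · exact absurd hr hs.1
    · rw [hr, assoc, h.mul_self, h.mul_one]
  classical
  let one' : Ten := (1 : Ten)
  let two' : Ten := (1 : Fin 10)
  let φ : Q → Ten := fun u => if u = 1 then one' else two'
  have h1 : φ 1 = 1 := if_pos rfl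
  have h12 : two' ≠ one' := by
    intro hc
    exact absurd (show (1 : Fin 10) = 0 from hc) (by decide)
  have hm : ∀ x y, φ (x * y) = φ x * φ y := by
    intro x y
    by_cases hx : x = 1
    · subst hx
      rw [h.one_mul, h1, ten_one_mul]
    · by_cases hy : y = 1
      · subst hy
        rw [h.mul_one, h1, ten_mul_one]
      · have hxy : x = y := (key x hx).trans (key y hy).symm
        subst hxy
        rw [h.mul_self, ten_mul_self, h1]
  have hinj : Function.Injective φ := by
    intro x y hxy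
    by_cases hx : x = 1
    · by_cases hy : y = 1
      · rw [hx, hy]
      · simp only [φ, if_pos hx, if_neg hy] at hxy
        exact absurd hxy.symm h12
    · by_cases hy : y = 1
      · simp only [φ, if_pos hy, if_neg hx] at hxy
        exact absurd hxy h12
      · exact (key x hx).trans (key y hy).symm
  apply hinj
  rw [eval_hom φ h1 hm, eval_hom φ h1 hm, hst]

/-- The twelve lines of the affine plane, as triples of elements of `Fin 10`. -/
def lines : List (Fin 10 × Fin 10 × Fin 10) :=
  [(1, 2, 3), (1, 4, 7), (1, 5, 8), (1, 6, 9), (2, 4, 8), (2, 5, 9), (2, 6, 7), (3, 4, 9),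
   (3, 5, 7), (3, 6, 8), (4, 5, 6), (7, 8, 9)]

theorem lines_spec : ∀ i j : Fin 10, i ≠ 0 → j ≠ 0 → i ≠ j → ∃ l ∈ lines,
    (i, j, tenMul i j) = (l.1, l.2.1, l.2.2) ∨ (i, j, tenMul i j) = (l.2.1, l.1, l.2.2) ∨
    (i, j, tenMul i j) = (l.1, l.2.2, l.2.1) ∨ (i, j, tenMul i j) = (l.2.2, l.1, l.2.1) ∨
    (i, j, tenMul i j) = (l.2.1, l.2.2, l.1) ∨ (i, j, tenMul i j) = (l.2.2, l.2.1, l.1) := by
  decide +kernel

/-- A map satisfying the line relations is a homomorphism. -/
theorem hom_of_lines (h : Laws Q) (g : Fin 10 → Q) (h0 : g 0 = 1)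
    (hl : ∀ l ∈ lines, g l.1 * g l.2.1 = g l.2.2) (i j : Fin 10) :
    g (tenMul i j) = g i * g j := by
  by_cases hi : i = 0
  · subst hi
    have : ∀ j : Fin 10, tenMul 0 j = j := by decide +kernel
    rw [this, h0, h.one_mul]
  by_cases hj : j = 0
  · subst hj
    have : ∀ j : Fin 10, tenMul j 0 = j := by decide +kernel
    rw [this, h0, h.mul_one]
  by_cases hij : i = j
  · subst hij
    have : ∀ j : Fin 10, tenMul j j = 0 := by decide +kernel
    rw [this, h0, h.mul_self]
  obtain ⟨l, hlm, hc⟩ := lines_spec i j hi hj hij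
  have e := hl l hlm
  simp only [Prod.mk.injEq] at hc
  rcases hc with ⟨e1, e2, e3⟩ | ⟨e1, e2, e3⟩ | ⟨e1, e2, e3⟩ | ⟨e1, e2, e3⟩ | ⟨e1, e2, e3⟩ |
    ⟨e1, e2, e3⟩ <;> rw [e1, e2] at e3 ⊢ <;> rw [e3]
  · exact e.symm
  · rw [h.comm]; exact e.symm
  · rw [← e, h.st]
  · rw [← e, h.comm (g l.1 * g l.2.1), h.st]
  · rw [← e, h.comm (g l.1), h.st]
  · rw [← e, h.comm (g l.1 * g l.2.1), h.comm (g l.1), h.st]

/-- If there is a full triple, `Q` is a homomorphic image of `L`. -/
theorem typeB (h : Laws Q) (hs : IsSI Q a b) {x y z : Q} (hf : Full x y z) {s t : LTerm}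
    (hst : TenLaw s t) (v : ℕ → Q) : eval (opsOf Q) v s = eval (opsOf Q) v t := by
  obtain ⟨-, -, -, -, l1, l2, l3, l4, l5, l6⟩ := hf.mainLaws h 1
  let g : Fin 10 → Q := ![1, x, z, x * z, y, y * (x * y * z), x * y * z, x * y, y * z,
    (x * y) * (y * z)]
  have hl : ∀ l ∈ lines, g l.1 * g l.2.1 = g l.2.2 := by
    unfold lines
    simp only [List.mem_cons, forall_eq_or_imp, List.not_mem_nil, or_false, forall_eq]
    refine ⟨rfl, rfl, l1, l2, h.comm z y, l3, ?_, l4, l5, l6, ?_, rfl⟩
    · show z * (x * y * z) = x * y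
      rw [h.comm (x * y) z, h.st]
    · show y * (y * (x * y * z)) = x * y * z
      rw [h.st]
  have hg1 : g 0 = 1 := rfl
  have hm : ∀ i j : Ten, g (i * j : Ten) = g i * g j := fun i j => hom_of_lines h g hg1 hl i j
  have hsurj : ∀ w : Q, ∃ i : Ten, g i = w := by
    intro w
    rcases plane h hs hf w with e | e | e | e | e | e | e | e | e | e
    · exact ⟨(0 : Fin 10), e.symm⟩
    · exact ⟨(1 : Fin 10), e.symm⟩
    · exact ⟨(2 : Fin 10), e.symm⟩
    · exact ⟨(3 : Fin 10), e.symm⟩
    · exact ⟨(4 : Fin 10), e.symm⟩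
    · exact ⟨(5 : Fin 10), e.symm⟩
    · exact ⟨(6 : Fin 10), e.symm⟩
    · exact ⟨(7 : Fin 10), e.symm⟩
    · exact ⟨(8 : Fin 10), e.symm⟩
    · exact ⟨(9 : Fin 10), e.symm⟩
  choose r hr using hsurj
  have hv : v = fun n => (g : Ten → Q) (r (v n)) := by
    funext n
    exact (hr (v n)).symm
  rw [hv, ← eval_hom (Q := Ten) g hg1 hm, ← eval_hom (Q := Ten) g hg1 hm, hst]

/-- An algebra satisfying the basis satisfies all laws of `L`. -/
theorem main (h : Sat Q) {s t : LTerm} (hst : TenLaw s t) (v : ℕ → Q) :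
    eval (opsOf Q) v s = eval (opsOf Q) v t := by
  by_contra hne
  obtain ⟨c, hc, hmax⟩ := exists_con _ _ hne
  have hSI := isSI_quotient c hc hmax
  have hS : Sat c.Quotient := h.of_surjective (fun u : Q => (u : c.Quotient)) rfl
    (fun _ _ => rfl) (fun x => Con.induction_on x fun u => ⟨u, rfl⟩)
  have hL := hS.laws
  apply hSI.1
  have e1 := eval_hom (fun u : Q => (u : c.Quotient)) rfl (fun _ _ => rfl) v s
  have e2 := eval_hom (fun u : Q => (u : c.Quotient)) rfl (fun _ _ => rfl) v t
  rw [e1, e2]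
  by_cases hfull : ∃ x y z : c.Quotient, Full x y z
  · obtain ⟨x, y, z, hf⟩ := hfull
    exact typeB hL hSI hf hst _
  · push Not at hfull
    exact typeA hL hSI
      (fun x y z => (full_or_null hL hSI x y z).resolve_left (hfull x y z)) hst _

end Types

/-! ### Completeness of equational logic and the final theorem -/

section Final

/-- Derivability as a setoid. -/
def derSetoid (E : Set (LTerm × LTerm)) : Setoid LTerm where
  r := Derives E
  iseqv := ⟨Derives.refl, Derives.symm, Derives.trans⟩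

/-- The Lindenbaum algebra. -/
def Lind (E : Set (LTerm × LTerm)) : Type := Quotient (derSetoid E)

/-- The operations of the Lindenbaum algebra. -/
def lindOps (E : Set (LTerm × LTerm)) : LoopOps (Lind E) where
  mul := Quotient.map₂ LTerm.mul fun _ _ h _ _ h' => Derives.mul h h'
  ldiv := Quotient.map₂ LTerm.ldiv fun _ _ h _ _ h' => Derives.ldiv h h'
  rdiv := Quotient.map₂ LTerm.rdiv fun _ _ h _ _ h' => Derives.rdiv h h'
  one := Quotient.mk _ LTerm.one

theorem eval_lind (E : Set (LTerm × LTerm)) (σ : ℕ → LTerm) (s : LTerm) :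
    eval (lindOps E) (fun n => Quotient.mk (derSetoid E) (σ n)) s =
      Quotient.mk (derSetoid E) (s.subst σ) := by
  induction s with
  | var n => rfl
  | one => rfl
  | mul s t hs ht =>
    show (lindOps E).mul _ _ = _
    rw [hs, ht]; rfl
  | ldiv s t hs ht =>
    show (lindOps E).ldiv _ _ = _
    rw [hs, ht]; rfl
  | rdiv s t hs ht =>
    show (lindOps E).rdiv _ _ = _
    rw [hs, ht]; rfl

theorem subst_var (s : LTerm) : s.subst var = s := by
  induction s with
  | var n => rfl
  | one => rfl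
  | mul s t hs ht => rw [LTerm.subst, hs, ht]
  | ldiv s t hs ht => rw [LTerm.subst, hs, ht]
  | rdiv s t hs ht => rw [LTerm.subst, hs, ht]

theorem lind_sat (E : Set (LTerm × LTerm)) (e : LTerm × LTerm) (he : e ∈ E)
    (v : ℕ → Lind E) : eval (lindOps E) v e.1 = eval (lindOps E) v e.2 := by
  have hv : v = fun n => Quotient.mk (derSetoid E) ((v n).out) := by
    funext n
    exact (Quotient.out_eq (v n)).symm
  rw [hv, eval_lind, eval_lind]
  exact Quotient.sound (Derives.ax e he _)

theorem completeness (s t : LTerm) (hst : IsLaw s t) :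
    Derives {e | e ∈ basis} s t := by
  let E : Set (LTerm × LTerm) := {e | e ∈ basis}
  let _ : Mul (Lind E) := ⟨(lindOps E).mul⟩
  let _ : One (Lind E) := ⟨(lindOps E).one⟩
  have hld : (lindOps E).ldiv = (lindOps E).mul := by
    funext x y
    have := lind_sat E (ldiv (var 0) (var 1), mul (var 0) (var 1))
      (by show _ ∈ basis; unfold basis; simp) (asg x y x x x)
    exact this
  have hrd : (lindOps E).rdiv = (lindOps E).mul := by
    funext x y
    have := lind_sat E (rdiv (var 0) (var 1), mul (var 0) (var 1))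
      (by show _ ∈ basis; unfold basis; simp) (asg x y x x x)
    exact this
  have hops : lindOps E = opsOf (Lind E) := by
    show (⟨(lindOps E).mul, (lindOps E).ldiv, (lindOps E).rdiv, (lindOps E).one⟩ :
      LoopOps (Lind E)) = ⟨(lindOps E).mul, (lindOps E).mul, (lindOps E).mul, (lindOps E).one⟩
    rw [hld, hrd]
  have hsat : Sat (Lind E) := by
    intro e he v
    rw [← hops]
    exact lind_sat E e he v
  have hten : TenLaw s t := by
    intro v
    rw [← tenLoop_eq]
    exact hst v
  have h := main hsat hten (fun n => Quotient.mk (derSetoid E) (var n))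
  rw [← hops, eval_lind, eval_lind, subst_var, subst_var] at h
  exact Quotient.exact h

theorem basis_length : basis.length = 29 := rfl

theorem basis_vars : ∀ e ∈ basis, e.1.VarsLT 5 ∧ e.2.VarsLT 5 := by
  unfold basis
  simp only [List.mem_cons, forall_eq_or_imp, List.not_mem_nil, or_false, forall_eq, pT, tT,
    VarsLT]
  norm_num

/-- **Theorem** (positive answer to Q1). The laws of the ten-element loop `L` have a finite basis:
the explicit list `basis` of 29 identities in at most five variables consists of laws of `L`, and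
every law of `L` is derivable from it by equational logic. -/
theorem result_proof :
    basis.length = 29 ∧
    (∀ e ∈ basis, e.1.VarsLT 5 ∧ e.2.VarsLT 5) ∧
    (∀ e ∈ basis, IsLaw e.1 e.2) ∧
    ∀ s t : LTerm, IsLaw s t → Derives {e | e ∈ basis} s t :=
  ⟨basis_length, basis_vars, basis_isLaw, completeness⟩

end Final

end Pool.Agent.Results.MP_8f735f_al.FiniteBasis
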