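import Mathlib

/-!
# Khintchine's simultaneous theorem on vertical lines

For every monotonic `ψ` with `∑ ψ(q)² = ∞` and every real `α`, almost every `β ∈ [0,1]` satisfies
`‖q α‖ < ψ(q)` and `‖q β‖ < ψ(q)` for infinitely many `q`.

Outline. At the scale `M = 2^n` let `δ ≈ ψ(2^8 M)` (cut off at `M^(-1/2)`) and let `s` be the least
positive integer with `‖s α‖ ≤ 1/M`.  If `s ≤ 1/δ` we only use denominators `j s`, `j ≤ M δ`; if
`s > 1/δ` we use Minkowski's theorem (pigeonhole) and a spacing argument that shows that few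
`q ≤ M` satisfy `‖q α‖ ≤ δ`.  In both cases at least half of the `β` are within
`ρ ≈ 1/(M² δ² w)` of an admissible fraction, where `w = min (s, 1/δ)`; a maximal `ρ`-separated
family of admissible fractions gives sets `E_n` of measure `≍ M δ²` with
`|E_n ∩ E_m| ≪ |E_n| |E_m| + |E_n| 2^{-|n-m|}`, hence a limsup set of positive measure.
Cassels' lemma and the ergodicity of `x ↦ 2x` finish the proof.
-/

open MeasureTheory Set Filter Metric
open scoped Topology ENNReal

namespace Pool.Agent.Results.MP_2688e8_nt.KhintchineFibre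

/-- Volume of an open ball of the circle. -/
theorem volume_ball_le (x : UnitAddCircle) (r : ℝ) :
    volume (ball x r) = ENNReal.ofReal (min 1 (2 * r)) := by
  rw [← measure_congr (AddCircle.closedBall_ae_eq_ball (T := (1:ℝ)) (x := x) (ε := r)),
    AddCircle.volume_closedBall]

theorem measureReal_ball (x : UnitAddCircle) (r : ℝ) (hr : 0 ≤ r) (hr' : r ≤ 1 / 2) :
    (volume : Measure UnitAddCircle).real (ball x r) = 2 * r := by
  rw [Measure.real, volume_ball_le, ENNReal.toReal_ofReal (by positivity), min_eq_right (by linarith)]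

theorem measureReal_ball_le (x : UnitAddCircle) (r : ℝ) (hr : 0 ≤ r) :
    (volume : Measure UnitAddCircle).real (ball x r) ≤ 2 * r := by
  rw [Measure.real, volume_ball_le, ENNReal.toReal_ofReal (by positivity)]
  exact min_le_right _ _

theorem measureReal_closedBall_le (x : UnitAddCircle) (r : ℝ) (hr : 0 ≤ r) :
    (volume : Measure UnitAddCircle).real (closedBall x r) ≤ 2 * r := by
  rw [Measure.real, AddCircle.volume_closedBall, ENNReal.toReal_ofReal (by positivity)]
  exact min_le_right _ _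

/-- Packing bound on the circle. -/
theorem packing {ι : Type*} (F : Finset ι) (f : ι → UnitAddCircle) (r R : ℝ) (hr : 0 < r)
    (hr' : r ≤ 1 / 2) (hR : 0 ≤ R) (c : UnitAddCircle)
    (hsep : ∀ i ∈ F, ∀ j ∈ F, i ≠ j → 2 * r ≤ dist (f i) (f j))
    (hin : ∀ i ∈ F, dist (f i) c ≤ R) : (F.card : ℝ) * r ≤ R + r := by
  have h1 : (volume : Measure UnitAddCircle).real (⋃ i ∈ F, ball (f i) r) =
      ∑ i ∈ F, (volume : Measure UnitAddCircle).real (ball (f i) r) := by
    apply measureReal_biUnion_finset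
    · intro i hi j hj hij
      exact ball_disjoint_ball (by linarith [hsep i hi j hj hij])
    · intro i _
      exact measurableSet_ball
    · intro i _
      exact measure_ne_top _ _
  have h2 : (⋃ i ∈ F, ball (f i) r) ⊆ closedBall c (R + r) := by
    intro x hx
    simp only [mem_iUnion, mem_ball, exists_prop] at hx
    obtain ⟨i, hi, hx⟩ := hx
    rw [mem_closedBall]
    linarith [dist_triangle x (f i) c, hin i hi]
  have h3 := measureReal_mono (μ := (volume : Measure UnitAddCircle)) h2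
  rw [h1] at h3
  simp only [measureReal_ball _ _ hr.le hr', Finset.sum_const, nsmul_eq_mul] at h3
  have h4 := measureReal_closedBall_le c (R + r) (by linarith)
  linarith

theorem measurePreserving_nsmul {q : ℕ} (hq : 1 ≤ q) :
    MeasurePreserving (fun y : UnitAddCircle => q • y) volume volume := by
  rcases eq_or_lt_of_le hq with h | h
  · subst h
    simp only [one_smul]
    exact MeasurePreserving.id (volume : Measure UnitAddCircle)
  · exact (AddCircle.ergodic_nsmul h).toMeasurePreserving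

theorem measureReal_norm_le {q : ℕ} (hq : 1 ≤ q) (η : ℝ) (hη : 0 ≤ η) :
    (volume : Measure UnitAddCircle).real {β : UnitAddCircle | ‖q • β‖ ≤ η} ≤ 2 * η := by
  have h : {β : UnitAddCircle | ‖q • β‖ ≤ η} =
      (fun y : UnitAddCircle => q • y) ⁻¹' closedBall 0 η := by
    ext β
    simp
  rw [h, Measure.real, (measurePreserving_nsmul hq).measure_preimage
    measurableSet_closedBall.nullMeasurableSet]
  exact measureReal_closedBall_le 0 η hη

theorem norm_coe_le (x : ℝ) (z : ℤ) : ‖(x : UnitAddCircle)‖ ≤ |x - z| := by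
  rw [UnitAddCircle.norm_eq]
  exact round_le x z

theorem norm_sub_of_floor_eq (u v : ℝ) (N : ℕ) (hN : 0 < N)
    (h : ⌊(N : ℝ) * Int.fract u⌋ = ⌊(N : ℝ) * Int.fract v⌋) :
    ‖((u - v : ℝ) : UnitAddCircle)‖ ≤ 1 / N := by
  have h1 := Int.abs_sub_lt_one_of_floor_eq_floor h
  have hN' : (0 : ℝ) < N := by exact_mod_cast hN
  rw [← mul_sub, abs_mul, abs_of_pos hN'] at h1
  have h2 := norm_coe_le (u - v) (⌊u⌋ - ⌊v⌋)
  have h3 : u - v - ((⌊u⌋ - ⌊v⌋ : ℤ) : ℝ) = Int.fract u - Int.fract v := by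
    push_cast
    unfold Int.fract
    ring
  rw [h3] at h2
  refine h2.trans ?_
  rw [le_div_iff₀ hN']
  linarith

/-- Simultaneous Dirichlet theorem with two different qualities. -/
theorem dirichlet2 (a b : UnitAddCircle) (D K : ℕ) (hD : 0 < D) (hK : 0 < K) :
    ∃ q : ℕ, 1 ≤ q ∧ q ≤ D * K ∧ ‖q • a‖ ≤ 1 / D ∧ ‖q • b‖ ≤ 1 / K := by
  obtain ⟨x, rfl⟩ := QuotientAddGroup.mk_surjective a
  obtain ⟨y, rfl⟩ := QuotientAddGroup.mk_surjective b
  have hfl : ∀ (N : ℕ) (hN : 0 < N) (u : ℝ), ⌊(N : ℝ) * Int.fract u⌋.toNat < N := by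
    intro N hN u
    have hN' : (0 : ℝ) < N := by exact_mod_cast hN
    have h0 : 0 ≤ ⌊(N : ℝ) * Int.fract u⌋ :=
      Int.floor_nonneg.mpr (mul_nonneg hN'.le (Int.fract_nonneg u))
    have h1 : ⌊(N : ℝ) * Int.fract u⌋ < N := by
      rw [Int.floor_lt]
      push_cast
      nlinarith [Int.fract_lt_one u]
    omega
  let φ : ℕ → ℕ × ℕ := fun j => (⌊(D : ℝ) * Int.fract ((j : ℝ) * x)⌋.toNat,
    ⌊(K : ℝ) * Int.fract ((j : ℝ) * y)⌋.toNat)
  obtain ⟨i, hi, j, hj, hij, heq⟩ := Finset.exists_ne_map_eq_of_card_lt_of_maps_to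
    (s := Finset.range (D * K + 1)) (t := Finset.range D ×ˢ Finset.range K) (f := φ)
    (by simp) (by
      intro j _
      simp only [Finset.coe_product, Finset.coe_range, mem_prod, mem_Iio, φ]
      exact ⟨hfl D hD _, hfl K hK _⟩)
  wlog hlt : i < j generalizing i j
  · exact this j hj i hi hij.symm heq.symm (lt_of_le_of_ne (not_lt.mp hlt) hij.symm)
  simp only [Prod.mk.injEq, φ] at heq
  have hD' : (0 : ℝ) ≤ D := by positivity
  have hK' : (0 : ℝ) ≤ K := by positivity
  have e1 : ⌊(D : ℝ) * Int.fract ((j : ℝ) * x)⌋ = ⌊(D : ℝ) * Int.fract ((i : ℝ) * x)⌋ := by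
    have h0 : 0 ≤ ⌊(D : ℝ) * Int.fract ((i : ℝ) * x)⌋ :=
      Int.floor_nonneg.mpr (mul_nonneg hD' (Int.fract_nonneg _))
    have h0' : 0 ≤ ⌊(D : ℝ) * Int.fract ((j : ℝ) * x)⌋ :=
      Int.floor_nonneg.mpr (mul_nonneg hD' (Int.fract_nonneg _))
    have := heq.1
    omega
  have e2 : ⌊(K : ℝ) * Int.fract ((j : ℝ) * y)⌋ = ⌊(K : ℝ) * Int.fract ((i : ℝ) * y)⌋ := by
    have h0 : 0 ≤ ⌊(K : ℝ) * Int.fract ((i : ℝ) * y)⌋ :=
      Int.floor_nonneg.mpr (mul_nonneg hK' (Int.fract_nonneg _))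
    have h0' : 0 ≤ ⌊(K : ℝ) * Int.fract ((j : ℝ) * y)⌋ :=
      Int.floor_nonneg.mpr (mul_nonneg hK' (Int.fract_nonneg _))
    have := heq.2
    omega
  have hj' : j ≤ D * K := by
    have := Finset.mem_range.mp hj
    omega
  have key : ∀ z : ℝ, (((j - i : ℕ)) • ((z : ℝ) : UnitAddCircle)) =
      (((j : ℝ) * z - (i : ℝ) * z : ℝ) : UnitAddCircle) := by
    intro z
    rw [← AddCircle.coe_nsmul, nsmul_eq_mul, Nat.cast_sub hlt.le]
    congr 1
    ring
  refine ⟨j - i, by omega, by omega, ?_, ?_⟩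
  · have := norm_sub_of_floor_eq _ _ D hD e1
    change ‖(j - i) • ((x : ℝ) : UnitAddCircle)‖ ≤ _
    rw [key]
    exact this
  · have := norm_sub_of_floor_eq _ _ K hK e2
    change ‖(j - i) • ((y : ℝ) : UnitAddCircle)‖ ≤ _
    rw [key]
    exact this


/-- The least `s ≥ 1` with `‖s a‖ ≤ 1 / M`. -/
noncomputable def sOf (a : UnitAddCircle) (M : ℕ) : ℕ :=
  sInf {s : ℕ | 1 ≤ s ∧ ‖s • a‖ ≤ 1 / M}

theorem sOf_nonempty (a : UnitAddCircle) {M : ℕ} (hM : 0 < M) :
    ∃ s : ℕ, s ≤ M ∧ 1 ≤ s ∧ ‖s • a‖ ≤ 1 / M := by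
  obtain ⟨q, h1, h2, h3, -⟩ := dirichlet2 a a M 1 hM one_pos
  exact ⟨q, by simpa using h2, h1, h3⟩

theorem sOf_spec (a : UnitAddCircle) {M : ℕ} (hM : 0 < M) :
    1 ≤ sOf a M ∧ ‖sOf a M • a‖ ≤ 1 / M := by
  obtain ⟨s, -, h⟩ := sOf_nonempty a hM
  exact Nat.sInf_mem (s := {s : ℕ | 1 ≤ s ∧ ‖s • a‖ ≤ 1 / M}) ⟨s, h⟩

theorem sOf_le (a : UnitAddCircle) {M : ℕ} (hM : 0 < M) : sOf a M ≤ M := by
  obtain ⟨s, hs, h⟩ := sOf_nonempty a hM
  exact (Nat.sInf_le h).trans hs

theorem lt_of_lt_sOf (a : UnitAddCircle) {M : ℕ} {q : ℕ} (hq : 1 ≤ q)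
    (hqs : q < sOf a M) : 1 / (M : ℝ) < ‖q • a‖ := by
  by_contra h
  push Not at h
  exact absurd (Nat.sInf_le (s := {s : ℕ | 1 ≤ s ∧ ‖s • a‖ ≤ 1 / M}) ⟨hq, h⟩) (by
    change ¬ sOf a M ≤ q
    omega)

theorem sOf_mono (a : UnitAddCircle) {M M' : ℕ} (hM : 0 < M) (h : M ≤ M') :
    sOf a M ≤ sOf a M' := by
  obtain ⟨h1, h2⟩ := sOf_spec a (hM.trans_le h)
  refine Nat.sInf_le ⟨h1, h2.trans ?_⟩
  have : (0 : ℝ) < M := by exact_mod_cast hM
  have h3 : (M : ℝ) ≤ M' := by exact_mod_cast h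
  exact one_div_le_one_div_of_le this h3

/-- Before the least `s` with `‖s a‖ ≤ 1/M`, all multiples are at distance more than `1/(2s)`. -/
theorem half_lt_of_lt (a : UnitAddCircle) {q s : ℕ} (hq : 1 ≤ q) (hqs : q < s)
    (h : ‖s • a‖ < ‖q • a‖) : 1 / (2 * (s : ℝ)) < ‖q • a‖ := by
  obtain ⟨x, rfl⟩ := QuotientAddGroup.mk_surjective a
  change ‖s • (x : UnitAddCircle)‖ < ‖q • (x : UnitAddCircle)‖ at h
  change _ < ‖q • (x : UnitAddCircle)‖
  rw [← AddCircle.coe_nsmul, ← AddCircle.coe_nsmul, UnitAddCircle.norm_eq,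
    UnitAddCircle.norm_eq, nsmul_eq_mul, nsmul_eq_mul] at h
  rw [← AddCircle.coe_nsmul, UnitAddCircle.norm_eq, nsmul_eq_mul]
  set u := (q : ℝ) * x - round ((q : ℝ) * x) with hu
  set v := (s : ℝ) * x - round ((s : ℝ) * x) with hv
  have hq0 : (0 : ℝ) < q := by exact_mod_cast hq
  have hqs' : (q : ℝ) < s := by exact_mod_cast hqs
  have hs0 : (0 : ℝ) < s := hq0.trans hqs'
  by_contra hcon
  push Not at hcon
  rw [le_div_iff₀ (by positivity)] at hcon
  have hupos : 0 < |u| := (abs_nonneg v).trans_lt h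
  have hlt : (q : ℝ) * |v| < s * |u| := by nlinarith [abs_nonneg v]
  have hint : (s : ℝ) * u - q * v =
      ((q * round ((s : ℝ) * x) - s * round ((q : ℝ) * x) : ℤ) : ℝ) := by
    push_cast
    rw [hu, hv]
    ring
  have habs : |(s : ℝ) * u - q * v| < 1 := by
    calc |(s : ℝ) * u - q * v| ≤ |(s : ℝ) * u| + |(q : ℝ) * v| := abs_sub _ _
      _ = s * |u| + q * |v| := by rw [abs_mul, abs_mul, abs_of_pos hs0, abs_of_pos hq0]
      _ < 1 := by linarith
  rw [hint, ← Int.cast_abs] at habs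
  have hz : (q * round ((s : ℝ) * x) - s * round ((q : ℝ) * x) : ℤ) = 0 := by
    have : |(q * round ((s : ℝ) * x) - s * round ((q : ℝ) * x) : ℤ)| < 1 := by exact_mod_cast habs
    exact Int.abs_lt_one_iff.mp this
  rw [hz] at hint
  have : (s : ℝ) * u = q * v := by
    have := hint
    push_cast at this
    linarith
  have h2 : (s : ℝ) * |u| = q * |v| := by
    rw [← abs_of_pos hs0, ← abs_of_pos hq0, ← abs_mul, ← abs_mul, this]
  linarith

theorem half_lt_of_lt_sOf (a : UnitAddCircle) {M : ℕ} (hM : 0 < M) {q : ℕ} (hq : 1 ≤ q)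
    (hqs : q < sOf a M) : 1 / (2 * (sOf a M : ℝ)) < ‖q • a‖ :=
  half_lt_of_lt a hq hqs ((sOf_spec a hM).2.trans_lt (lt_of_lt_sOf a hq hqs))

/-- Counting `q ≤ M` with `‖q a‖ ≤ δ`. -/
theorem count_le (a : UnitAddCircle) {s M : ℕ} (hs : 1 ≤ s) (δ : ℝ) (hδ : 0 ≤ δ)
    (hsep : ∀ q : ℕ, 1 ≤ q → q < s → 1 / (2 * (s : ℝ)) < ‖q • a‖)
    (F : Finset ℕ) (hF : ∀ q ∈ F, q ≤ M ∧ ‖q • a‖ ≤ δ) :
    (F.card : ℝ) ≤ (M / s + 1 : ℕ) * (4 * δ * s + 1) := by
  have hs0 : (0 : ℝ) < s := by exact_mod_cast hs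
  have h1 : F.card = ∑ b ∈ Finset.range (M / s + 1), (F.filter (fun q => q / s = b)).card := by
    apply Finset.card_eq_sum_card_fiberwise
    intro q hq
    simp only [Finset.coe_range, mem_Iio]
    have := Nat.div_le_div_right (c := s) (hF q hq).1
    omega
  have h2 : ∀ b ∈ Finset.range (M / s + 1),
      ((F.filter (fun q => q / s = b)).card : ℝ) ≤ 4 * δ * s + 1 := by
    intro b _
    have hpos : (0 : ℝ) < 1 / (4 * s) := by positivity
    have := packing (F.filter (fun q => q / s = b)) (fun q : ℕ => q • a) (1 / (4 * s)) δ hpos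
      (by
        rw [div_le_div_iff₀ (by positivity) (by positivity)]
        have : (1 : ℝ) ≤ s := by exact_mod_cast hs
        linarith) hδ 0 (by
        intro i hi j hj hij
        wlog hlt : i < j generalizing i j
        · rw [dist_comm]
          exact this j hj i hi hij.symm (lt_of_le_of_ne (not_lt.mp hlt) hij.symm)
        simp only [Finset.mem_filter] at hi hj
        have hsub : j - i < s := by
          have e1 := Nat.div_add_mod i s
          have e2 := Nat.div_add_mod j s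
          have e3 := Nat.mod_lt j hs
          rw [hi.2] at e1
          rw [hj.2] at e2
          omega
        have := hsep (j - i) (by omega) hsub
        have e : dist (i • a) (j • a) = ‖(j - i) • a‖ := by
          rw [dist_comm, dist_eq_norm, sub_nsmul _ hlt.le, sub_eq_add_neg]
        rw [e]
        have e' : 2 * (1 / (4 * (s : ℝ))) = 1 / (2 * s) := by
          field_simp
          norm_num
        rw [e']
        exact this.le) (by
        intro i hi
        simp only [Finset.mem_filter] at hi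
        simpa using (hF i hi.1).2)
    rw [mul_one_div, div_le_iff₀ (by positivity), add_mul] at this
    calc ((F.filter (fun q => q / s = b)).card : ℝ) ≤ δ * (4 * s) + 1 / (4 * s) * (4 * s) := this
      _ = 4 * δ * s + 1 := by
        field_simp
  calc (F.card : ℝ) = ∑ b ∈ Finset.range (M / s + 1), ((F.filter (fun q => q / s = b)).card : ℝ) := by
        rw [h1]
        push_cast
        rfl
    _ ≤ ∑ b ∈ Finset.range (M / s + 1), (4 * δ * s + 1) := Finset.sum_le_sum h2
    _ = (M / s + 1 : ℕ) * (4 * δ * s + 1) := by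
        rw [Finset.sum_const, Finset.card_range, nsmul_eq_mul]


/-- Union bound over a finite set of denominators. -/
theorem measureReal_bad_le (F : Finset ℕ) (hF : ∀ q ∈ F, 1 ≤ q) (η : ℝ) (hη : 0 ≤ η) :
    (volume : Measure UnitAddCircle).real (⋃ q ∈ F, {β : UnitAddCircle | ‖q • β‖ ≤ η}) ≤
      F.card * (2 * η) := by
  calc (volume : Measure UnitAddCircle).real (⋃ q ∈ F, {β : UnitAddCircle | ‖q • β‖ ≤ η})
      ≤ ∑ q ∈ F, (volume : Measure UnitAddCircle).real {β : UnitAddCircle | ‖q • β‖ ≤ η} :=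
        measureReal_biUnion_finset_le _ _
    _ ≤ ∑ q ∈ F, 2 * η := Finset.sum_le_sum fun q hq => measureReal_norm_le (hF q hq) η hη
    _ = F.card * (2 * η) := by rw [Finset.sum_const, nsmul_eq_mul]

/-- The key local statement: at scale `(M, δ)` at least half of all `β` are close to a fraction
with an admissible denominator. -/
theorem key (a : UnitAddCircle) (M : ℕ) (δ : ℝ) (hδ : 0 < δ) (hδ' : δ ≤ 1 / 2)
    (hMδ : 4 ≤ M * δ) :
    (volume : Measure UnitAddCircle).real {β : UnitAddCircle | ¬ ∃ q : ℕ, (M : ℝ) * δ / 8 ≤ q ∧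
      (q : ℝ) ≤ 256 * M * δ * min (sOf a M : ℝ) (1 / δ) ∧ ‖q • a‖ ≤ δ ∧
      ‖q • β‖ ≤ q * (16 / (M ^ 2 * δ ^ 2 * min (sOf a M : ℝ) (1 / δ)))} ≤ 1 / 2 := by
  have hM0' : (0 : ℝ) < M := by
    by_contra h
    push Not at h
    nlinarith
  have hM0 : 0 < M := by exact_mod_cast hM0'
  obtain ⟨hs1, hs2⟩ := sOf_spec a hM0
  have hsM := sOf_le a hM0
  have hsep : ∀ q : ℕ, 1 ≤ q → q < sOf a M → 1 / (2 * (sOf a M : ℝ)) < ‖q • a‖ :=
    fun q h1 h2 => half_lt_of_lt_sOf a hM0 h1 h2
  generalize sOf a M = s at *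
  have hs1' : (1 : ℝ) ≤ s := by exact_mod_cast hs1
  rcases le_or_gt (s : ℝ) (1 / δ) with hcase | hcase
  · -- multiples of `s`
    rw [min_eq_left hcase]
    set J := ⌊(M : ℝ) * δ⌋₊ with hJ
    have hJle : (J : ℝ) ≤ M * δ := Nat.floor_le (by positivity)
    have hJlt : (M : ℝ) * δ < J + 1 := Nat.lt_floor_add_one _
    have hJ4 : 4 ≤ J := Nat.le_floor (by exact_mod_cast hMδ)
    have hJ0 : (0 : ℝ) < J := by
      have : 0 < J := by omega
      exact_mod_cast this
    have hJ4' : (4 : ℝ) ≤ J := by exact_mod_cast hJ4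
    refine (measureReal_mono (h₂ := measure_ne_top _ _)
      (s₂ := ⋃ q ∈ (Finset.Icc 1 (J / 4)).image (fun j => j * s),
        {β : UnitAddCircle | ‖q • β‖ ≤ 1 / J}) ?_).trans ?_
    · intro β hβ
      by_contra hcon
      apply hβ
      obtain ⟨j, hj1, hj2, hj3, -⟩ := dirichlet2 (s • β) 0 J 1 (by omega) one_pos
      rw [mul_one] at hj2
      have hj4 : J / 4 < j := by
        by_contra hle
        push Not at hle
        apply hcon
        simp only [mem_iUnion, exists_prop]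
        refine ⟨j * s, ?_, ?_⟩
        · rw [Finset.mem_image]
          exact ⟨j, by rw [Finset.mem_Icc]; exact ⟨hj1, hle⟩, rfl⟩
        · change ‖(j * s) • β‖ ≤ 1 / J
          rw [mul_smul]
          exact hj3
      have hj5 : (J : ℝ) < 4 * j := by
        have : J < 4 * j := by omega
        exact_mod_cast this
      have hj2' : (j : ℝ) ≤ J := by exact_mod_cast hj2
      have hj0 : (0 : ℝ) < j := by linarith
      refine ⟨j * s, ?_, ?_, ?_, ?_⟩
      · push_cast
        nlinarith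
      · push_cast
        have : (j : ℝ) * s ≤ M * δ * s := by
          apply mul_le_mul_of_nonneg_right _ (by linarith)
          linarith
        nlinarith
      · rw [mul_smul]
        calc ‖j • s • a‖ ≤ j * ‖s • a‖ := norm_nsmul_le
          _ ≤ j * (1 / M) := by gcongr
          _ ≤ (M * δ) * (1 / M) := by gcongr; linarith
          _ = δ := by field_simp
      · rw [mul_smul]
        refine hj3.trans ?_
        push_cast
        have e : (j : ℝ) * s * (16 / (M ^ 2 * δ ^ 2 * s)) = 16 * j / (M * δ) ^ 2 := by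
          field_simp
        rw [e, div_le_div_iff₀ hJ0 (by positivity)]
        have : (M : ℝ) * δ ≤ 2 * J := by linarith
        nlinarith
    · have hF : ∀ q ∈ (Finset.Icc 1 (J / 4)).image (fun j => j * s), 1 ≤ q := by
        intro q hq
        rw [Finset.mem_image] at hq
        obtain ⟨j, hj, rfl⟩ := hq
        rw [Finset.mem_Icc] at hj
        exact Nat.mul_pos (by omega) (by omega)
      refine (measureReal_bad_le _ hF (1 / J) (by positivity)).trans ?_
      have hc : (((Finset.Icc 1 (J / 4)).image (fun j => j * s)).card : ℝ) ≤ J / 4 := by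
        have h1 := Finset.card_image_le (s := Finset.Icc 1 (J / 4)) (f := fun j => j * s)
        rw [Nat.card_Icc] at h1
        have h2 : 4 * ((Finset.Icc 1 (J / 4)).image (fun j => j * s)).card ≤ J := by omega
        have h3 : (4 : ℝ) * ((Finset.Icc 1 (J / 4)).image (fun j => j * s)).card ≤ J := by
          exact_mod_cast h2
        linarith
      calc (((Finset.Icc 1 (J / 4)).image (fun j => j * s)).card : ℝ) * (2 * (1 / J))
          ≤ (J / 4) * (2 * (1 / J)) := by gcongr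
        _ = 1 / 2 := by field_simp; norm_num
  · -- Minkowski case
    rw [min_eq_right hcase.le]
    set D := ⌈1 / δ⌉₊ with hD
    have hDge : 1 / δ ≤ D := Nat.le_ceil _
    have hDlt : (D : ℝ) < 1 / δ + 1 := Nat.ceil_lt_add_one (by positivity)
    have h1δ : 1 ≤ 1 / δ := by
      rw [le_div_iff₀ hδ]
      linarith
    have hDle : (D : ℝ) ≤ 2 / δ := by
      have : 2 / δ = 1 / δ + 1 / δ := by ring
      linarith
    have hD0' : (0 : ℝ) < D := by linarith
    have hD0 : 0 < D := by exact_mod_cast hD0'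
    set K := (256 * M) / D with hK
    have hKlt : (256 * M : ℝ) < D * (K + 1) := by
      have := Nat.lt_mul_div_succ (256 * M) hD0
      rw [← hK] at this
      exact_mod_cast this
    have hKge : 64 * (M * δ) ≤ (K : ℝ) := by
      have h1 : (256 * M : ℝ) < 2 / δ * (K + 1) :=
        hKlt.trans_le (mul_le_mul_of_nonneg_right hDle (by positivity))
      rw [div_mul_eq_mul_div, lt_div_iff₀ hδ] at h1
      nlinarith
    have hK0' : (0 : ℝ) < K := by nlinarith
    have hK0 : 0 < K := by exact_mod_cast hK0'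
    have hDK : D * K ≤ 256 * M := Nat.mul_div_le _ _
    set η : ℝ := 1 / (64 * (M * δ)) with hη
    have hη0 : 0 ≤ η := by positivity
    have hKη : 1 / (K : ℝ) ≤ η := one_div_le_one_div_of_le (by positivity) hKge
    classical
    set F : Finset ℕ := (Finset.Icc 1 M).filter (fun q => ‖q • a‖ ≤ δ) with hF
    refine (measureReal_mono (h₂ := measure_ne_top _ _)
      (s₂ := ⋃ q ∈ F, {β : UnitAddCircle | ‖q • β‖ ≤ η}) ?_).trans ?_
    · intro β hβ
      by_contra hcon
      apply hβ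
      obtain ⟨q, hq1, hq2, hq3, hq4⟩ := dirichlet2 a β D K hD0 hK0
      have hqa : ‖q • a‖ ≤ δ := by
        refine hq3.trans ?_
        rw [div_le_iff₀ hD0']
        rw [div_le_iff₀ hδ] at hDge
        linarith
      have hqM : M < q := by
        by_contra hle
        push Not at hle
        apply hcon
        simp only [mem_iUnion, exists_prop]
        refine ⟨q, ?_, hq4.trans hKη⟩
        rw [hF, Finset.mem_filter, Finset.mem_Icc]
        exact ⟨⟨hq1, hle⟩, hqa⟩
      have hqM' : (M : ℝ) < q := by exact_mod_cast hqM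
      refine ⟨q, ?_, ?_, hqa, ?_⟩
      · nlinarith
      · have e : 256 * (M : ℝ) * δ * (1 / δ) = 256 * M := by field_simp
        rw [e]
        exact_mod_cast hq2.trans hDK
      · refine (hq4.trans hKη).trans ?_
        have e : (M : ℝ) ^ 2 * δ ^ 2 * (1 / δ) = M * (M * δ) := by field_simp
        rw [e, hη]
        have e2 : (q : ℝ) * (16 / (M * (M * δ))) = (16 * q / M) * (1 / (M * δ)) := by
          field_simp
        have e3 : 1 / (64 * ((M : ℝ) * δ)) = (1 / 64) * (1 / (M * δ)) := by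
          field_simp
        rw [e2, e3]
        apply mul_le_mul_of_nonneg_right _ (by positivity)
        rw [le_div_iff₀ hM0']
        linarith
    · have hF1 : ∀ q ∈ F, 1 ≤ q := by
        intro q hq
        rw [hF, Finset.mem_filter, Finset.mem_Icc] at hq
        exact hq.1.1
      refine (measureReal_bad_le F hF1 η hη0).trans ?_
      have hcard := count_le a (M := M) hs1 δ hδ.le hsep F (by
        intro q hq
        rw [hF, Finset.mem_filter, Finset.mem_Icc] at hq
        exact ⟨hq.1.2, hq.2⟩)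
      have hs0 : (0 : ℝ) < s := by linarith
      have h1 : ((M / s + 1 : ℕ) : ℝ) ≤ 2 * M / s := by
        have h2 : ((M / s : ℕ) : ℝ) ≤ M / s := Nat.cast_div_le
        have h3 : (1 : ℝ) ≤ M / s := by
          rw [le_div_iff₀ hs0]
          have : (s : ℝ) ≤ M := by exact_mod_cast hsM
          linarith
        push_cast
        have : 2 * (M : ℝ) / s = M / s + M / s := by ring
        linarith
      have h4 : 4 * δ * s + 1 ≤ 5 * δ * s := by
        rw [div_lt_iff₀ hδ] at hcase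
        linarith
      have h5 : (F.card : ℝ) ≤ 10 * (M * δ) := by
        calc (F.card : ℝ) ≤ (M / s + 1 : ℕ) * (4 * δ * s + 1) := hcard
          _ ≤ (2 * M / s) * (5 * δ * s) := by
            apply mul_le_mul h1 h4 (by positivity) (by positivity)
          _ = 10 * (M * δ) := by field_simp; norm_num
      calc (F.card : ℝ) * (2 * η) ≤ (10 * (M * δ)) * (2 * η) := by gcongr
        _ = 20 / 64 := by
          rw [hη]
          field_simp
          norm_num
        _ ≤ 1 / 2 := by norm_num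


/-- Every finite subset of a metric space has a `ρ`-separated subset within `ρ` of every point. -/
theorem exists_separated {X : Type*} [MetricSpace X] (F : Finset X) (ρ : ℝ) (hρ : 0 < ρ) :
    ∃ G : Finset X, G ⊆ F ∧ (∀ x ∈ G, ∀ y ∈ G, x ≠ y → ρ ≤ dist x y) ∧
      ∀ x ∈ F, ∃ y ∈ G, dist x y < ρ := by
  classical
  let 𝒮 := F.powerset.filter (fun G => ∀ x ∈ G, ∀ y ∈ G, x ≠ y → ρ ≤ dist x y)
  have hne : 𝒮.Nonempty := ⟨∅, by simp [𝒮]⟩
  obtain ⟨G, hG, hmax⟩ := Finset.exists_max_image 𝒮 Finset.card hne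
  simp only [𝒮, Finset.mem_filter, Finset.mem_powerset] at hG hmax
  refine ⟨G, hG.1, hG.2, fun x hx => ?_⟩
  by_contra hcon
  push Not at hcon
  have hxG : x ∉ G := fun h => by
    have := hcon x h
    rw [dist_self] at this
    linarith
  have := hmax (insert x G) ⟨Finset.insert_subset hx hG.1, by
    intro u hu v hv huv
    rw [Finset.mem_insert] at hu hv
    rcases hu with rfl | hu <;> rcases hv with rfl | hv
    · exact absurd rfl huv
    · exact hcon v hv
    · rw [dist_comm]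
      exact hcon u hu
    · exact hG.2 u hu v hv huv⟩
  rw [Finset.card_insert_of_notMem hxG] at this
  omega

/-- The closest `q`-torsion point. -/
theorem exists_torsion_near (β : UnitAddCircle) {q : ℕ} (hq : 1 ≤ q) :
    ∃ x : UnitAddCircle, q • x = 0 ∧ q * dist β x ≤ ‖q • β‖ := by
  obtain ⟨y, rfl⟩ := QuotientAddGroup.mk_surjective β
  have hq0 : (0 : ℝ) < q := by exact_mod_cast hq
  refine ⟨((round ((q : ℝ) * y) / q : ℝ) : UnitAddCircle), ?_, ?_⟩
  · rw [← AddCircle.coe_nsmul, nsmul_eq_mul, mul_div_cancel₀ _ hq0.ne', AddCircle.coe_eq_zero_iff]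
    exact ⟨round ((q : ℝ) * y), by simp⟩
  · change q * dist (y : UnitAddCircle) _ ≤ ‖q • (y : UnitAddCircle)‖
    rw [← AddCircle.coe_nsmul, nsmul_eq_mul, UnitAddCircle.norm_eq, dist_eq_norm,
      ← AddCircle.coe_sub]
    have h := norm_coe_le (y - round ((q : ℝ) * y) / q) 0
    have h2 : |(q : ℝ) * y - round ((q : ℝ) * y)| =
        q * |y - round ((q : ℝ) * y) / q - ((0 : ℤ) : ℝ)| := by
      have e : (q : ℝ) * y - round ((q : ℝ) * y) =
          q * (y - round ((q : ℝ) * y) / q - ((0 : ℤ) : ℝ)) := by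
        push_cast
        field_simp
        ring
      rw [e, abs_mul, abs_of_pos hq0]
    rw [h2]
    exact mul_le_mul_of_nonneg_left h hq0.le

/-- The separated family of admissible fractions at scale `(M, δ)`. -/
theorem scale (a : UnitAddCircle) (M : ℕ) (δ : ℝ) (hδ : 0 < δ) (hδ' : δ ≤ 1 / 2)
    (hMδ : 4 ≤ M * δ) :
    ∃ G : Finset UnitAddCircle,
      (∀ x ∈ G, ∃ q : ℕ, (M : ℝ) * δ / 8 ≤ q ∧
        (q : ℝ) ≤ 256 * M * δ * min (sOf a M : ℝ) (1 / δ) ∧ ‖q • a‖ ≤ δ ∧ q • x = 0) ∧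
      (∀ x ∈ G, ∀ y ∈ G, x ≠ y →
        16 / (M ^ 2 * δ ^ 2 * min (sOf a M : ℝ) (1 / δ)) ≤ dist x y) ∧
      1 / 2 ≤ (G.card : ℝ) * (4 * (16 / (M ^ 2 * δ ^ 2 * min (sOf a M : ℝ) (1 / δ)))) := by
  have hM0' : (0 : ℝ) < M := by
    by_contra h
    push Not at h
    nlinarith
  have hM0 : 0 < M := by exact_mod_cast hM0'
  have hw0 : 0 < min (sOf a M : ℝ) (1 / δ) := by
    apply lt_min
    · exact_mod_cast (sOf_spec a hM0).1
    · positivity
  have hkey := key a M δ hδ hδ' hMδ
  generalize min (sOf a M : ℝ) (1 / δ) = w at *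
  set ρ : ℝ := 16 / (M ^ 2 * δ ^ 2 * w) with hρ
  have hρ0 : 0 < ρ := by positivity
  set R : ℝ := 256 * M * δ * w with hR
  classical
  have hfin : {x : UnitAddCircle | ∃ q : ℕ, (M : ℝ) * δ / 8 ≤ q ∧ (q : ℝ) ≤ R ∧
      ‖q • a‖ ≤ δ ∧ q • x = 0}.Finite := by
    have : {x : UnitAddCircle | ∃ q : ℕ, (M : ℝ) * δ / 8 ≤ q ∧ (q : ℝ) ≤ R ∧
        ‖q • a‖ ≤ δ ∧ q • x = 0} ⊆
        ⋃ q ∈ (Finset.Icc 1 ⌊R⌋₊ : Finset ℕ), {x : UnitAddCircle | q • x = 0} := by
      rintro x ⟨q, h1, h2, -, h4⟩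
      simp only [mem_iUnion, exists_prop]
      refine ⟨q, ?_, h4⟩
      rw [Finset.mem_Icc]
      constructor
      · have : (0 : ℝ) < q := by
          have : (0 : ℝ) < M * δ / 8 := by positivity
          linarith
        exact_mod_cast this
      · exact Nat.le_floor h2
    refine Set.Finite.subset ?_ this
    refine Set.Finite.biUnion (Finset.finite_toSet _) ?_
    intro q hq
    rw [Finset.mem_coe, Finset.mem_Icc] at hq
    exact AddCircle.finite_torsion 1 (by omega)
  obtain ⟨G, hGsub, hGsep, hGnear⟩ := exists_separated hfin.toFinset ρ hρ0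
  refine ⟨G, ?_, hGsep, ?_⟩
  · intro x hx
    have := hGsub hx
    rw [Set.Finite.mem_toFinset] at this
    exact this
  · have hcover : (univ : Set UnitAddCircle) ⊆
        {β : UnitAddCircle | ¬ ∃ q : ℕ, (M : ℝ) * δ / 8 ≤ q ∧
          (q : ℝ) ≤ R ∧ ‖q • a‖ ≤ δ ∧ ‖q • β‖ ≤ q * ρ} ∪
        ⋃ g ∈ G, closedBall g (2 * ρ) := by
      intro β _
      by_cases hβ : ∃ q : ℕ, (M : ℝ) * δ / 8 ≤ q ∧ (q : ℝ) ≤ R ∧ ‖q • a‖ ≤ δ ∧ ‖q • β‖ ≤ q * ρ
      · right
        obtain ⟨q, h1, h2, h3, h4⟩ := hβ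
        have hq0 : (0 : ℝ) < q := by
          have : (0 : ℝ) < M * δ / 8 := by positivity
          linarith
        have hq1 : 1 ≤ q := by exact_mod_cast hq0
        obtain ⟨x, hx1, hx2⟩ := exists_torsion_near β hq1
        obtain ⟨g, hg, hxg⟩ := hGnear x (by
          rw [Set.Finite.mem_toFinset]
          exact ⟨q, h1, h2, h3, hx1⟩)
        simp only [mem_iUnion, exists_prop]
        refine ⟨g, hg, ?_⟩
        rw [mem_closedBall]
        have h5 : dist β x ≤ ρ := by
          have := hx2.trans h4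
          exact le_of_mul_le_mul_left this hq0
        linarith [dist_triangle β x g]
      · left
        exact hβ
    have h1 := measureReal_mono (μ := (volume : Measure UnitAddCircle)) hcover
    have h2 := h1.trans (measureReal_union_le _ _)
    have h3 : (volume : Measure UnitAddCircle).real (⋃ g ∈ G, closedBall g (2 * ρ)) ≤
        G.card * (4 * ρ) := by
      calc (volume : Measure UnitAddCircle).real (⋃ g ∈ G, closedBall g (2 * ρ))
          ≤ ∑ g ∈ G, (volume : Measure UnitAddCircle).real (closedBall g (2 * ρ)) :=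
            measureReal_biUnion_finset_le _ _
        _ ≤ ∑ g ∈ G, 4 * ρ := Finset.sum_le_sum fun g _ => by
            have := measureReal_closedBall_le g (2 * ρ) (by positivity)
            linarith
        _ = G.card * (4 * ρ) := by rw [Finset.sum_const, nsmul_eq_mul]
    have h4 : (volume : Measure UnitAddCircle).real univ = 1 := by
      rw [Measure.real, UnitAddCircle.measure_univ]
      simp
    rw [h4] at h2
    linarith

/-- Second moment lower bound for the measure of a finite union. -/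
theorem second_moment {Ω : Type*} [MeasurableSpace Ω] (μ : Measure Ω) [IsProbabilityMeasure μ]
    {ι : Type*} (B : Finset ι) (E : ι → Set Ω) (hE : ∀ i, MeasurableSet (E i)) (t : ℝ) :
    2 * t * ∑ i ∈ B, μ.real (E i) - t ^ 2 * ∑ i ∈ B, ∑ j ∈ B, μ.real (E i ∩ E j) ≤
      μ.real (⋃ i ∈ B, E i) := by
  have hU : MeasurableSet (⋃ i ∈ B, E i) := Finset.measurableSet_biUnion _ fun i _ => hE i
  have hint : ∀ s : Set Ω, MeasurableSet s → Integrable (s.indicator (1 : Ω → ℝ)) μ :=
    fun s hs => (integrable_const (1 : ℝ)).indicator hs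
  have e1 : ∫ ω, ∑ i ∈ B, (E i).indicator (1 : Ω → ℝ) ω ∂μ = ∑ i ∈ B, μ.real (E i) := by
    rw [integral_finsetSum _ fun i _ => hint _ (hE i)]
    exact Finset.sum_congr rfl fun i _ => integral_indicator_one (hE i)
  have e2 : ∫ ω, ∑ i ∈ B, ∑ j ∈ B, (E i ∩ E j).indicator (1 : Ω → ℝ) ω ∂μ =
      ∑ i ∈ B, ∑ j ∈ B, μ.real (E i ∩ E j) := by
    rw [integral_finsetSum _ fun i _ => integrable_finsetSum _ fun j _ =>
      hint _ ((hE i).inter (hE j))]
    refine Finset.sum_congr rfl fun i _ => ?_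
    rw [integral_finsetSum _ fun j _ => hint _ ((hE i).inter (hE j))]
    exact Finset.sum_congr rfl fun j _ => integral_indicator_one ((hE i).inter (hE j))
  rw [← e1, ← e2, ← integral_indicator_one hU, ← integral_const_mul, ← integral_const_mul,
    ← integral_sub]
  · apply integral_mono
    · apply Integrable.sub
      · exact (integrable_finsetSum _ fun i _ => hint _ (hE i)).const_mul _
      · exact (integrable_finsetSum _ fun i _ => integrable_finsetSum _ fun j _ =>
          hint _ ((hE i).inter (hE j))).const_mul _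
    · exact hint _ hU
    · intro ω
      simp only
      have hsq : ∑ i ∈ B, ∑ j ∈ B, (E i ∩ E j).indicator (1 : Ω → ℝ) ω =
          (∑ i ∈ B, (E i).indicator (1 : Ω → ℝ) ω) ^ 2 := by
        rw [sq, Finset.sum_mul_sum]
        refine Finset.sum_congr rfl fun i _ => Finset.sum_congr rfl fun j _ => ?_
        rw [Set.inter_indicator_one]
        rfl
      rw [hsq]
      by_cases hω : ω ∈ ⋃ i ∈ B, E i
      · rw [indicator_of_mem hω]
        simp only [Pi.one_apply]
        nlinarith [sq_nonneg (t * (∑ i ∈ B, (E i).indicator (1 : Ω → ℝ) ω) - 1)]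
      · rw [indicator_of_notMem hω]
        have : ∑ i ∈ B, (E i).indicator (1 : Ω → ℝ) ω = 0 := by
          apply Finset.sum_eq_zero
          intro i hi
          apply indicator_of_notMem
          intro h
          apply hω
          simp only [mem_iUnion, exists_prop]
          exact ⟨i, hi, h⟩
        rw [this]
        simp
  · exact (integrable_finsetSum _ fun i _ => hint _ (hE i)).const_mul _
  · exact (integrable_finsetSum _ fun i _ => integrable_finsetSum _ fun j _ =>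
      hint _ ((hE i).inter (hE j))).const_mul _


/-- A `ρ`-separated family on the circle has at most `2 / ρ` elements. -/
theorem card_le_of_separated (G : Finset UnitAddCircle) (ρ : ℝ) (hρ : 0 < ρ) (hρ' : ρ ≤ 1)
    (hsep : ∀ x ∈ G, ∀ y ∈ G, x ≠ y → ρ ≤ dist x y) : (G.card : ℝ) ≤ 2 / ρ := by
  have := packing G id (ρ / 2) (1 / 2) (by linarith) (by linarith) (by norm_num) 0
    (by
      intro i hi j hj hij
      have := hsep i hi j hj hij
      simp only [id]
      linarith)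
    (by
      intro i _
      simp only [id]
      rw [dist_zero_right]
      have := AddCircle.norm_le_half_period 1 (by norm_num) (x := i)
      simpa using this)
  rw [le_div_iff₀ hρ]
  linarith

theorem measure_family (G : Finset UnitAddCircle) (r ρ : ℝ) (hr : 0 < r) (hρ' : ρ ≤ 1)
    (hrρ : 2 * r ≤ ρ) (hsep : ∀ x ∈ G, ∀ y ∈ G, x ≠ y → ρ ≤ dist x y) :
    (volume : Measure UnitAddCircle).real (⋃ x ∈ G, ball x r) = G.card * (2 * r) := by
  have h1 : (volume : Measure UnitAddCircle).real (⋃ x ∈ G, ball x r) =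
      ∑ x ∈ G, (volume : Measure UnitAddCircle).real (ball x r) := by
    apply measureReal_biUnion_finset
    · intro i hi j hj hij
      exact ball_disjoint_ball (by linarith [hsep i hi j hj hij])
    · intro i _
      exact measurableSet_ball
    · intro i _
      exact measure_ne_top _ _
  rw [h1, Finset.sum_congr rfl fun x _ => measureReal_ball x r hr.le (by linarith),
    Finset.sum_const, nsmul_eq_mul]

theorem overlap (G₁ G₂ : Finset UnitAddCircle) (r₁ r₂ ρ₁ ρ₂ : ℝ) (hr₁ : 0 < r₁) (hr₂ : 0 < r₂)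
    (hρ₁ : 0 < ρ₁) (hρ₁' : ρ₁ ≤ 1) (hρ₂' : ρ₂ ≤ 1) (hrρ : 4 * r₂ ≤ ρ₂)
    (hsep₁ : ∀ x ∈ G₁, ∀ y ∈ G₁, x ≠ y → ρ₁ ≤ dist x y)
    (hsep₂ : ∀ x ∈ G₂, ∀ y ∈ G₂, x ≠ y → ρ₂ ≤ dist x y) :
    (volume : Measure UnitAddCircle).real ((⋃ x ∈ G₁, ball x r₁) ∩ (⋃ y ∈ G₂, ball y r₂)) ≤
      8 * (r₂ / ρ₁) + 8 * ((r₁ / ρ₁) * (r₂ / ρ₂)) := by
  classical
  have hρ₂ : 0 < ρ₂ := by linarith
  have hsub : ((⋃ x ∈ G₁, ball x r₁) ∩ (⋃ y ∈ G₂, ball y r₂)) ⊆
      ⋃ x ∈ G₁, ⋃ y ∈ G₂.filter (fun y => dist y x < r₁ + r₂), ball y r₂ := by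
    intro z hz
    obtain ⟨hz1, hz2⟩ := hz
    simp only [mem_iUnion, exists_prop, mem_ball] at hz1 hz2
    obtain ⟨x, hx, hzx⟩ := hz1
    obtain ⟨y, hy, hzy⟩ := hz2
    simp only [mem_iUnion, exists_prop, mem_ball, Finset.mem_filter]
    refine ⟨x, hx, y, ⟨hy, ?_⟩, hzy⟩
    have := dist_triangle y z x
    rw [dist_comm y z] at this
    linarith
  have hc : ∀ x ∈ G₁, (volume : Measure UnitAddCircle).real
      (⋃ y ∈ G₂.filter (fun y => dist y x < r₁ + r₂), ball y r₂) ≤
      (2 + 2 * (r₁ / ρ₂)) * (2 * r₂) := by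
    intro x _
    have h1 := packing (G₂.filter (fun y => dist y x < r₁ + r₂)) id (ρ₂ / 2) (r₁ + r₂)
      (by linarith) (by linarith) (by linarith) x
      (by
        intro i hi j hj hij
        rw [Finset.mem_filter] at hi hj
        have := hsep₂ i hi.1 j hj.1 hij
        simp only [id]
        linarith)
      (by
        intro i hi
        rw [Finset.mem_filter] at hi
        exact hi.2.le)
    have h2 : ((G₂.filter (fun y => dist y x < r₁ + r₂)).card : ℝ) ≤ 2 + 2 * (r₁ / ρ₂) := by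
      have e : (2 + 2 * (r₁ / ρ₂)) * (ρ₂ / 2) = ρ₂ + r₁ := by field_simp
      have h3 : ((G₂.filter (fun y => dist y x < r₁ + r₂)).card : ℝ) * (ρ₂ / 2) ≤
          (2 + 2 * (r₁ / ρ₂)) * (ρ₂ / 2) := by
        rw [e]
        linarith
      exact le_of_mul_le_mul_right h3 (by linarith)
    calc (volume : Measure UnitAddCircle).real
          (⋃ y ∈ G₂.filter (fun y => dist y x < r₁ + r₂), ball y r₂) ≤
          ∑ y ∈ G₂.filter (fun y => dist y x < r₁ + r₂),
          (volume : Measure UnitAddCircle).real (ball y r₂) := measureReal_biUnion_finset_le _ _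
      _ ≤ ∑ y ∈ G₂.filter (fun y => dist y x < r₁ + r₂), 2 * r₂ :=
          Finset.sum_le_sum fun y _ => measureReal_ball_le y r₂ hr₂.le
      _ = (G₂.filter (fun y => dist y x < r₁ + r₂)).card * (2 * r₂) := by
          rw [Finset.sum_const, nsmul_eq_mul]
      _ ≤ (2 + 2 * (r₁ / ρ₂)) * (2 * r₂) := by gcongr
  calc (volume : Measure UnitAddCircle).real ((⋃ x ∈ G₁, ball x r₁) ∩ (⋃ y ∈ G₂, ball y r₂))
      ≤ (volume : Measure UnitAddCircle).real
        (⋃ x ∈ G₁, ⋃ y ∈ G₂.filter (fun y => dist y x < r₁ + r₂), ball y r₂) :=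
        measureReal_mono (h₂ := measure_ne_top _ _) hsub
    _ ≤ ∑ x ∈ G₁, (volume : Measure UnitAddCircle).real
        (⋃ y ∈ G₂.filter (fun y => dist y x < r₁ + r₂), ball y r₂) :=
        measureReal_biUnion_finset_le _ _
    _ ≤ ∑ x ∈ G₁, (2 + 2 * (r₁ / ρ₂)) * (2 * r₂) := Finset.sum_le_sum hc
    _ = G₁.card * ((2 + 2 * (r₁ / ρ₂)) * (2 * r₂)) := by rw [Finset.sum_const, nsmul_eq_mul]
    _ ≤ (2 / ρ₁) * ((2 + 2 * (r₁ / ρ₂)) * (2 * r₂)) := by
        apply mul_le_mul_of_nonneg_right (card_le_of_separated G₁ ρ₁ hρ₁ hρ₁' hsep₁)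
        positivity
    _ = 8 * (r₂ / ρ₁) + 8 * ((r₁ / ρ₁) * (r₂ / ρ₂)) := by
        field_simp
        ring

/-- A crude bound for two-sided geometric sums. -/
theorem geom_sum_le (B : Finset ℕ) (n : ℕ) :
    ∑ m ∈ B, ((1 : ℝ) / 2) ^ ((m - n) + (n - m)) ≤ 4 := by
  classical
  have hhalf : ∀ S : Finset ℕ, ∑ k ∈ S, ((1 : ℝ) / 2) ^ k ≤ 2 := by
    intro S
    have := Summable.sum_le_tsum S (fun k _ => by positivity)
      summable_geometric_two
    rw [tsum_geometric_two] at this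
    exact this
  have h1 : ∑ m ∈ B.filter (fun m => n ≤ m), ((1 : ℝ) / 2) ^ ((m - n) + (n - m)) ≤ 2 := by
    have e : ∑ m ∈ B.filter (fun m => n ≤ m), ((1 : ℝ) / 2) ^ ((m - n) + (n - m)) =
        ∑ k ∈ (B.filter (fun m => n ≤ m)).image (fun m => m - n), ((1 : ℝ) / 2) ^ k := by
      rw [Finset.sum_image]
      · refine Finset.sum_congr rfl fun m hm => ?_
        rw [Finset.mem_filter] at hm
        have : n - m = 0 := by omega
        rw [this, add_zero]
      · intro x hx y hy hxy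
        simp only [Finset.coe_filter, mem_ofPred_eq] at hx hy
        simp only at hxy
        omega
    rw [e]
    exact hhalf _
  have h2 : ∑ m ∈ B.filter (fun m => ¬ n ≤ m), ((1 : ℝ) / 2) ^ ((m - n) + (n - m)) ≤ 2 := by
    have e : ∑ m ∈ B.filter (fun m => ¬ n ≤ m), ((1 : ℝ) / 2) ^ ((m - n) + (n - m)) =
        ∑ k ∈ (B.filter (fun m => ¬ n ≤ m)).image (fun m => n - m), ((1 : ℝ) / 2) ^ k := by
      rw [Finset.sum_image]
      · refine Finset.sum_congr rfl fun m hm => ?_
        rw [Finset.mem_filter] at hm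
        have : m - n = 0 := by omega
        rw [this, zero_add]
      · intro x hx y hy hxy
        simp only [Finset.coe_filter, mem_ofPred_eq] at hx hy
        simp only at hxy
        omega
    rw [e]
    exact hhalf _
  rw [← Finset.sum_filter_add_sum_filter_not B (fun m => n ≤ m)]
  linarith

/-- The block estimate: a finite block of scales of total weight between `1` and `2` produces a
union of measure bounded below by an absolute constant. -/
theorem block (a : UnitAddCircle) (δ : ℕ → ℝ) (hδ : ∀ n, 0 < δ n) (hδ' : ∀ n, δ n ≤ 1 / 2)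
    (hanti : Antitone δ) (ha : ∀ n, (2 : ℝ) ^ n * δ n ^ 2 ≤ 1 / 4)
    (G : ℕ → Finset UnitAddCircle) (w r ρ : ℕ → ℝ)
    (hw : ∀ n, w n = min (sOf a (2 ^ n) : ℝ) (1 / δ n))
    (hr : ∀ n, r n = 1 / (256 * 2 ^ n * w n))
    (hρ : ∀ n, ρ n = 16 / ((2 ^ n) ^ 2 * δ n ^ 2 * w n))
    (B : Finset ℕ) (hB : ∀ n ∈ B, 4 ≤ (2 : ℝ) ^ n * δ n)
    (hsep : ∀ n ∈ B, ∀ x ∈ G n, ∀ y ∈ G n, x ≠ y → ρ n ≤ dist x y)
    (hcard : ∀ n ∈ B, 1 / 2 ≤ ((G n).card : ℝ) * (4 * ρ n))
    (h1 : 1 ≤ ∑ n ∈ B, (2 : ℝ) ^ n * δ n ^ 2) (h2 : ∑ n ∈ B, (2 : ℝ) ^ n * δ n ^ 2 ≤ 2) :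
    (1 : ℝ) / 2 ^ 24 ≤
      (volume : Measure UnitAddCircle).real (⋃ n ∈ B, ⋃ x ∈ G n, ball x (r n)) := by
  have hw0 : ∀ n, 1 ≤ w n := by
    intro n
    rw [hw]
    apply le_min
    · exact_mod_cast (sOf_spec a (by positivity : 0 < 2 ^ n)).1
    · rw [le_div_iff₀ (hδ n)]
      linarith [hδ' n]
  have hw0' : ∀ n, 0 < w n := fun n => by linarith [hw0 n]
  have hwmono : ∀ n m, n ≤ m → w n ≤ w m := by
    intro n m hnm
    rw [hw, hw]
    apply min_le_min
    · exact_mod_cast sOf_mono a (by positivity) (Nat.pow_le_pow_right (by norm_num) hnm)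
    · exact one_div_le_one_div_of_le (hδ m) (hanti hnm)
  have hr0 : ∀ n, 0 < r n := fun n => by
    rw [hr]
    have := hw0' n
    positivity
  have hρ0 : ∀ n, 0 < ρ n := fun n => by
    rw [hρ]
    have := hw0' n
    have := hδ n
    positivity
  have hrr : ∀ n, r n / ρ n = (2 : ℝ) ^ n * δ n ^ 2 / 4096 := by
    intro n
    have := hw0' n
    have := hδ n
    rw [hr, hρ]
    field_simp
    norm_num
  have hrr4 : ∀ n, 4 * r n ≤ ρ n := by
    intro n
    have e := hrr n
    rw [div_eq_iff (hρ0 n).ne'] at e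
    have := ha n
    have h0 := hρ0 n
    nlinarith
  have hρ1 : ∀ n ∈ B, ρ n ≤ 1 := by
    intro n hn
    rw [hρ]
    have hx := hB n hn
    have hw' := hw0 n
    rw [div_le_one (by have := hδ n; have := hw0' n; positivity)]
    have h4 : (16 : ℝ) ≤ (2 ^ n * δ n) ^ 2 := by nlinarith
    nlinarith
  have hcross : ∀ n m, n ≤ m → r m / ρ n ≤
      (2 : ℝ) ^ n * δ n ^ 2 / 4096 * (1 / 2) ^ (m - n) := by
    intro n m hnm
    have hwm := hw0' m
    have hwn := hw0' n
    have hδn := hδ n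
    have e : r m / ρ n = ((2 : ℝ) ^ n * δ n ^ 2 / 4096 * (1 / 2) ^ (m - n)) * (w n / w m) := by
      rw [hr, hρ]
      have e2 : (2 : ℝ) ^ m = 2 ^ n * 2 ^ (m - n) := by
        rw [← pow_add]
        congr 1
        omega
      rw [e2, one_div_pow]
      field_simp
      norm_num
    rw [e]
    have h3 : w n / w m ≤ 1 := by
      rw [div_le_one hwm]
      exact hwmono n m hnm
    calc ((2 : ℝ) ^ n * δ n ^ 2 / 4096 * (1 / 2) ^ (m - n)) * (w n / w m)
        ≤ ((2 : ℝ) ^ n * δ n ^ 2 / 4096 * (1 / 2) ^ (m - n)) * 1 := by gcongr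
      _ = _ := mul_one _
  set E : ℕ → Set UnitAddCircle := fun n => ⋃ x ∈ G n, ball x (r n) with hE
  have hEm : ∀ n, MeasurableSet (E n) := fun n =>
    Finset.measurableSet_biUnion _ fun x _ => measurableSet_ball
  have hmeas : ∀ n ∈ B, (volume : Measure UnitAddCircle).real (E n) = (G n).card * (2 * r n) := by
    intro n hn
    exact measure_family (G n) (r n) (ρ n) (hr0 n) (hρ1 n hn) (by linarith [hrr4 n, hr0 n])
      (hsep n hn)
  have hlow : ∀ n ∈ B, (2 : ℝ) ^ n * δ n ^ 2 / 2 ^ 14 ≤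
      (volume : Measure UnitAddCircle).real (E n) := by
    intro n hn
    rw [hmeas n hn]
    have h3 := hcard n hn
    have e := hrr n
    rw [div_eq_iff (hρ0 n).ne'] at e
    have h4 : 1 / (8 * ρ n) ≤ ((G n).card : ℝ) := by
      have := hρ0 n
      rw [div_le_iff₀ (by positivity)]
      linarith
    calc (2 : ℝ) ^ n * δ n ^ 2 / 2 ^ 14 = 1 / (8 * ρ n) * (2 * r n) := by
          rw [e]
          have := hρ0 n
          field_simp
          ring
      _ ≤ ((G n).card : ℝ) * (2 * r n) := by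
          have := hr0 n
          gcongr
  have hup : ∀ n ∈ B, (volume : Measure UnitAddCircle).real (E n) ≤
      (2 : ℝ) ^ n * δ n ^ 2 / 1024 := by
    intro n hn
    rw [hmeas n hn]
    have h3 := card_le_of_separated (G n) (ρ n) (hρ0 n) (hρ1 n hn) (hsep n hn)
    calc ((G n).card : ℝ) * (2 * r n) ≤ 2 / ρ n * (2 * r n) := by
          have := hr0 n
          gcongr
      _ = 4 * (r n / ρ n) := by
          have := hρ0 n
          field_simp
          ring
      _ = (2 : ℝ) ^ n * δ n ^ 2 / 1024 := by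
          rw [hrr]
          ring
  set A : ℕ → ℝ := fun n => (2 : ℝ) ^ n * δ n ^ 2 with hA
  have hA0 : ∀ n, 0 ≤ A n := fun n => by
    have := hδ n
    positivity
  have hlt : ∀ n ∈ B, ∀ m ∈ B, n < m → (volume : Measure UnitAddCircle).real (E n ∩ E m) ≤
      1 / 512 * (A n * (1 / 2) ^ ((m - n) + (n - m)) + A n * A m) := by
    intro n hn m hm hnm
    have h3 := overlap (G n) (G m) (r n) (r m) (ρ n) (ρ m) (hr0 n) (hr0 m) (hρ0 n) (hρ1 n hn)
      (hρ1 m hm) (hrr4 m) (hsep n hn) (hsep m hm)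
    refine h3.trans ?_
    rw [hrr n, hrr m]
    have h4 := hcross n m hnm.le
    have e : n - m = 0 := by omega
    rw [e, add_zero]
    have h5 : 0 ≤ A n * A m := mul_nonneg (hA0 n) (hA0 m)
    simp only [hA] at h5 ⊢
    nlinarith
  have hpair : ∀ n ∈ B, ∀ m ∈ B, (volume : Measure UnitAddCircle).real (E n ∩ E m) ≤
      1 / 512 * (A n * (1 / 2) ^ ((m - n) + (n - m)) + A m * (1 / 2) ^ ((m - n) + (n - m))
        + A n * A m) := by
    intro n hn m hm
    rcases lt_trichotomy n m with h | h | h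
    · have := hlt n hn m hm h
      have h3 : 0 ≤ A m * (1 / 2 : ℝ) ^ ((m - n) + (n - m)) := mul_nonneg (hA0 m) (by positivity)
      linarith
    · subst h
      rw [inter_self]
      have h3 := hup n hn
      simp only [Nat.sub_self, add_zero, pow_zero, mul_one]
      have h4 : 0 ≤ A n * A n := mul_nonneg (hA0 n) (hA0 n)
      have h5 := hA0 n
      simp only [hA] at h4 h5 ⊢
      linarith
    · have := hlt m hm n hn h
      rw [inter_comm] at this
      rw [add_comm (n - m) (m - n), mul_comm (A m) (A n)] at this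
      have h3 : 0 ≤ A n * (1 / 2 : ℝ) ^ ((m - n) + (n - m)) := mul_nonneg (hA0 n) (by positivity)
      linarith
  have hS2 : ∑ n ∈ B, ∑ m ∈ B, (volume : Measure UnitAddCircle).real (E n ∩ E m) ≤ 5 / 128 := by
    have hg : ∀ n, ∑ m ∈ B, ((1 : ℝ) / 2) ^ ((m - n) + (n - m)) ≤ 4 := geom_sum_le B
    have e1 : ∑ n ∈ B, ∑ m ∈ B, A n * ((1 : ℝ) / 2) ^ ((m - n) + (n - m)) ≤ 8 := by
      calc ∑ n ∈ B, ∑ m ∈ B, A n * ((1 : ℝ) / 2) ^ ((m - n) + (n - m))
          = ∑ n ∈ B, A n * ∑ m ∈ B, ((1 : ℝ) / 2) ^ ((m - n) + (n - m)) := by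
            refine Finset.sum_congr rfl fun n _ => ?_
            rw [Finset.mul_sum]
        _ ≤ ∑ n ∈ B, A n * 4 := by
            refine Finset.sum_le_sum fun n _ => ?_
            exact mul_le_mul_of_nonneg_left (hg n) (hA0 n)
        _ = (∑ n ∈ B, A n) * 4 := by rw [Finset.sum_mul]
        _ ≤ 8 := by linarith
    have e2 : ∑ n ∈ B, ∑ m ∈ B, A m * ((1 : ℝ) / 2) ^ ((m - n) + (n - m)) ≤ 8 := by
      rw [Finset.sum_comm]
      refine le_trans (le_of_eq ?_) e1
      refine Finset.sum_congr rfl fun n _ => Finset.sum_congr rfl fun m _ => ?_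
      rw [add_comm]
    have e3 : ∑ n ∈ B, ∑ m ∈ B, A n * A m ≤ 4 := by
      rw [← Finset.sum_mul_sum]
      have h0 : 0 ≤ ∑ n ∈ B, A n := Finset.sum_nonneg fun n _ => hA0 n
      nlinarith
    calc ∑ n ∈ B, ∑ m ∈ B, (volume : Measure UnitAddCircle).real (E n ∩ E m)
        ≤ ∑ n ∈ B, ∑ m ∈ B, 1 / 512 * (A n * (1 / 2) ^ ((m - n) + (n - m))
          + A m * (1 / 2) ^ ((m - n) + (n - m)) + A n * A m) :=
          Finset.sum_le_sum fun n hn => Finset.sum_le_sum fun m hm => hpair n hn m hm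
      _ = 1 / 512 * (∑ n ∈ B, ∑ m ∈ B, A n * ((1 : ℝ) / 2) ^ ((m - n) + (n - m)) +
          ∑ n ∈ B, ∑ m ∈ B, A m * ((1 : ℝ) / 2) ^ ((m - n) + (n - m)) +
          ∑ n ∈ B, ∑ m ∈ B, A n * A m) := by
          simp only [Finset.mul_sum, ← Finset.sum_add_distrib]
      _ ≤ 5 / 128 := by linarith
  have hS1 : 1 / 2 ^ 14 ≤ ∑ n ∈ B, (volume : Measure UnitAddCircle).real (E n) := by
    calc (1 : ℝ) / 2 ^ 14 ≤ (∑ n ∈ B, A n) / 2 ^ 14 := by gcongr
      _ = ∑ n ∈ B, (2 : ℝ) ^ n * δ n ^ 2 / 2 ^ 14 := by rw [Finset.sum_div]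
      _ ≤ _ := Finset.sum_le_sum hlow
  have : IsProbabilityMeasure (volume : Measure UnitAddCircle) :=
    ⟨UnitAddCircle.measure_univ⟩
  have hsm := second_moment (volume : Measure UnitAddCircle) B E hEm (1 / 1024)
  have : (1 : ℝ) / 2 ^ 24 ≤ 2 * (1 / 1024) * ∑ i ∈ B, (volume : Measure UnitAddCircle).real (E i) -
      (1 / 1024) ^ 2 * ∑ i ∈ B, ∑ j ∈ B, (volume : Measure UnitAddCircle).real (E i ∩ E j) := by
    norm_num at hS1 hS2 ⊢
    linarith
  exact this.trans hsm


/-- Membership in a `blimsup` of sets along `atTop`. -/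
theorem mem_blimsup_iff {X : Type*} (s : ℕ → Set X) (p : ℕ → Prop) (x : X) :
    x ∈ blimsup s atTop p ↔ ∃ᶠ q in atTop, p q ∧ x ∈ s q := by
  rw [← Nat.cofinite_eq_atTop, cofinite.blimsup_set_eq, frequently_cofinite_iff_infinite]
  rfl

/-- Zero-one law for non-reduced fractions along a fixed set of denominators. -/
theorem zero_one (p : ℕ → Prop) (r : ℕ → ℝ) (hr : Tendsto r atTop (𝓝 0)) :
    (blimsup (fun q : ℕ => thickening (r q) {x : UnitAddCircle | q • x = 0}) atTop p :
      Set UnitAddCircle) =ᵐ[volume] (∅ : Set UnitAddCircle) ∨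
    (blimsup (fun q : ℕ => thickening (r q) {x : UnitAddCircle | q • x = 0}) atTop p :
      Set UnitAddCircle) =ᵐ[volume] univ := by
  set W : Set UnitAddCircle :=
    blimsup (fun q : ℕ => thickening (r q) {x : UnitAddCircle | q • x = 0}) atTop p with hW
  have hWm : MeasurableSet W :=
    MeasurableSet.measurableSet_blimsup fun n _ => isOpen_thickening.measurableSet
  let f : UnitAddCircle → UnitAddCircle := fun y => (2 : ℕ) • y
  have hsub : f '' W ⊆
      blimsup (fun q : ℕ => thickening (2 * r q) {x : UnitAddCircle | q • x = 0}) atTop p := by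
    rintro _ ⟨y, hy, rfl⟩
    rw [hW, mem_blimsup_iff] at hy
    rw [mem_blimsup_iff]
    refine hy.mono fun q hq => ⟨hq.1, ?_⟩
    obtain ⟨z, hz, hyz⟩ := mem_thickening_iff.mp hq.2
    refine mem_thickening_iff.mpr ⟨2 • z, ?_, ?_⟩
    · have hz' : q • z = 0 := hz
      change q • 2 • z = 0
      rw [smul_comm, hz', smul_zero]
    · change dist ((2 : ℕ) • y) ((2 : ℕ) • z) < 2 * r q
      rw [dist_eq_norm, ← smul_sub]
      calc ‖(2 : ℕ) • (y - z)‖ ≤ (2 : ℕ) * ‖y - z‖ := norm_nsmul_le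
        _ < 2 * r q := by
          rw [← dist_eq_norm]
          push_cast
          linarith
  apply (AddCircle.ergodic_nsmul (T := (1 : ℝ)) (n := 2) one_lt_two).ae_empty_or_univ_of_image_ae_le
    hWm.nullMeasurableSet
  apply (LE.le.eventuallyLE hsub).congr EventuallyEq.rfl
  exact blimsup_thickening_mul_ae_eq volume p (fun q : ℕ => {x : UnitAddCircle | q • x = 0})
    two_pos r hr

theorem summable_iff_of_eventuallyEq_aux {f g : ℕ → ℝ} (h : ∀ᶠ n in atTop, f n = g n) :
    Summable g ↔ Summable f := by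
  have h' : f =ᶠ[cofinite] g := by
    rw [Nat.cofinite_eq_atTop]
    exact h
  exact (summable_congr_cofinite h').symm

/-- The main theorem on the circle, antitone case. -/
theorem ae_antitone (ψ : ℕ → ℝ) (hpos : ∀ q, 1 ≤ q → 0 < ψ q)
    (hanti : ∀ m n, 1 ≤ m → m ≤ n → ψ n ≤ ψ m)
    (hdiv : ¬ Summable (fun q : ℕ => ψ (q + 1) ^ 2)) (a : UnitAddCircle) :
    ∀ᵐ β : UnitAddCircle, ∃ᶠ q : ℕ in atTop, ‖q • a‖ < ψ q ∧ ‖q • β‖ < ψ q := by
  have hprob : IsProbabilityMeasure (volume : Measure UnitAddCircle) :=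
    ⟨UnitAddCircle.measure_univ⟩
  -- the sequence `δ`
  set δ : ℕ → ℝ := fun n => 1 / 2 * min (ψ (2 ^ (n + 8))) (1 / √(2 ^ n)) with hδdef
  have hψ0 : ∀ n, 0 < ψ (2 ^ n) := fun n => hpos _ Nat.one_le_two_pow
  have hδ : ∀ n, 0 < δ n := by
    intro n
    have := hψ0 (n + 8)
    simp only [hδdef]
    positivity
  have hδ1 : ∀ n, δ n ≤ 1 / 2 * (1 / √(2 ^ n)) := by
    intro n
    simp only [hδdef]
    gcongr
    exact min_le_right _ _
  have hδψ : ∀ n, 2 * δ n ≤ ψ (2 ^ (n + 8)) := by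
    intro n
    simp only [hδdef]
    have := min_le_left (ψ (2 ^ (n + 8))) (1 / √(2 ^ n))
    linarith
  have hδ' : ∀ n, δ n ≤ 1 / 2 := by
    intro n
    refine (hδ1 n).trans ?_
    have h1 : (1 : ℝ) ≤ √(2 ^ n) := by
      rw [Real.one_le_sqrt]
      exact one_le_pow₀ (by norm_num)
    have h2 : 1 / √(2 ^ n : ℝ) ≤ 1 := by
      rw [div_le_one (by linarith)]
      exact h1
    linarith
  have hδanti : Antitone δ := by
    intro n m hnm
    simp only [hδdef]
    apply mul_le_mul_of_nonneg_left _ (by norm_num)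
    apply min_le_min
    · exact hanti _ _ Nat.one_le_two_pow (Nat.pow_le_pow_right (by norm_num) (by omega))
    · apply one_div_le_one_div_of_le (by positivity)
      apply Real.sqrt_le_sqrt
      exact pow_le_pow_right₀ (by norm_num) hnm
  set A : ℕ → ℝ := fun n => (2 : ℝ) ^ n * δ n ^ 2 with hAdef
  have hA0 : ∀ n, 0 ≤ A n := fun n => by
    have := hδ n
    simp only [hAdef]
    positivity
  have hA1 : ∀ n, A n ≤ 1 / 4 := by
    intro n
    have h1 := hδ1 n
    have h0 := hδ n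
    have h2 : δ n ^ 2 ≤ (1 / 2 * (1 / √(2 ^ n))) ^ 2 := by gcongr
    have h3 : (1 / 2 * (1 / √(2 ^ n : ℝ))) ^ 2 = 1 / 4 * (1 / 2 ^ n) := by
      rw [mul_pow, div_pow, div_pow, Real.sq_sqrt (by positivity)]
      norm_num
    rw [h3] at h2
    simp only [hAdef]
    calc (2 : ℝ) ^ n * δ n ^ 2 ≤ 2 ^ n * (1 / 4 * (1 / 2 ^ n)) := by gcongr
      _ = 1 / 4 := by field_simp
  -- divergence
  have hAdiv : ¬ Summable A := by
    intro hS
    apply hdiv
    have hev : ∀ᶠ n in atTop, A n < 1 / 4 :=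
      hS.tendsto_atTop_zero.eventually (gt_mem_nhds (by norm_num))
    have hev2 : ∀ᶠ n in atTop, (2 : ℝ) ^ n * ψ (2 ^ (n + 8)) ^ 2 = 4 * A n := by
      filter_upwards [hev] with n hn
      have h1 : min (ψ (2 ^ (n + 8))) (1 / √(2 ^ n)) = ψ (2 ^ (n + 8)) := by
        apply min_eq_left
        by_contra hcon
        push Not at hcon
        have h2 : δ n = 1 / 2 * (1 / √(2 ^ n)) := by
          simp only [hδdef]
          rw [min_eq_right hcon.le]
        have h3 : A n = 1 / 4 := by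
          simp only [hAdef]
          rw [h2, mul_pow, div_pow, div_pow, Real.sq_sqrt (by positivity)]
          field_simp
          norm_num
        linarith
      simp only [hAdef, hδdef]
      rw [h1]
      ring
    have hS2 : Summable (fun n : ℕ => (2 : ℝ) ^ n * ψ (2 ^ (n + 8)) ^ 2) := by
      have h4 : Summable (fun n => 4 * A n) := hS.mul_left 4
      rw [← summable_iff_of_eventuallyEq_aux hev2]
      exact h4
    have hS3 : Summable (fun n : ℕ => (2 : ℝ) ^ (n + 8) * ψ (2 ^ (n + 8)) ^ 2) := by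
      have := hS2.mul_left (2 ^ 8)
      refine this.congr fun n => ?_
      rw [pow_add]
      ring
    have hS4 : Summable (fun n : ℕ => (2 : ℝ) ^ n * ψ (2 ^ n) ^ 2) :=
      (summable_nat_add_iff (f := fun n : ℕ => (2 : ℝ) ^ n * ψ (2 ^ n) ^ 2) 8).mp hS3
    have hS5 : Summable (fun q : ℕ => ψ q ^ 2) := by
      refine (summable_condensed_iff_of_nonneg (f := fun q : ℕ => ψ q ^ 2)
        (fun n => sq_nonneg _) ?_).mp hS4
      intro m n hm hmn
      have h1 := hpos n (by omega)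
      have h2 := hanti m n hm hmn
      exact pow_le_pow_left₀ h1.le h2 2
    exact (summable_nat_add_iff (f := fun q : ℕ => ψ q ^ 2) 1).mpr hS5
  -- good scales
  have hgood_div : ¬ Summable (fun n : ℕ => if 1 / ((n : ℝ) + 1) ^ 2 ≤ A n then A n else 0) := by
    intro hS
    apply hAdiv
    have h1 : Summable (fun n : ℕ => 1 / ((n : ℝ) + 1) ^ 2) := by
      have := (summable_nat_add_iff (f := fun n : ℕ => 1 / (n : ℝ) ^ 2) 1).mpr
        (Real.summable_one_div_nat_pow.mpr one_lt_two)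
      refine this.congr fun n => ?_
      push_cast
      rfl
    refine Summable.of_nonneg_of_le hA0 ?_ (hS.add h1)
    intro n
    split_ifs with h
    · have : (0 : ℝ) ≤ 1 / ((n : ℝ) + 1) ^ 2 := by positivity
      linarith
    · push Not at h
      linarith
  -- the product `2 ^ n * δ n` tends to infinity along good scales
  have hlarge : ∀ L : ℝ, 0 < L → ∃ n₀ : ℕ, ∀ n, n₀ ≤ n → 1 / ((n : ℝ) + 1) ^ 2 ≤ A n →
      L ≤ (2 : ℝ) ^ n * δ n := by
    intro L hL
    have h1 : Tendsto (fun n : ℕ => ((n : ℝ) + 1) ^ 2 / 2 ^ (n + 1)) atTop (𝓝 0) := by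
      have := (tendsto_pow_const_div_const_pow_of_one_lt 2 (one_lt_two (α := ℝ))).comp
        (tendsto_add_atTop_nat 1)
      refine this.congr fun n => ?_
      simp
    have h2 : ∀ᶠ n : ℕ in atTop, ((n : ℝ) + 1) ^ 2 / 2 ^ (n + 1) < 1 / (2 * L ^ 2) :=
      h1.eventually (gt_mem_nhds (by positivity))
    obtain ⟨n₀, hn₀⟩ := eventually_atTop.mp h2
    refine ⟨n₀, fun n hn hAn => ?_⟩
    have h3 := hn₀ n hn
    have hδn := hδ n
    have h4 : L ^ 2 ≤ ((2 : ℝ) ^ n * δ n) ^ 2 := by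
      have e1 : ((2 : ℝ) ^ n * δ n) ^ 2 = 2 ^ n * A n := by
        simp only [hAdef]
        ring
      rw [e1]
      have e2 : (2 : ℝ) ^ n * (1 / ((n : ℝ) + 1) ^ 2) ≤ 2 ^ n * A n := by gcongr
      refine le_trans ?_ e2
      rw [div_lt_div_iff₀ (by positivity) (by positivity)] at h3
      rw [mul_one_div, le_div_iff₀ (by positivity)]
      have e3 : (2 : ℝ) ^ (n + 1) = 2 * 2 ^ n := by ring
      rw [e3] at h3
      linarith
    exact (pow_le_pow_iff_left₀ hL.le (by positivity) two_ne_zero).mp h4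
  -- choice of separated families
  set w : ℕ → ℝ := fun n => min (sOf a (2 ^ n) : ℝ) (1 / δ n) with hwdef
  set r : ℕ → ℝ := fun n => 1 / (256 * 2 ^ n * w n) with hrdef
  set ρ : ℕ → ℝ := fun n => 16 / ((2 ^ n) ^ 2 * δ n ^ 2 * w n) with hρdef
  have hscale : ∀ n, ∃ G : Finset UnitAddCircle, 4 ≤ (2 : ℝ) ^ n * δ n →
      (∀ x ∈ G, ∃ q : ℕ, (2 : ℝ) ^ n * δ n / 8 ≤ q ∧ (q : ℝ) ≤ 256 * 2 ^ n * δ n * w n ∧
        ‖q • a‖ ≤ δ n ∧ q • x = 0) ∧
      (∀ x ∈ G, ∀ y ∈ G, x ≠ y → ρ n ≤ dist x y) ∧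
      1 / 2 ≤ (G.card : ℝ) * (4 * ρ n) := by
    intro n
    by_cases h : 4 ≤ (2 : ℝ) ^ n * δ n
    · obtain ⟨G, h1, h2, h3⟩ := scale a (2 ^ n) (δ n) (hδ n) (hδ' n) (by push_cast; exact h)
      push_cast at h1 h2 h3
      exact ⟨G, fun _ => ⟨h1, h2, h3⟩⟩
    · exact ⟨∅, fun h' => absurd h' h⟩
  choose G hG using hscale
  obtain ⟨n₁, hn₁⟩ := hlarge 4 (by norm_num)
  set good : ℕ → Prop := fun n => n₁ ≤ n ∧ 1 / ((n : ℝ) + 1) ^ 2 ≤ A n with hgooddef
  have hgood4 : ∀ n, good n → 4 ≤ (2 : ℝ) ^ n * δ n := fun n hn => hn₁ n hn.1 hn.2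
  classical
  set E : ℕ → Set UnitAddCircle := fun n => if good n then ⋃ x ∈ G n, ball x (r n) else ∅ with hEdef
  have hEm : ∀ n, MeasurableSet (E n) := by
    intro n
    simp only [hEdef]
    split_ifs
    · exact Finset.measurableSet_biUnion _ fun x _ => measurableSet_ball
    · exact MeasurableSet.empty
  -- tail unions have measure bounded below
  have htail : ∀ k, ENNReal.ofReal (1 / 2 ^ 24) ≤ volume (⋃ n ≥ k, E n) := by
    intro k
    set c : ℕ → ℝ := fun n => if n₁ ≤ n ∧ k ≤ n ∧ 1 / ((n : ℝ) + 1) ^ 2 ≤ A n then A n else 0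
      with hcdef
    have hc0 : ∀ n, 0 ≤ c n := by
      intro n
      simp only [hcdef]
      split_ifs
      · exact hA0 n
      · exact le_rfl
    have hcdiv : ¬ Summable c := by
      intro hS
      apply hgood_div
      refine (summable_iff_of_eventuallyEq_aux (g := c) ?_).mp hS
      filter_upwards [eventually_ge_atTop (max n₁ k)] with n hn
      have h1 : n₁ ≤ n := (le_max_left _ _).trans hn
      have h2 : k ≤ n := (le_max_right _ _).trans hn
      simp [hcdef, h1, h2]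
    have htend := (not_summable_iff_tendsto_nat_atTop_of_nonneg hc0).mp hcdiv
    have hex : ∃ K, 1 ≤ ∑ n ∈ Finset.range K, c n := by
      obtain ⟨K, hK⟩ := (htend.eventually_ge_atTop 1).exists
      exact ⟨K, hK⟩
    set K := Nat.find hex with hKdef
    have hK1 : 1 ≤ ∑ n ∈ Finset.range K, c n := Nat.find_spec hex
    have hKpos : 0 < K := by
      by_contra h0
      have : K = 0 := by omega
      rw [this] at hK1
      simp at hK1
      linarith
    have hK2 : ∑ n ∈ Finset.range K, c n ≤ 2 := by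
      obtain ⟨K', hK'⟩ : ∃ K', K = K' + 1 := ⟨K - 1, by omega⟩
      have h1 : ¬ 1 ≤ ∑ n ∈ Finset.range K', c n := Nat.find_min hex (by omega)
      rw [hK', Finset.sum_range_succ]
      have h2 : c K' ≤ 1 / 4 := by
        simp only [hcdef]
        split_ifs
        · exact hA1 _
        · norm_num
      push Not at h1
      linarith
    set B := (Finset.range K).filter (fun n => n₁ ≤ n ∧ k ≤ n ∧ 1 / ((n : ℝ) + 1) ^ 2 ≤ A n)
      with hBdef
    have hBsum : ∑ n ∈ B, (2 : ℝ) ^ n * δ n ^ 2 = ∑ n ∈ Finset.range K, c n := by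
      rw [hBdef, Finset.sum_filter]
    have hBgood : ∀ n ∈ B, good n := by
      intro n hn
      rw [hBdef, Finset.mem_filter] at hn
      exact ⟨hn.2.1, hn.2.2.2⟩
    have hbl := block a δ hδ hδ' hδanti hA1 G w r ρ (fun _ => rfl) (fun _ => rfl) (fun _ => rfl)
      B (fun n hn => hgood4 n (hBgood n hn))
      (fun n hn => (hG n (hgood4 n (hBgood n hn))).2.1)
      (fun n hn => (hG n (hgood4 n (hBgood n hn))).2.2)
      (by rw [hBsum]; exact hK1) (by rw [hBsum]; exact hK2)
    have hsub : (⋃ n ∈ B, ⋃ x ∈ G n, ball x (r n)) ⊆ ⋃ n ≥ k, E n := by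
      intro z hz
      rw [mem_iUnion₂] at hz
      obtain ⟨n, hn, hz⟩ := hz
      rw [mem_iUnion₂]
      have hn' := hn
      rw [hBdef, Finset.mem_filter] at hn'
      refine ⟨n, hn'.2.2.1, ?_⟩
      simp only [hEdef]
      rw [if_pos (hBgood n hn)]
      exact hz
    calc ENNReal.ofReal (1 / 2 ^ 24) ≤ ENNReal.ofReal
          ((volume : Measure UnitAddCircle).real (⋃ n ∈ B, ⋃ x ∈ G n, ball x (r n))) :=
          ENNReal.ofReal_le_ofReal hbl
      _ = volume (⋃ n ∈ B, ⋃ x ∈ G n, ball x (r n)) := by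
          rw [Measure.real, ENNReal.ofReal_toReal (measure_ne_top _ _)]
      _ ≤ volume (⋃ n ≥ k, E n) := measure_mono hsub
  -- the limsup set has positive measure
  have hlim : ENNReal.ofReal (1 / 2 ^ 24) ≤ volume (⋂ k, ⋃ n ≥ k, E n) := by
    have hmono : Antitone (fun k : ℕ => ⋃ n ≥ k, E n) := by
      intro k l hkl z hz
      rw [mem_iUnion₂] at hz ⊢
      obtain ⟨n, hn, hz⟩ := hz
      exact ⟨n, le_trans hkl hn, hz⟩
    have hm : ∀ k, NullMeasurableSet (⋃ n ≥ k, E n) volume := fun k =>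
      (MeasurableSet.iUnion fun n => MeasurableSet.iUnion fun _ => hEm n).nullMeasurableSet
    have := tendsto_measure_iInter_atTop (μ := (volume : Measure UnitAddCircle)) hm hmono
      ⟨0, measure_ne_top _ _⟩
    exact ge_of_tendsto' this htail
  -- the target limsup set
  have hr0 : Tendsto (fun q : ℕ => ψ q / q) atTop (𝓝 0) := by
    have h1 : Tendsto (fun q : ℕ => ψ 1 / (q : ℝ)) atTop (𝓝 0) :=
      tendsto_const_div_atTop_nhds_zero_nat _
    refine squeeze_zero' ?_ ?_ h1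
    · filter_upwards [eventually_ge_atTop 1] with q hq
      have := hpos q hq
      positivity
    · filter_upwards [eventually_ge_atTop 1] with q hq
      have := hanti 1 q le_rfl hq
      gcongr
  set W : Set UnitAddCircle := blimsup (fun q : ℕ => thickening (ψ q / q)
    {x : UnitAddCircle | q • x = 0}) atTop (fun q => ‖q • a‖ < ψ q) with hWdef
  have hsubW : (⋂ k, ⋃ n ≥ k, E n) ⊆ W := by
    intro β hβ
    rw [hWdef, mem_blimsup_iff, frequently_atTop]
    intro Q
    obtain ⟨n₂, hn₂⟩ := hlarge (8 * (Q + 1)) (by positivity)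
    rw [mem_iInter] at hβ
    have hβ' := hβ n₂
    rw [mem_iUnion₂] at hβ'
    obtain ⟨n, hn, hβn⟩ := hβ'
    simp only [hEdef] at hβn
    split_ifs at hβn with hgn
    · rw [mem_iUnion₂] at hβn
      obtain ⟨x, hx, hβx⟩ := hβn
      obtain ⟨q, hq1, hq2, hq3, hq4⟩ := (hG n (hgood4 n hgn)).1 x hx
      have hL := hn₂ n hn hgn.2
      have hδn := hδ n
      have hqQ : (Q : ℝ) + 1 ≤ q := by linarith
      have hq0 : (0 : ℝ) < q := by
        have : (0 : ℝ) ≤ Q := by positivity
        linarith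
      have hq1' : 1 ≤ q := by exact_mod_cast hq0
      have hQq : Q ≤ q := by
        have : (Q : ℝ) ≤ q := by linarith
        exact_mod_cast this
      have hwn : w n ≤ 1 / δ n := min_le_right _ _
      have hw0 : 0 < w n := by
        simp only [hwdef]
        apply lt_min
        · exact_mod_cast (sOf_spec a (by positivity : 0 < 2 ^ n)).1
        · positivity
      have hδw : δ n * w n ≤ 1 := by
        rw [le_div_iff₀ hδn] at hwn
        linarith
      have hqN : q ≤ 2 ^ (n + 8) := by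
        have h1 : (q : ℝ) ≤ 2 ^ (n + 8) := by
          calc (q : ℝ) ≤ 256 * 2 ^ n * δ n * w n := hq2
            _ = 256 * 2 ^ n * (δ n * w n) := by ring
            _ ≤ 256 * 2 ^ n * 1 := by gcongr
            _ = 2 ^ (n + 8) := by rw [pow_add]; ring
        exact_mod_cast h1
      have hψq : 2 * δ n ≤ ψ q := (hδψ n).trans (hanti q _ hq1' hqN)
      refine ⟨q, hQq, by linarith, mem_thickening_iff.mpr ⟨x, hq4, ?_⟩⟩
      rw [mem_ball] at hβx
      refine hβx.trans_le ?_
      simp only [hrdef]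
      rw [div_le_div_iff₀ (by positivity) hq0]
      calc 1 * (q : ℝ) ≤ 256 * 2 ^ n * δ n * w n := by linarith
        _ = δ n * (256 * 2 ^ n * w n) := by ring
        _ ≤ ψ q * (256 * 2 ^ n * w n) := by
          gcongr
          linarith
    · exact absurd hβn (notMem_empty _)
  have hWfull : W =ᵐ[volume] univ := by
    rcases zero_one (fun q => ‖q • a‖ < ψ q) (fun q => ψ q / q) hr0 with h | h
    · exfalso
      have h1 : volume W = 0 := by
        rw [measure_congr h]
        simp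
      have h2 := hlim.trans ((measure_mono hsubW).trans h1.le)
      rw [nonpos_iff_eq_zero, ENNReal.ofReal_eq_zero] at h2
      norm_num at h2
    · exact h
  have hae : ∀ᵐ β : UnitAddCircle, β ∈ W := by
    filter_upwards [hWfull] with β hβ
    have : (β ∈ W) = (β ∈ (univ : Set UnitAddCircle)) := hβ
    rw [this]
    exact mem_univ β
  filter_upwards [hae] with β hβ
  rw [hWdef, mem_blimsup_iff] at hβ
  refine (hβ.and_eventually (eventually_ge_atTop 1)).mono ?_
  rintro q ⟨⟨hq1, hq2⟩, hq3⟩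
  refine ⟨hq1, ?_⟩
  obtain ⟨x, hx, hβx⟩ := mem_thickening_iff.mp hq2
  have hq0 : (0 : ℝ) < q := by exact_mod_cast hq3
  have e : q • β = q • (β - x) := by
    rw [smul_sub]
    have hx' : q • x = 0 := hx
    rw [hx', sub_zero]
  rw [e]
  calc ‖q • (β - x)‖ ≤ q * ‖β - x‖ := norm_nsmul_le
    _ < ψ q := by
      rw [← dist_eq_norm]
      rw [lt_div_iff₀ hq0] at hβx
      linarith

/-- The case of a nondecreasing `ψ`: Dirichlet's theorem suffices, for every `β`. -/
theorem monotone_case (ψ : ℕ → ℝ) (hpos : ∀ q, 1 ≤ q → 0 < ψ q)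
    (hmono : ∀ m n, 1 ≤ m → m ≤ n → ψ m ≤ ψ n) (a b : UnitAddCircle) :
    ∃ᶠ q : ℕ in atTop, ‖q • a‖ < ψ q ∧ ‖q • b‖ < ψ q := by
  rw [frequently_atTop]
  intro Q
  have hc := hpos 1 le_rfl
  obtain ⟨K, hK⟩ := exists_nat_gt (1 / ψ 1)
  have hK0' : (0 : ℝ) < K := lt_trans (by positivity) hK
  have hK0 : 0 < K := by exact_mod_cast hK0'
  have hKc : 1 / (K : ℝ) < ψ 1 := by
    rw [div_lt_iff₀ hK0']
    rw [div_lt_iff₀ hc] at hK
    linarith
  obtain ⟨q, hq1, -, hq2, hq3⟩ := dirichlet2 ((Q + 1) • a) ((Q + 1) • b) K K hK0 hK0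
  have h1 : 1 ≤ q * (Q + 1) := Nat.mul_pos hq1 (Nat.succ_pos Q)
  have h2 := hmono 1 (q * (Q + 1)) le_rfl h1
  refine ⟨q * (Q + 1), ?_, ?_, ?_⟩
  · nlinarith
  · rw [mul_smul]
    linarith
  · rw [mul_smul]
    linarith

/-- Khintchine's simultaneous theorem on vertical lines, on the circle. -/
theorem ae_all (ψ : ℕ → ℝ) (hpos : ∀ q, 1 ≤ q → 0 < ψ q)
    (hmono : MonotoneOn ψ (Ici 1) ∨ AntitoneOn ψ (Ici 1))
    (hdiv : ¬ Summable (fun q : ℕ => ψ (q + 1) ^ 2)) (a : UnitAddCircle) :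
    ∀ᵐ β : UnitAddCircle, ∃ᶠ q : ℕ in atTop, ‖q • a‖ < ψ q ∧ ‖q • β‖ < ψ q := by
  rcases hmono with h | h
  · refine Eventually.of_forall fun β => ?_
    exact monotone_case ψ hpos (fun m n hm hmn => h hm (le_trans hm hmn) hmn) a β
  · exact ae_antitone ψ hpos (fun m n hm hmn => h hm (le_trans hm hmn) hmn) hdiv a

/-- **Khintchine's simultaneous theorem on vertical lines.**  For every monotonic
`ψ : ℕ → ℝ⁺` with `∑ ψ(q)² = ∞` and every real `α`, for Lebesgue almost every `β ∈ [0,1]` there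
are infinitely many `q ≥ 1` with `‖q α‖ < ψ(q)` and `‖q β‖ < ψ(q)`. -/
theorem result_proof (ψ : ℕ → ℝ) (hpos : ∀ q, 1 ≤ q → 0 < ψ q)
    (hmono : MonotoneOn ψ (Ici 1) ∨ AntitoneOn ψ (Ici 1))
    (hdiv : ¬ Summable (fun q : ℕ => ψ (q + 1) ^ 2)) (α : ℝ) :
    volume {β : ℝ | β ∈ Icc (0 : ℝ) 1 ∧ {q : ℕ | 1 ≤ q ∧
      |(q : ℝ) * α - round ((q : ℝ) * α)| < ψ q ∧
      |(q : ℝ) * β - round ((q : ℝ) * β)| < ψ q}.Infinite} = 1 := by
  set S : Set ℝ := {β : ℝ | β ∈ Icc (0 : ℝ) 1 ∧ {q : ℕ | 1 ≤ q ∧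
      |(q : ℝ) * α - round ((q : ℝ) * α)| < ψ q ∧
      |(q : ℝ) * β - round ((q : ℝ) * β)| < ψ q}.Infinite} with hS
  have h1 := ae_all ψ hpos hmono hdiv (α : UnitAddCircle)
  have h2 := (AddCircle.measurePreserving_mk (1 : ℝ) 0).quasiMeasurePreserving.ae h1
  rw [zero_add] at h2
  have h3 : ∀ᵐ β ∂(volume.restrict (Ioc (0 : ℝ) 1)), β ∈ S := by
    filter_upwards [h2, ae_restrict_mem measurableSet_Ioc] with β hβ hβ'
    refine ⟨⟨hβ'.1.le, hβ'.2⟩, ?_⟩
    rw [← frequently_cofinite_iff_infinite, Nat.cofinite_eq_atTop]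
    refine (hβ.and_eventually (eventually_ge_atTop 1)).mono ?_
    rintro q ⟨⟨hq1, hq2⟩, hq3⟩
    refine ⟨hq3, ?_, ?_⟩
    · rw [← AddCircle.coe_nsmul, UnitAddCircle.norm_eq, nsmul_eq_mul] at hq1
      exact hq1
    · have hq2' : ‖q • ((β : ℝ) : UnitAddCircle)‖ < ψ q := hq2
      rw [← AddCircle.coe_nsmul, UnitAddCircle.norm_eq, nsmul_eq_mul] at hq2'
      exact hq2'
  apply le_antisymm
  · calc volume S ≤ volume (Icc (0 : ℝ) 1) := measure_mono fun β hβ => hβ.1
      _ = 1 := by simp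
  · calc (1 : ℝ≥0∞) = volume (Ioc (0 : ℝ) 1) := by simp
      _ = (volume.restrict (Ioc (0 : ℝ) 1)) univ := by rw [Measure.restrict_apply_univ]
      _ = (volume.restrict (Ioc (0 : ℝ) 1)) S := by
          symm
          apply measure_congr
          exact eventuallyEq_univ.mpr h3
      _ ≤ volume S := Measure.restrict_apply_le _ _

end Pool.Agent.Results.MP_2688e8_nt.KhintchineFibre
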