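import Mathlib

set_option autoImplicit false

namespace Pool.Agent.Results.MP_e17bc1_co.LowerBound

/-- The queens graph on the `n × n` board: distinct squares sharing a row, a column,
a diagonal or an antidiagonal are adjacent. -/
def queens (n : ℕ) : SimpleGraph (Fin n × Fin n) where
  Adj a b := a ≠ b ∧ (a.1 = b.1 ∨ a.2 = b.2 ∨
    (a.1.val : ℤ) - a.2.val = b.1.val - b.2.val ∨ (a.1.val : ℤ) + a.2.val = b.1.val + b.2.val)
  symm := ⟨by
    rintro a b ⟨h, h'⟩
    exact ⟨h.symm, h'.imp Eq.symm (Or.imp Eq.symm (Or.imp Eq.symm Eq.symm))⟩⟩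
  loopless := ⟨fun a h => h.1 rfl⟩

/-- `w` belongs to the closed neighbourhood `N[v]`. -/
def InClosedNbhd {V : Type} (G : SimpleGraph V) (v w : V) : Prop := w = v ∨ G.Adj v w

/-- `S` is irredundant: every member has a private neighbour. -/
def Irredundant {V : Type} (G : SimpleGraph V) (S : Finset V) : Prop :=
  ∀ v ∈ S, ∃ w, InClosedNbhd G v w ∧ ∀ u ∈ S, u ≠ v → ¬ InClosedNbhd G u w

/-- The upper irredundance number: the largest cardinality of an irredundant set. -/
noncomputable def upperIrr {V : Type} (G : SimpleGraph V) : ℕ :=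
  sSup {k | ∃ S : Finset V, Irredundant G S ∧ S.card = k}

end Pool.Agent.Results.MP_e17bc1_co.LowerBound
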