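import Mathlib
import Pool.Agent.H20.SPL.LowerBoundDefs

set_option autoImplicit false

namespace Pool.Agent.Results.MP_e17bc1_co.LowerBound


theorem le_upperIrr {V : Type} [Fintype V] (G : SimpleGraph V) (S : Finset V)
    (hS : Irredundant G S) : S.card ≤ upperIrr G := by
  apply le_csSup
  · refine ⟨Fintype.card V, ?_⟩
    rintro k ⟨T, _, rfl⟩
    exact Finset.card_le_univ T
  · exact ⟨S, hS, rfl⟩

/-- the four line directions -/
def lin (k : Fin 4) (z : ℤ × ℤ) : ℤ :=
  match k with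
  | 0 => z.1
  | 1 => z.2
  | 2 => z.1 - z.2
  | 3 => z.1 + z.2

def onBoard (n : ℕ) (z : ℤ × ℤ) : Prop := 0 ≤ z.1 ∧ z.1 < n ∧ 0 ≤ z.2 ∧ z.2 < n

def toSq (n : ℕ) (z : ℤ × ℤ) (h : onBoard n z) : Fin n × Fin n :=
  (⟨z.1.toNat, by obtain ⟨h1, h2, _, _⟩ := h; omega⟩,
   ⟨z.2.toNat, by obtain ⟨_, _, h1, h2⟩ := h; omega⟩)

theorem toSq_fst (n : ℕ) (z : ℤ × ℤ) (h : onBoard n z) : ((toSq n z h).1.val : ℤ) = z.1 := by
  obtain ⟨h1, h2, _, _⟩ := h
  simp [toSq, h1]

theorem toSq_snd (n : ℕ) (z : ℤ × ℤ) (h : onBoard n z) : ((toSq n z h).2.val : ℤ) = z.2 := by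
  obtain ⟨_, _, h1, h2⟩ := h
  simp [toSq, h1]

theorem closed_iff (n : ℕ) (z w : ℤ × ℤ) (hz : onBoard n z) (hw : onBoard n w) :
    InClosedNbhd (queens n) (toSq n z hz) (toSq n w hw) ↔ ∃ k, lin k z = lin k w := by
  have a1 := toSq_fst n z hz
  have a2 := toSq_snd n z hz
  have b1 := toSq_fst n w hw
  have b2 := toSq_snd n w hw
  constructor
  · rintro (h | ⟨_, h | h | h | h⟩)
    · refine ⟨0, ?_⟩
      rw [← h] at a1
      simp only [lin]
      omega
    · refine ⟨0, ?_⟩
      rw [h] at a1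
      simp only [lin]
      omega
    · refine ⟨1, ?_⟩
      rw [h] at a2
      simp only [lin]
      omega
    · refine ⟨2, ?_⟩
      simp only [lin]
      omega
    · refine ⟨3, ?_⟩
      simp only [lin]
      omega
  · rintro ⟨k, hk⟩
    by_cases h : toSq n z hz = toSq n w hw
    · left; exact h.symm
    · right
      refine ⟨h, ?_⟩
      fin_cases k
      · left; apply Fin.ext; simp only [lin] at hk; omega
      · right; left; apply Fin.ext; simp only [lin] at hk; omega
      · right; right; left; simp only [lin] at hk; omega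
      · right; right; right; simp only [lin] at hk; omega

/-- The abstract construction of irredundant sets. -/
theorem construction (n : ℕ) (T : Finset (Fin 4 × ℤ)) (Wl El : Fin 4 → ℤ → Prop)
    (hW : ∀ l ∈ T, ∃ z, onBoard n z ∧ lin l.1 z = l.2 ∧ ∀ k, k ≠ l.1 → Wl k (lin k z))
    (hE : ∀ l ∈ T, ∃ z, onBoard n z ∧ lin l.1 z = l.2 ∧ ∀ k, k ≠ l.1 → El k (lin k z))
    (hT : ∀ l ∈ T, ¬ Wl l.1 l.2 ∧ ¬ El l.1 l.2)
    (hWE : ∀ k t, Wl k t → ¬ El k t) :
    T.card ≤ upperIrr (queens n) := by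
  classical
  choose! v hv1 hv2 hv3 using hW
  choose! w hw1 hw2 hw3 using hE
  let f : {l // l ∈ T} → Fin n × Fin n := fun l => toSq n (v l.1) (hv1 l.1 l.2)
  have key : ∀ l ∈ T, ∀ l' ∈ T, l' ≠ l → ∀ k, lin k (v l') ≠ lin k (w l) := by
    intro l hl l' hl' hne k hk
    by_cases h1 : k = l.1
    · by_cases h2 : k = l'.1
      · apply hne
        refine Prod.ext (h2.symm.trans h1) ?_
        rw [← hv2 l' hl', ← hw2 l hl, ← h2, hk, h1]
      · have h3 := hv3 l' hl' k h2
        rw [hk, h1, hw2 l hl] at h3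
        exact (hT l hl).1 h3
    · have h4 := hw3 l hl k h1
      by_cases h2 : k = l'.1
      · rw [← hk, h2, hv2 l' hl'] at h4
        exact (hT l' hl').2 h4
      · have h3 := hv3 l' hl' k h2
        rw [hk] at h3
        exact hWE _ _ h3 h4
  have hinj : Function.Injective f := by
    intro l l' h
    by_contra hne
    have e : v l.1 = v l'.1 := by
      have a1 := toSq_fst n _ (hv1 l.1 l.2)
      have a2 := toSq_snd n _ (hv1 l.1 l.2)
      have b1 := toSq_fst n _ (hv1 l'.1 l'.2)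
      have b2 := toSq_snd n _ (hv1 l'.1 l'.2)
      have h1 : toSq n (v l.1) (hv1 l.1 l.2) = toSq n (v l'.1) (hv1 l'.1 l'.2) := h
      rw [h1] at a1 a2
      exact Prod.ext (by omega) (by omega)
    have hne' : l.1 ≠ l'.1 := fun h => hne (Subtype.ext h)
    by_cases h2 : l.1.1 = l'.1.1
    · apply hne'
      refine Prod.ext h2 ?_
      rw [← hv2 l.1 l.2, ← hv2 l'.1 l'.2, e, h2]
    · have h3 := hv3 l'.1 l'.2 l.1.1 h2
      rw [← e, hv2 l.1 l.2] at h3
      exact (hT l.1 l.2).1 h3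
  have hcard : (Finset.univ.image f).card = T.card := by
    rw [Finset.card_image_of_injective _ hinj, Finset.card_univ, Fintype.card_coe]
  rw [← hcard]
  apply le_upperIrr
  intro x hx
  obtain ⟨l, _, rfl⟩ := Finset.mem_image.1 hx
  refine ⟨toSq n (w l.1) (hw1 l.1 l.2), ?_, ?_⟩
  · rw [closed_iff]
    exact ⟨l.1.1, by rw [hv2 _ l.2, hw2 _ l.2]⟩
  · intro u hu hne
    obtain ⟨l', _, rfl⟩ := Finset.mem_image.1 hu
    rw [closed_iff]
    rintro ⟨k, hk⟩
    refine key l.1 l.2 l'.1 l'.2 ?_ k hk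
    intro h
    apply hne
    have : l' = l := Subtype.ext h
    rw [this]

/-! ### Residue pattern modulo 13 -/

def pat (k : Fin 4) (r : ZMod 13) : Bool :=
  match k with
  | 0 => decide (r ∈ ([2, 6, 8, 10, 11, 12] : List (ZMod 13)))
  | 1 => decide (r ∈ ([1, 2, 4, 6, 9, 12] : List (ZMod 13)))
  | 2 => decide (r ∈ ([0, 1, 4, 6, 7, 9] : List (ZMod 13)))
  | 3 => decide (r ∈ ([2, 6, 7, 8, 10, 11, 12] : List (ZMod 13)))

theorem pat_A : ∀ (b : Bool) (s : ZMod 13), ∃ x y : ZMod 13, x + y = s ∧ pat 0 x = b ∧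
    pat 1 y = b ∧ pat 2 (x - y) = b := by decide

theorem pat_D : ∀ (b : Bool) (d : ZMod 13), ∃ x y : ZMod 13, x - y = d ∧ pat 0 x = b ∧
    pat 1 y = b ∧ pat 3 (x + y) = b := by decide

theorem pat_R : ∀ (b : Bool) (y : ZMod 13), ∃ x : ZMod 13, pat 0 x = b ∧
    pat 2 (x - y) = b ∧ pat 3 (x + y) = b := by decide

theorem pat_C : ∀ (b : Bool) (x : ZMod 13), ∃ y : ZMod 13, pat 1 y = b ∧
    pat 2 (x - y) = b ∧ pat 3 (x + y) = b := by decide

/-! ### Special lines -/

def form (n : ℕ) (c : Fin 9) (u : ℤ) : ℤ :=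
  match c with
  | 0 => u
  | 1 => -u
  | 2 => (n - 1) + u
  | 3 => (n - 1) - u
  | 4 => -(n - 1) + u
  | 5 => -(n - 1) - u
  | 6 => 2 * (n - 1) + u
  | 7 => 2 * (n - 1) - u
  | 8 => u / 2

def spec (P : Finset ℕ) (n : ℕ) : Finset ℤ :=
  ((P ×ˢ Finset.range 25) ×ˢ (Finset.univ : Finset (Fin 9))).image
    (fun t => form n t.2 (13 * (t.1.1 : ℤ) + (t.1.2 : ℤ) - 12))

theorem card_spec (P : Finset ℕ) (n : ℕ) : (spec P n).card ≤ 225 * P.card := by
  unfold spec
  refine Finset.card_image_le.trans ?_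
  rw [Finset.card_product, Finset.card_product, Finset.card_range, Finset.card_univ,
    Fintype.card_fin]
  omega

theorem mem_spec {P : Finset ℕ} {n : ℕ} (c : Fin 9) (k : ℕ) (hk : k ∈ P) (u : ℤ)
    (h1 : 13 * (k : ℤ) - 12 ≤ u) (h2 : u ≤ 13 * (k : ℤ) + 12) : form n c u ∈ spec P n := by
  unfold spec
  refine Finset.mem_image.2 ⟨((k, (u - 13 * (k : ℤ) + 12).toNat), c), ?_, ?_⟩
  · simp only [Finset.mem_product, Finset.mem_range, Finset.mem_univ, and_true]
    refine ⟨hk, ?_⟩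
    omega
  · congr 1
    simp only
    omega

theorem small_spec {P : Finset ℕ} {n : ℕ} (h0 : 0 ∈ P) (h1 : 1 ∈ P) (c : Fin 9) (u : ℤ)
    (hu : 0 ≤ u) (hu' : u ≤ 25) : form n c u ∈ spec P n := by
  by_cases h : u ≤ 12
  · exact mem_spec c 0 h0 u (by omega) (by omega)
  · exact mem_spec c 1 h1 u (by omega) (by omega)

theorem cast13 (a : ℤ) (r : ZMod 13) : ((13 * a + (r.val : ℤ) : ℤ) : ZMod 13) = r := by
  push_cast
  have h : (13 : ZMod 13) = 0 := by decide
  rw [h, zero_mul, zero_add, ZMod.natCast_zmod_val]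

theorem val_lt (r : ZMod 13) : (r.val : ℤ) < 13 := by
  exact_mod_cast ZMod.val_lt r

theorem dvd13 (a : ℤ) (h : ((a : ℤ) : ZMod 13) = 0) : ∃ m : ℤ, a = 13 * m := by
  have := (ZMod.intCast_zmod_eq_zero_iff_dvd a 13).1 h
  obtain ⟨m, hm⟩ := this
  exact ⟨m, by exact_mod_cast hm⟩

/-- the additive system -/
def Good (P : Finset ℕ) (L : ℕ) : Prop :=
  ∀ h ≤ L, ∃ p ∈ P, ∃ q ∈ P, p + q = h ∧ q ≤ p ∧ p - q ∈ P

theorem forall4 {Q : Fin 4 → Prop} (h0 : Q 0) (h1 : Q 1) (h2 : Q 2) (h3 : Q 3) : ∀ k, Q k := by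
  intro k
  match k with
  | 0 => exact h0
  | 1 => exact h1
  | 2 => exact h2
  | 3 => exact h3

theorem lin0 (x y : ℤ) : lin 0 (x, y) = x := rfl
theorem lin1 (x y : ℤ) : lin 1 (x, y) = y := rfl
theorem lin2 (x y : ℤ) : lin 2 (x, y) = x - y := rfl
theorem lin3 (x y : ℤ) : lin 3 (x, y) = x + y := rfl

section exist
variable {P : Finset ℕ} {n : ℕ} (h0 : 0 ∈ P) (h1 : 1 ∈ P) (hP : Good P (2 * n))
include h0 h1 hP

theorem exist_A (b : Bool) (s : ℤ) (hs0 : 0 ≤ s) (hs1 : s ≤ 2 * (n - 1))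
    (hns : s ∉ spec P n) : ∃ z, onBoard n z ∧ lin 3 z = s ∧
      ∀ k, k ≠ 3 → lin k z ∈ spec P n ∧ pat k ((lin k z : ℤ) : ZMod 13) = b := by
  obtain ⟨xr, yr, hxy, hx, hy, hd⟩ := pat_A b (s : ZMod 13)
  by_cases hc : s ≤ n - 1
  · have hs26 : 26 ≤ s := by
      by_contra h
      exact hns (small_spec (n := n) h0 h1 0 s hs0 (by omega))
    obtain ⟨m, hm⟩ := dvd13 (s - xr.val - yr.val) (by
      push_cast; rw [ZMod.natCast_zmod_val, ZMod.natCast_zmod_val, ← hxy]; ring)
    have vx := val_lt xr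
    have vy := val_lt yr
    obtain ⟨p, hp, q, hq, hpq, hle, hpq'⟩ := hP m.toNat (by omega)
    refine ⟨(13 * p + xr.val, 13 * q + yr.val), ⟨by positivity, by simp only; omega,
      by positivity, by simp only; omega⟩, by simp only [lin]; omega, ?_⟩
    refine forall4 ?_ ?_ ?_ ?_ <;> intro hk <;> simp only [lin0, lin1, lin2, lin3]
    · refine ⟨mem_spec (n := n) 0 p hp _ (by omega) (by omega), ?_⟩
      rw [cast13]; exact hx
    · refine ⟨mem_spec (n := n) 0 q hq _ (by omega) (by omega), ?_⟩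
      rw [cast13]; exact hy
    · refine ⟨mem_spec (n := n) 0 (p - q) hpq' _ (by omega)
        (by omega), ?_⟩
      rw [Int.cast_sub, cast13, cast13]; exact hd
    · exact absurd rfl hk
  · have hs26 : 26 ≤ 2 * (n - 1) - s := by
      by_contra h
      apply hns
      have := small_spec (n := n) h0 h1 7 (2 * (n - 1) - s) (by omega) (by omega)
      have e : form n 7 (2 * (n - 1) - s) = s := by simp only [form]; ring
      rwa [e] at this
    obtain ⟨m, hm⟩ := dvd13 ((2 * (n - 1) - s) - (((n : ZMod 13) - 1 - xr).val : ℤ)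
        - (((n : ZMod 13) - 1 - yr).val : ℤ)) (by
      push_cast; rw [ZMod.natCast_zmod_val, ZMod.natCast_zmod_val, ← hxy]; ring)
    have vx := val_lt ((n : ZMod 13) - 1 - xr)
    have vy := val_lt ((n : ZMod 13) - 1 - yr)
    have hx' : (((n : ℤ) - 1 - (13 * m + (((n : ZMod 13) - 1 - xr).val : ℤ)) : ℤ) : ZMod 13) = xr := by
      rw [Int.cast_sub, cast13]; push_cast; ring
    obtain ⟨p, hp, q, hq, hpq, hle, hpq'⟩ := hP m.toNat (by omega)
    have cx : ∀ a : ℤ, (((n : ℤ) - 1 - (13 * a + (((n : ZMod 13) - 1 - xr).val : ℤ)) : ℤ) : ZMod 13)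
        = xr := by
      intro a; rw [Int.cast_sub, cast13]; push_cast; ring
    have cy : ∀ a : ℤ, (((n : ℤ) - 1 - (13 * a + (((n : ZMod 13) - 1 - yr).val : ℤ)) : ℤ) : ZMod 13)
        = yr := by
      intro a; rw [Int.cast_sub, cast13]; push_cast; ring
    generalize (((n : ZMod 13) - 1 - xr).val) = x0 at *
    generalize (((n : ZMod 13) - 1 - yr).val) = y0 at *
    refine ⟨((n : ℤ) - 1 - (13 * (p : ℤ) + x0), (n : ℤ) - 1 - (13 * (q : ℤ) + y0)),
      ⟨by simp only; omega, by simp only; omega, by simp only; omega, by simp only; omega⟩,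
      by simp only [lin]; omega, ?_⟩
    refine forall4 ?_ ?_ ?_ ?_ <;> intro hk <;> simp only [lin0, lin1, lin2, lin3]
    · refine ⟨mem_spec (n := n) 3 p hp (13 * (p : ℤ) + x0) (by omega) (by omega), ?_⟩
      rw [cx]; exact hx
    · refine ⟨mem_spec (n := n) 3 q hq (13 * (q : ℤ) + y0) (by omega) (by omega), ?_⟩
      rw [cy]; exact hy
    · constructor
      · have := mem_spec (n := n) 1 (p - q) hpq' ((13 * (p : ℤ) + x0) - (13 * (q : ℤ) + y0))
          (by omega) (by omega)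
        convert this using 1
        simp only [form]; ring
      · rw [Int.cast_sub, cx, cy]; exact hd
    · exact absurd rfl hk

theorem exist_D (b : Bool) (d : ℤ) (hd0 : -(n : ℤ) < d) (hd1 : d < n)
    (hnd : d ∉ spec P n) : ∃ z, onBoard n z ∧ lin 2 z = d ∧
      ∀ k, k ≠ 2 → lin k z ∈ spec P n ∧ pat k ((lin k z : ℤ) : ZMod 13) = b := by
  obtain ⟨xr, yr, hxy, hx, hy, hs⟩ := pat_D b (d : ZMod 13)
  by_cases hc : 0 ≤ d
  · -- bottom right corner: x = n - 1 - x', y = y'
    have hs26 : 26 ≤ (n - 1) - d := by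
      by_contra h
      apply hnd
      have := small_spec (n := n) h0 h1 3 ((n - 1) - d) (by omega) (by omega)
      have e : form n 3 ((n - 1) - d) = d := by simp only [form]; ring
      rwa [e] at this
    obtain ⟨m, hm⟩ := dvd13 (((n - 1) - d) - (((n : ZMod 13) - 1 - xr).val : ℤ)
        - (yr.val : ℤ)) (by
      push_cast; rw [ZMod.natCast_zmod_val, ZMod.natCast_zmod_val, ← hxy]; ring)
    have vx := val_lt ((n : ZMod 13) - 1 - xr)
    have vy := val_lt yr
    obtain ⟨p, hp, q, hq, hpq, hle, hpq'⟩ := hP m.toNat (by omega)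
    have cx : ∀ a : ℤ, (((n : ℤ) - 1 - (13 * a + (((n : ZMod 13) - 1 - xr).val : ℤ)) : ℤ) : ZMod 13)
        = xr := by
      intro a; rw [Int.cast_sub, cast13]; push_cast; ring
    have cy : ∀ a : ℤ, (((13 * a + (yr.val : ℤ)) : ℤ) : ZMod 13) = yr := fun a => cast13 a yr
    generalize (((n : ZMod 13) - 1 - xr).val) = x0 at *
    generalize yr.val = y0 at *
    refine ⟨((n : ℤ) - 1 - (13 * (p : ℤ) + x0), (13 * (q : ℤ) + y0)),
      ⟨by simp only; omega, by simp only; omega, by simp only; omega, by simp only; omega⟩,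
      by simp only [lin]; omega, ?_⟩
    refine forall4 ?_ ?_ ?_ ?_ <;> intro hk <;> simp only [lin0, lin1, lin2, lin3]
    · refine ⟨mem_spec (n := n) 3 p hp (13 * (p : ℤ) + x0) (by omega) (by omega), ?_⟩
      rw [cx]; exact hx
    · refine ⟨mem_spec (n := n) 0 q hq (13 * (q : ℤ) + y0) (by omega) (by omega), ?_⟩
      rw [cy]; exact hy
    · exact absurd rfl hk
    · constructor
      · have := mem_spec (n := n) 3 (p - q) hpq' ((13 * (p : ℤ) + x0) - (13 * (q : ℤ) + y0))
          (by omega) (by omega)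
        convert this using 1
        simp only [form]; ring
      · rw [Int.cast_add, cx, cy]; exact hs
  · -- top left corner: x = x', y = n - 1 - y'
    have hs26 : 26 ≤ (n - 1) + d := by
      by_contra h
      apply hnd
      have := small_spec (n := n) h0 h1 4 ((n - 1) + d) (by omega) (by omega)
      have e : form n 4 ((n - 1) + d) = d := by simp only [form]; ring
      rwa [e] at this
    obtain ⟨m, hm⟩ := dvd13 (((n - 1) + d) - (xr.val : ℤ)
        - (((n : ZMod 13) - 1 - yr).val : ℤ)) (by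
      push_cast; rw [ZMod.natCast_zmod_val, ZMod.natCast_zmod_val, ← hxy]; ring)
    have vx := val_lt xr
    have vy := val_lt ((n : ZMod 13) - 1 - yr)
    obtain ⟨p, hp, q, hq, hpq, hle, hpq'⟩ := hP m.toNat (by omega)
    have cy : ∀ a : ℤ, (((n : ℤ) - 1 - (13 * a + (((n : ZMod 13) - 1 - yr).val : ℤ)) : ℤ) : ZMod 13)
        = yr := by
      intro a; rw [Int.cast_sub, cast13]; push_cast; ring
    have cx : ∀ a : ℤ, (((13 * a + (xr.val : ℤ)) : ℤ) : ZMod 13) = xr := fun a => cast13 a xr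
    generalize (((n : ZMod 13) - 1 - yr).val) = y0 at *
    generalize xr.val = x0 at *
    refine ⟨((13 * (p : ℤ) + x0), (n : ℤ) - 1 - (13 * (q : ℤ) + y0)),
      ⟨by simp only; omega, by simp only; omega, by simp only; omega, by simp only; omega⟩,
      by simp only [lin]; omega, ?_⟩
    refine forall4 ?_ ?_ ?_ ?_ <;> intro hk <;> simp only [lin0, lin1, lin2, lin3]
    · refine ⟨mem_spec (n := n) 0 p hp (13 * (p : ℤ) + x0) (by omega) (by omega), ?_⟩
      rw [cx]; exact hx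
    · refine ⟨mem_spec (n := n) 3 q hq (13 * (q : ℤ) + y0) (by omega) (by omega), ?_⟩
      rw [cy]; exact hy
    · exact absurd rfl hk
    · constructor
      · have := mem_spec (n := n) 2 (p - q) hpq' ((13 * (p : ℤ) + x0) - (13 * (q : ℤ) + y0))
          (by omega) (by omega)
        convert this using 1
        simp only [form]; ring
      · rw [Int.cast_add, cx, cy]; exact hs

theorem exist_R (b : Bool) (y : ℤ) (hy0 : 0 ≤ y) (hy1 : y < n)
    (hny : y ∉ spec P n) : ∃ z, onBoard n z ∧ lin 1 z = y ∧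
      ∀ k, k ≠ 1 → lin k z ∈ spec P n ∧ pat k ((lin k z : ℤ) : ZMod 13) = b := by
  obtain ⟨xr, hx, hd, hs⟩ := pat_R b (y : ZMod 13)
  have hy26 : 26 ≤ y := by
    by_contra h
    exact hny (small_spec (n := n) h0 h1 0 y hy0 (by omega))
  obtain ⟨m, hm⟩ := dvd13 (2 * y - ((xr + (y : ZMod 13)).val : ℤ)
      - (((y : ZMod 13) - xr).val : ℤ)) (by
    push_cast; rw [ZMod.natCast_zmod_val, ZMod.natCast_zmod_val]; ring)
  have va := val_lt (xr + (y : ZMod 13))
  have vb := val_lt ((y : ZMod 13) - xr)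
  obtain ⟨p, hp, q, hq, hpq, hle, hpq'⟩ := hP m.toNat (by omega)
  have ca : ∀ a : ℤ, (((13 * a + ((xr + (y : ZMod 13)).val : ℤ)) : ℤ) : ZMod 13)
      = xr + (y : ZMod 13) := fun a => cast13 a _
  have cb : ∀ a : ℤ, (((13 * a + (((y : ZMod 13) - xr).val : ℤ)) : ℤ) : ZMod 13)
      = (y : ZMod 13) - xr := fun a => cast13 a _
  generalize (xr + (y : ZMod 13)).val = a0 at *
  generalize ((y : ZMod 13) - xr).val = b0 at *
  have hpq2 : q < p := by
    by_contra h
    have hqp : q = p := by omega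
    apply hny
    have e : y = form n 0 y := rfl
    rw [e]
    exact mem_spec (n := n) 0 p hp y (by omega) (by omega)
  have esum : y - (13 * (q : ℤ) + b0) + y = 13 * (p : ℤ) + a0 := by omega
  have ediff : y - (13 * (q : ℤ) + b0) - y = -(13 * (q : ℤ) + b0) := by ring
  refine ⟨(y - (13 * (q : ℤ) + b0), y), ⟨by simp only; omega, by simp only; omega,
    by simp only; omega, by simp only; omega⟩, rfl, ?_⟩
  refine forall4 ?_ ?_ ?_ ?_ <;> intro hk <;> simp only [lin0, lin1, lin2, lin3]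
  · constructor
    · have := mem_spec (n := n) 8 (p - q) hpq' ((13 * (p : ℤ) + a0) - (13 * (q : ℤ) + b0))
        (by omega) (by omega)
      convert this using 1
      simp only [form]; omega
    · rw [Int.cast_sub, cb]
      convert hx using 2
      ring
  · exact absurd rfl hk
  · constructor
    · rw [ediff]
      exact mem_spec (n := n) 1 q hq (13 * (q : ℤ) + b0) (by omega) (by omega)
    · rw [ediff, Int.cast_neg, cb]
      convert hd using 2
      ring
  · constructor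
    · rw [esum]
      exact mem_spec (n := n) 0 p hp (13 * (p : ℤ) + a0) (by omega) (by omega)
    · rw [esum, ca]
      exact hs

theorem exist_C (b : Bool) (x : ℤ) (hx0 : 0 ≤ x) (hx1 : x < n)
    (hnx : x ∉ spec P n) : ∃ z, onBoard n z ∧ lin 0 z = x ∧
      ∀ k, k ≠ 0 → lin k z ∈ spec P n ∧ pat k ((lin k z : ℤ) : ZMod 13) = b := by
  obtain ⟨yr, hy, hd, hs⟩ := pat_C b (x : ZMod 13)
  have hx26 : 26 ≤ x := by
    by_contra h
    exact hnx (small_spec (n := n) h0 h1 0 x hx0 (by omega))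
  obtain ⟨m, hm⟩ := dvd13 (2 * x - (((x : ZMod 13) + yr).val : ℤ)
      - (((x : ZMod 13) - yr).val : ℤ)) (by
    push_cast; rw [ZMod.natCast_zmod_val, ZMod.natCast_zmod_val]; ring)
  have va := val_lt ((x : ZMod 13) + yr)
  have vb := val_lt ((x : ZMod 13) - yr)
  obtain ⟨p, hp, q, hq, hpq, hle, hpq'⟩ := hP m.toNat (by omega)
  have ca : ∀ a : ℤ, (((13 * a + (((x : ZMod 13) + yr).val : ℤ)) : ℤ) : ZMod 13)
      = (x : ZMod 13) + yr := fun a => cast13 a _
  have cb : ∀ a : ℤ, (((13 * a + (((x : ZMod 13) - yr).val : ℤ)) : ℤ) : ZMod 13)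
      = (x : ZMod 13) - yr := fun a => cast13 a _
  generalize ((x : ZMod 13) + yr).val = a0 at *
  generalize ((x : ZMod 13) - yr).val = b0 at *
  have hpq2 : q < p := by
    by_contra h
    have hqp : q = p := by omega
    apply hnx
    have e : x = form n 0 x := rfl
    rw [e]
    exact mem_spec (n := n) 0 p hp x (by omega) (by omega)
  have esum : x + (x - (13 * (q : ℤ) + b0)) = 13 * (p : ℤ) + a0 := by omega
  have ediff : x - (x - (13 * (q : ℤ) + b0)) = (13 * (q : ℤ) + b0) := by ring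
  refine ⟨(x, x - (13 * (q : ℤ) + b0)), ⟨by simp only; omega, by simp only; omega,
    by simp only; omega, by simp only; omega⟩, rfl, ?_⟩
  refine forall4 ?_ ?_ ?_ ?_ <;> intro hk <;> simp only [lin0, lin1, lin2, lin3]
  · exact absurd rfl hk
  · constructor
    · have := mem_spec (n := n) 8 (p - q) hpq' ((13 * (p : ℤ) + a0) - (13 * (q : ℤ) + b0))
        (by omega) (by omega)
      convert this using 1
      simp only [form]; omega
    · rw [Int.cast_sub, cb]
      convert hy using 2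
      ring
  · constructor
    · rw [ediff]
      exact mem_spec (n := n) 0 q hq (13 * (q : ℤ) + b0) (by omega) (by omega)
    · rw [ediff, cb]
      exact hd
  · constructor
    · rw [esum]
      exact mem_spec (n := n) 0 p hp (13 * (p : ℤ) + a0) (by omega) (by omega)
    · rw [esum, ca]
      exact hs

end exist


noncomputable def rng (n : ℕ) (k : Fin 4) : Finset ℤ :=
  match k with
  | 0 => Finset.Ico 0 (n : ℤ)
  | 1 => Finset.Ico 0 (n : ℤ)
  | 2 => Finset.Ioo (-(n : ℤ)) (n : ℤ)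
  | 3 => Finset.Icc 0 (2 * ((n : ℤ) - 1))

/-- The reduction: a good additive set `P` gives an irredundant set missing `O(|P|)` lines. -/
theorem reduction (P : Finset ℕ) (n : ℕ) (hn : 1 ≤ n) (h0 : 0 ∈ P) (h1 : 1 ∈ P)
    (hP : Good P (2 * n)) : 6 * n ≤ upperIrr (queens n) + 2 + 900 * P.card := by
  classical
  let T' : Finset (Σ _ : Fin 4, ℤ) := Finset.univ.sigma (fun k => rng n k \ spec P n)
  let e : (Σ _ : Fin 4, ℤ) ↪ Fin 4 × ℤ :=
    ⟨fun x => (x.1, x.2), by
      rintro ⟨a, b⟩ ⟨c, d⟩ h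
      simp only [Prod.mk.injEq] at h
      obtain ⟨rfl, rfl⟩ := h
      rfl⟩
  let T : Finset (Fin 4 × ℤ) := T'.map e
  have hTcard : T.card = ∑ k : Fin 4, (rng n k \ spec P n).card := by
    rw [Finset.card_map, Finset.card_sigma]
  have hmem : ∀ l ∈ T, l.2 ∈ rng n l.1 ∧ l.2 ∉ spec P n := by
    intro l hl
    obtain ⟨x, hx, rfl⟩ := Finset.mem_map.1 hl
    have := (Finset.mem_sigma.1 hx).2
    exact Finset.mem_sdiff.1 this
  have hex : ∀ (b : Bool), ∀ l ∈ T, ∃ z, onBoard n z ∧ lin l.1 z = l.2 ∧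
      ∀ k, k ≠ l.1 → lin k z ∈ spec P n ∧ pat k ((lin k z : ℤ) : ZMod 13) = b := by
    intro b l hl
    obtain ⟨hr, hs⟩ := hmem l hl
    obtain ⟨k, t⟩ := l
    simp only at hr hs ⊢
    revert hr hs
    revert k
    refine forall4 ?_ ?_ ?_ ?_ <;> intro _ hr hs
    · simp only [rng, Finset.mem_Ico] at hr
      exact exist_C h0 h1 hP b t hr.1 hr.2 hs
    · simp only [rng, Finset.mem_Ico] at hr
      exact exist_R h0 h1 hP b t hr.1 hr.2 hs
    · simp only [rng, Finset.mem_Ioo] at hr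
      exact exist_D h0 h1 hP b t hr.1 hr.2 hs
    · simp only [rng, Finset.mem_Icc] at hr
      exact exist_A h0 h1 hP b t hr.1 hr.2 hs
  have hmain := construction n T
    (fun k t => t ∈ spec P n ∧ pat k ((t : ℤ) : ZMod 13) = true)
    (fun k t => t ∈ spec P n ∧ pat k ((t : ℤ) : ZMod 13) = false)
    (hex true) (hex false)
    (fun l hl => ⟨fun h => (hmem l hl).2 h.1, fun h => (hmem l hl).2 h.1⟩)
    (fun k t h h' => by
      have := h.2.symm.trans h'.2
      exact absurd this (by decide))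
  rw [hTcard, Fin.sum_univ_four] at hmain
  have hs := card_spec P n
  have a0 := Finset.le_card_sdiff (spec P n) (rng n 0)
  have a1 := Finset.le_card_sdiff (spec P n) (rng n 1)
  have a2 := Finset.le_card_sdiff (spec P n) (rng n 2)
  have a3 := Finset.le_card_sdiff (spec P n) (rng n 3)
  have c0 : (rng n 0).card = n := by simp [rng]
  have c1 : (rng n 1).card = n := by simp [rng]
  have c2 : (rng n 2).card = 2 * n - 1 := by
    simp only [rng, Int.card_Ioo]; omega
  have c3 : (rng n 3).card = 2 * n - 1 := by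
    simp only [rng, Int.card_Icc]; omega
  omega

/-! ### Digit sets -/

open Finset

def digs : ℕ → Finset ℕ
  | 0 => {0}
  | k + 1 => (digs k).image (fun m => 3 * m) ∪ (digs k).image (fun m => 3 * m + 1)

/-! three digit maps -/
def dp : ℕ → ℕ → ℕ
  | 0, _ => 0
  | k + 1, m => 3 * dp k (m / 3) + (if m % 3 = 0 then 0 else 1)

def dq : ℕ → ℕ → ℕ
  | 0, _ => 0
  | k + 1, m => 3 * dq k (m / 3) + (if m % 3 = 2 then 1 else 0)

def dd : ℕ → ℕ → ℕ
  | 0, _ => 0
  | k + 1, m => 3 * dd k (m / 3) + (if m % 3 = 1 then 1 else 0)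

def cnt (i : ℕ) : ℕ → ℕ → ℕ
  | 0, _ => 0
  | k + 1, m => cnt i k (m / 3) + (if m % 3 = i then 1 else 0)

theorem dp_dq (k : ℕ) : ∀ m < 3 ^ k, dp k m + dq k m = m ∧ dp k m = dq k m + dd k m := by
  induction k with
  | zero => intro m hm; simp at hm; subst hm; simp [dp, dq, dd]
  | succ k ih =>
    intro m hm
    have hlt : m / 3 < 3 ^ k := by rw [pow_succ] at hm; omega
    obtain ⟨h1, h2⟩ := ih _ hlt
    simp only [dp, dq, dd]
    have h3 : m % 3 = 0 ∨ m % 3 = 1 ∨ m % 3 = 2 := by omega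
    rcases h3 with h3 | h3 | h3 <;> simp only [h3] <;> norm_num <;> omega

theorem mem_digs0 {k a : ℕ} (ha : a ∈ digs k) : 3 * a ∈ digs (k + 1) := by
  rw [digs]; exact Finset.mem_union_left _ (Finset.mem_image.2 ⟨a, ha, rfl⟩)

theorem mem_digs1 {k a : ℕ} (ha : a ∈ digs k) : 3 * a + 1 ∈ digs (k + 1) := by
  rw [digs]; exact Finset.mem_union_right _ (Finset.mem_image.2 ⟨a, ha, rfl⟩)

theorem dp_mem (k : ℕ) : ∀ m, dp k m ∈ digs k := by
  induction k with
  | zero => intro m; simp [dp, digs]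
  | succ k ih =>
    intro m
    simp only [dp]
    split_ifs
    · exact mem_digs0 (ih _)
    · exact mem_digs1 (ih _)

theorem dq_mem (k : ℕ) : ∀ m, dq k m ∈ digs k := by
  induction k with
  | zero => intro m; simp [dq, digs]
  | succ k ih =>
    intro m
    simp only [dq]
    split_ifs
    · exact mem_digs1 (ih _)
    · exact mem_digs0 (ih _)

theorem dd_mem (k : ℕ) : ∀ m, dd k m ∈ digs k := by
  induction k with
  | zero => intro m; simp [dd, digs]
  | succ k ih =>
    intro m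
    simp only [dd]
    split_ifs
    · exact mem_digs1 (ih _)
    · exact mem_digs0 (ih _)

theorem cnt_dp (k : ℕ) : ∀ m, cnt 0 k (dp k m) = cnt 0 k m := by
  induction k with
  | zero => intro m; rfl
  | succ k ih =>
    intro m
    simp only [dp, cnt]
    split_ifs with h1 h2 h2
    · have e : (3 * dp k (m / 3) + 0) / 3 = dp k (m / 3) := by omega
      rw [e, ih]
    · omega
    · omega
    · have e : (3 * dp k (m / 3) + 1) / 3 = dp k (m / 3) := by omega
      rw [e, ih]

theorem cnt_dq (k : ℕ) : ∀ m, cnt 1 k (dq k m) = cnt 2 k m := by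
  induction k with
  | zero => intro m; rfl
  | succ k ih =>
    intro m
    simp only [dq, cnt]
    split_ifs with h1 h2 h2
    · have e : (3 * dq k (m / 3) + 1) / 3 = dq k (m / 3) := by omega
      rw [e, ih]
    · omega
    · omega
    · have e : (3 * dq k (m / 3) + 0) / 3 = dq k (m / 3) := by omega
      rw [e, ih]

theorem cnt_dd (k : ℕ) : ∀ m, cnt 1 k (dd k m) = cnt 1 k m := by
  induction k with
  | zero => intro m; rfl
  | succ k ih =>
    intro m
    simp only [dd, cnt]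
    split_ifs with h1 h2 h2
    · have e : (3 * dd k (m / 3) + 1) / 3 = dd k (m / 3) := by omega
      rw [e, ih]
    · omega
    · omega
    · have e : (3 * dd k (m / 3) + 0) / 3 = dd k (m / 3) := by omega
      rw [e, ih]

/-- generating functions -/
theorem gf_digs1 (y : ℝ) (k : ℕ) : ∑ x ∈ digs k, y ^ (cnt 1 k x) = (1 + y) ^ k := by
  induction k with
  | zero => simp [digs, cnt]
  | succ k ih =>
    rw [digs, Finset.sum_union, Finset.sum_image, Finset.sum_image]
    · have e1 : ∀ x ∈ digs k, y ^ (cnt 1 (k + 1) (3 * x)) = y ^ (cnt 1 k x) := by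
        intro x _
        simp only [cnt]
        rw [show 3 * x / 3 = x by omega, if_neg (by omega), add_zero]
      have e2 : ∀ x ∈ digs k, y ^ (cnt 1 (k + 1) (3 * x + 1)) = y * y ^ (cnt 1 k x) := by
        intro x _
        simp only [cnt]
        rw [show (3 * x + 1) / 3 = x by omega, if_pos (by omega), pow_succ, mul_comm]
      rw [Finset.sum_congr rfl e1, Finset.sum_congr rfl e2, ← Finset.mul_sum, ih]
      ring
    · intro a _ b _ h; simp only at h; omega
    · intro a _ b _ h; simp only at h; omega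
    · rw [Finset.disjoint_left]
      intro a ha hb
      obtain ⟨x, _, rfl⟩ := Finset.mem_image.1 ha
      obtain ⟨z, _, hz⟩ := Finset.mem_image.1 hb
      omega

theorem gf_digs0 (y : ℝ) (k : ℕ) : ∑ x ∈ digs k, y ^ (cnt 0 k x) = (1 + y) ^ k := by
  induction k with
  | zero => simp [digs, cnt]
  | succ k ih =>
    rw [digs, Finset.sum_union, Finset.sum_image, Finset.sum_image]
    · have e1 : ∀ x ∈ digs k, y ^ (cnt 0 (k + 1) (3 * x)) = y * y ^ (cnt 0 k x) := by
        intro x _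
        simp only [cnt]
        rw [show 3 * x / 3 = x by omega, if_pos (by omega), pow_succ, mul_comm]
      have e2 : ∀ x ∈ digs k, y ^ (cnt 0 (k + 1) (3 * x + 1)) = y ^ (cnt 0 k x) := by
        intro x _
        simp only [cnt]
        rw [show (3 * x + 1) / 3 = x by omega, if_neg (by omega), add_zero]
      rw [Finset.sum_congr rfl e1, Finset.sum_congr rfl e2, ← Finset.mul_sum, ih]
      ring
    · intro a _ b _ h; simp only at h; omega
    · intro a _ b _ h; simp only at h; omega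
    · rw [Finset.disjoint_left]
      intro a ha hb
      obtain ⟨x, _, rfl⟩ := Finset.mem_image.1 ha
      obtain ⟨z, _, hz⟩ := Finset.mem_image.1 hb
      omega

theorem sum_range_three (f : ℕ → ℝ) (N : ℕ) : ∑ m ∈ range (N * 3), f m =
    ∑ m ∈ range N, (f (3 * m) + f (3 * m + 1) + f (3 * m + 2)) := by
  induction N with
  | zero => simp
  | succ N ih =>
    rw [Finset.sum_range_succ, ← ih, show (N + 1) * 3 = N * 3 + 1 + 1 + 1 by ring,
      Finset.sum_range_succ, Finset.sum_range_succ, Finset.sum_range_succ,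
      show N * 3 = 3 * N by ring]
    ring

theorem gf_range (i : ℕ) (hi : i < 3) (y : ℝ) (k : ℕ) :
    ∑ m ∈ range (3 ^ k), y ^ (cnt i k m) = (2 + y) ^ k := by
  induction k with
  | zero => simp [cnt]
  | succ k ih =>
    rw [pow_succ, sum_range_three, pow_succ, ← ih, Finset.sum_mul]
    refine Finset.sum_congr rfl (fun m _ => ?_)
    simp only [cnt]
    rw [show 3 * m / 3 = m by omega, show (3 * m + 1) / 3 = m by omega,
      show (3 * m + 2) / 3 = m by omega, show 3 * m % 3 = 0 by omega,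
      show (3 * m + 1) % 3 = 1 by omega, show (3 * m + 2) % 3 = 2 by omega]
    have : i = 0 ∨ i = 1 ∨ i = 2 := by omega
    rcases this with rfl | rfl | rfl <;> norm_num [pow_succ] <;> ring

theorem low_card (i k t : ℕ) (h : ∀ y : ℝ, ∑ x ∈ digs k, y ^ (cnt i k x) = (1 + y) ^ k) :
    (((digs k).filter (fun x => cnt i k x ≤ t)).card : ℝ) ≤ 2 ^ t * (3 / 2 : ℝ) ^ k := by
  have h1 := h (1 / 2)
  have h2 : ∑ x ∈ (digs k).filter (fun x => cnt i k x ≤ t), ((1 / 2 : ℝ)) ^ t ≤
      ∑ x ∈ digs k, (1 / 2 : ℝ) ^ (cnt i k x) := by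
    refine (Finset.sum_le_sum (g := fun x => (1 / 2 : ℝ) ^ (cnt i k x)) ?_).trans ?_
    · intro x hx
      exact pow_le_pow_of_le_one (by norm_num) (by norm_num) (Finset.mem_filter.1 hx).2
    · exact Finset.sum_le_sum_of_subset_of_nonneg (Finset.filter_subset _ _)
        (fun _ _ _ => by positivity)
  rw [Finset.sum_const, nsmul_eq_mul, h1] at h2
  have h3 : (1 + 1 / 2 : ℝ) = 3 / 2 := by norm_num
  rw [h3] at h2
  have h4 : (2 : ℝ) ^ t * (1 / 2) ^ t = 1 := by rw [← mul_pow]; norm_num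
  calc (((digs k).filter (fun x => cnt i k x ≤ t)).card : ℝ)
      = 2 ^ t * ((((digs k).filter (fun x => cnt i k x ≤ t)).card : ℝ) * (1 / 2) ^ t) := by
        rw [mul_comm, mul_assoc, mul_comm ((1 / 2 : ℝ) ^ t), h4, mul_one]
    _ ≤ 2 ^ t * (3 / 2 : ℝ) ^ k := by gcongr

theorem bad_card (i k t : ℕ) (hi : i < 3) (y : ℝ) (hy : 1 ≤ y) :
    (((range (3 ^ k)).filter (fun m => t < cnt i k m)).card : ℝ) * y ^ (t + 1) ≤ (2 + y) ^ k := by
  rw [← gf_range i hi y k, ← nsmul_eq_mul, ← Finset.sum_const]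
  refine (Finset.sum_le_sum (g := fun m => y ^ (cnt i k m)) ?_).trans ?_
  · intro m hm
    exact pow_le_pow_right₀ hy (Finset.mem_filter.1 hm).2
  · exact Finset.sum_le_sum_of_subset_of_nonneg (Finset.filter_subset _ _)
      (fun _ _ _ => by positivity)

def typ (k t r : ℕ) : Prop := cnt 0 k r ≤ t ∧ cnt 1 k r ≤ t ∧ cnt 2 k r ≤ t

instance (k t r : ℕ) : Decidable (typ k t r) := by unfold typ; infer_instance

theorem typ_count (k t : ℕ) (h : ∀ i < 3, 6 * ((range (3 ^ k)).filter (fun m => t < cnt i k m)).card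
    ≤ 3 ^ k) : 3 ^ k ≤ 2 * ((range (3 ^ k)).filter (fun r => typ k t r)).card := by
  have h0 := h 0 (by norm_num)
  have h1 := h 1 (by norm_num)
  have h2 := h 2 (by norm_num)
  have hsub : range (3 ^ k) ⊆ (range (3 ^ k)).filter (fun r => typ k t r) ∪
      ((range (3 ^ k)).filter (fun m => t < cnt 0 k m) ∪
      ((range (3 ^ k)).filter (fun m => t < cnt 1 k m) ∪
      (range (3 ^ k)).filter (fun m => t < cnt 2 k m))) := by
    intro m hm
    by_cases a : t < cnt 0 k m
    · exact Finset.mem_union_right _ (Finset.mem_union_left _ (Finset.mem_filter.2 ⟨hm, a⟩))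
    by_cases b : t < cnt 1 k m
    · exact Finset.mem_union_right _ (Finset.mem_union_right _
        (Finset.mem_union_left _ (Finset.mem_filter.2 ⟨hm, b⟩)))
    by_cases c : t < cnt 2 k m
    · exact Finset.mem_union_right _ (Finset.mem_union_right _
        (Finset.mem_union_right _ (Finset.mem_filter.2 ⟨hm, c⟩)))
    · exact Finset.mem_union_left _ (Finset.mem_filter.2
        ⟨hm, not_lt.1 a, not_lt.1 b, not_lt.1 c⟩)
  have hc := Finset.card_le_card hsub
  rw [Finset.card_range] at hc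
  have u1 := Finset.card_union_le ((range (3 ^ k)).filter (fun r => typ k t r))
      ((range (3 ^ k)).filter (fun m => t < cnt 0 k m) ∪
      ((range (3 ^ k)).filter (fun m => t < cnt 1 k m) ∪
      (range (3 ^ k)).filter (fun m => t < cnt 2 k m)))
  have u2 := Finset.card_union_le ((range (3 ^ k)).filter (fun m => t < cnt 0 k m))
      ((range (3 ^ k)).filter (fun m => t < cnt 1 k m) ∪
      (range (3 ^ k)).filter (fun m => t < cnt 2 k m))
  have u3 := Finset.card_union_le ((range (3 ^ k)).filter (fun m => t < cnt 1 k m))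
      ((range (3 ^ k)).filter (fun m => t < cnt 2 k m))
  omega

theorem cnt_le (i k : ℕ) : ∀ m, cnt i k m ≤ k := by
  induction k with
  | zero => intro m; simp [cnt]
  | succ k ih =>
    intro m
    have := ih (m / 3)
    simp only [cnt]
    split_ifs <;> omega

noncomputable def thexp : ℝ := 1 - 2 / 3 * (Real.log 2 / Real.log 3)

theorem three_rpow_thexp : (3 : ℝ) ^ thexp = 3 / 2 * (2 : ℝ) ^ (1 / 3 : ℝ) := by
  have hlog3 : 0 < Real.log 3 := Real.log_pos (by norm_num)
  have h1 : (3 : ℝ) ^ thexp = Real.exp (Real.log 3 - 2 / 3 * Real.log 2) := by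
    rw [Real.rpow_def_of_pos (by norm_num)]
    congr 1
    unfold thexp
    field_simp
  rw [h1]
  have h2 : Real.log 3 - 2 / 3 * Real.log 2 = Real.log (3 / 2) + Real.log 2 * (1 / 3) := by
    rw [Real.log_div (by norm_num) (by norm_num)]
    ring
  rw [h2, Real.exp_add, Real.exp_log (by norm_num), Real.rpow_def_of_pos (by norm_num)]

theorem analytic (ε : ℝ) (hε : 0 < ε) : ∃ C : ℝ, 0 < C ∧ ∀ k : ℕ, ∃ t : ℕ,
    3 ^ k ≤ 2 * ((range (3 ^ k)).filter (fun r => typ k t r)).card ∧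
    (2 : ℝ) ^ t * (3 / 2 : ℝ) ^ k ≤ C * ((3 : ℝ) ^ k) ^ (thexp + ε) := by
  set y : ℝ := 1 + ε with hy
  set ρ : ℝ := (2 + y) / 3 * y ^ (-(1 / 3 + ε)) with hρ
  have hy1 : 1 < y := by linarith
  have hy0 : 0 < y := by linarith
  have hρ0 : 0 < ρ := by positivity
  have hρ1 : ρ < 1 := by
    rw [← Real.log_neg_iff hρ0, hρ, Real.log_mul (by positivity) (by positivity),
      Real.log_rpow hy0]
    have e1 : Real.log ((2 + y) / 3) ≤ (2 + y) / 3 - 1 := Real.log_le_sub_one_of_pos (by positivity)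
    have e2 : 1 - y⁻¹ ≤ Real.log y := Real.one_sub_inv_le_log_of_pos hy0
    have e3 : (2 + y) / 3 - 1 = ε / 3 := by rw [hy]; ring
    have e4 : 1 - y⁻¹ = ε / (1 + ε) := by rw [hy]; field_simp; ring
    have e5 : ε / 3 < (1 / 3 + ε) * (ε / (1 + ε)) := by
      have hpos : (0 : ℝ) < 1 + ε := by linarith
      rw [mul_div_assoc', lt_div_iff₀ hpos]
      nlinarith
    have e6 : (1 / 3 + ε) * (ε / (1 + ε)) ≤ (1 / 3 + ε) * Real.log y := by
      rw [← e4]
      exact mul_le_mul_of_nonneg_left e2 (by linarith)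
    linarith
  obtain ⟨K, hK⟩ := exists_pow_lt_of_lt_one (show (0 : ℝ) < 1 / 6 by norm_num) hρ1
  have hlog3 : 0 < Real.log 3 := Real.log_pos (by norm_num)
  have hlog2 : 0 < Real.log 2 := Real.log_pos (by norm_num)
  have hth0 : 0 < thexp := by
    unfold thexp
    have : Real.log 2 / Real.log 3 ≤ 1 := by
      rw [div_le_one hlog3]
      exact Real.log_le_log (by norm_num) (by norm_num)
    linarith
  refine ⟨3 ^ K, by positivity, fun k => ?_⟩
  have hone : (1 : ℝ) ≤ ((3 : ℝ) ^ k) ^ (thexp + ε) :=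
    Real.one_le_rpow (one_le_pow₀ (by norm_num)) (by linarith)
  by_cases hk : k < K
  · refine ⟨k, ?_, ?_⟩
    · have hc : ∀ i m, cnt i k m ≤ k := fun i => cnt_le i k
      have : (range (3 ^ k)).filter (fun r => typ k k r) = range (3 ^ k) := by
        apply Finset.filter_true_of_mem
        intro r _
        exact ⟨hc _ _, hc _ _, hc _ _⟩
      rw [this, Finset.card_range]
      omega
    · have e1 : (2 : ℝ) ^ k * (3 / 2 : ℝ) ^ k = 3 ^ k := by rw [← mul_pow]; norm_num
      rw [e1]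
      have e2 : (3 : ℝ) ^ k ≤ 3 ^ K := pow_le_pow_right₀ (by norm_num) hk.le
      calc (3 : ℝ) ^ k ≤ 3 ^ K * 1 := by linarith
        _ ≤ 3 ^ K * ((3 : ℝ) ^ k) ^ (thexp + ε) := by gcongr
  · push Not at hk
    set t := Nat.floor ((1 / 3 + ε) * (k : ℝ)) with ht
    have ht1 : (t : ℝ) ≤ (1 / 3 + ε) * k := Nat.floor_le (by positivity)
    have ht2 : (1 / 3 + ε) * k < (t : ℝ) + 1 := Nat.lt_floor_add_one _
    refine ⟨t, ?_, ?_⟩
    · apply typ_count
      intro i hi
      have hb := bad_card i k t hi y hy1.le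
      have hpow : ρ ^ k ≤ 1 / 6 :=
        (pow_le_pow_of_le_one hρ0.le hρ1.le hk).trans hK.le
      have e1 : (y : ℝ) ^ ((1 / 3 + ε) * k) ≤ y ^ (t + 1) := by
        rw [← Real.rpow_natCast y (t + 1)]
        apply Real.rpow_le_rpow_of_exponent_le hy1.le
        push_cast
        linarith
      have e2 : (((range (3 ^ k)).filter (fun m => t < cnt i k m)).card : ℝ) *
          y ^ ((1 / 3 + ε) * k) ≤ (2 + y) ^ k :=
        (mul_le_mul_of_nonneg_left e1 (by positivity)).trans hb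
      have e3 : (2 + y) ^ k = (3 : ℝ) ^ k * ρ ^ k * y ^ ((1 / 3 + ε) * k) := by
        rw [hρ, mul_pow, ← Real.rpow_natCast (y ^ (-(1 / 3 + ε))) k, ← Real.rpow_mul hy0.le]
        have : (3 : ℝ) ^ k * (((2 + y) / 3) ^ k * y ^ (-(1 / 3 + ε) * (k : ℝ))) *
            y ^ ((1 / 3 + ε) * (k : ℝ)) = ((3 : ℝ) ^ k * ((2 + y) / 3) ^ k) *
            (y ^ (-(1 / 3 + ε) * (k : ℝ)) * y ^ ((1 / 3 + ε) * (k : ℝ))) := by ring
        rw [this, ← mul_pow, ← Real.rpow_add hy0]
        have e4 : -(1 / 3 + ε) * (k : ℝ) + (1 / 3 + ε) * (k : ℝ) = 0 := by ring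
        rw [e4, Real.rpow_zero, mul_one]
        congr 1
        ring
      rw [e3] at e2
      have e5 : (0 : ℝ) < y ^ ((1 / 3 + ε) * (k : ℝ)) := by positivity
      have e6 := le_of_mul_le_mul_right e2 e5
      have e7 : (3 : ℝ) ^ k * ρ ^ k ≤ 3 ^ k * (1 / 6) := by gcongr
      have e8 : (6 : ℝ) * (((range (3 ^ k)).filter (fun m => t < cnt i k m)).card : ℝ) ≤ 3 ^ k := by
        linarith
      exact_mod_cast e8
    · have e1 : (2 : ℝ) ^ t ≤ 2 ^ ((1 / 3 + ε) * (k : ℝ)) := by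
        rw [← Real.rpow_natCast (2 : ℝ) t]
        exact Real.rpow_le_rpow_of_exponent_le (by norm_num) ht1
      have e2 : (2 : ℝ) ^ ((1 / 3 + ε) * (k : ℝ)) * (3 / 2 : ℝ) ^ k
          = ((3 : ℝ) ^ k) ^ thexp * 2 ^ (ε * k) := by
        have a1 : ((3 : ℝ) ^ k) ^ thexp = (3 / 2 * (2 : ℝ) ^ (1 / 3 : ℝ)) ^ k := by
          rw [← three_rpow_thexp, ← Real.rpow_natCast (3 : ℝ) k, ← Real.rpow_mul (by norm_num),
            mul_comm (k : ℝ) thexp, Real.rpow_mul (by norm_num), Real.rpow_natCast]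
        rw [a1, mul_pow, add_mul, Real.rpow_add (by norm_num), Real.rpow_mul (by norm_num),
          Real.rpow_natCast]
        ring
      have e3 : (2 : ℝ) ^ (ε * k) ≤ ((3 : ℝ) ^ k) ^ ε := by
        rw [← Real.rpow_natCast (3 : ℝ) k, ← Real.rpow_mul (by norm_num), mul_comm (k : ℝ) ε]
        exact Real.rpow_le_rpow (by norm_num) (by norm_num) (by positivity)
      have e4 : ((3 : ℝ) ^ k) ^ (thexp + ε) = ((3 : ℝ) ^ k) ^ thexp * ((3 : ℝ) ^ k) ^ ε :=
        Real.rpow_add (by positivity) _ _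
      have e5 : (1 : ℝ) ≤ 3 ^ K := one_le_pow₀ (by norm_num)
      calc (2 : ℝ) ^ t * (3 / 2 : ℝ) ^ k ≤ 2 ^ ((1 / 3 + ε) * (k : ℝ)) * (3 / 2 : ℝ) ^ k := by gcongr
        _ = ((3 : ℝ) ^ k) ^ thexp * 2 ^ (ε * k) := e2
        _ ≤ ((3 : ℝ) ^ k) ^ thexp * ((3 : ℝ) ^ k) ^ ε := by gcongr
        _ = 1 * ((3 : ℝ) ^ k) ^ (thexp + ε) := by rw [e4, one_mul]
        _ ≤ 3 ^ K * ((3 : ℝ) ^ k) ^ (thexp + ε) := by gcongr

/-- shifts making every element of `U` good -/
theorem cover (N : ℕ) (hN : 0 < N) (Q : ℕ → Prop) [DecidablePred Q]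
    (hQ : N ≤ 2 * ((range N).filter Q).card) :
    ∀ (s : ℕ) (U : Finset ℕ), U.card < 2 ^ s → ∃ A : Finset ℕ, A.card ≤ s ∧ (∀ a ∈ A, a < N) ∧
      ∀ h ∈ U, ∃ a ∈ A, Q ((h + a) % N) := by
  intro s
  induction s with
  | zero =>
    intro U hU
    have : U = ∅ := by
      rw [pow_zero, Nat.lt_one_iff, Finset.card_eq_zero] at hU
      exact hU
    subst this
    exact ⟨∅, by simp, by simp, by simp⟩
  | succ s ih =>
    intro U hU
    -- for each `h`, at least half of the shifts are good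
    have h1 : ∀ h, ((range N).filter Q).card ≤ ((range N).filter (fun a => Q ((h + a) % N))).card := by
      intro h
      have hsub : (range N).filter Q ⊆
          ((range N).filter (fun a => Q ((h + a) % N))).image (fun a => (h + a) % N) := by
        intro r hr
        obtain ⟨hr1, hr2⟩ := Finset.mem_filter.1 hr
        rw [Finset.mem_range] at hr1
        have hmod : (h + (r + (N - h % N)) % N) % N = r := by
          rw [Nat.add_mod_mod]
          have e : h + (r + (N - h % N)) = r + N * (h / N + 1) := by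
            have e1 := Nat.div_add_mod h N
            have e2 := Nat.mod_lt h hN
            rw [mul_add, mul_one]
            omega
          rw [e, Nat.add_mul_mod_self_left, Nat.mod_eq_of_lt hr1]
        refine Finset.mem_image.2 ⟨(r + (N - h % N)) % N, ?_, hmod⟩
        refine Finset.mem_filter.2 ⟨Finset.mem_range.2 (Nat.mod_lt _ hN), ?_⟩
        rw [hmod]; exact hr2
      exact (Finset.card_le_card hsub).trans Finset.card_image_le
    obtain ⟨a, ha, hgood⟩ : ∃ a ∈ range N, U.card ≤ 2 * (U.filter (fun h => Q ((h + a) % N))).card := by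
      by_contra hcon
      push Not at hcon
      have h2 : ∑ a ∈ range N, (U.filter (fun h => Q ((h + a) % N))).card =
          ∑ h ∈ U, ((range N).filter (fun a => Q ((h + a) % N))).card := by
        simp only [Finset.card_filter]
        exact Finset.sum_comm
      have h3 : ∑ a ∈ range N, 2 * (U.filter (fun h => Q ((h + a) % N))).card <
          ∑ a ∈ range N, U.card :=
        Finset.sum_lt_sum_of_nonempty ⟨0, Finset.mem_range.2 hN⟩ hcon
      rw [← Finset.mul_sum, h2, Finset.sum_const, Finset.card_range, smul_eq_mul] at h3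
      have h4 : U.card * ((range N).filter Q).card ≤
          ∑ h ∈ U, ((range N).filter (fun a => Q ((h + a) % N))).card := by
        rw [← smul_eq_mul, ← Finset.sum_const]
        exact Finset.sum_le_sum (fun h _ => h1 h)
      have h5 : N * U.card ≤ 2 * (U.card * ((range N).filter Q).card) := by
        calc N * U.card ≤ (2 * ((range N).filter Q).card) * U.card := Nat.mul_le_mul_right _ hQ
          _ = 2 * (U.card * ((range N).filter Q).card) := by ring
      omega
    have hsplit := Finset.card_filter_add_card_filter_not (s := U) (fun h => Q ((h + a) % N))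
    obtain ⟨A, hA1, hA2, hA3⟩ := ih (U.filter (fun h => ¬ Q ((h + a) % N))) (by
      rw [pow_succ] at hU
      omega)
    refine ⟨insert a A, (Finset.card_insert_le _ _).trans (by omega), ?_, ?_⟩
    · intro b hb
      rcases Finset.mem_insert.1 hb with rfl | hb
      · exact Finset.mem_range.1 ha
      · exact hA2 b hb
    · intro h hh
      by_cases hq : Q ((h + a) % N)
      · exact ⟨a, Finset.mem_insert_self _ _, hq⟩
      · obtain ⟨b, hb, hb'⟩ := hA3 h (Finset.mem_filter.2 ⟨hh, hq⟩)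
        exact ⟨b, Finset.mem_insert_of_mem hb, hb'⟩

/-- the set attached to the scale `3 ^ j` -/
def scaleSet (j t : ℕ) (A : Finset ℕ) : Finset ℕ :=
  ((((digs j).filter (fun x => cnt 0 j x ≤ t)) ×ˢ range 9) ×ˢ A).image
    (fun z => z.1.1 + 3 ^ j * z.1.2 - z.2) ∪
  ((((digs j).filter (fun x => cnt 1 j x ≤ t)) ×ˢ range 9).image
    (fun z => z.1 + 3 ^ j * z.2) ∪
  ((((digs j).filter (fun x => cnt 1 j x ≤ t)) ×ˢ range 9) ×ˢ A).image
    (fun z => (z.1.1 + 3 ^ j * z.1.2 - z.2) + (z.2 - (z.1.1 + 3 ^ j * z.1.2))))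

theorem card_scaleSet (j t : ℕ) (A : Finset ℕ) : ((scaleSet j t A).card : ℝ) ≤
    9 * (2 * A.card + 1) * (2 ^ t * (3 / 2 : ℝ) ^ j) := by
  have h0 := low_card 0 j t (fun y => gf_digs0 y j)
  have h1 := low_card 1 j t (fun y => gf_digs1 y j)
  set B : ℝ := 2 ^ t * (3 / 2 : ℝ) ^ j with hB
  have e1 : (scaleSet j t A).card ≤
      ((digs j).filter (fun x => cnt 0 j x ≤ t)).card * 9 * A.card +
      (((digs j).filter (fun x => cnt 1 j x ≤ t)).card * 9 +
      ((digs j).filter (fun x => cnt 1 j x ≤ t)).card * 9 * A.card) := by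
    unfold scaleSet
    refine (Finset.card_union_le _ _).trans (Nat.add_le_add ?_ ?_)
    · refine Finset.card_image_le.trans ?_
      rw [Finset.card_product, Finset.card_product, Finset.card_range]
    · refine (Finset.card_union_le _ _).trans (Nat.add_le_add ?_ ?_)
      · refine Finset.card_image_le.trans ?_
        rw [Finset.card_product, Finset.card_range]
      · refine Finset.card_image_le.trans ?_
        rw [Finset.card_product, Finset.card_product, Finset.card_range]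
  have e2 : ((scaleSet j t A).card : ℝ) ≤
      (((digs j).filter (fun x => cnt 0 j x ≤ t)).card : ℝ) * 9 * A.card +
      ((((digs j).filter (fun x => cnt 1 j x ≤ t)).card : ℝ) * 9 +
      (((digs j).filter (fun x => cnt 1 j x ≤ t)).card : ℝ) * 9 * A.card) := by
    exact_mod_cast e1
  refine e2.trans ?_
  have hA : (0 : ℝ) ≤ A.card := by positivity
  calc _ ≤ B * 9 * A.card + (B * 9 + B * 9 * A.card) := by gcongr
    _ = 9 * (2 * A.card + 1) * B := by ring

theorem scale_good (j t : ℕ) (A : Finset ℕ) (hA : ∀ a ∈ A, a < 3 ^ j) (h : ℕ)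
    (h1 : 3 ^ j ≤ h) (h2 : h < 3 ^ (j + 1)) (ha : ∃ a ∈ A, typ j t ((h + a) % 3 ^ j)) :
    ∃ p ∈ scaleSet j t A, ∃ q ∈ scaleSet j t A, p + q = h ∧ q ≤ p ∧ p - q ∈ scaleSet j t A := by
  obtain ⟨a, haA, ht0, ht1, ht2⟩ := ha
  have halt := hA a haA
  have hpos : 0 < 3 ^ j := by positivity
  have hb : (h + a) / 3 ^ j < 9 := by
    rw [Nat.div_lt_iff_lt_mul hpos]
    rw [pow_succ] at h2
    omega
  have hr : (h + a) % 3 ^ j < 3 ^ j := Nat.mod_lt _ hpos
  have hdm := Nat.div_add_mod (h + a) (3 ^ j)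
  generalize (h + a) / 3 ^ j = b at *
  generalize (h + a) % 3 ^ j = r at *
  obtain ⟨r1, r2⟩ := dp_dq j r hr
  obtain ⟨b1, b2⟩ := dp_dq 2 b (by norm_num; exact hb)
  -- the three numbers
  have hP : dp j r + 3 ^ j * dp 2 b - a ∈ scaleSet j t A := by
    apply Finset.mem_union_left
    refine Finset.mem_image.2 ⟨((dp j r, dp 2 b), a), ?_, rfl⟩
    refine Finset.mem_product.2 ⟨Finset.mem_product.2 ⟨Finset.mem_filter.2 ⟨dp_mem _ _, ?_⟩,
      Finset.mem_range.2 (by change dp 2 b < 9; omega)⟩, haA⟩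
    rw [cnt_dp]; exact ht0
  have hQ : dq j r + 3 ^ j * dq 2 b ∈ scaleSet j t A := by
    apply Finset.mem_union_right
    apply Finset.mem_union_left
    refine Finset.mem_image.2 ⟨(dq j r, dq 2 b), ?_, rfl⟩
    refine Finset.mem_product.2 ⟨Finset.mem_filter.2 ⟨dq_mem _ _, ?_⟩,
      Finset.mem_range.2 (by omega)⟩
    rw [cnt_dq]; exact ht2
  have hD : (dd j r + 3 ^ j * dd 2 b - a) + (a - (dd j r + 3 ^ j * dd 2 b)) ∈ scaleSet j t A := by
    apply Finset.mem_union_right
    apply Finset.mem_union_right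
    refine Finset.mem_image.2 ⟨((dd j r, dd 2 b), a), ?_, rfl⟩
    refine Finset.mem_product.2 ⟨Finset.mem_product.2 ⟨Finset.mem_filter.2 ⟨dd_mem _ _, ?_⟩,
      Finset.mem_range.2 (by change dd 2 b < 9; omega)⟩, haA⟩
    rw [cnt_dd]; exact ht1
  have eb : 3 ^ j * b = 3 ^ j * dp 2 b + 3 ^ j * dq 2 b := by rw [← mul_add, b1]
  have eb2 : 3 ^ j * dp 2 b = 3 ^ j * dq 2 b + 3 ^ j * dd 2 b := by rw [← mul_add, ← b2]
  generalize 3 ^ j * dp 2 b = X at *
  generalize 3 ^ j * dq 2 b = Y at *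
  generalize 3 ^ j * dd 2 b = Z at *
  generalize dp j r = x at *
  generalize dq j r = y at *
  generalize dd j r = z at *
  by_cases hc : y + Y ≤ x + X - a
  · refine ⟨_, hP, _, hQ, by omega, hc, ?_⟩
    have : x + X - a - (y + Y) = (z + Z - a) + (a - (z + Z)) := by omega
    rw [this]; exact hD
  · refine ⟨_, hQ, _, hP, by omega, by omega, ?_⟩
    have : y + Y - (x + X - a) = (z + Z - a) + (a - (z + Z)) := by omega
    rw [this]; exact hD

theorem exists_good (ε : ℝ) (hε : 0 < ε) : ∃ C : ℝ, 0 < C ∧ ∀ n : ℕ, 1 ≤ n →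
    ∃ P : Finset ℕ, 0 ∈ P ∧ 1 ∈ P ∧
      (∀ h ≤ 2 * n, ∃ p ∈ P, ∃ q ∈ P, p + q = h ∧ q ≤ p ∧ p - q ∈ P) ∧
      (P.card : ℝ) ≤ C * (n : ℝ) ^ (thexp + ε) := by
  obtain ⟨C₀, hC₀, hmain⟩ := analytic (ε / 3) (by positivity)
  choose t ht1 ht2 using hmain
  have hcov : ∀ j : ℕ, ∃ A : Finset ℕ, A.card ≤ 2 * (j + 1) ∧ (∀ a ∈ A, a < 3 ^ j) ∧
      ∀ h ∈ Finset.Ico (3 ^ j) (3 ^ (j + 1)), ∃ a ∈ A, typ j (t j) ((h + a) % 3 ^ j) := by
    intro j
    apply cover (3 ^ j) (by positivity) (fun r => typ j (t j) r) (ht1 j)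
    rw [Nat.card_Ico]
    have e1 : (3 : ℕ) ^ (j + 1) ≤ 2 ^ (2 * (j + 1)) := by
      rw [pow_mul]
      exact Nat.pow_le_pow_left (by norm_num) _
    have e2 : 0 < 3 ^ j := by positivity
    have e3 : (3 : ℕ) ^ j ≤ 3 ^ (j + 1) := Nat.pow_le_pow_right (by norm_num) (by omega)
    omega
  choose A hA1 hA2 hA3 using hcov
  have hlog3 : 0 < Real.log 3 := Real.log_pos (by norm_num)
  have hlog2 : 0 < Real.log 2 := Real.log_pos (by norm_num)
  have hth0 : 0 < thexp := by
    unfold thexp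
    have : Real.log 2 / Real.log 3 ≤ 1 := by
      rw [div_le_one hlog3]
      exact Real.log_le_log (by norm_num) (by norm_num)
    linarith
  set c₁ : ℝ := 1 + 1 / (ε / 3 * Real.log 3) with hc₁
  have hc₁0 : 0 < c₁ := by positivity
  have hth1 : thexp ≤ 1 := by
    unfold thexp
    have : 0 < Real.log 2 / Real.log 3 := by positivity
    linarith
  refine ⟨2 + 9 * 5 * C₀ * c₁ ^ 2 * 2 ^ (thexp + ε), by positivity, fun n hn => ?_⟩
  set J := Nat.log 3 (2 * n) with hJ
  have hJ1 : 3 ^ J ≤ 2 * n := Nat.pow_log_le_self 3 (by omega)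
  refine ⟨{0, 1} ∪ (Finset.range (J + 1)).biUnion (fun j => scaleSet j (t j) (A j)),
    by simp, by simp, ?_, ?_⟩
  · intro h hh
    by_cases h0 : h = 0
    · subst h0
      exact ⟨0, by simp, 0, by simp, rfl, le_rfl, by simp⟩
    · have hj1 : 3 ^ (Nat.log 3 h) ≤ h := Nat.pow_log_le_self 3 h0
      have hj2 : h < 3 ^ (Nat.log 3 h + 1) := Nat.lt_pow_succ_log_self (by norm_num) _
      have hj3 : Nat.log 3 h ≤ J := Nat.log_mono_right hh
      obtain ⟨p, hp, q, hq, e1, e2, e3⟩ := scale_good (Nat.log 3 h) (t _) (A _) (hA2 _) h hj1 hj2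
        (hA3 _ h (Finset.mem_Ico.2 ⟨hj1, hj2⟩))
      have hsub : ∀ x ∈ scaleSet (Nat.log 3 h) (t (Nat.log 3 h)) (A (Nat.log 3 h)),
          x ∈ ({0, 1} ∪ (Finset.range (J + 1)).biUnion (fun j => scaleSet j (t j) (A j)) :
            Finset ℕ) := by
        intro x hx
        apply Finset.mem_union_right
        exact Finset.mem_biUnion.2 ⟨Nat.log 3 h, Finset.mem_range.2 (by omega), hx⟩
      exact ⟨p, hsub p hp, q, hsub q hq, e1, e2, hsub _ e3⟩
  · have e1 : (({0, 1} ∪ (Finset.range (J + 1)).biUnion (fun j => scaleSet j (t j) (A j)) :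
            Finset ℕ).card : ℝ) ≤ 2 + ∑ j ∈ Finset.range (J + 1), ((scaleSet j (t j) (A j)).card : ℝ) := by
      have a1 := Finset.card_union_le ({0, 1} : Finset ℕ)
        ((Finset.range (J + 1)).biUnion (fun j => scaleSet j (t j) (A j)))
      have a2 : ((Finset.range (J + 1)).biUnion (fun j => scaleSet j (t j) (A j))).card ≤
          ∑ j ∈ Finset.range (J + 1), (scaleSet j (t j) (A j)).card := Finset.card_biUnion_le
      have a3 : ({0, 1} : Finset ℕ).card ≤ 2 := Finset.card_le_two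
      have a4 : ({0, 1} ∪ (Finset.range (J + 1)).biUnion (fun j => scaleSet j (t j) (A j)) :
            Finset ℕ).card ≤ 2 + ∑ j ∈ Finset.range (J + 1), (scaleSet j (t j) (A j)).card := by
        omega
      exact_mod_cast a4
    have e2 : ∀ j ∈ Finset.range (J + 1), ((scaleSet j (t j) (A j)).card : ℝ) ≤
        9 * (5 * (J + 1)) * (C₀ * ((3 : ℝ) ^ J) ^ (thexp + ε / 3)) := by
      intro j hj
      have hjJ : j ≤ J := by have := Finset.mem_range.1 hj; omega
      refine (card_scaleSet j (t j) (A j)).trans ?_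
      have b1 : (2 : ℝ) * (A j).card + 1 ≤ 5 * (J + 1) := by
        have : (A j).card ≤ 2 * (J + 1) := (hA1 j).trans (by omega)
        have : ((A j).card : ℝ) ≤ 2 * (J + 1) := by exact_mod_cast this
        have hJ0 : (0 : ℝ) ≤ J := by positivity
        linarith
      have b2 : (2 : ℝ) ^ (t j) * (3 / 2 : ℝ) ^ j ≤ C₀ * ((3 : ℝ) ^ J) ^ (thexp + ε / 3) := by
        refine (ht2 j).trans ?_
        have : (3 : ℝ) ^ j ≤ 3 ^ J := pow_le_pow_right₀ (by norm_num) hjJ
        gcongr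
      gcongr
    have e3 := Finset.sum_le_sum e2
    rw [Finset.sum_const, Finset.card_range, nsmul_eq_mul] at e3
    have hJc : ((J : ℝ) + 1) ≤ c₁ * ((3 : ℝ) ^ J) ^ (ε / 3) := by
      have f1 : ((3 : ℝ) ^ J) ^ (ε / 3) = Real.exp (ε / 3 * Real.log 3 * J) := by
        rw [Real.rpow_def_of_pos (by positivity), Real.log_pow]
        congr 1
        ring
      have f2 := Real.add_one_le_exp (ε / 3 * Real.log 3 * J)
      rw [f1]
      have f3 : (1 : ℝ) ≤ Real.exp (ε / 3 * Real.log 3 * J) := by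
        have : 0 ≤ ε / 3 * Real.log 3 * J := by positivity
        linarith [Real.one_le_exp this]
      have f4 : (J : ℝ) ≤ 1 / (ε / 3 * Real.log 3) * Real.exp (ε / 3 * Real.log 3 * J) := by
        rw [div_mul_eq_mul_div, one_mul, le_div_iff₀ (by positivity)]
        linarith
      rw [hc₁, add_mul, one_mul]
      linarith
    have g1 : ((3 : ℝ) ^ J) ≤ 2 * n := by exact_mod_cast hJ1
    have hx0 : (0 : ℝ) < (3 : ℝ) ^ J := by positivity
    have g2 : (((J + 1 : ℕ) : ℝ)) * (9 * (5 * (J + 1)) * (C₀ * ((3 : ℝ) ^ J) ^ (thexp + ε / 3))) ≤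
        9 * 5 * C₀ * c₁ ^ 2 * ((3 : ℝ) ^ J) ^ (thexp + ε) := by
      have k1 : ((3 : ℝ) ^ J) ^ (thexp + ε) = ((3 : ℝ) ^ J) ^ (thexp + ε / 3) *
          (((3 : ℝ) ^ J) ^ (ε / 3) * ((3 : ℝ) ^ J) ^ (ε / 3)) := by
        rw [← Real.rpow_add hx0, ← Real.rpow_add hx0]
        congr 1
        ring
      rw [k1]
      push_cast
      have k2 : ((J : ℝ) + 1) * ((J : ℝ) + 1) ≤
          (c₁ * ((3 : ℝ) ^ J) ^ (ε / 3)) * (c₁ * ((3 : ℝ) ^ J) ^ (ε / 3)) := by gcongr
      calc ((J : ℝ) + 1) * (9 * (5 * (J + 1)) * (C₀ * ((3 : ℝ) ^ J) ^ (thexp + ε / 3)))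
          = 9 * 5 * C₀ * ((3 : ℝ) ^ J) ^ (thexp + ε / 3) * (((J : ℝ) + 1) * ((J : ℝ) + 1)) := by ring
        _ ≤ 9 * 5 * C₀ * ((3 : ℝ) ^ J) ^ (thexp + ε / 3) *
            ((c₁ * ((3 : ℝ) ^ J) ^ (ε / 3)) * (c₁ * ((3 : ℝ) ^ J) ^ (ε / 3))) := by gcongr
        _ = _ := by ring
    have g3 : ((3 : ℝ) ^ J) ^ (thexp + ε) ≤ 2 ^ (thexp + ε) * (n : ℝ) ^ (thexp + ε) := by
      rw [← Real.mul_rpow (by norm_num) (by positivity)]
      exact Real.rpow_le_rpow hx0.le g1 (by linarith)
    have g4 : (1 : ℝ) ≤ (n : ℝ) ^ (thexp + ε) :=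
      Real.one_le_rpow (by exact_mod_cast hn) (by linarith)
    calc _ ≤ _ := e1
      _ ≤ 2 + 9 * 5 * C₀ * c₁ ^ 2 * ((3 : ℝ) ^ J) ^ (thexp + ε) := by linarith
      _ ≤ 2 * (n : ℝ) ^ (thexp + ε) +
          9 * 5 * C₀ * c₁ ^ 2 * (2 ^ (thexp + ε) * (n : ℝ) ^ (thexp + ε)) := by gcongr; linarith
      _ = _ := by ring

/-- **Main theorem.** For every `ε > 0`,
`IR(Q_n) ≥ 6 n - C n ^ (1 - (2/3) (log 2 / log 3) + ε)`; the exponent is `0.5794 + ε`. -/
theorem result_proof (ε : ℝ) (hε : 0 < ε) : ∃ C : ℝ, ∀ n : ℕ, 1 ≤ n →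
    6 * (n : ℝ) - C * (n : ℝ) ^ (1 - 2 / 3 * (Real.log 2 / Real.log 3) + ε) ≤
      (upperIrr (queens n) : ℝ) := by
  obtain ⟨C, hC, h⟩ := exists_good ε hε
  refine ⟨2 + 900 * C, fun n hn => ?_⟩
  obtain ⟨P, h0, h1, hP, hcard⟩ := h n hn
  have hr := reduction P n hn h0 h1 hP
  have hr' : 6 * (n : ℝ) ≤ (upperIrr (queens n) : ℝ) + 2 + 900 * P.card := by exact_mod_cast hr
  have hlog3 : 0 < Real.log 3 := Real.log_pos (by norm_num)
  have hth : 0 ≤ thexp + ε := by
    have : Real.log 2 / Real.log 3 ≤ 1 := by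
      rw [div_le_one hlog3]
      exact Real.log_le_log (by norm_num) (by norm_num)
    unfold thexp
    linarith
  have hone : (1 : ℝ) ≤ (n : ℝ) ^ (thexp + ε) :=
    Real.one_le_rpow (by exact_mod_cast hn) hth
  have e : (1 - 2 / 3 * (Real.log 2 / Real.log 3) + ε) = thexp + ε := rfl
  rw [e]
  nlinarith

end Pool.Agent.Results.MP_e17bc1_co.LowerBound
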