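import Mathlib

/-!
# Products of null-additive sets of reals (second question of the problem)

If `X, Y ⊆ ℝ` are null-additive then `X × Y ⊆ ℝ × ℝ` is null-additive.

Sketch.  Fix a Lebesgue null set `N` of the plane and cover it infinitely often by squares of
finite total measure.  Choose scales `q 0 ∣ q 1 ∣ ...` with `q (n+1) = q n * p n`, where `p n` is a
prime congruent to `1` modulo `2 ^ n` and so large that the squares number `< l n` are coarser than
`1 / q (n+1)`, where `l n` was chosen so that the squares number `≥ l n` have tiny total measure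
compared with `q n`.  Let `J n` be the group of `2 ^ n`-th power residues modulo `p n`; by the
elementary bound `√p` for its Fourier coefficients, `S + J n` fills half of `ZMod (p n)` as soon as
`S` has `8 * 4 ^ n` elements.  The set of reals which are infinitely often close to
`j / q (n+1)` with `j mod p n ∈ J n` is null; as `X` is null-additive, Baire category and the Lebesgue
density theorem show that `X` is a countable union of sets having at most `8 * 4 ^ n` residues
`⌊q (n+1) x⌋ mod p n` for all large `n`.  The same holds for `Y`, and this is enough to see that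
`(X × Y) + N` is null by the Borel-Cantelli lemma.
-/

namespace Pool.Agent.Results.MP_52c2ea_lc.NullAdditiveProduct

section Combinatorics

open Finset
open scoped Pointwise ComplexConjugate

section Fourier

variable {p : ℕ} [Fact p.Prime]

/-- exponential sum of a finite set of residues -/
noncomputable def hat (S : Finset (ZMod p)) (a : ZMod p) : ℂ :=
  ∑ x ∈ S, (ZMod.stdAddChar (x * a) : ℂ)

theorem conj_std (x : ZMod p) : conj (ZMod.stdAddChar x : ℂ) = ZMod.stdAddChar (-x) := by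
  rw [AddChar.map_neg_eq_inv, ← AddChar.inv_apply', AddChar.inv_apply]
  rw [← AddChar.map_neg_eq_conj]

theorem sum_std (b : ZMod p) :
    ∑ x : ZMod p, (ZMod.stdAddChar (b * x) : ℂ) = if b = 0 then (p : ℂ) else 0 := by
  have h := AddChar.sum_mulShift (R := ZMod p) (R' := ℂ) (ψ := ZMod.stdAddChar) b
    (ZMod.isPrimitive_stdAddChar p)
  simp only [mul_comm b]
  rw [h]
  split_ifs <;> simp [ZMod.card]

theorem hat_zero (S : Finset (ZMod p)) : hat S 0 = S.card := by
  simp [hat]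

theorem parseval (S : Finset (ZMod p)) :
    ∑ a : ZMod p, ‖hat S a‖ ^ 2 = (p : ℝ) * S.card := by
  have h : (∑ a : ZMod p, hat S a * conj (hat S a)) = ((p : ℝ) * S.card : ℝ) := by
    have h1 : ∀ a : ZMod p, hat S a * conj (hat S a) =
        ∑ x ∈ S, ∑ y ∈ S, (ZMod.stdAddChar ((x - y) * a) : ℂ) := by
      intro a
      unfold hat
      rw [map_sum, Finset.sum_mul_sum]
      refine Finset.sum_congr rfl fun x _ => Finset.sum_congr rfl fun y _ => ?_
      rw [conj_std, ← AddChar.map_add_eq_mul]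
      congr 1
      ring
    simp_rw [h1]
    rw [Finset.sum_comm]
    have h2 : ∀ x ∈ S, (∑ a : ZMod p, ∑ y ∈ S, (ZMod.stdAddChar ((x - y) * a) : ℂ)) = p := by
      intro x hx
      rw [Finset.sum_comm]
      simp_rw [sum_std, sub_eq_zero]
      rw [Finset.sum_ite_eq]
      simp [hx]
    rw [Finset.sum_congr rfl h2]
    simp [mul_comm]
  have h3 : (∑ a : ZMod p, hat S a * conj (hat S a)) = ((∑ a : ZMod p, ‖hat S a‖ ^ 2 : ℝ) : ℂ) := by
    push_cast
    refine Finset.sum_congr rfl fun a _ => ?_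
    rw [Complex.mul_conj, Complex.normSq_eq_norm_sq]
    push_cast
    rfl
  rw [h3] at h
  exact_mod_cast h

theorem triple_zero (J S Z : Finset (ZMod p)) (hZ : ∀ s ∈ S, ∀ j ∈ J, s + j ∉ Z) :
    ∑ a : ZMod p, hat J a * hat S a * conj (hat Z a) = 0 := by
  have h1 : ∀ a : ZMod p, hat J a * hat S a * conj (hat Z a) =
      ∑ j ∈ J, ∑ s ∈ S, ∑ z ∈ Z, (ZMod.stdAddChar ((j + s - z) * a) : ℂ) := by
    intro a
    unfold hat
    rw [map_sum, Finset.sum_mul_sum, Finset.sum_mul]
    refine Finset.sum_congr rfl fun j _ => ?_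
    rw [Finset.sum_mul]
    refine Finset.sum_congr rfl fun s _ => ?_
    rw [Finset.mul_sum]
    refine Finset.sum_congr rfl fun z _ => ?_
    rw [conj_std, ← AddChar.map_add_eq_mul, ← AddChar.map_add_eq_mul]
    congr 1
    ring
  simp_rw [h1]
  rw [Finset.sum_comm]
  refine Finset.sum_eq_zero fun j hj => ?_
  rw [Finset.sum_comm]
  refine Finset.sum_eq_zero fun s hs => ?_
  rw [Finset.sum_comm]
  refine Finset.sum_eq_zero fun z hz => ?_
  rw [sum_std, if_neg]
  intro h0
  apply hZ s hs j hj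
  have : s + j = z := by
    rw [add_comm]; exact sub_eq_zero.mp h0
  rwa [this]

/-- If the Fourier coefficients of `J` are at most `√p`, then `|J|² |S| |Z| ≤ p³` whenever no
element of `Z` is in `S + J`. -/
theorem mixing (J S Z : Finset (ZMod p)) (hJ : ∀ a : ZMod p, a ≠ 0 → ‖hat J a‖ ^ 2 ≤ p)
    (hZ : ∀ s ∈ S, ∀ j ∈ J, s + j ∉ Z) (hS0 : S.Nonempty) (hZ0 : Z.Nonempty) :
    (J.card : ℝ) ^ 2 * S.card * Z.card ≤ (p : ℝ) ^ 3 := by
  have h0 := triple_zero J S Z hZ
  rw [← Finset.add_sum_erase _ _ (Finset.mem_univ (0 : ZMod p))] at h0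
  simp only [hat_zero] at h0
  have h1 : ((J.card : ℂ) * S.card * conj (Z.card : ℂ)) =
      - ∑ a ∈ Finset.univ.erase (0 : ZMod p), hat J a * hat S a * conj (hat Z a) := by
    linear_combination h0
  have h2 : (J.card : ℝ) * S.card * Z.card ≤
      ∑ a ∈ Finset.univ.erase (0 : ZMod p), ‖hat J a‖ * ‖hat S a‖ * ‖hat Z a‖ := by
    have := congrArg norm h1
    rw [norm_neg] at this
    have h3 : ‖((J.card : ℂ) * S.card * conj (Z.card : ℂ))‖ = (J.card : ℝ) * S.card * Z.card := by
      simp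
    rw [h3] at this
    rw [this]
    refine (norm_sum_le _ _).trans ?_
    refine Finset.sum_le_sum fun a _ => ?_
    simp
  have h4 : ∑ a ∈ Finset.univ.erase (0 : ZMod p), ‖hat J a‖ * ‖hat S a‖ * ‖hat Z a‖ ≤
      Real.sqrt p * ∑ a : ZMod p, ‖hat S a‖ * ‖hat Z a‖ := by
    rw [Finset.mul_sum]
    calc _ ≤ ∑ a ∈ Finset.univ.erase (0 : ZMod p), Real.sqrt p * (‖hat S a‖ * ‖hat Z a‖) := by
          refine Finset.sum_le_sum fun a ha => ?_
          rw [mul_assoc]
          refine mul_le_mul_of_nonneg_right ?_ (by positivity)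
          exact Real.le_sqrt_of_sq_le (hJ a (Finset.ne_of_mem_erase ha))
      _ ≤ _ := Finset.sum_le_sum_of_subset_of_nonneg (Finset.erase_subset _ _)
          (fun _ _ _ => by positivity)
  have h5 : (∑ a : ZMod p, ‖hat S a‖ * ‖hat Z a‖) ^ 2 ≤
      ((p : ℝ) * S.card) * ((p : ℝ) * Z.card) := by
    rw [← parseval S, ← parseval Z]
    exact Finset.sum_mul_sq_le_sq_mul_sq _ _ _
  have h6 : ((J.card : ℝ) * S.card * Z.card) ^ 2 ≤ (p : ℝ) * (((p : ℝ) * S.card) * ((p : ℝ) * Z.card)) := by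
    calc ((J.card : ℝ) * S.card * Z.card) ^ 2
        ≤ (Real.sqrt p * ∑ a : ZMod p, ‖hat S a‖ * ‖hat Z a‖) ^ 2 := by
          refine pow_le_pow_left₀ (by positivity) (h2.trans h4) 2
      _ = (p : ℝ) * (∑ a : ZMod p, ‖hat S a‖ * ‖hat Z a‖) ^ 2 := by
          rw [mul_pow, Real.sq_sqrt (by positivity)]
      _ ≤ _ := mul_le_mul_of_nonneg_left h5 (by positivity)
  have hS : (0 : ℝ) < S.card := by exact_mod_cast hS0.card_pos
  have hZ' : (0 : ℝ) < Z.card := by exact_mod_cast hZ0.card_pos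
  have h7 : ((J.card : ℝ) ^ 2 * S.card * Z.card) * (S.card * Z.card) ≤
      (p : ℝ) ^ 3 * (S.card * Z.card) := by
    calc _ = ((J.card : ℝ) * S.card * Z.card) ^ 2 := by ring
      _ ≤ _ := h6
      _ = _ := by ring
  exact le_of_mul_le_mul_right h7 (by positivity)

end Fourier

theorem residues (k : ℕ) (hk : k ≠ 0) (M : ℕ) :
    ∃ p : ℕ, p.Prime ∧ M < p ∧ ∃ J : Finset (ZMod p), k * J.card ≤ p ∧
      ∀ S : Finset (ZMod p), 8 * k ^ 2 ≤ S.card → p ≤ 2 * (S + J).card := by
  obtain ⟨p, hp, hM, hmod⟩ := Nat.exists_prime_gt_modEq_one M hk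
  refine ⟨p, hp, hM, ?_⟩
  have : Fact p.Prime := ⟨hp⟩
  have hp1 : 1 ≤ p := hp.one_le
  have hdvd : k ∣ p - 1 := (Nat.modEq_iff_dvd' hp1).mp hmod.symm
  obtain ⟨g, hg⟩ := IsCyclic.exists_generator (α := (ZMod p)ˣ)
  have hog : orderOf g = p - 1 := by
    rw [orderOf_eq_card_of_forall_mem_zpowers hg, Nat.card_eq_fintype_card, ZMod.card_units]
  set H : Subgroup (ZMod p)ˣ := Subgroup.zpowers (g ^ k) with hH
  have hcardH : k * Nat.card H = p - 1 := by
    rw [hH, Nat.card_zpowers, orderOf_pow, hog, Nat.gcd_eq_right hdvd, Nat.mul_div_cancel' hdvd]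
  classical
  set J : Finset (ZMod p) := Finset.univ.filter (fun x => ∃ h ∈ H, ((h : (ZMod p)ˣ) : ZMod p) = x)
    with hJ
  have hcardJ : J.card = Nat.card H := by
    have : J = Finset.image (fun h : H => (((h : (ZMod p)ˣ)) : ZMod p)) Finset.univ := by
      ext x
      simp [hJ]
    rw [this, Finset.card_image_of_injective, Finset.card_univ, Nat.card_eq_fintype_card]
    intro a b hab
    exact Subtype.ext (Units.ext hab)
  have hkJ : k * J.card = p - 1 := by rw [hcardJ, hcardH]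
  refine ⟨J, by omega, ?_⟩
  intro S hS
  -- Fourier bound
  have hFinv : ∀ h ∈ H, ∀ a : ZMod p, hat J ((h : (ZMod p)ˣ) * a) = hat J a := by
    intro h hh a
    unfold hat
    refine Finset.sum_bij' (fun x _ => x * ((h : (ZMod p)ˣ) : ZMod p))
      (fun x _ => x * ((h⁻¹ : (ZMod p)ˣ) : ZMod p)) ?_ ?_ ?_ ?_ ?_
    · intro x hx
      simp only [hJ, Finset.mem_filter, Finset.mem_univ, true_and] at hx ⊢
      obtain ⟨y, hy, rfl⟩ := hx
      exact ⟨y * h, H.mul_mem hy hh, Units.val_mul _ _⟩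
    · intro x hx
      simp only [hJ, Finset.mem_filter, Finset.mem_univ, true_and] at hx ⊢
      obtain ⟨y, hy, rfl⟩ := hx
      exact ⟨y * h⁻¹, H.mul_mem hy (H.inv_mem hh), Units.val_mul _ _⟩
    · intro x _
      rw [mul_assoc, Units.mul_inv, mul_one]
    · intro x _
      rw [mul_assoc, Units.inv_mul, mul_one]
    · intro x _
      rw [mul_assoc]
  have hbound : ∀ a : ZMod p, a ≠ 0 → ‖hat J a‖ ^ 2 ≤ p := by
    intro a ha
    have hinj : Function.Injective (fun h : H => ((h : (ZMod p)ˣ) : ZMod p) * a) := by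
      intro x y hxy
      exact Subtype.ext (Units.ext (mul_right_cancel₀ ha hxy))
    have h1 : (Nat.card H : ℝ) * ‖hat J a‖ ^ 2 ≤ (p : ℝ) * J.card := by
      rw [← parseval J]
      calc (Nat.card H : ℝ) * ‖hat J a‖ ^ 2
          = ∑ h : H, ‖hat J (((h : (ZMod p)ˣ) : ZMod p) * a)‖ ^ 2 := by
            rw [Finset.sum_congr rfl (fun h _ => by rw [hFinv h.1 h.2 a])]
            simp [Nat.card_eq_fintype_card]
        _ = ∑ b ∈ Finset.image (fun h : H => ((h : (ZMod p)ˣ) : ZMod p) * a) Finset.univ,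
              ‖hat J b‖ ^ 2 := by
            rw [Finset.sum_image]
            intro x _ y _ hxy
            exact hinj hxy
        _ ≤ ∑ b : ZMod p, ‖hat J b‖ ^ 2 :=
            Finset.sum_le_sum_of_subset_of_nonneg (Finset.subset_univ _)
              (fun _ _ _ => by positivity)
    rw [hcardJ] at h1
    have hHpos : (0 : ℝ) < Nat.card H := by
      exact_mod_cast Nat.card_pos
    have h2 : (Nat.card H : ℝ) * ‖hat J a‖ ^ 2 ≤ (Nat.card H : ℝ) * p := by
      linarith
    exact le_of_mul_le_mul_left h2 hHpos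
  -- the complement of `S + J`
  set Z : Finset (ZMod p) := (S + J)ᶜ with hZ
  have hcardZ : Z.card + (S + J).card = p := by
    rw [hZ, Finset.card_compl_add_card, ZMod.card]
  by_cases hZ0 : Z.Nonempty
  · have hS0 : S.Nonempty := by
      rw [← Finset.card_pos]
      have : 0 < 8 * k ^ 2 := by positivity
      omega
    have hmix := mixing J S Z hbound (by
      intro s hs j hj hmem
      rw [hZ, Finset.mem_compl] at hmem
      exact hmem (Finset.add_mem_add hs hj)) hS0 hZ0
    have hp2 : (p : ℝ) ≤ 2 * (k * J.card) := by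
      have h2p : 2 ≤ p := hp.two_le
      have : p ≤ 2 * (k * J.card) := by rw [hkJ]; omega
      exact_mod_cast this
    have hSr : (8 : ℝ) * k ^ 2 ≤ S.card := by exact_mod_cast hS
    have hppos : (0 : ℝ) < p := by exact_mod_cast hp.pos
    have hkpos : (0 : ℝ) < k := by exact_mod_cast Nat.pos_of_ne_zero hk
    -- p² · 8k² |Z| ≤ 4k² |J|² |S| |Z| ≤ 4 k² p³
    have h3 : (p : ℝ) ^ 2 * (8 * k ^ 2 * Z.card) ≤ 4 * k ^ 2 * (p : ℝ) ^ 3 := by
      calc (p : ℝ) ^ 2 * (8 * k ^ 2 * Z.card)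
          ≤ (2 * (k * J.card)) ^ 2 * (S.card * Z.card) := by
            apply mul_le_mul
            · exact pow_le_pow_left₀ hppos.le hp2 2
            · exact mul_le_mul_of_nonneg_right hSr (by positivity)
            · positivity
            · positivity
        _ = 4 * k ^ 2 * ((J.card : ℝ) ^ 2 * S.card * Z.card) := by ring
        _ ≤ _ := mul_le_mul_of_nonneg_left hmix (by positivity)
    have h4 : (2 : ℝ) * Z.card ≤ p := by
      have h5 : (4 * (k : ℝ) ^ 2 * (p : ℝ) ^ 2) * (2 * Z.card) ≤ (4 * (k : ℝ) ^ 2 * (p : ℝ) ^ 2) * p := by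
        nlinarith [h3]
      exact le_of_mul_le_mul_left h5 (by positivity)
    have h5 : 2 * Z.card ≤ p := by exact_mod_cast h4
    omega
  · rw [Finset.not_nonempty_iff_eq_empty] at hZ0
    rw [hZ0] at hcardZ
    simp at hcardZ
    omega

end Combinatorics

open MeasureTheory Set Filter Topology
open scoped ENNReal Pointwise

theorem volume_closedBall_prod (z : ℝ × ℝ) (r : ℝ) :
    volume (Metric.closedBall z r) = ENNReal.ofReal (2 * r) * ENNReal.ofReal (2 * r) := by
  obtain ⟨x, y⟩ := z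
  rw [← closedBall_prod_same, Measure.volume_eq_prod, Measure.prod_prod, Real.volume_closedBall,
    Real.volume_closedBall]

/-- A null set of the plane is covered infinitely often by a sequence of squares of finite total
measure. -/
theorem cover_null (N : Set (ℝ × ℝ)) (hN : volume N = 0) (hne : N.Nonempty) :
    ∃ (c : ℕ → ℝ × ℝ) (r : ℕ → ℝ), (∀ l, 0 < r l) ∧
      (∑' l, volume (Metric.closedBall (c l) (r l)) ≠ ∞) ∧
      ∀ z ∈ N, ∃ᶠ l in atTop, z ∈ Metric.closedBall (c l) (r l) := by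
  obtain ⟨ε, hε, hεs⟩ := ENNReal.exists_pos_sum_of_countable' (ε := 1) one_ne_zero ℕ
  have key : ∀ k : ℕ, ∃ (t : Set (ℝ × ℝ)) (r : ℝ × ℝ → ℝ), t.Countable ∧ t ⊆ N ∧
      (∀ x ∈ t, r x ∈ Ioi (0 : ℝ)) ∧ (N ⊆ ⋃ x ∈ t, Metric.closedBall x (r x)) ∧
      ∑' (x : ↑t), volume (Metric.closedBall (↑x : ℝ × ℝ) (r ↑x)) ≤ volume N + ε k := by
    intro k
    refine Besicovitch.exists_closedBall_covering_tsum_measure_le volume (hε k).ne'
      (fun _ => Ioi 0) N ?_
    intro x _ δ hδ
    exact ⟨δ / 2, by simp only [mem_Ioi]; linarith, by constructor <;> linarith⟩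
  choose t r htc htN hr hcov hsum using key
  have hcount : ∀ k, Countable (t k) := fun k => (htc k).to_subtype
  obtain ⟨z0, hz0⟩ := hne
  have hex : ∀ z ∈ N, ∀ k, ∃ x : t k, z ∈ Metric.closedBall (x : ℝ × ℝ) (r k x) := by
    intro z hz k
    have := hcov k hz
    simp only [mem_iUnion] at this
    obtain ⟨x, hx, hzx⟩ := this
    exact ⟨⟨x, hx⟩, hzx⟩
  have hinf : Infinite (Σ k, t k) := by
    choose x hx using hex z0 hz0
    exact Infinite.of_injective (fun k => (⟨k, x k⟩ : Σ k, t k)) (fun a b hab => by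
      simpa using congrArg Sigma.fst hab)
  obtain ⟨hd⟩ := nonempty_denumerable (Σ k, t k)
  let e : (Σ k, t k) ≃ ℕ := Denumerable.eqv _
  refine ⟨fun l => ((e.symm l).2 : ℝ × ℝ), fun l => r (e.symm l).1 (e.symm l).2, ?_, ?_, ?_⟩
  · intro l
    exact hr _ _ (e.symm l).2.2
  · rw [e.symm.tsum_eq (fun i : Σ k, t k => volume (Metric.closedBall (i.2 : ℝ × ℝ) (r i.1 i.2)))]
    rw [ENNReal.tsum_sigma (fun k (x : t k) => volume (Metric.closedBall (x : ℝ × ℝ) (r k x)))]
    have h1 : ∑' k, ∑' (x : t k), volume (Metric.closedBall (x : ℝ × ℝ) (r k x)) ≤ ∑' k, ε k := by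
      refine ENNReal.tsum_le_tsum fun k => ?_
      simpa [hN] using hsum k
    exact ((h1.trans_lt hεs).trans ENNReal.one_lt_top).ne
  · intro z hz
    rw [Nat.frequently_atTop_iff_infinite]
    choose x hx using hex z hz
    have : Set.range (fun k => e ⟨k, x k⟩) ⊆
        {l | z ∈ Metric.closedBall ((e.symm l).2 : ℝ × ℝ) (r (e.symm l).1 (e.symm l).2)} := by
      rintro _ ⟨k, rfl⟩
      change z ∈ Metric.closedBall ((e.symm (e ⟨k, x k⟩)).2 : ℝ × ℝ)
        (r (e.symm (e ⟨k, x k⟩)).1 (e.symm (e ⟨k, x k⟩)).2)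
      rw [e.symm_apply_apply]
      exact hx k
    refine Set.Infinite.mono this ?_
    refine Set.infinite_range_of_injective ?_
    intro a b hab
    have := e.injective hab
    simpa using congrArg Sigma.fst this

section residue

set_option linter.unusedSectionVars false

variable (q p : ℕ) [NeZero p]

/-- the residue modulo `p` of `⌊q p z⌋` -/
noncomputable def res (z : ℝ) : ZMod p := ((⌊((q * p : ℕ) : ℝ) * z⌋ : ℤ) : ZMod p)

theorem inter_res_eq (hq : 0 < q) (a : ℤ) (C : Finset (ZMod p)) :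
    Ico ((a : ℝ) / q) ((a + 1) / q) ∩ {z | res q p z ∈ C} =
      ⋃ c ∈ C, Ico (((a * p + (c.val : ℤ) : ℤ) : ℝ) / (q * p : ℕ))
        (((a * p + (c.val : ℤ) : ℤ) + 1 : ℝ) / (q * p : ℕ)) := by
  have hp : 0 < p := Nat.pos_of_ne_zero (NeZero.ne p)
  have hqR : (0 : ℝ) < q := by exact_mod_cast hq
  have hpR : (0 : ℝ) < p := by exact_mod_cast hp
  ext z
  simp only [mem_inter_iff, mem_Ico, mem_ofPred_eq, mem_iUnion, exists_prop, res]
  constructor
  · rintro ⟨⟨h1, h2⟩, h3⟩
    rw [div_le_iff₀ hqR] at h1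
    rw [lt_div_iff₀ hqR] at h2
    refine ⟨_, h3, ?_⟩
    set i : ℤ := ⌊((q * p : ℕ) : ℝ) * z⌋ with hi
    have hi1 : (i : ℝ) ≤ ((q * p : ℕ) : ℝ) * z := Int.floor_le _
    have hi2 : ((q * p : ℕ) : ℝ) * z < i + 1 := Int.lt_floor_add_one _
    push_cast at hi1 hi2
    have hlow : a * p ≤ i := by
      rw [hi, Int.le_floor]
      push_cast
      nlinarith
    have hhigh : i < a * p + p := by
      rw [hi, Int.floor_lt]
      push_cast
      nlinarith
    have hval : ((((i : ℤ) : ZMod p).val : ℕ) : ℤ) = i - a * p := by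
      rw [ZMod.val_intCast]
      have : i % (p : ℤ) = (i - a * p) % (p : ℤ) := by
        rw [Int.sub_mul_emod_self_right]
      rw [this]
      exact Int.emod_eq_of_lt (by linarith) (by linarith)
    rw [hval]
    have hqp : (0 : ℝ) < (q * p : ℕ) := by push_cast; positivity
    rw [div_le_iff₀ hqp, lt_div_iff₀ hqp]
    push_cast
    constructor
    · linarith
    · linarith
  · rintro ⟨c, hc, h1, h2⟩
    have hqp : (0 : ℝ) < (q * p : ℕ) := by push_cast; positivity
    rw [div_le_iff₀ hqp] at h1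
    rw [lt_div_iff₀ hqp] at h2
    have hfl : ⌊((q * p : ℕ) : ℝ) * z⌋ = a * p + (c.val : ℤ) := by
      rw [Int.floor_eq_iff]
      constructor
      · linarith
      · linarith
    have hcv : (c.val : ℝ) + 1 ≤ p := by exact_mod_cast ZMod.val_lt c
    refine ⟨⟨?_, ?_⟩, ?_⟩
    · rw [div_le_iff₀ hqR]
      push_cast at h1
      have h0 : (0 : ℝ) ≤ c.val := by positivity
      have : (a : ℝ) * p ≤ (z * q) * p := by nlinarith
      exact le_of_mul_le_mul_right this hpR
    · rw [lt_div_iff₀ hqR]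
      push_cast at h2
      have : (z * q) * p < ((a : ℝ) + 1) * p := by nlinarith
      exact lt_of_mul_lt_mul_right this hpR.le
    · rw [hfl]
      push_cast
      rw [ZMod.natCast_self, mul_zero, zero_add]
      rw [ZMod.natCast_zmod_val]
      exact hc

theorem volume_inter_res (hq : 0 < q) (a : ℤ) (C : Finset (ZMod p)) :
    volume (Ico ((a : ℝ) / q) ((a + 1) / q) ∩ {z | res q p z ∈ C}) =
      C.card * ENNReal.ofReal (1 / (q * p : ℕ)) := by
  have hp : 0 < p := Nat.pos_of_ne_zero (NeZero.ne p)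
  have hqp : (0 : ℝ) < (q * p : ℕ) := by
    have : 0 < q * p := Nat.mul_pos hq hp
    exact_mod_cast this
  rw [inter_res_eq q p hq a C, measure_biUnion_finset]
  · have : ∀ c ∈ C, volume (Ico (((a * p + (c.val : ℤ) : ℤ) : ℝ) / (q * p : ℕ))
        (((a * p + (c.val : ℤ) : ℤ) + 1 : ℝ) / (q * p : ℕ))) = ENNReal.ofReal (1 / (q * p : ℕ)) := by
      intro c _
      rw [Real.volume_Ico]
      congr 1
      field_simp
      ring
    rw [Finset.sum_congr rfl this, Finset.sum_const, nsmul_eq_mul]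
  · intro c _ d _ hcd
    rw [Function.onFun, Set.disjoint_left]
    intro z hz1 hz2
    simp only [mem_Ico] at hz1 hz2
    rw [div_le_iff₀ hqp, lt_div_iff₀ hqp] at hz1 hz2
    apply hcd
    have h1 : ⌊z * ((q * p : ℕ) : ℝ)⌋ = a * p + (c.val : ℤ) := by
      rw [Int.floor_eq_iff]; exact ⟨hz1.1, hz1.2⟩
    have h2 : ⌊z * ((q * p : ℕ) : ℝ)⌋ = a * p + (d.val : ℤ) := by
      rw [Int.floor_eq_iff]; exact ⟨hz2.1, hz2.2⟩
    have h3 : (c.val : ℤ) = d.val := by
      have := h1.symm.trans h2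
      linarith
    exact ZMod.val_injective p (by exact_mod_cast h3)
  · intro c _
    exact measurableSet_Ico

theorem measurableSet_res (C : Finset (ZMod p)) : MeasurableSet {z | res q p z ∈ C} := by
  have : {z | res q p z ∈ C} = (fun z : ℝ => ⌊((q * p : ℕ) : ℝ) * z⌋) ⁻¹' {i : ℤ | (i : ZMod p) ∈ C} := by
    ext z; simp [res]
  rw [this]
  exact (Int.measurable_floor.comp (measurable_const_mul _)) (MeasurableSet.of_discrete)

/-- measure of a residue set in a unit interval -/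
theorem volume_unit_res_le (hq : 0 < q) (k : ℤ) (C : Finset (ZMod p)) :
    volume (Ico (k : ℝ) (k + 1) ∩ {z | res q p z ∈ C}) ≤ ENNReal.ofReal (C.card / p) := by
  have hp : 0 < p := Nat.pos_of_ne_zero (NeZero.ne p)
  have hqR : (0 : ℝ) < q := by exact_mod_cast hq
  have hpR : (0 : ℝ) < p := by exact_mod_cast hp
  have hsub : Ico (k : ℝ) (k + 1) ∩ {z | res q p z ∈ C} ⊆
      ⋃ i ∈ Finset.range q, (Ico (((k * q + i : ℤ) : ℝ) / q) (((k * q + i : ℤ) + 1 : ℝ) / q) ∩
        {z | res q p z ∈ C}) := by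
    rintro z ⟨⟨hz1, hz2⟩, hz3⟩
    have hf1 : k * q ≤ ⌊z * q⌋ := by
      rw [Int.le_floor]; push_cast; nlinarith
    have hf2 : ⌊z * q⌋ < k * q + q := by
      rw [Int.floor_lt]; push_cast; nlinarith
    obtain ⟨i, hi⟩ := Int.eq_ofNat_of_zero_le (sub_nonneg.mpr hf1)
    simp only [mem_iUnion]
    refine ⟨i, Finset.mem_range.mpr (by omega), ⟨?_, hz3⟩⟩
    have hfl : ⌊z * q⌋ = k * q + i := by linarith
    rw [mem_Ico, div_le_iff₀ hqR, lt_div_iff₀ hqR, ← hfl]
    exact ⟨Int.floor_le _, Int.lt_floor_add_one _⟩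
  refine (measure_mono hsub).trans ((measure_biUnion_finset_le _ _).trans ?_)
  rw [Finset.sum_congr rfl (fun i _ => volume_inter_res q p hq _ C)]
  rw [Finset.sum_const, Finset.card_range, nsmul_eq_mul, ← mul_assoc,
    ← ENNReal.ofReal_natCast q, ← ENNReal.ofReal_natCast C.card, ← ENNReal.ofReal_mul (by positivity),
    ← ENNReal.ofReal_mul (by positivity)]
  refine le_of_eq (congrArg _ ?_)
  push_cast
  field_simp

/-- the open set of points within `1/(q p)` of a multiple `j/(q p)` with `j mod p ∈ J` -/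
def nbhd (J : Finset (ZMod p)) : Set ℝ :=
  {z | ∃ j : ℤ, (j : ZMod p) ∈ J ∧ |((q * p : ℕ) : ℝ) * z - j| < 1}

theorem isOpen_nbhd (J : Finset (ZMod p)) : IsOpen (nbhd q p J) := by
  have : nbhd q p J = ⋃ j ∈ {j : ℤ | (j : ZMod p) ∈ J},
      {z : ℝ | |((q * p : ℕ) : ℝ) * z - j| < 1} := by
    ext z
    simp [nbhd]
  rw [this]
  refine isOpen_biUnion fun j _ => ?_
  exact isOpen_lt (by fun_prop) continuous_const

theorem nbhd_subset (J : Finset (ZMod p)) :
    nbhd q p J ⊆ {z | res q p z ∈ J ∪ J.image (fun x => x - 1)} := by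
  rintro z ⟨j, hj, hz⟩
  rw [abs_lt] at hz
  have h1 : ⌊((q * p : ℕ) : ℝ) * z⌋ < j + 1 := by
    rw [Int.floor_lt]; push_cast at hz ⊢; linarith
  have h2 : j - 1 ≤ ⌊((q * p : ℕ) : ℝ) * z⌋ := by
    rw [Int.le_floor]; push_cast at hz ⊢; linarith
  have h3 : ⌊((q * p : ℕ) : ℝ) * z⌋ = j ∨ ⌊((q * p : ℕ) : ℝ) * z⌋ = j - 1 := by omega
  simp only [mem_ofPred_eq, res, Finset.mem_union, Finset.mem_image]
  rcases h3 with h3 | h3
  · left; rw [h3]; exact hj
  · right; rw [h3]; exact ⟨_, hj, by push_cast; rfl⟩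

/-- translating the neighbourhood covers the residue set of the sum -/
theorem res_add_mem (J : Finset (ZMod p)) (x w : ℝ) (j : ZMod p) (hj : j ∈ J)
    (h : res q p w = res q p x + j) : w - x ∈ nbhd q p J := by
  unfold res at h
  set iw := ⌊((q * p : ℕ) : ℝ) * w⌋ with hiw
  set ix := ⌊((q * p : ℕ) : ℝ) * x⌋ with hix
  refine ⟨iw - ix, ?_, ?_⟩
  · push_cast
    rw [h]
    simpa using hj
  · have h1 := Int.floor_le (((q * p : ℕ) : ℝ) * w)
    have h2 := Int.lt_floor_add_one (((q * p : ℕ) : ℝ) * w)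
    have h3 := Int.floor_le (((q * p : ℕ) : ℝ) * x)
    have h4 := Int.lt_floor_add_one (((q * p : ℕ) : ℝ) * x)
    rw [abs_lt]
    rw [← hiw] at h1 h2
    rw [← hix] at h3 h4
    push_cast at *
    constructor <;> nlinarith

end residue

/-- inner approximation of the complement of a null set by a compact set all of whose nonempty
relatively open parts have positive measure -/
theorem exists_compact_support (E : Set ℝ) (hE : volume E = 0) :
    ∃ K : Set ℝ, IsCompact K ∧ K.Nonempty ∧ Disjoint K E ∧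
      ∀ U : Set ℝ, IsOpen U → (K ∩ U).Nonempty → 0 < volume (K ∩ U) := by
  set E' := toMeasurable volume E with hE'
  have hE'0 : volume E' = 0 := by rw [hE', measure_toMeasurable, hE]
  have hpos : 0 < volume (Icc (0 : ℝ) 1 \ E') := by
    rw [measure_sdiff_null hE'0]
    simp
  obtain ⟨K₀, hK₀sub, hK₀, hK₀pos⟩ :=
    (measurableSet_Icc.diff (measurableSet_toMeasurable volume E)).exists_lt_isCompact hpos
  set R : Set ℝ := ⋃ b ∈ {b ∈ TopologicalSpace.countableBasis ℝ | volume (K₀ ∩ b) = 0}, b with hR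
  have hRopen : IsOpen R := by
    refine isOpen_biUnion fun b hb => ?_
    exact (TopologicalSpace.isBasis_countableBasis ℝ).isOpen hb.1
  have hRnull : volume (K₀ ∩ R) = 0 := by
    rw [hR, inter_iUnion₂]
    rw [measure_biUnion_null_iff]
    · intro b hb
      exact hb.2
    · exact (TopologicalSpace.countable_countableBasis ℝ).mono (fun b hb => hb.1)
  have hKpos : 0 < volume (K₀ \ R) := by
    rw [← sdiff_inter_self_eq_sdiff, inter_comm, measure_sdiff_null hRnull]
    exact hK₀pos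
  refine ⟨K₀ \ R, hK₀.diff hRopen, nonempty_of_measure_ne_zero hKpos.ne', ?_, ?_⟩
  · rw [Set.disjoint_left]
    intro x hx hxE
    exact (hK₀sub hx.1).2 (subset_toMeasurable volume E hxE)
  · rintro U hU ⟨x, ⟨hx1, hx2⟩, hxU⟩
    obtain ⟨b, hb, hxb, hbU⟩ :=
      (TopologicalSpace.isBasis_countableBasis ℝ).exists_subset_of_mem_open hxU hU
    rw [pos_iff_ne_zero]
    intro h0
    apply hx2
    rw [hR]
    simp only [mem_iUnion]
    refine ⟨b, ⟨hb, ?_⟩, hxb⟩
    have : K₀ ∩ b ⊆ (K₀ ∩ R) ∪ ((K₀ \ R) ∩ U) := by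
      rintro y ⟨hy1, hy2⟩
      by_cases hyR : y ∈ R
      · exact Or.inl ⟨hy1, hyR⟩
      · exact Or.inr ⟨⟨hy1, hyR⟩, hbU hy2⟩
    exact measure_mono_null this (measure_union_null hRnull h0)

theorem null_limsup (q p : ℕ → ℕ) [∀ n, NeZero (p n)] (hq : ∀ n, 0 < q n)
    (J : ∀ n, Finset (ZMod (p n))) (hJ : ∀ n, 2 ^ n * (J n).card ≤ p n) :
    volume {z : ℝ | ∃ᶠ n in atTop, z ∈ nbhd (q n) (p n) (J n)} = 0 := by
  have hcov : {z : ℝ | ∃ᶠ n in atTop, z ∈ nbhd (q n) (p n) (J n)} ⊆
      ⋃ k : ℤ, {z : ℝ | ∃ᶠ n in atTop, z ∈ Ico (k : ℝ) (k + 1) ∩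
        {z | res (q n) (p n) z ∈ J n ∪ (J n).image (fun x => x - 1)}} := by
    intro z hz
    simp only [mem_iUnion]
    refine ⟨⌊z⌋, ?_⟩
    refine Frequently.mono hz fun n hn => ?_
    exact ⟨⟨Int.floor_le z, Int.lt_floor_add_one z⟩, nbhd_subset _ _ _ hn⟩
  refine measure_mono_null hcov (measure_iUnion_null fun k => ?_)
  refine measure_setOfPred_frequently_eq_zero ?_
  have hb : ∀ n, volume (Ico (k : ℝ) (k + 1) ∩
        {z | res (q n) (p n) z ∈ J n ∪ (J n).image (fun x => x - 1)}) ≤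
        ENNReal.ofReal (2 * (1 / 2) ^ n) := by
    intro n
    refine (volume_unit_res_le (q n) (p n) (hq n) k _).trans (ENNReal.ofReal_le_ofReal ?_)
    have hp : 0 < p n := Nat.pos_of_ne_zero (NeZero.ne (p n))
    have hpR : (0 : ℝ) < p n := by exact_mod_cast hp
    have hc : (J n ∪ (J n).image (fun x => x - 1)).card ≤ 2 * (J n).card := by
      refine (Finset.card_union_le _ _).trans ?_
      have := Finset.card_image_le (s := J n) (f := fun x => x - 1)
      omega
    have hcR : ((J n ∪ (J n).image (fun x => x - 1)).card : ℝ) ≤ 2 * (J n).card := by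
      exact_mod_cast hc
    have hJR : (2 : ℝ) ^ n * (J n).card ≤ p n := by exact_mod_cast hJ n
    rw [div_le_iff₀ hpR]
    calc ((J n ∪ (J n).image (fun x => x - 1)).card : ℝ) ≤ 2 * (J n).card := hcR
      _ = 2 * (1 / 2) ^ n * (2 ^ n * (J n).card) := by
          rw [one_div, inv_pow]; field_simp
      _ ≤ 2 * (1 / 2) ^ n * p n := by
          exact mul_le_mul_of_nonneg_left hJR (by positivity)
  have hle : ∑' n, volume (Ico (k : ℝ) (k + 1) ∩
        {z | res (q n) (p n) z ∈ J n ∪ (J n).image (fun x => x - 1)}) ≤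
        ∑' n, ENNReal.ofReal (2 * (1 / 2) ^ n) := ENNReal.tsum_le_tsum hb
  have hfin : ∑' n : ℕ, ENNReal.ofReal (2 * (1 / 2) ^ n) ≠ ∞ := by
    rw [← ENNReal.ofReal_tsum_of_nonneg]
    · exact ENNReal.ofReal_ne_top
    · intro n; positivity
    · exact (summable_geometric_two).mul_left 2
  exact ne_top_of_le_ne_top hfin hle

/-- The key lemma: a null-additive set is a countable union of sets with few residues at all
large levels. -/
theorem slalom {X : Set ℝ} (hX : ∀ N : Set ℝ, volume N = 0 → volume (X + N) = 0)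
    (q p : ℕ → ℕ) [∀ n, NeZero (p n)] (hq : ∀ n, 0 < q n)
    (hqt : Tendsto (fun n => (q n : ℝ)) atTop atTop)
    (J : ∀ n, Finset (ZMod (p n))) (h : ℕ → ℕ)
    (hJ : ∀ n, 2 ^ n * (J n).card ≤ p n)
    (hS : ∀ n, ∀ S : Finset (ZMod (p n)), h n ≤ S.card → p n ≤ 2 * (S + J n).card) :
    ∃ (ι : Type) (_ : Countable ι) (Y : ι → Set ℝ), X = ⋃ i, Y i ∧
      ∀ i, ∃ n0, ∀ n ≥ n0, ∃ F : Finset (ZMod (p n)), F.card < h n ∧
        ∀ x ∈ Y i, res (q n) (p n) x ∈ F := by
  classical
  set N : Set ℝ := {z : ℝ | ∃ᶠ n in atTop, z ∈ nbhd (q n) (p n) (J n)} with hN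
  obtain ⟨K, hKc, hKne, hKd, hKpos⟩ := exists_compact_support (X + N) (hX N (null_limsup q p hq J hJ))
  -- index set
  let B := TopologicalSpace.countableBasis ℝ
  have hBc : Countable B := (TopologicalSpace.countable_countableBasis ℝ).to_subtype
  let Y : ℕ × B → Set ℝ := fun i => {x | x ∈ X ∧ (K ∩ i.2).Nonempty ∧
    ∀ w ∈ K ∩ i.2, ∀ n ≥ i.1, w - x ∉ nbhd (q n) (p n) (J n)}
  refine ⟨ℕ × B, inferInstance, Y, ?_, ?_⟩
  · refine Subset.antisymm ?_ (iUnion_subset fun i x hx => hx.1)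
    intro x hx
    -- Baire category in `K`
    have hKcs : CompactSpace K := isCompact_iff_compactSpace.mp hKc
    have hKne' : Nonempty K := hKne.to_subtype
    let C : ℕ → Set K := fun m => {w | ∀ n ≥ m, (w : ℝ) - x ∉ nbhd (q n) (p n) (J n)}
    have hC : ∀ m, IsClosed (C m) := by
      intro m
      have : C m = ⋂ n ∈ {n | n ≥ m}, {w : K | (w : ℝ) - x ∉ nbhd (q n) (p n) (J n)} := by
        ext w; simp [C]
      rw [this]
      refine isClosed_biInter fun n _ => ?_
      have : {w : K | (w : ℝ) - x ∉ nbhd (q n) (p n) (J n)} =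
          ((fun w : K => (w : ℝ) - x) ⁻¹' (nbhd (q n) (p n) (J n)))ᶜ := rfl
      rw [this, isClosed_compl_iff]
      exact (isOpen_nbhd _ _ _).preimage (by fun_prop)
    have hCu : ⋃ m, C m = univ := by
      rw [eq_univ_iff_forall]
      intro w
      by_contra hcon
      simp only [mem_iUnion, not_exists] at hcon
      have hw : (w : ℝ) - x ∈ N := by
        rw [hN]
        change ∃ᶠ n in atTop, (w : ℝ) - x ∈ nbhd (q n) (p n) (J n)
        rw [frequently_atTop]
        intro m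
        by_contra hcon2
        push Not at hcon2
        exact hcon m (fun n hn => hcon2 n hn)
      have : (w : ℝ) ∈ X + N := by
        rw [Set.mem_add]
        exact ⟨x, hx, w - x, hw, by ring⟩
      exact (Set.disjoint_left.mp hKd) w.2 this
    obtain ⟨m, w, hw⟩ := nonempty_interior_of_iUnion_of_closed hC hCu
    rw [mem_interior] at hw
    obtain ⟨V, hVC, hVo, hwV⟩ := hw
    obtain ⟨U, hU, rfl⟩ := isOpen_induced_iff.mp hVo
    obtain ⟨b, hb, hwb, hbU⟩ :=
      (TopologicalSpace.isBasis_countableBasis ℝ).exists_subset_of_mem_open hwV hU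
    simp only [mem_iUnion]
    refine ⟨(m, ⟨b, hb⟩), hx, ⟨w, w.2, hwb⟩, ?_⟩
    rintro v ⟨hvK, hvb⟩ n hn
    exact hVC (show (⟨v, hvK⟩ : K) ∈ Subtype.val ⁻¹' U from hbU hvb) n hn
  · rintro ⟨m, b, hb⟩
    by_contra hcon
    push Not at hcon
    set T : Set ℝ := K ∩ b with hT
    by_cases hTne : T.Nonempty
    swap
    · obtain ⟨n, _, hn⟩ := hcon 0
      obtain ⟨x, hx, _⟩ := hn ∅ (by
        by_contra h0
        -- `h n = 0` is impossible
        have h1 : h n ≤ (∅ : Finset (ZMod (p n))).card := by simpa using h0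
        have h2 := hS n ∅ h1
        have h3 : 0 < p n := Nat.pos_of_ne_zero (NeZero.ne (p n))
        simp at h2
        omega)
      exact hTne hx.2.1
    have hTpos : 0 < volume T :=
      hKpos b ((TopologicalSpace.isBasis_countableBasis ℝ).isOpen hb) hTne
    have hdens := IsUnifLocDoublingMeasure.ae_tendsto_measure_inter_div (volume : Measure ℝ) T 1
    have hne : (ae (volume.restrict T)).NeBot := by
      rw [ae_neBot]
      intro h0
      rw [Measure.restrict_eq_zero] at h0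
      exact hTpos.ne' h0
    obtain ⟨w, hw⟩ := hdens.exists
    have hqR : ∀ n, (0 : ℝ) < q n := fun n => by exact_mod_cast hq n
    have hlim := hw (l := atTop) (fun n : ℕ => ((⌊(q n : ℝ) * w⌋ : ℝ) + 1 / 2) / q n)
      (fun n : ℕ => 1 / (2 * (q n : ℝ))) (by
        rw [tendsto_nhdsWithin_iff]
        refine ⟨?_, Eventually.of_forall fun n => ?_⟩
        · have h1 : Tendsto (fun n => 2 * (q n : ℝ)) atTop atTop :=
            hqt.const_mul_atTop (by norm_num)
          refine h1.inv_tendsto_atTop.congr fun n => ?_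
          simp
        · have := hqR n
          simp only [mem_Ioi]
          positivity) (by
        refine Eventually.of_forall fun n => ?_
        have hn := hqR n
        rw [Metric.mem_closedBall, Real.dist_eq, one_mul]
        have h1 := Int.floor_le ((q n : ℝ) * w)
        have h2 := Int.lt_floor_add_one ((q n : ℝ) * w)
        have h3 : w - ((⌊(q n : ℝ) * w⌋ : ℝ) + 1 / 2) / q n =
            ((q n : ℝ) * w - ⌊(q n : ℝ) * w⌋ - 1 / 2) / q n := by
          field_simp
          ring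
        rw [h3, abs_div, abs_of_pos hn, div_le_div_iff₀ hn (by positivity)]
        have h4 : |(q n : ℝ) * w - ⌊(q n : ℝ) * w⌋ - 1 / 2| ≤ 1 / 2 := by
          rw [abs_le]; constructor <;> linarith
        nlinarith)
    have hev : ∀ᶠ n in atTop, (1 / 2 : ℝ≥0∞) <
        volume (T ∩ Metric.closedBall (((⌊(q n : ℝ) * w⌋ : ℝ) + 1 / 2) / q n) (1 / (2 * (q n : ℝ)))) /
        volume (Metric.closedBall (((⌊(q n : ℝ) * w⌋ : ℝ) + 1 / 2) / q n) (1 / (2 * (q n : ℝ)))) := by
      refine hlim.eventually (lt_mem_nhds ?_)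
      exact ENNReal.half_lt_self one_ne_zero ENNReal.one_ne_top
    obtain ⟨n1, hn1⟩ := eventually_atTop.mp hev
    obtain ⟨n, hn, hFn⟩ := hcon (max m n1)
    have hnm : m ≤ n := (le_max_left _ _).trans hn
    have hratio := hn1 n ((le_max_right _ _).trans hn)
    -- the residues
    set F : Finset (ZMod (p n)) := Finset.univ.filter
      (fun c => ∃ x ∈ Y (m, ⟨b, hb⟩), res (q n) (p n) x = c) with hF
    have hFcard : h n ≤ F.card := by
      by_contra hlt
      obtain ⟨x, hx, hxF⟩ := hFn F (by omega)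
      exact hxF (by simp only [hF, Finset.mem_filter, Finset.mem_univ, true_and]; exact ⟨x, hx, rfl⟩)
    have hbig := hS n F hFcard
    set a : ℤ := ⌊(q n : ℝ) * w⌋ with ha
    have hball : Metric.closedBall (((a : ℝ) + 1 / 2) / q n) (1 / (2 * (q n : ℝ))) =
        Icc ((a : ℝ) / q n) ((a + 1) / q n) := by
      have hn := hqR n
      rw [Real.closedBall_eq_Icc]
      congr 1 <;> field_simp <;> ring
    rw [hball] at hratio
    have hTsub : T ∩ Icc ((a : ℝ) / q n) ((a + 1) / q n) ⊆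
        (Ico ((a : ℝ) / q n) ((a + 1) / q n) \ {z | res (q n) (p n) z ∈ F + J n}) ∪
          {((a : ℝ) + 1) / q n} := by
      rintro z ⟨hzT, hz1, hz2⟩
      rcases hz2.lt_or_eq with hz2 | hz2
      · left
        refine ⟨⟨hz1, hz2⟩, ?_⟩
        intro hz3
        obtain ⟨c, hc, j, hj, hcj⟩ := Finset.mem_add.mp hz3
        simp only [hF, Finset.mem_filter, Finset.mem_univ, true_and] at hc
        obtain ⟨x, hx, hxc⟩ := hc
        have := res_add_mem (q n) (p n) (J n) x z j hj (by rw [hxc]; exact hcj.symm)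
        exact hx.2.2 z hzT n hnm this
      · right
        simp [hz2]
    have hvol : volume (T ∩ Icc ((a : ℝ) / q n) ((a + 1) / q n)) ≤
        ENNReal.ofReal (1 / (2 * q n)) := by
      refine (measure_mono hTsub).trans ((measure_union_le _ _).trans ?_)
      rw [Real.volume_singleton, add_zero]
      have hsub : Ico ((a : ℝ) / q n) ((a + 1) / q n) \ {z | res (q n) (p n) z ∈ F + J n} =
          Ico ((a : ℝ) / q n) ((a + 1) / q n) \
          (Ico ((a : ℝ) / q n) ((a + 1) / q n) ∩ {z | res (q n) (p n) z ∈ F + J n}) := by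
        rw [sdiff_self_inter]
      rw [hsub, measure_sdiff inter_subset_left
        ((measurableSet_Ico.inter (measurableSet_res _ _ _)).nullMeasurableSet)
        (by rw [volume_inter_res _ _ (hq n)]; finiteness), volume_inter_res _ _ (hq n), Real.volume_Ico]
      have hp : 0 < p n := Nat.pos_of_ne_zero (NeZero.ne (p n))
      have hpR : (0 : ℝ) < p n := by exact_mod_cast hp
      have hn := hqR n
      rw [← ENNReal.ofReal_natCast, ← ENNReal.ofReal_mul (by positivity),
        ← ENNReal.ofReal_sub _ (by positivity)]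
      refine ENNReal.ofReal_le_ofReal ?_
      have hbigR : (p n : ℝ) ≤ 2 * (F + J n).card := by exact_mod_cast hbig
      push_cast
      have h1 : ((a : ℝ) + 1) / q n - a / q n = 1 / q n := by ring
      rw [h1]
      have h2 : (1 : ℝ) / (2 * q n) ≤ (F + J n).card * (1 / (q n * p n)) := by
        rw [mul_one_div, div_le_div_iff₀ (by positivity) (by positivity)]
        nlinarith
      have h3 : (1 : ℝ) / q n = 1 / (2 * q n) + 1 / (2 * q n) := by field_simp; norm_num
      linarith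
    have hden : volume (Icc ((a : ℝ) / q n) ((a + 1) / q n)) = ENNReal.ofReal (1 / q n) := by
      rw [Real.volume_Icc]
      congr 1
      ring
    rw [hden] at hratio
    have hn := hqR n
    have hle : volume (T ∩ Icc ((a : ℝ) / q n) ((a + 1) / q n)) / ENNReal.ofReal (1 / q n) ≤ 1 / 2 := by
      refine ENNReal.div_le_of_le_mul ?_
      refine hvol.trans (le_of_eq ?_)
      have : (1 : ℝ≥0∞) / 2 = ENNReal.ofReal (1 / 2) := by
        rw [ENNReal.ofReal_div_of_pos (by norm_num)]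
        simp
      rw [this, ← ENNReal.ofReal_mul (by positivity)]
      congr 1
      field_simp
    exact absurd hratio (not_lt.mpr hle)

theorem floor_step (q p : ℕ) [NeZero p] (x : ℝ) :
    ⌊((q * p : ℕ) : ℝ) * x⌋ = ⌊(q : ℝ) * x⌋ * p + ((res q p x).val : ℤ) := by
  have hp : 0 < p := Nat.pos_of_ne_zero (NeZero.ne p)
  have hpR : (0 : ℝ) < p := by exact_mod_cast hp
  set i : ℤ := ⌊((q * p : ℕ) : ℝ) * x⌋ with hi
  have h1 : ((res q p x).val : ℤ) = i % (p : ℤ) := by
    unfold res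
    rw [ZMod.val_intCast]
  have h2 : ⌊(q : ℝ) * x⌋ = i / (p : ℤ) := by
    rw [Int.floor_eq_iff]
    have hi1 : (i : ℝ) ≤ ((q * p : ℕ) : ℝ) * x := Int.floor_le _
    have hi2 : ((q * p : ℕ) : ℝ) * x < i + 1 := Int.lt_floor_add_one _
    have hd := Int.emod_add_mul_ediv i p
    have hm1 := Int.emod_nonneg i (b := p) (by omega)
    have hm2 := Int.emod_lt_of_pos i (b := p) (by omega)
    have e1 : (p : ℤ) * (i / p) ≤ i := by linarith
    have e2 : i + 1 ≤ (p : ℤ) * (i / p) + p := by linarith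
    have e1' : (p : ℝ) * ((i / (p : ℤ) : ℤ) : ℝ) ≤ i := by exact_mod_cast e1
    have e2' : (i : ℝ) + 1 ≤ (p : ℝ) * ((i / (p : ℤ) : ℤ) : ℝ) + p := by exact_mod_cast e2
    push_cast at hi1 hi2
    constructor
    · have : (p : ℝ) * ((i / (p : ℤ) : ℤ) : ℝ) ≤ p * (q * x) := by nlinarith
      exact le_of_mul_le_mul_left this hpR
    · have : (p : ℝ) * (q * x) < p * (((i / (p : ℤ) : ℤ) : ℝ) + 1) := by nlinarith
      exact lt_of_mul_lt_mul_left this hpR.le
  rw [h1, h2]
  have := Int.emod_add_mul_ediv i p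
  linarith

/-- few values of the floor at a fine level -/
theorem few_floors (q p p' : ℕ) [NeZero p] [NeZero p'] (hq : 0 < q) (k : ℤ) (A : Set ℝ)
    (hA : A ⊆ Ico (k : ℝ) (k + 1)) (F : Finset (ZMod p)) (F' : Finset (ZMod p'))
    (hF : ∀ x ∈ A, res q p x ∈ F) (hF' : ∀ x ∈ A, res (q * p) p' x ∈ F') :
    ∃ G : Finset ℤ, G.card ≤ q * F.card * F'.card ∧
      ∀ x ∈ A, ⌊((q * p * p' : ℕ) : ℝ) * x⌋ ∈ G := by
  classical
  refine ⟨((Finset.range q ×ˢ F) ×ˢ F').image
    (fun t => ((k * q + t.1.1) * p + (t.1.2.val : ℤ)) * p' + (t.2.val : ℤ)), ?_, ?_⟩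
  · refine Finset.card_image_le.trans ?_
    rw [Finset.card_product, Finset.card_product, Finset.card_range]
  · intro x hx
    have hqR : (0 : ℝ) < q := by exact_mod_cast hq
    obtain ⟨hx1, hx2⟩ := hA hx
    have hf1 : k * q ≤ ⌊(q : ℝ) * x⌋ := by
      rw [Int.le_floor]; push_cast; nlinarith
    have hf2 : ⌊(q : ℝ) * x⌋ < k * q + q := by
      rw [Int.floor_lt]; push_cast; nlinarith
    obtain ⟨i, hi⟩ := Int.eq_ofNat_of_zero_le (sub_nonneg.mpr hf1)
    rw [Finset.mem_image]
    refine ⟨((i, res q p x), res (q * p) p' x), ?_, ?_⟩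
    · rw [Finset.mem_product, Finset.mem_product, Finset.mem_range]
      have hiq : i < q := by omega
      exact ⟨⟨hiq, hF x hx⟩, hF' x hx⟩
    · rw [floor_step (q * p) p' x, floor_step q p x]
      have : ⌊(q : ℝ) * x⌋ = k * q + i := by linarith
      rw [this]

theorem closedBall_double (z : ℝ × ℝ) (r : ℝ) :
    volume (Metric.closedBall z (2 * r)) ≤ 4 * volume (Metric.closedBall z r) := by
  rw [volume_closedBall_prod, volume_closedBall_prod, ENNReal.ofReal_mul (p := 2) (by norm_num)]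
  have : ENNReal.ofReal 2 = 2 := by simp
  rw [this]
  apply le_of_eq
  ring

/-- measure bound for a translate of a small square -/
theorem volume_add_ball_le (Q : ℕ) (hQ : 0 < Q) (A B : Set ℝ) (G G' : Finset ℤ)
    (hG : ∀ x ∈ A, ⌊(Q : ℝ) * x⌋ ∈ G) (hG' : ∀ x ∈ B, ⌊(Q : ℝ) * x⌋ ∈ G')
    (c : ℝ × ℝ) (r : ℝ) (hr : 1 / (Q : ℝ) ≤ r) :
    volume ((A ×ˢ B) + Metric.closedBall c r) ≤
      (G.card * G'.card : ℝ≥0∞) * (4 * volume (Metric.closedBall c r)) := by
  have hQR : (0 : ℝ) < Q := by exact_mod_cast hQ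
  have hsub : (A ×ˢ B) + Metric.closedBall c r ⊆
      ⋃ t ∈ G ×ˢ G', Metric.closedBall (((t.1 : ℝ) / Q + c.1, (t.2 : ℝ) / Q + c.2) : ℝ × ℝ) (2 * r) := by
    rintro _ ⟨⟨x, y⟩, ⟨hx, hy⟩, ⟨u, v⟩, huv, rfl⟩
    simp only [mem_iUnion]
    refine ⟨(⌊(Q : ℝ) * x⌋, ⌊(Q : ℝ) * y⌋), Finset.mem_product.mpr ⟨hG x hx, hG' y hy⟩, ?_⟩
    obtain ⟨c1, c2⟩ := c
    rw [Metric.mem_closedBall, Prod.dist_eq, max_le_iff] at huv ⊢
    simp only [Real.dist_eq, Prod.mk_add_mk] at huv ⊢
    have key : ∀ (s w d : ℝ), |w - d| ≤ r → |s + w - ((⌊(Q : ℝ) * s⌋ : ℝ) / Q + d)| ≤ 2 * r := by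
      intro s w d hwd
      have h1 := Int.floor_le ((Q : ℝ) * s)
      have h2 := Int.lt_floor_add_one ((Q : ℝ) * s)
      have h3 : |s - (⌊(Q : ℝ) * s⌋ : ℝ) / Q| ≤ 1 / Q := by
        have : s - (⌊(Q : ℝ) * s⌋ : ℝ) / Q = (Q * s - ⌊(Q : ℝ) * s⌋) / Q := by field_simp
        rw [this, abs_div, abs_of_pos hQR, div_le_div_iff_of_pos_right hQR]
        rw [abs_le]; constructor <;> linarith
      calc |s + w - ((⌊(Q : ℝ) * s⌋ : ℝ) / Q + d)|
          = |(s - (⌊(Q : ℝ) * s⌋ : ℝ) / Q) + (w - d)| := by ring_nf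
        _ ≤ |s - (⌊(Q : ℝ) * s⌋ : ℝ) / Q| + |w - d| := abs_add_le _ _
        _ ≤ 2 * r := by linarith
    exact ⟨key x u c1 huv.1, key y v c2 huv.2⟩
  refine (measure_mono hsub).trans ((measure_biUnion_finset_le _ _).trans ?_)
  refine (Finset.sum_le_card_nsmul _ _ (4 * volume (Metric.closedBall c r)) ?_).trans ?_
  · intro t _
    refine (closedBall_double _ r).trans (le_of_eq ?_)
    rw [volume_closedBall_prod, volume_closedBall_prod]
  · rw [nsmul_eq_mul, Finset.card_product]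
    push_cast
    exact le_rfl

/-- The product of two null-additive subsets of the line is null-additive in the plane. -/
theorem null_additive_prod (X Y : Set ℝ)
    (hX : ∀ N : Set ℝ, volume N = 0 → volume (X + N) = 0)
    (hY : ∀ N : Set ℝ, volume N = 0 → volume (Y + N) = 0)
    (N : Set (ℝ × ℝ)) (hN : volume N = 0) : volume ((X ×ˢ Y) + N) = 0 := by
  classical
  rcases N.eq_empty_or_nonempty with rfl | hNne
  · simp
  obtain ⟨c, r, hr, hsum, hfreq⟩ := cover_null N hN hNne
  set a : ℕ → ℝ≥0∞ := fun l => volume (Metric.closedBall (c l) (r l)) with ha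
  set h : ℕ → ℕ := fun n => 8 * (2 ^ n) ^ 2 with hh
  set tail : ℕ → ℝ≥0∞ := fun L => ∑' l, if L ≤ l then a l else 0 with htail
  have htail_tendsto : Tendsto tail atTop (𝓝 0) := by
    have h1 := ENNReal.tendsto_sum_nat_add a hsum
    refine h1.congr fun L => ?_
    have hinj : Function.Injective (fun k : ℕ => k + L) := fun x y hxy => by
      simpa using hxy
    have h2 := hinj.tsum_eq (f := fun l => if L ≤ l then a l else 0) (by
      intro l hl
      rw [Function.mem_support] at hl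
      have : L ≤ l := by
        by_contra hcon
        exact hl (if_neg hcon)
      exact ⟨l - L, by simp only; omega⟩)
    rw [htail]
    simp only
    rw [← h2]
    refine tsum_congr fun k => ?_
    rw [if_pos (Nat.le_add_left L k)]
  -- choice of the parameters
  choose pf hpf hMf Jf hJf hSf using
    (fun (n M : ℕ) => residues (2 ^ n) (by positivity) M)
  have hL : ∀ n q : ℕ, ∃ L : ℕ, ∀ L' ≥ L,
      ((q * h n * h (n + 1) : ℕ) : ℝ≥0∞) ^ 2 * tail L' ≤ (2⁻¹ : ℝ≥0∞) ^ n := by
    intro n q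
    have h1 : Tendsto (fun L => ((q * h n * h (n + 1) : ℕ) : ℝ≥0∞) ^ 2 * tail L) atTop (𝓝 0) := by
      have := ENNReal.Tendsto.const_mul (a := ((q * h n * h (n + 1) : ℕ) : ℝ≥0∞) ^ 2)
        htail_tendsto (Or.inr (by finiteness))
      simpa using this
    have h2 : (0 : ℝ≥0∞) < (2⁻¹ : ℝ≥0∞) ^ n := by
      apply ENNReal.pow_pos
      simp
    obtain ⟨L, hL⟩ := eventually_atTop.mp (h1.eventually (gt_mem_nhds h2))
    exact ⟨L, fun L' hL' => (hL L' hL').le⟩
  choose Lf hLf using hL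
  have hM : ∀ l : ℕ, ∃ M : ℕ, ∀ i < l, 1 / (r i) ≤ M := by
    intro l
    induction l with
    | zero => exact ⟨0, fun i hi => absurd hi (Nat.not_lt_zero i)⟩
    | succ l ih =>
      obtain ⟨M, hM⟩ := ih
      obtain ⟨M', hM'⟩ := exists_nat_ge (1 / r l)
      refine ⟨max M M', fun i hi => ?_⟩
      rcases Nat.lt_succ_iff_lt_or_eq.mp hi with hi | rfl
      · exact (hM i hi).trans (by exact_mod_cast le_max_left _ _)
      · exact hM'.trans (by exact_mod_cast le_max_right _ _)
  choose Mf hMf' using hM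
  let s : ℕ → ℕ × ℕ := fun n => Nat.rec (1, Lf 0 1)
    (fun n st => (st.1 * pf n (Mf st.2), max (st.2 + 1) (Lf (n + 1) (st.1 * pf n (Mf st.2))))) n
  let q : ℕ → ℕ := fun n => (s n).1
  let l : ℕ → ℕ := fun n => (s n).2
  let p : ℕ → ℕ := fun n => pf n (Mf (l n))
  have hq0 : q 0 = 1 := rfl
  have hqs : ∀ n, q (n + 1) = q n * p n := fun n => rfl
  have hls : ∀ n, l (n + 1) = max (l n + 1) (Lf (n + 1) (q (n + 1))) := fun n => rfl
  have hpprime : ∀ n, (p n).Prime := fun n => hpf n _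
  have hpz : ∀ n, NeZero (p n) := fun n => ⟨(hpprime n).ne_zero⟩
  have hqpos : ∀ n, 0 < q n := by
    intro n
    induction n with
    | zero => rw [hq0]; norm_num
    | succ n ih => rw [hqs]; exact Nat.mul_pos ih (hpprime n).pos
  have hlmono : StrictMono l := strictMono_nat_of_lt_succ fun n => by
    rw [hls]; exact lt_of_lt_of_le (Nat.lt_succ_self _) (le_max_left _ _)
  have htl : ∀ n, ((q n * h n * h (n + 1) : ℕ) : ℝ≥0∞) ^ 2 * tail (l n) ≤ (2⁻¹ : ℝ≥0∞) ^ n := by
    intro n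
    cases n with
    | zero => exact hLf 0 1 _ le_rfl
    | succ n => exact hLf (n + 1) (q (n + 1)) _ (by rw [hls]; exact le_max_right _ _)
  have hfine : ∀ n, ∀ i < l n, 1 / ((q (n + 1) : ℕ) : ℝ) ≤ r i := by
    intro n i hi
    have h1 : 1 / r i ≤ Mf (l n) := hMf' (l n) i hi
    have h2 : Mf (l n) < p n := hMf n _
    have h3 : p n ≤ q (n + 1) := by
      rw [hqs]; exact Nat.le_mul_of_pos_left _ (hqpos n)
    have h4 : 1 / r i ≤ ((q (n + 1) : ℕ) : ℝ) := by
      refine h1.trans ?_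
      exact_mod_cast h2.le.trans h3
    rw [div_le_iff₀ (hr i)] at h4
    rw [div_le_iff₀ (by exact_mod_cast hqpos (n + 1))]
    linarith
  have hqt : Tendsto (fun n => (q n : ℝ)) atTop atTop := by
    have h1 : ∀ n, 2 ^ n ≤ q n := by
      intro n
      induction n with
      | zero => rw [hq0]; norm_num
      | succ n ih =>
        rw [hqs, pow_succ]
        exact Nat.mul_le_mul ih (hpprime n).two_le
    have h2 : ∀ n : ℕ, (n : ℝ) ≤ q n := by
      intro n
      exact_mod_cast (Nat.lt_two_pow_self (n := n)).le.trans (h1 n)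
    exact tendsto_atTop_mono h2 tendsto_natCast_atTop_atTop
  let J : ∀ n, Finset (ZMod (p n)) := fun n => Jf n (Mf (l n))
  have hJ : ∀ n, 2 ^ n * (J n).card ≤ p n := fun n => hJf n _
  have hS : ∀ n, ∀ S : Finset (ZMod (p n)), h n ≤ S.card → p n ≤ 2 * (S + J n).card :=
    fun n => hSf n _
  obtain ⟨ι, hι, U, hU, hU'⟩ := slalom hX q p hqpos hqt J h hJ hS
  obtain ⟨κ, hκ, V, hV, hV'⟩ := slalom hY q p hqpos hqt J h hJ hS
  have hcov : (X ×ˢ Y) + N ⊆ ⋃ i : ι, ⋃ j : κ, ⋃ k : ℤ, ⋃ k' : ℤ,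
      (((U i ∩ Ico (k : ℝ) (k + 1)) ×ˢ (V j ∩ Ico (k' : ℝ) (k' + 1))) + N) := by
    rintro _ ⟨⟨x, y⟩, ⟨hx, hy⟩, z, hz, rfl⟩
    simp only at hx hy
    rw [hU] at hx
    rw [hV] at hy
    obtain ⟨i, hi⟩ := mem_iUnion.mp hx
    obtain ⟨j, hj⟩ := mem_iUnion.mp hy
    simp only [mem_iUnion]
    refine ⟨i, j, ⌊x⌋, ⌊y⌋, ⟨(x, y), ⟨⟨hi, Int.floor_le x, Int.lt_floor_add_one x⟩,
      ⟨hj, Int.floor_le y, Int.lt_floor_add_one y⟩⟩, z, hz, rfl⟩⟩
  refine measure_mono_null hcov (measure_iUnion_null fun i => measure_iUnion_null fun j =>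
    measure_iUnion_null fun k => measure_iUnion_null fun k' => ?_)
  obtain ⟨nU, hnU⟩ := hU' i
  obtain ⟨nV, hnV⟩ := hV' j
  set A : Set ℝ := U i ∩ Ico (k : ℝ) (k + 1) with hA
  set B : Set ℝ := V j ∩ Ico (k' : ℝ) (k' + 1) with hB
  set n0 := max nU nV with hn0
  -- the basic estimate
  have hest : ∀ n ≥ n0, ∀ m, l n ≤ m → m < l (n + 1) →
      volume ((A ×ˢ B) + Metric.closedBall (c m) (r m)) ≤
        4 * ((q n * h n * h (n + 1) : ℕ) : ℝ≥0∞) ^ 2 * a m := by
    intro n hn m hm1 hm2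
    obtain ⟨F1, hF1, hF1'⟩ := hnU n ((le_max_left _ _).trans hn)
    obtain ⟨F2, hF2, hF2'⟩ := hnU (n + 1) (((le_max_left _ _).trans hn).trans (Nat.le_succ n))
    obtain ⟨E1, hE1, hE1'⟩ := hnV n ((le_max_right _ _).trans hn)
    obtain ⟨E2, hE2, hE2'⟩ := hnV (n + 1) (((le_max_right _ _).trans hn).trans (Nat.le_succ n))
    obtain ⟨G, hG, hG'⟩ := few_floors (q n) (p n) (p (n + 1)) (hqpos n) k A inter_subset_right
      F1 F2 (fun x hx => hF1' x hx.1) (fun x hx => by
        have := hF2' x hx.1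
        rw [hqs] at this
        exact this)
    obtain ⟨G2, hG2, hG2'⟩ := few_floors (q n) (p n) (p (n + 1)) (hqpos n) k' B inter_subset_right
      E1 E2 (fun x hx => hE1' x hx.1) (fun x hx => by
        have := hE2' x hx.1
        rw [hqs] at this
        exact this)
    have hQ : q n * p n * p (n + 1) = q (n + 1 + 1) := by rw [hqs (n + 1), hqs n]
    rw [hQ] at hG' hG2'
    have := volume_add_ball_le (q (n + 1 + 1)) (hqpos (n + 1 + 1)) A B G G2 hG' hG2' (c m) (r m)
      (hfine (n + 1) m hm2)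
    refine this.trans ?_
    have hGc : (G.card : ℝ≥0∞) ≤ ((q n * h n * h (n + 1) : ℕ) : ℝ≥0∞) := by
      have : G.card ≤ q n * h n * h (n + 1) := hG.trans (by gcongr)
      exact_mod_cast this
    have hGc2 : (G2.card : ℝ≥0∞) ≤ ((q n * h n * h (n + 1) : ℕ) : ℝ≥0∞) := by
      have : G2.card ≤ q n * h n * h (n + 1) := hG2.trans (by gcongr)
      exact_mod_cast this
    calc (G.card * G2.card : ℝ≥0∞) * (4 * volume (Metric.closedBall (c m) (r m)))
        ≤ (((q n * h n * h (n + 1) : ℕ) : ℝ≥0∞) * ((q n * h n * h (n + 1) : ℕ) : ℝ≥0∞)) *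
          (4 * volume (Metric.closedBall (c m) (r m))) := by gcongr
      _ = 4 * ((q n * h n * h (n + 1) : ℕ) : ℝ≥0∞) ^ 2 * a m := by
          rw [ha]; ring
  -- Borel-Cantelli
  have hsub : (A ×ˢ B) + N ⊆ {z | ∃ᶠ m in atTop,
      l n0 ≤ m ∧ z ∈ (A ×ˢ B) + Metric.closedBall (c m) (r m)} := by
    rintro _ ⟨u, hu, z, hz, rfl⟩
    have h1 := hfreq z hz
    have h2 : ∀ᶠ m in atTop, l n0 ≤ m := eventually_ge_atTop _
    refine (h1.and_eventually h2).mono fun m hm => ⟨hm.2, ⟨u, hu, z, hm.1, rfl⟩⟩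
  refine measure_mono_null hsub (measure_setOfPred_frequently_eq_zero ?_)
  have hbound : ∀ m, volume {z | l n0 ≤ m ∧ z ∈ (A ×ˢ B) + Metric.closedBall (c m) (r m)} ≤
      ∑' n, 4 * ((q n * h n * h (n + 1) : ℕ) : ℝ≥0∞) ^ 2 * (if l n ≤ m then a m else 0) := by
    intro m
    by_cases hm : l n0 ≤ m
    swap
    · have : {z | l n0 ≤ m ∧ z ∈ (A ×ˢ B) + Metric.closedBall (c m) (r m)} = ∅ := by
        ext z; simp [hm]
      rw [this]; simp
    have hex : ∃ n, m < l n := ⟨m + 1, lt_of_lt_of_le (Nat.lt_succ_self m) (hlmono.le_apply)⟩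
    have hfind := Nat.find_spec hex
    have hfind_pos : n0 < Nat.find hex := by
      by_contra hcon
      push Not at hcon
      have := hlmono.monotone hcon
      omega
    obtain ⟨n, hn⟩ : ∃ n, Nat.find hex = n + 1 := ⟨Nat.find hex - 1, by omega⟩
    have hnlow : l n ≤ m := by
      by_contra hcon
      push Not at hcon
      have := Nat.find_min' hex hcon
      omega
    rw [hn] at hfind
    have hn0' : n0 ≤ n := by omega
    refine le_trans ?_ (ENNReal.le_tsum n)
    rw [if_pos hnlow]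
    refine (measure_mono ?_).trans (hest n hn0' m hnlow hfind)
    intro z hz
    exact hz.2
  have htot : ∑' m, volume {z | l n0 ≤ m ∧ z ∈ (A ×ˢ B) + Metric.closedBall (c m) (r m)} ≤
      4 * ∑' n : ℕ, (2⁻¹ : ℝ≥0∞) ^ n := by
    refine (ENNReal.tsum_le_tsum hbound).trans ?_
    rw [ENNReal.tsum_comm, ← ENNReal.tsum_mul_left]
    refine ENNReal.tsum_le_tsum fun n => ?_
    rw [ENNReal.tsum_mul_left, mul_assoc]
    exact mul_le_mul_right (htl n) _
  refine ne_top_of_le_ne_top ?_ htot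
  rw [ENNReal.tsum_geometric]
  refine ENNReal.mul_ne_top (by simp) ?_
  rw [ENNReal.inv_ne_top]
  simp

/-- **Question 2, affirmative answer.**  The product of two null-additive sets of reals is a
null-additive subset of the plane. -/
theorem result_proof (X Y : Set ℝ)
    (hX : ∀ N : Set ℝ, volume N = 0 → volume (X + N) = 0)
    (hY : ∀ N : Set ℝ, volume N = 0 → volume (Y + N) = 0) :
    ∀ N : Set (ℝ × ℝ), volume N = 0 → volume ((X ×ˢ Y) + N) = 0 :=
  fun N hN => null_additive_prod X Y hX hY N hN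

end Pool.Agent.Results.MP_52c2ea_lc.NullAdditiveProduct
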