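import Mathlib

/-!
# Rank-one convexity of the planar stationarity inclusion set: a counterexample

For every `n ≥ 5` there are a strictly polyconvex function `f` on the `n × 2` matrices (even of
class `C^∞`) and a radius `R > 0` such that the rank-one convex hull of `K_R = K_f ∩ B_R` is
strictly larger than `K_R`.

Idea of the construction.  Let `S = diag(-15, 35, 35, -34, -34)`.  There are sixteen integer
matrices `X_g` (an orbit of a group of order sixteen acting on the left by matrices preserving `S`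
and on the right by quarter turns) with `X_gᵀ S X_g = 150 I`.  One finds `f` strictly polyconvex
with `f (X_g) = 0` and `Df (X_g) J = S X_g`, so that the sixteen points
`(X_g; S X_g; 150 I)` lie in `K_f`; they are images of the `X_g` under an affine map which maps
rank-one lines to rank-one lines.  The hull of the `X_g` is nontrivial: there are sixteen further
points `P_g`, `Q_g` with `3 P_g = 2 X_g + Q_g` and `3 Q_g = P_{g1} + 2 P_{g2}`, where
`X_g - Q_g` and `P_{g1} - P_{g2}` have rank one.
-/

set_option autoImplicit false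

namespace Pool.Agent.Results.MP_f3a7de_an.RcHullCounterexample

open Finset

/-- The index set of the minors of an `n × 2` matrix: its entries, and its pairs of rows `i < j`. -/
abbrev MinorIdx (n : ℕ) : Type := (Fin n × Fin 2) ⊕ {p : Fin n × Fin n // p.1 < p.2}

/-- The vector of all minors of an `n × 2` matrix: its entries and the `2 × 2` determinants formed
from its pairs of rows. -/
def Phi {n : ℕ} (X : Fin n → Fin 2 → ℝ) : MinorIdx n → ℝ
  | Sum.inl p => X p.1 p.2
  | Sum.inr p => X p.1.1 0 * X p.1.2 1 - X p.1.1 1 * X p.1.2 0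

/-- `f` is strictly polyconvex: `f = g ∘ Phi` for some strictly convex `g` of class `C^1`. -/
def StrictlyPolyconvex {n : ℕ} (f : (Fin n → Fin 2 → ℝ) → ℝ) : Prop :=
  ∃ g : (MinorIdx n → ℝ) → ℝ, ContDiff ℝ 1 g ∧ StrictConvexOn ℝ Set.univ g ∧ ∀ X, f X = g (Phi X)

/-- The gradient `Df(X)`, the matrix of the partial derivatives of `f` at `X`. -/
noncomputable def grad {n : ℕ} (f : (Fin n → Fin 2 → ℝ) → ℝ) (X : Fin n → Fin 2 → ℝ) :
    Matrix (Fin n) (Fin 2) ℝ :=
  Matrix.of fun i j => fderiv ℝ f X (Pi.single i (Pi.single j 1))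

/-- The matrix `J`. -/
def J : Matrix (Fin 2) (Fin 2) ℝ := !![0, 1; -1, 0]

/-- The stacked matrix `(X; Y_X; Z_X)` with `Y_X = Df(X) J` and `Z_X = Xᵀ Y_X - f(X) J`. -/
noncomputable def stacked {n : ℕ} (f : (Fin n → Fin 2 → ℝ) → ℝ) (X : Fin n → Fin 2 → ℝ) :
    Matrix ((Fin n ⊕ Fin n) ⊕ Fin 2) (Fin 2) ℝ :=
  Matrix.fromRows (Matrix.fromRows (Matrix.of X) (grad f X * J))
    ((Matrix.of X).transpose * (grad f X * J) - f X • J)

/-- The set `K_R`: the part of the inclusion set `K_f` in the closed Euclidean ball of radius `R`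
about the origin. -/
def KR {n : ℕ} (f : (Fin n → Fin 2 → ℝ) → ℝ) (R : ℝ) :
    Set (Matrix ((Fin n ⊕ Fin n) ⊕ Fin 2) (Fin 2) ℝ) :=
  {A | (∃ X, A = stacked f X) ∧ ∑ i, ∑ j, A i j ^ 2 ≤ R ^ 2}

/-- Rank-one convexity of a function on matrices with two columns. -/
def RankOneConvex {m : Type} [Fintype m] (F : Matrix m (Fin 2) ℝ → ℝ) : Prop :=
  ∀ A B : Matrix m (Fin 2) ℝ, B.rank = 1 → ConvexOn ℝ Set.univ fun t : ℝ => F (A + t • B)

/-- The rank-one convex hull: all `A` with `F A ≤ 0` for every rank-one convex `F` that is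
nonpositive on `K`. -/
def rcHull {m : Type} [Fintype m] (K : Set (Matrix m (Fin 2) ℝ)) : Set (Matrix m (Fin 2) ℝ) :=
  {A | ∀ F : Matrix m (Fin 2) ℝ → ℝ, RankOneConvex F → (∀ B ∈ K, F B ≤ 0) → F A ≤ 0}

end Pool.Agent.Results.MP_f3a7de_an.RcHullCounterexample
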