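import Mathlib
import Pool.Agent.H20.SPL.RcHullCounterexampleDefs

/-!
# Rank-one convexity of the planar stationarity inclusion set: a counterexample

For every `n ≥ 5` there are a strictly polyconvex function `f` on the `n × 2` matrices (even of
class `C^∞`) and a radius `R > 0` such that the rank-one convex hull of `K_R = K_f ∩ B_R` is
strictly larger than `K_R`.

Idea of the construction.  Let `S = diag(-15, 35, 35, -34, -34)`.  There are sixteen integer
matrices `X_g` (an orbit of a group of order sixteen acting on the left by matrices preserving `S`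
and on the right by quarter turns) with `X_gᵀ S X_g = 150 I`.  One finds `f` strictly polyconvex
with `f (X_g) = 0` and `Df (X_g) J = S X_g`, so that the sixteen points
`(X_g; S X_g; 150 I)` lie in `K_f`; they are images of the `X_g` under an affine map which maps
rank-one lines to rank-one lines.  The hull of the `X_g` is nontrivial: there are sixteen further
points `P_g`, `Q_g` with `3 P_g = 2 X_g + Q_g` and `3 Q_g = P_{g1} + 2 P_{g2}`, where
`X_g - Q_g` and `P_{g1} - P_{g2}` have rank one.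
-/

set_option autoImplicit false

namespace Pool.Agent.Results.MP_f3a7de_an.RcHullCounterexample

open Finset

/-! ### Definitions used in the statement -/


/-! ### Interpolation by strictly polyconvex functions -/


lemma sum_pairs {n : ℕ} (T : Fin n → Fin n → ℝ) (hT : ∀ p q, T p q = - T q p) (x y : Fin n → ℝ) :
    ∑ k : {p : Fin n × Fin n // p.1 < p.2},
      T k.1.1 k.1.2 * (x k.1.1 * y k.1.2 - y k.1.1 * x k.1.2) =
    ∑ p, ∑ q, T p q * (x p * y q) := by
  have h0 : ∀ p, T p p = 0 := fun p => by have := hT p p; linarith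
  have h1 : ∑ k : {p : Fin n × Fin n // p.1 < p.2},
      T k.1.1 k.1.2 * (x k.1.1 * y k.1.2 - y k.1.1 * x k.1.2) =
      ∑ p : Fin n × Fin n, if p.1 < p.2 then T p.1 p.2 * (x p.1 * y p.2 - y p.1 * x p.2) else 0 := by
    rw [← Finset.sum_filter]
    exact (Finset.sum_subtype (univ.filter fun p : Fin n × Fin n => p.1 < p.2) (by simp)
      (fun p => T p.1 p.2 * (x p.1 * y p.2 - y p.1 * x p.2))).symm
  have h2 : ∑ p, ∑ q, T p q * (x p * y q) = ∑ p : Fin n × Fin n, T p.1 p.2 * (x p.1 * y p.2) := by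
    rw [Fintype.sum_prod_type]
  have h3 : ∑ p : Fin n × Fin n, T p.1 p.2 * (x p.1 * y p.2) =
      (∑ p : Fin n × Fin n, if p.1 < p.2 then T p.1 p.2 * (x p.1 * y p.2) else 0) +
      ∑ p : Fin n × Fin n, if p.2 < p.1 then T p.1 p.2 * (x p.1 * y p.2) else 0 := by
    rw [← Finset.sum_add_distrib]
    refine Finset.sum_congr rfl fun p _ => ?_
    rcases lt_trichotomy p.1 p.2 with h | h | h
    · simp [h, h.not_gt]
    · simp [h, h0]
    · simp [h, h.not_gt]
  have h4 : (∑ p : Fin n × Fin n, if p.2 < p.1 then T p.1 p.2 * (x p.1 * y p.2) else 0) =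
      ∑ p : Fin n × Fin n, if p.1 < p.2 then T p.2 p.1 * (x p.2 * y p.1) else 0 :=
    (Equiv.sum_comp (Equiv.prodComm (Fin n) (Fin n))
      (fun p : Fin n × Fin n => if p.2 < p.1 then T p.1 p.2 * (x p.1 * y p.2) else 0)).symm
  rw [h1, h2, h3, h4, ← Finset.sum_add_distrib]
  refine Finset.sum_congr rfl fun p _ => ?_
  split_ifs
  · rw [hT p.2 p.1]; ring
  · simp


noncomputable def phi (s : ℝ) : ℝ := (∫ u in (0:ℝ)..s, expNegInvGlue u) / expNegInvGlue 1

lemma expNegInvGlue_one_pos : 0 < expNegInvGlue 1 := expNegInvGlue.pos_of_pos one_pos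

lemma hasDerivAt_phi (s : ℝ) : HasDerivAt phi (expNegInvGlue s / expNegInvGlue 1) s := by
  have hc : Continuous expNegInvGlue := (expNegInvGlue.contDiff (n := 0)).continuous
  exact (hc.integral_hasStrictDerivAt 0 s).hasDerivAt.div_const _

lemma phi_of_nonpos {s : ℝ} (hs : s ≤ 0) : phi s = 0 := by
  have : ∫ u in (0:ℝ)..s, expNegInvGlue u = ∫ u in (0:ℝ)..s, (0:ℝ) := by
    apply intervalIntegral.integral_congr
    intro u hu
    rw [Set.uIcc_of_ge hs] at hu
    exact expNegInvGlue.zero_of_nonpos hu.2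
  rw [phi, this]; simp

lemma deriv_phi : deriv phi = fun s => expNegInvGlue s / expNegInvGlue 1 :=
  funext fun s => (hasDerivAt_phi s).deriv

lemma contDiff_phi : ContDiff ℝ (⊤ : ℕ∞) phi := by
  rw [contDiff_infty_iff_deriv]
  refine ⟨fun s => (hasDerivAt_phi s).differentiableAt, ?_⟩
  rw [deriv_phi]
  exact expNegInvGlue.contDiff.div_const _

lemma convexOn_phi : ConvexOn ℝ Set.univ phi := by
  refine Monotone.convexOn_univ_of_deriv (fun s => (hasDerivAt_phi s).differentiableAt) ?_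
  rw [deriv_phi]
  intro a b hab
  exact div_le_div_of_nonneg_right (expNegInvGlue.monotone hab) expNegInvGlue_one_pos.le

lemma strictConvex_sumsq {κ : Type*} [Fintype κ] (e : ℝ) (he : 0 < e) :
    StrictConvexOn ℝ Set.univ (fun z : κ → ℝ => e * ∑ k, z k ^ 2) := by
  refine ⟨convex_univ, ?_⟩
  intro x _ y _ hxy a b ha hb hab
  obtain ⟨k, hk⟩ := Function.ne_iff.1 hxy
  have hpos : 0 < ∑ k, (x k - y k) ^ 2 :=
    Finset.sum_pos' (fun i _ => sq_nonneg _) ⟨k, Finset.mem_univ _, by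
      have : x k - y k ≠ 0 := sub_ne_zero.2 hk
      positivity⟩
  have hid : a * (e * ∑ k, x k ^ 2) + b * (e * ∑ k, y k ^ 2) -
      e * ∑ k, (a * x k + b * y k) ^ 2 = e * (a * b * ∑ k, (x k - y k) ^ 2) := by
    have hb' : b = 1 - a := by linarith
    simp only [Finset.mul_sum, ← Finset.sum_add_distrib, ← Finset.sum_sub_distrib]
    refine Finset.sum_congr rfl fun i _ => ?_
    rw [hb']; ring
  have : 0 < e * (a * b * ∑ k, (x k - y k) ^ 2) := by positivity
  simp only [Pi.add_apply, Pi.smul_apply, smul_eq_mul]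
  linarith

lemma convex_comp {κ : Type*} [Fintype κ] (q z0 : κ → ℝ) (c : ℝ) :
    ConvexOn ℝ Set.univ (fun z : κ → ℝ => phi (∑ k, q k * (z k - z0 k) + c)) := by
  refine ⟨convex_univ, ?_⟩
  intro x _ y _ a b ha hb hab
  have := convexOn_phi.2 (Set.mem_univ (∑ k, q k * (x k - z0 k) + c))
    (Set.mem_univ (∑ k, q k * (y k - z0 k) + c)) ha hb hab
  have hid : ∑ k, q k * ((a • x + b • y) k - z0 k) + c =
      a • (∑ k, q k * (x k - z0 k) + c) + b • (∑ k, q k * (y k - z0 k) + c) := by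
    have hb' : b = 1 - a := by linarith
    simp only [Pi.add_apply, Pi.smul_apply, smul_eq_mul, mul_add, Finset.mul_sum]
    rw [show ∀ A B C D : ℝ, A + B + (C + D) = (A + C) + (B + D) by intros; ring]
    rw [← Finset.sum_add_distrib]
    congr 1
    · refine Finset.sum_congr rfl fun i _ => ?_
      rw [hb']; ring
    · rw [hb']; ring
  simpa only [hid] using this


/-- the bilinear-plus-linear expression -/
def hh {n : ℕ} (W : Fin n → Fin 2 → ℝ) (T : Fin n → Fin n → ℝ) (X X' : Fin n → Fin 2 → ℝ) : ℝ :=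
  ∑ a, (W a 0 * (X' a 0 - X a 0) + W a 1 * (X' a 1 - X a 1)) +
    ∑ p, ∑ q, T p q * ((X' p 0 - X p 0) * (X' q 1 - X q 1))

/-- the linear functional on the space of minors -/
def qq {n : ℕ} (W : Fin n → Fin 2 → ℝ) (T : Fin n → Fin n → ℝ) (X : Fin n → Fin 2 → ℝ) :
    MinorIdx n → ℝ
  | Sum.inl p => W p.1 p.2 - (if p.2 = 0 then ∑ q, T p.1 q * X q 1 else ∑ q, T q p.1 * X q 0)
  | Sum.inr p => T p.1.1 p.1.2

lemma qq_spec {n : ℕ} (W : Fin n → Fin 2 → ℝ) (T : Fin n → Fin n → ℝ)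
    (hT : ∀ p q, T p q = - T q p) (X X' : Fin n → Fin 2 → ℝ) :
    ∑ k, qq W T X k * (Phi X' k - Phi X k) = hh W T X X' := by
  rw [Fintype.sum_sum_type]
  simp only [qq, Phi]
  have h1 : ∑ k : {p : Fin n × Fin n // p.1 < p.2}, T k.1.1 k.1.2 *
      (X' k.1.1 0 * X' k.1.2 1 - X' k.1.1 1 * X' k.1.2 0 -
        (X k.1.1 0 * X k.1.2 1 - X k.1.1 1 * X k.1.2 0)) =
      ∑ p, ∑ q, T p q * (X' p 0 * X' q 1) - ∑ p, ∑ q, T p q * (X p 0 * X q 1) := by
    rw [← sum_pairs T hT (fun p => X' p 0) (fun p => X' p 1),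
      ← sum_pairs T hT (fun p => X p 0) (fun p => X p 1), ← Finset.sum_sub_distrib]
    exact Finset.sum_congr rfl fun k _ => by ring
  have h2 : ∑ x : Fin n × Fin 2, (W x.1 x.2 -
        (if x.2 = 0 then ∑ q, T x.1 q * X q 1 else ∑ q, T q x.1 * X q 0)) *
        (X' x.1 x.2 - X x.1 x.2) =
      ∑ a, (W a 0 * (X' a 0 - X a 0) + W a 1 * (X' a 1 - X a 1)) -
      (∑ p, ∑ q, T p q * ((X' p 0 - X p 0) * X q 1)) -
      (∑ p, ∑ q, T p q * (X p 0 * (X' q 1 - X q 1))) := by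
    rw [Fintype.sum_prod_type]
    have h3 : (∑ p, ∑ q, T p q * (X p 0 * (X' q 1 - X q 1))) =
        ∑ p, ∑ q, T q p * (X q 0 * (X' p 1 - X p 1)) := Finset.sum_comm
    rw [h3, ← Finset.sum_sub_distrib, ← Finset.sum_sub_distrib]
    refine Finset.sum_congr rfl fun a _ => ?_
    rw [Fin.sum_univ_two]
    simp only [Fin.isValue, ↓reduceIte, one_ne_zero]
    rw [sub_mul, sub_mul, Finset.sum_mul, Finset.sum_mul]
    have e1 : ∑ i, T a i * X i 1 * (X' a 0 - X a 0) = ∑ q, T a q * ((X' a 0 - X a 0) * X q 1) :=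
      Finset.sum_congr rfl fun _ _ => by ring
    have e2 : ∑ i, T i a * X i 0 * (X' a 1 - X a 1) = ∑ q, T q a * (X q 0 * (X' a 1 - X a 1)) :=
      Finset.sum_congr rfl fun _ _ => by ring
    rw [e1, e2]; ring
  rw [h1, h2, hh]
  have h4 : ∑ p, ∑ q, T p q * ((X' p 0 - X p 0) * (X' q 1 - X q 1)) =
      ∑ p, ∑ q, T p q * (X' p 0 * X' q 1) - ∑ p, ∑ q, T p q * (X p 0 * X q 1) -
      (∑ p, ∑ q, T p q * ((X' p 0 - X p 0) * X q 1)) -
      (∑ p, ∑ q, T p q * (X p 0 * (X' q 1 - X q 1))) := by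
    simp only [← Finset.sum_sub_distrib]
    exact Finset.sum_congr rfl fun p _ => Finset.sum_congr rfl fun q _ => by ring
  rw [h4]; ring

lemma Phi_sq {n : ℕ} (X : Fin n → Fin 2 → ℝ) :
    ∑ k, Phi X k ^ 2 = ∑ a, X a 0 ^ 2 + ∑ a, X a 1 ^ 2 +
      (∑ a, X a 0 ^ 2) * (∑ a, X a 1 ^ 2) - (∑ a, X a 0 * X a 1) ^ 2 := by
  rw [Fintype.sum_sum_type]
  simp only [Phi]
  have h1 := sum_pairs (fun p q => X p 0 * X q 1 - X p 1 * X q 0) (fun p q => by ring)
    (fun p => X p 0) (fun p => X p 1)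
  have h2 : ∑ k : {p : Fin n × Fin n // p.1 < p.2},
      (X k.1.1 0 * X k.1.2 1 - X k.1.1 1 * X k.1.2 0) ^ 2 =
      ∑ p, ∑ q, (X p 0 * X q 1 - X p 1 * X q 0) * (X p 0 * X q 1) := by
    rw [← h1]; exact Finset.sum_congr rfl fun k _ => by ring
  rw [h2, Fintype.sum_prod_type, Finset.sum_mul_sum, sq (∑ a, X a 0 * X a 1), Finset.sum_mul_sum]
  simp only [Fin.sum_univ_two, Finset.sum_add_distrib]
  rw [add_sub_assoc]
  congr 1
  simp only [← Finset.sum_sub_distrib]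
  exact Finset.sum_congr rfl fun p _ => Finset.sum_congr rfl fun q _ => by ring

theorem interp {n : ℕ} {ι : Type} [Fintype ι] [DecidableEq ι] (X W : ι → Fin n → Fin 2 → ℝ)
    (T : ι → Fin n → Fin n → ℝ) (hT : ∀ i p q, T i p q = - T i q p) (N e : ℝ) (he : 0 < e)
    (hN : ∀ i, ∑ k, Phi (X i) k ^ 2 = N)
    (hgap : ∀ i j, i ≠ j → hh (W i) (T i) (X i) (X j) + 4 * e * N + 1 ≤ 0) :
    ∃ f : (Fin n → Fin 2 → ℝ) → ℝ, ContDiff ℝ (⊤ : ℕ∞) f ∧ StrictlyPolyconvex f ∧
      ∀ i, f (X i) = 0 ∧ ∀ a b, grad f (X i) a b = W i a b := by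
  classical
  -- the affine functions
  set Q : ι → MinorIdx n → ℝ := fun i k => qq (W i) (T i) (X i) k - 2 * e * Phi (X i) k with hQ
  set L : ι → (MinorIdx n → ℝ) → ℝ := fun i z => ∑ k, Q i k * (z k - Phi (X i) k) + 1 with hL
  set g : (MinorIdx n → ℝ) → ℝ :=
    fun z => e * ∑ k, z k ^ 2 + ∑ i, phi (L i z) - (e * N + phi 1) with hg
  have hLi : ∀ i, L i (Phi (X i)) = 1 := by intro i; simp [hL]
  have hLj : ∀ i j, i ≠ j → L i (Phi (X j)) ≤ 0 := by
    intro i j hij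
    have h1 : L i (Phi (X j)) = hh (W i) (T i) (X i) (X j) +
        2 * e * ∑ k, (Phi (X i) k * Phi (X i) k - Phi (X i) k * Phi (X j) k) + 1 := by
      rw [← qq_spec (W i) (T i) (hT i) (X i) (X j), hL]
      simp only [hQ, Finset.mul_sum, ← Finset.sum_add_distrib]
      congr 1
      exact Finset.sum_congr rfl fun k _ => by ring
    have h2 : ∑ k, (Phi (X i) k * Phi (X i) k - Phi (X i) k * Phi (X j) k) ≤ 2 * N := by
      have : ∑ k, (Phi (X i) k * Phi (X i) k - Phi (X i) k * Phi (X j) k) ≤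
          ∑ k, ((3/2) * Phi (X i) k ^ 2 + (1/2) * Phi (X j) k ^ 2) :=
        Finset.sum_le_sum fun k _ => by nlinarith [sq_nonneg (Phi (X i) k + Phi (X j) k)]
      rw [Finset.sum_add_distrib, ← Finset.mul_sum, ← Finset.mul_sum, hN, hN] at this
      linarith
    have h3 := hgap i j hij
    rw [h1]
    nlinarith [mul_le_mul_of_nonneg_left h2 (by positivity : (0:ℝ) ≤ 2 * e)]
  have hgs : ContDiff ℝ (⊤ : ℕ∞) g := by
    have hcoord : ∀ k : MinorIdx n, ContDiff ℝ (⊤ : ℕ∞) (fun z : MinorIdx n → ℝ => z k) :=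
      fun k => contDiff_apply ℝ ℝ k
    refine ContDiff.sub (ContDiff.add (contDiff_const.mul
      (ContDiff.sum fun k _ => (hcoord k).pow 2)) (ContDiff.sum fun i _ => ?_)) contDiff_const
    exact contDiff_phi.comp ((ContDiff.sum fun k _ =>
      contDiff_const.mul ((hcoord k).sub contDiff_const)).add contDiff_const)
  have hgc : StrictConvexOn ℝ Set.univ g := by
    have h1 : ConvexOn ℝ Set.univ (fun z : MinorIdx n → ℝ => ∑ i, phi (L i z)) := by
      have := fun i => convex_comp (Q i) (Phi (X i)) 1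
      refine ⟨convex_univ, ?_⟩
      intro x hx y hy a b ha hb hab
      simp only [smul_eq_mul, Finset.mul_sum, ← Finset.sum_add_distrib]
      exact Finset.sum_le_sum fun i _ => (this i).2 hx hy ha hb hab
    have h2 := (strictConvex_sumsq (κ := MinorIdx n) e he).add_convexOn h1
    have h3 := h2.add_const (-(e * N + phi 1))
    refine h3.congr ?_
    intro z _
    simp only [hg, Pi.add_apply]; ring
  have hPhis : ContDiff ℝ (⊤ : ℕ∞) (Phi (n := n)) := by
    rw [contDiff_pi]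
    intro k
    have hc : ∀ (a : Fin n) (b : Fin 2), ContDiff ℝ (⊤ : ℕ∞) (fun X : Fin n → Fin 2 → ℝ => X a b) :=
      fun a b => contDiff_apply_apply ℝ ℝ a b
    rcases k with k | k
    · exact hc _ _
    · exact ((hc _ _).mul (hc _ _)).sub ((hc _ _).mul (hc _ _))
  refine ⟨fun X => g (Phi X), hgs.comp hPhis, ⟨g, hgs.of_le (by exact_mod_cast le_top), hgc, fun _ => rfl⟩, ?_⟩
  intro j
  have hval : g (Phi (X j)) = 0 := by
    have : ∑ i, phi (L i (Phi (X j))) = phi 1 := by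
      rw [Finset.sum_eq_single j]
      · rw [hLi]
      · intro i _ hij; exact phi_of_nonpos (hLj i j hij)
      · intro h; exact absurd (Finset.mem_univ _) h
    simp only [hg, this, hN]; ring
  refine ⟨hval, ?_⟩
  intro a b
  -- directional derivative
  set E : Fin n → Fin 2 → ℝ := Pi.single a (Pi.single b 1) with hE
  have hz : ∀ k : MinorIdx n, ∃ m : ℝ, HasDerivAt (fun t : ℝ => Phi (X j + t • E) k) m 0 := by
    intro k
    have hd : Differentiable ℝ (fun t : ℝ => Phi (X j + t • E) k) := by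
      have h1 : ContDiff ℝ (⊤ : ℕ∞) (fun t : ℝ => Phi (X j + t • E)) :=
        hPhis.comp (contDiff_const.add (contDiff_id.smul contDiff_const))
      exact (contDiff_pi.1 h1 k).differentiable (by simp)
    exact ⟨_, (hd 0).hasDerivAt⟩
  choose m hm using hz
  have hz0 : Phi (X j + (0:ℝ) • E) = Phi (X j) := by simp
  have hder : HasDerivAt (fun t : ℝ => g (Phi (X j + t • E)))
      (∑ k, qq (W j) (T j) (X j) k * m k) 0 := by
    have h1 : HasDerivAt (fun t : ℝ => ∑ k, Phi (X j + t • E) k ^ 2)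
        (∑ k, 2 * Phi (X j) k * m k) 0 := by
      have : ∀ k ∈ (Finset.univ : Finset (MinorIdx n)),
          HasDerivAt (fun t : ℝ => Phi (X j + t • E) k ^ 2) (2 * Phi (X j) k * m k) 0 := by
        intro k _
        have := (hm k).fun_pow 2
        simpa [hz0] using this
      have h := HasDerivAt.fun_sum this
      exact h
    have h2 : HasDerivAt (fun t : ℝ => ∑ i, phi (L i (Phi (X j + t • E))))
        (∑ k, Q j k * m k) 0 := by
      have hLd : ∀ i, HasDerivAt (fun t : ℝ => L i (Phi (X j + t • E))) (∑ k, Q i k * m k) 0 := by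
        intro i
        have : ∀ k ∈ (Finset.univ : Finset (MinorIdx n)),
            HasDerivAt (fun t : ℝ => Q i k * (Phi (X j + t • E) k - Phi (X i) k)) (Q i k * m k) 0 := by
          intro k _
          exact ((hm k).sub_const _).const_mul _
        exact (HasDerivAt.fun_sum this).add_const 1
      have hph : ∀ i ∈ (Finset.univ : Finset ι),
          HasDerivAt (fun t : ℝ => phi (L i (Phi (X j + t • E))))
            ((if i = j then 1 else 0) * ∑ k, Q i k * m k) 0 := by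
        intro i _
        have hL0 : L i (Phi (X j + (0:ℝ) • E)) = L i (Phi (X j)) := by rw [hz0]
        have h3 : HasDerivAt phi (if i = j then 1 else 0) (L i (Phi (X j + (0:ℝ) • E))) := by
          rw [hL0]
          have h4 := hasDerivAt_phi (L i (Phi (X j)))
          split_ifs with hij
          · subst hij
            rw [hLi] at h4 ⊢
            rwa [div_self expNegInvGlue_one_pos.ne'] at h4
          · rwa [expNegInvGlue.zero_of_nonpos (hLj i j hij), zero_div] at h4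
        exact h3.comp 0 (hLd i)
      have h5 := HasDerivAt.fun_sum hph
      simpa using h5
    have h3 := ((h1.const_mul e).add h2).sub_const (e * N + phi 1)
    have h4 : e * ∑ k, 2 * Phi (X j) k * m k + ∑ k, Q j k * m k =
        ∑ k, qq (W j) (T j) (X j) k * m k := by
      simp only [hQ, Finset.mul_sum, ← Finset.sum_add_distrib]
      exact Finset.sum_congr rfl fun k _ => by ring
    rw [h4] at h3
    exact h3
  have hq : ∑ k, qq (W j) (T j) (X j) k * m k = W j a b := by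
    have h1 : HasDerivAt (fun t : ℝ => ∑ k, qq (W j) (T j) (X j) k *
        (Phi (X j + t • E) k - Phi (X j) k)) (∑ k, qq (W j) (T j) (X j) k * m k) 0 :=
      HasDerivAt.fun_sum fun k _ => ((hm k).sub_const _).const_mul _
    have h2 : (fun t : ℝ => ∑ k, qq (W j) (T j) (X j) k *
        (Phi (X j + t • E) k - Phi (X j) k)) =
        fun t : ℝ => t * (∑ c, (W j c 0 * E c 0 + W j c 1 * E c 1)) +
          t ^ 2 * ∑ p, ∑ q, T j p q * (E p 0 * E q 1) := by
      funext t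
      rw [qq_spec (W j) (T j) (hT j), hh]
      simp only [Finset.mul_sum, Pi.add_apply, Pi.smul_apply, smul_eq_mul]
      congr 1
      · exact Finset.sum_congr rfl fun c _ => by ring
      · exact Finset.sum_congr rfl fun p _ => Finset.sum_congr rfl fun q _ => by ring
    have h3 : HasDerivAt (fun t : ℝ => t * (∑ c, (W j c 0 * E c 0 + W j c 1 * E c 1)) +
          t ^ 2 * ∑ p, ∑ q, T j p q * (E p 0 * E q 1))
          (∑ c, (W j c 0 * E c 0 + W j c 1 * E c 1)) 0 := by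
      have h4 := ((hasDerivAt_id' (0:ℝ)).mul_const (∑ c, (W j c 0 * E c 0 + W j c 1 * E c 1))).fun_add
        (((hasDerivAt_id' (0:ℝ)).fun_pow 2).mul_const (∑ p, ∑ q, T j p q * (E p 0 * E q 1)))
      simpa using h4
    rw [h2] at h1
    rw [h1.unique h3]
    have h5 : ∑ c, (W j c 0 * E c 0 + W j c 1 * E c 1) = ∑ c, ∑ d, W j c d * E c d := by
      simp [Fin.sum_univ_two]
    rw [h5, Finset.sum_eq_single a, Finset.sum_eq_single b]
    · simp [hE]
    · intro d _ hd; simp [hE, hd]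
    · simp
    · intro c _ hc; simp [hE, hc]
    · simp
  have hf : DifferentiableAt ℝ (fun X : Fin n → Fin 2 → ℝ => g (Phi X)) (X j) :=
    ((hgs.comp hPhis).differentiable (by simp)) (X j)
  have h6 : HasDerivAt (fun t : ℝ => g (Phi (X j + t • E)))
      (fderiv ℝ (fun X : Fin n → Fin 2 → ℝ => g (Phi X)) (X j) E) 0 := by
    have h7 : HasDerivAt (fun t : ℝ => X j + t • E) E 0 := by
      have := ((hasDerivAt_id (0:ℝ)).smul_const E).const_add (X j)
      simpa using this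
    have h8 : HasFDerivAt (fun X : Fin n → Fin 2 → ℝ => g (Phi X))
        (fderiv ℝ (fun X : Fin n → Fin 2 → ℝ => g (Phi X)) (X j)) (X j + (0:ℝ) • E) := by
      simpa using hf.hasFDerivAt
    exact h8.comp_hasDerivAt 0 h7
  show fderiv ℝ (fun X : Fin n → Fin 2 → ℝ => g (Phi X)) (X j) (Pi.single a (Pi.single b 1)) = W j a b
  rw [← hE, h6.unique hder, hq]


/-! ### The integer data -/

/-- entries of the sixteen matrices `X_g`, row by row -/
def tabX : List (List (ℤ × ℤ)) :=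
  [[(-3, 1), (2, 2), (3, -5), (-2, 3), (1, -4)], [(-3, 1), (3, -5), (2, 2), (-2, 3), (-1, 4)], [(-3, 1), (-2, -2), (-3, 5), (2, -3), (-1, 4)], [(-3, 1), (-3, 5), (-2, -2), (2, -3), (1, -4)], [(-1, -3), (-2, 2), (-5, -3), (-4, -1), (-3, -2)], [(-1, -3), (5, 3), (2, -2), (4, 1), (-3, -2)], [(-1, -3), (2, -2), (5, 3), (4, 1), (3, 2)], [(-1, -3), (-5, -3), (-2, 2), (-4, -1), (3, 2)], [(3, -1), (-2, -2), (-3, 5), (-2, 3), (1, -4)], [(3, -1), (-3, 5), (-2, -2), (-2, 3), (-1, 4)], [(3, -1), (2, 2), (3, -5), (2, -3), (-1, 4)], [(3, -1), (3, -5), (2, 2), (2, -3), (1, -4)], [(1, 3), (2, -2), (5, 3), (-4, -1), (-3, -2)], [(1, 3), (-5, -3), (-2, 2), (4, 1), (-3, -2)], [(1, 3), (-2, 2), (-5, -3), (4, 1), (3, 2)], [(1, 3), (5, 3), (2, -2), (-4, -1), (3, 2)]]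

/-- entries of the sixteen matrices `P_g`, row by row -/
def tabP : List (List (ℤ × ℤ)) :=
  [[(-2, 0), (2, 2), (2, -4), (-1, 2), (0, -3)], [(-2, 0), (2, -4), (2, 2), (-1, 2), (0, 3)], [(-2, 0), (-2, -2), (-2, 4), (1, -2), (0, 3)], [(-2, 0), (-2, 4), (-2, -2), (1, -2), (0, -3)], [(0, -2), (-2, 2), (-4, -2), (-3, 0), (-2, -1)], [(0, -2), (4, 2), (2, -2), (3, 0), (-2, -1)], [(0, -2), (2, -2), (4, 2), (3, 0), (2, 1)], [(0, -2), (-4, -2), (-2, 2), (-3, 0), (2, 1)], [(2, 0), (-2, -2), (-2, 4), (-1, 2), (0, -3)], [(2, 0), (-2, 4), (-2, -2), (-1, 2), (0, 3)], [(2, 0), (2, 2), (2, -4), (1, -2), (0, 3)], [(2, 0), (2, -4), (2, 2), (1, -2), (0, -3)], [(0, 2), (2, -2), (4, 2), (-3, 0), (-2, -1)], [(0, 2), (-4, -2), (-2, 2), (3, 0), (-2, -1)], [(0, 2), (-2, 2), (-4, -2), (3, 0), (2, 1)], [(0, 2), (4, 2), (2, -2), (-3, 0), (2, 1)]]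

/-- the sixteen antisymmetric multiplier matrices -/
def tabT : List (List (List ℤ)) :=
  [[[0, 0, -31, -18, -10], [0, 0, -13, -29, -1], [31, 13, 0, -58, -2], [18, 29, 58, 0, -4], [10, 1, 2, 4, 0]], [[0, -31, 0, -18, 10], [31, 0, 13, -58, 2], [0, -13, 0, -29, 1], [18, 58, 29, 0, 4], [-10, -2, -1, -4, 0]], [[0, 0, 31, 18, 10], [0, 0, -13, -29, -1], [-31, 13, 0, -58, -2], [-18, 29, 58, 0, -4], [-10, 1, 2, 4, 0]], [[0, 31, 0, 18, -10], [-31, 0, 13, -58, 2], [0, -13, 0, -29, 1], [-18, 58, 29, 0, 4], [10, -2, -1, -4, 0]], [[0, 0, 31, 10, -18], [0, 0, 13, 1, -29], [-31, -13, 0, -2, 58], [-10, -1, 2, 0, -4], [18, 29, -58, 4, 0]], [[0, -31, 0, -10, -18], [31, 0, -13, -2, -58], [0, 13, 0, 1, 29], [10, 2, -1, 0, 4], [18, 58, -29, -4, 0]], [[0, 0, -31, -10, 18], [0, 0, 13, 1, -29], [31, -13, 0, -2, 58], [10, -1, 2, 0, -4], [-18, 29, -58, 4, 0]], [[0, 31, 0, 10, 18], [-31, 0, -13, -2, -58], [0, 13, 0, 1, 29], [-10, 2, -1, 0, 4], [-18,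 58, -29, -4, 0]], [[0, 0, -31, 18, 10], [0, 0, -13, 29, 1], [31, 13, 0, 58, 2], [-18, -29, -58, 0, -4], [-10, -1, -2, 4, 0]], [[0, -31, 0, 18, -10], [31, 0, 13, 58, -2], [0, -13, 0, 29, -1], [-18, -58, -29, 0, 4], [10, 2, 1, -4, 0]], [[0, 0, 31, -18, -10], [0, 0, -13, 29, 1], [-31, 13, 0, 58, 2], [18, -29, -58, 0, -4], [10, -1, -2, 4, 0]], [[0, 31, 0, -18, 10], [-31, 0, 13, 58, -2], [0, -13, 0, 29, -1], [18, -58, -29, 0, 4], [-10, 2, 1, -4, 0]], [[0, 0, 31, -10, 18], [0, 0, 13, -1, 29], [-31, -13, 0, 2, -58], [10, 1, -2, 0, -4], [-18, -29, 58, 4, 0]], [[0, -31, 0, 10, 18], [31, 0, -13, 2, 58], [0, 13, 0, -1, -29], [-10, -2, 1, 0, 4], [-18, -58, 29, -4, 0]], [[0, 0, -31, 10, -18], [0, 0, 13, -1, 29], [31, -13, 0, 2, -58], [-10, 1, -2, 0, -4], [18, -29, 58, 4, 0]], [[0, 31, 0, -10, -18], [-31, 0, -13, 2, 58], [0, 13, 0, -1, -29], [10, -2, 1, 0, 4], [18, -58, 29, -4, 0]]]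

def tabXi : List (ℤ × ℤ) :=
  [(1, -1), (1, -1), (1, -1), (1, -1), (1, 1), (1, 1), (1, 1), (1, 1), (-1, 1), (-1, 1), (-1, 1), (-1, 1), (-1, -1), (-1, -1), (-1, -1), (-1, -1)]

def tabB : List (List ℤ) :=
  [[-1, 0, 1, -1, 1], [-1, 1, 0, -1, -1], [-1, 0, -1, 1, -1], [-1, -1, 0, 1, 1], [-1, 0, -1, -1, -1], [-1, 1, 0, 1, -1], [-1, 0, 1, 1, 1], [-1, -1, 0, -1, 1], [-1, 0, 1, 1, -1], [-1, 1, 0, 1, 1], [-1, 0, -1, -1, 1], [-1, -1, 0, -1, -1], [-1, 0, -1, 1, 1], [-1, 1, 0, -1, 1], [-1, 0, 1, -1, -1], [-1, -1, 0, 1, -1]]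

def tabZ : List (ℤ × ℤ) :=
  [(-6, 0), (-6, 0), (-6, 0), (-6, 0), (0, -6), (0, -6), (0, -6), (0, -6), (6, 0), (6, 0), (6, 0), (6, 0), (0, 6), (0, 6), (0, 6), (0, 6)]

def tabD : List (List ℤ) :=
  [[0, 1, 1, 1, 0], [0, 1, 1, 1, 0], [0, -1, -1, -1, 0], [0, -1, -1, -1, 0], [0, 1, -1, 0, 1], [0, 1, -1, 0, 1], [0, -1, 1, 0, -1], [0, -1, 1, 0, -1], [0, 1, 1, -1, 0], [0, 1, 1, -1, 0], [0, -1, -1, 1, 0], [0, -1, -1, 1, 0], [0, 1, -1, 0, -1], [0, 1, -1, 0, -1], [0, -1, 1, 0, 1], [0, -1, 1, 0, 1]]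

def tabS : List ℤ := [-15, 35, 35, -34, -34]

def s1 (i : Fin 16) : Fin 16 :=
  ([4, 7, 6, 5, 8, 11, 10, 9, 12, 15, 14, 13, 0, 3, 2, 1] : List (Fin 16)).getD i.val 0

def s2 (i : Fin 16) : Fin 16 :=
  ([5, 6, 7, 4, 9, 10, 11, 8, 13, 14, 15, 12, 1, 2, 3, 0] : List (Fin 16)).getD i.val 0

def sel (p : ℤ × ℤ) (c : Fin 2) : ℤ := if c = 0 then p.1 else p.2

def XZ (i : Fin 16) (r : ℕ) (c : Fin 2) : ℤ :=
  if r < 5 then sel ((tabX.getD i.val []).getD r (0, 0)) c else 0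

def PZ (i : Fin 16) (r : ℕ) (c : Fin 2) : ℤ :=
  if r < 5 then sel ((tabP.getD i.val []).getD r (0, 0)) c else 0

def TZ (i : Fin 16) (p q : ℕ) : ℤ :=
  if p < 5 ∧ q < 5 then ((tabT.getD i.val []).getD p []).getD q 0 else 0

def SZ (r : ℕ) : ℤ := if r < 5 then tabS.getD r 0 else 0

def bZ (i : Fin 16) (r : ℕ) : ℤ := if r < 5 then (tabB.getD i.val []).getD r 0 else 0

def dZ (i : Fin 16) (r : ℕ) : ℤ := if r < 5 then (tabD.getD i.val []).getD r 0 else 0

def xiZ (i : Fin 16) (c : Fin 2) : ℤ := sel (tabXi.getD i.val (0, 0)) c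

def zeZ (i : Fin 16) (c : Fin 2) : ℤ := sel (tabZ.getD i.val (0, 0)) c

/-- the integer version of the expression that has to be negative -/
def hZ (i j : Fin 16) : ℤ :=
  ∑ a ∈ range 5, (SZ a * XZ i a 1 * (XZ j a 0 - XZ i a 0) -
      SZ a * XZ i a 0 * (XZ j a 1 - XZ i a 1)) +
    ∑ p ∈ range 5, ∑ q ∈ range 5, TZ i p q * ((XZ j p 0 - XZ i p 0) * (XZ j q 1 - XZ i q 1))

lemma hZ_le : ∀ i j : Fin 16, i ≠ j → hZ i j ≤ -4 := by decide +kernel

lemma XZ_norm : ∀ i : Fin 16, (∑ a ∈ range 5, XZ i a 0 ^ 2) + (∑ a ∈ range 5, XZ i a 1 ^ 2) +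
    (∑ a ∈ range 5, XZ i a 0 ^ 2) * (∑ a ∈ range 5, XZ i a 1 ^ 2) -
    (∑ a ∈ range 5, XZ i a 0 * XZ i a 1) ^ 2 = 991 := by decide +kernel

lemma XZ_form : ∀ i : Fin 16, ∀ c d : Fin 2,
    ∑ a ∈ range 5, XZ i a c * (SZ a * XZ i a d) = if c = d then 150 else 0 := by decide +kernel

lemma TZ_anti5 : ∀ i : Fin 16, ∀ p q : Fin 5, TZ i p q = - TZ i q p := by decide +kernel

lemma PQ5 : ∀ i : Fin 16, ∀ r : Fin 5, ∀ c : Fin 2,
    3 * (3 * PZ i r c - 2 * XZ i r c) = PZ (s1 i) r c + 2 * PZ (s2 i) r c := by decide +kernel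

lemma fac1 : ∀ i : Fin 16, ∀ r : Fin 5, ∀ c : Fin 2,
    XZ i r c - PZ i r c = bZ i r * xiZ i c := by decide +kernel

lemma fac2 : ∀ i : Fin 16, ∀ r : Fin 5, ∀ c : Fin 2,
    PZ (s1 i) r c - PZ (s2 i) r c = dZ i r * zeZ i c := by decide +kernel

lemma b_ne : ∀ i : Fin 16, bZ i 0 ≠ 0 := by decide +kernel

lemma d_ne : ∀ i : Fin 16, dZ i 1 ≠ 0 := by decide +kernel

lemma xi_ne : ∀ i : Fin 16, xiZ i 0 ≠ 0 := by decide +kernel

lemma ze_ne : ∀ i : Fin 16, zeZ i 0 + zeZ i 1 ≠ 0 := by decide +kernel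

lemma P_form : ∑ a ∈ range 5, PZ 0 a 0 * (SZ a * PZ 0 a 0) = 186 := by decide +kernel

/-! ### From the integer data to real matrices with `n ≥ 5` rows -/

lemma sum_fin_eq {n : ℕ} (hn : 5 ≤ n) (F : ℕ → ℝ) (hF : ∀ r, 5 ≤ r → F r = 0) :
    ∑ r : Fin n, F r = ∑ r ∈ range 5, F r := by
  rw [Fin.sum_univ_eq_sum_range]
  symm
  apply Finset.sum_subset
  · intro r hr
    simp only [Finset.mem_range] at hr ⊢
    omega
  · intro r _ hr
    apply hF
    simpa using hr

lemma XZ_zero (i : Fin 16) (r : ℕ) (hr : 5 ≤ r) (c : Fin 2) : XZ i r c = 0 := by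
  simp [XZ, not_lt.2 hr]

lemma PZ_zero (i : Fin 16) (r : ℕ) (hr : 5 ≤ r) (c : Fin 2) : PZ i r c = 0 := by
  simp [PZ, not_lt.2 hr]

lemma TZ_zero_left (i : Fin 16) (p q : ℕ) (hp : 5 ≤ p) : TZ i p q = 0 := by
  simp [TZ, not_lt.2 hp]

lemma TZ_zero_right (i : Fin 16) (p q : ℕ) (hq : 5 ≤ q) : TZ i p q = 0 := by
  simp [TZ, not_lt.2 hq]

lemma bZ_zero (i : Fin 16) (r : ℕ) (hr : 5 ≤ r) : bZ i r = 0 := by
  simp [bZ, not_lt.2 hr]

lemma dZ_zero (i : Fin 16) (r : ℕ) (hr : 5 ≤ r) : dZ i r = 0 := by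
  simp [dZ, not_lt.2 hr]

lemma TZ_anti (i : Fin 16) (p q : ℕ) : TZ i p q = - TZ i q p := by
  by_cases hp : p < 5
  · by_cases hq : q < 5
    · exact TZ_anti5 i ⟨p, hp⟩ ⟨q, hq⟩
    · rw [TZ_zero_right i p q (not_lt.1 hq), TZ_zero_left i q p (not_lt.1 hq)]; rfl
  · rw [TZ_zero_left i p q (not_lt.1 hp), TZ_zero_right i q p (not_lt.1 hp)]; rfl

lemma PQ (i : Fin 16) (r : ℕ) (c : Fin 2) :
    3 * (3 * PZ i r c - 2 * XZ i r c) = PZ (s1 i) r c + 2 * PZ (s2 i) r c := by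
  by_cases hr : r < 5
  · exact PQ5 i ⟨r, hr⟩ c
  · have hr' := not_lt.1 hr
    simp [PZ_zero _ r hr', XZ_zero _ r hr']

lemma fac1' (i : Fin 16) (r : ℕ) (c : Fin 2) : XZ i r c - PZ i r c = bZ i r * xiZ i c := by
  by_cases hr : r < 5
  · exact fac1 i ⟨r, hr⟩ c
  · have hr' := not_lt.1 hr
    simp [PZ_zero _ r hr', XZ_zero _ r hr', bZ_zero _ r hr']

lemma fac2' (i : Fin 16) (r : ℕ) (c : Fin 2) :
    PZ (s1 i) r c - PZ (s2 i) r c = dZ i r * zeZ i c := by
  by_cases hr : r < 5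
  · exact fac2 i ⟨r, hr⟩ c
  · have hr' := not_lt.1 hr
    simp [PZ_zero _ r hr', dZ_zero _ r hr']

/-- the real matrices `X_g` -/
def XR (n : ℕ) (i : Fin 16) : Fin n → Fin 2 → ℝ := fun r c => (XZ i r c : ℝ)

/-- the real matrices `P_g` -/
def PR (n : ℕ) (i : Fin 16) : Fin n → Fin 2 → ℝ := fun r c => (PZ i r c : ℝ)

/-- the prescribed gradients `W_g = -S X_g J` -/
def WR (n : ℕ) (i : Fin 16) : Fin n → Fin 2 → ℝ :=
  fun r c => if c = 0 then (SZ r : ℝ) * (XZ i r 1 : ℝ) else -((SZ r : ℝ) * (XZ i r 0 : ℝ))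

/-- the real multipliers -/
def TR (n : ℕ) (i : Fin 16) : Fin n → Fin n → ℝ := fun p q => (TZ i p q : ℝ)

lemma hh_eq {n : ℕ} (hn : 5 ≤ n) (i j : Fin 16) :
    hh (WR n i) (TR n i) (XR n i) (XR n j) = (hZ i j : ℝ) := by
  unfold hh
  have h1 : ∑ a : Fin n, (WR n i a 0 * (XR n j a 0 - XR n i a 0) +
      WR n i a 1 * (XR n j a 1 - XR n i a 1)) =
      ∑ a ∈ range 5, (((SZ a * XZ i a 1 * (XZ j a 0 - XZ i a 0) -
      SZ a * XZ i a 0 * (XZ j a 1 - XZ i a 1) : ℤ)) : ℝ) := by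
    rw [← sum_fin_eq hn (fun a => (((SZ a * XZ i a 1 * (XZ j a 0 - XZ i a 0) -
      SZ a * XZ i a 0 * (XZ j a 1 - XZ i a 1) : ℤ)) : ℝ))]
    · refine Finset.sum_congr rfl fun a _ => ?_
      simp only [WR, XR, if_true, Fin.isValue, one_ne_zero, if_false]
      push_cast
      ring
    · intro r hr
      simp [XZ_zero _ r hr]
  have h2 : ∑ p : Fin n, ∑ q : Fin n, TR n i p q *
      ((XR n j p 0 - XR n i p 0) * (XR n j q 1 - XR n i q 1)) =
      ∑ p ∈ range 5, ∑ q ∈ range 5, ((TZ i p q * ((XZ j p 0 - XZ i p 0) *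
        (XZ j q 1 - XZ i q 1)) : ℤ) : ℝ) := by
    have h3 : ∀ p : ℕ, ∑ q : Fin n, ((TZ i p q * ((XZ j p 0 - XZ i p 0) *
        (XZ j q 1 - XZ i q 1)) : ℤ) : ℝ) = ∑ q ∈ range 5, ((TZ i p q * ((XZ j p 0 - XZ i p 0) *
        (XZ j q 1 - XZ i q 1)) : ℤ) : ℝ) := fun p =>
      sum_fin_eq hn (fun q => ((TZ i p q * ((XZ j p 0 - XZ i p 0) *
        (XZ j q 1 - XZ i q 1)) : ℤ) : ℝ)) (fun r hr => by simp [TZ_zero_right i p r hr])
    rw [← sum_fin_eq hn (fun p => ∑ q ∈ range 5, ((TZ i p q * ((XZ j p 0 - XZ i p 0) *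
        (XZ j q 1 - XZ i q 1)) : ℤ) : ℝ))]
    · refine Finset.sum_congr rfl fun p _ => ?_
      rw [← h3 p]
      refine Finset.sum_congr rfl fun q _ => ?_
      simp only [TR, XR]
      push_cast
      ring
    · intro r hr
      simp [TZ_zero_left i r _ hr]
  rw [h1, h2, hZ]
  push_cast
  rfl

lemma sum_sq_eq {n : ℕ} (hn : 5 ≤ n) (i : Fin 16) (c : Fin 2) :
    ∑ a : Fin n, XR n i a c ^ 2 = ((∑ a ∈ range 5, XZ i a c ^ 2 : ℤ) : ℝ) := by
  push_cast
  exact sum_fin_eq hn (fun a => (XZ i a c : ℝ) ^ 2) (fun r hr => by simp [XZ_zero _ r hr])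

lemma sum_mul_eq {n : ℕ} (hn : 5 ≤ n) (i : Fin 16) :
    ∑ a : Fin n, XR n i a 0 * XR n i a 1 = ((∑ a ∈ range 5, XZ i a 0 * XZ i a 1 : ℤ) : ℝ) := by
  push_cast
  exact sum_fin_eq hn (fun a => (XZ i a 0 : ℝ) * (XZ i a 1 : ℝ))
    (fun r hr => by simp [XZ_zero _ r hr])

lemma Phi_norm {n : ℕ} (hn : 5 ≤ n) (i : Fin 16) : ∑ k, Phi (XR n i) k ^ 2 = 991 := by
  rw [Phi_sq, sum_sq_eq hn, sum_sq_eq hn, sum_mul_eq hn]
  exact_mod_cast XZ_norm i

/-! ### The rank-one convex hull -/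

lemma rank_vecMulVec_one {m : Type} [Fintype m] (u : m → ℝ) (v : Fin 2 → ℝ) (hu : u ≠ 0)
    (hv : v ≠ 0) : (Matrix.vecMulVec u v).rank = 1 := by
  classical
  have h1 : (Matrix.vecMulVec u v).rank ≤ 1 := Matrix.rank_vecMulVec_le u v
  have h2 : (Matrix.vecMulVec u v).rank ≠ 0 := by
    intro h
    rw [Matrix.rank, Submodule.finrank_eq_zero, LinearMap.range_eq_bot] at h
    obtain ⟨i, hi⟩ := Function.ne_iff.1 hu
    obtain ⟨j, hj⟩ := Function.ne_iff.1 hv
    have h3 := congrFun (LinearMap.congr_fun h (Pi.single j 1)) i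
    rw [Matrix.mulVecLin_apply, Matrix.mulVec_single_one] at h3
    simp only [Matrix.col_apply, Matrix.vecMulVec_apply, LinearMap.zero_apply, Pi.zero_apply] at h3
    exact mul_ne_zero hi hj h3
  omega

lemma rankOne_segment {m : Type} [Fintype m] {F : Matrix m (Fin 2) ℝ → ℝ} (hF : RankOneConvex F)
    (A B : Matrix m (Fin 2) ℝ) (h : (A - B).rank = 1) (t : ℝ) (h0 : 0 ≤ t) (h1 : t ≤ 1) :
    F (t • A + (1 - t) • B) ≤ t * F A + (1 - t) * F B := by
  have := (hF B (A - B) h).2 (Set.mem_univ (1:ℝ)) (Set.mem_univ (0:ℝ)) h0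
    (by linarith : (0:ℝ) ≤ 1 - t) (by ring)
  simp only [smul_eq_mul, mul_one, mul_zero, add_zero, one_smul, zero_smul] at this
  have e1 : B + (A - B) = A := by abel
  have e2 : B + t • (A - B) = t • A + (1 - t) • B := by
    rw [smul_sub, sub_smul, one_smul]; abel
  rwa [e1, e2] at this

lemma mem_rcHull_of_scheme {m : Type} [Fintype m] {K : Set (Matrix m (Fin 2) ℝ)}
    (A P Q : Fin 16 → Matrix m (Fin 2) ℝ) (hA : ∀ i, A i ∈ K)
    (h1 : ∀ i, (A i - Q i).rank = 1) (h2 : ∀ i, (P (s1 i) - P (s2 i)).rank = 1)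
    (hP : ∀ i, P i = (2/3 : ℝ) • A i + (1 - 2/3 : ℝ) • Q i)
    (hQ : ∀ i, Q i = (1/3 : ℝ) • P (s1 i) + (1 - 1/3 : ℝ) • P (s2 i)) :
    ∀ i, P i ∈ rcHull K := by
  intro i F hF hK
  obtain ⟨j, -, hj⟩ := Finset.exists_max_image (Finset.univ : Finset (Fin 16))
    (fun i => F (P i)) ⟨0, Finset.mem_univ _⟩
  have hQle : F (Q j) ≤ F (P j) := by
    have h := rankOne_segment hF (P (s1 j)) (P (s2 j)) (h2 j) (1/3) (by norm_num) (by norm_num)
    rw [← hQ j] at h
    have a1 := hj (s1 j) (Finset.mem_univ _)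
    have a2 := hj (s2 j) (Finset.mem_univ _)
    linarith
  have hPle : F (P j) ≤ 2/3 * F (A j) + (1 - 2/3) * F (Q j) := by
    have h := rankOne_segment hF (A j) (Q j) (h1 j) (2/3) (by norm_num) (by norm_num)
    rwa [← hP j] at h
  have hAj := hK (A j) (hA j)
  have hij : F (P i) ≤ F (P j) := hj i (Finset.mem_univ _)
  linarith

/-- the affine embedding `X ↦ (X; S X; 150 I)` -/
noncomputable def iota (n : ℕ) (X : Fin n → Fin 2 → ℝ) :
    Matrix ((Fin n ⊕ Fin n) ⊕ Fin 2) (Fin 2) ℝ :=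
  Matrix.fromRows (Matrix.fromRows (Matrix.of X) (Matrix.of fun a b => (SZ a : ℝ) * X a b))
    ((150 : ℝ) • (1 : Matrix (Fin 2) (Fin 2) ℝ))

/-- the lifted vector `(u; S u; 0)` -/
def lift (n : ℕ) (u : Fin n → ℝ) : (Fin n ⊕ Fin n) ⊕ Fin 2 → ℝ
  | Sum.inl (Sum.inl a) => u a
  | Sum.inl (Sum.inr a) => (SZ a : ℝ) * u a
  | Sum.inr _ => 0

lemma iota_sub (n : ℕ) (X Y : Fin n → Fin 2 → ℝ) (u : Fin n → ℝ) (v : Fin 2 → ℝ)
    (h : ∀ a b, X a b - Y a b = u a * v b) :
    iota n X - iota n Y = Matrix.vecMulVec (lift n u) v := by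
  ext i b
  rcases i with (a | a) | a
  · simp [iota, lift, Matrix.vecMulVec_apply, h]
  · simp only [iota, lift, Matrix.vecMulVec_apply, Matrix.sub_apply, Matrix.fromRows_apply_inl,
      Matrix.fromRows_apply_inr, Matrix.of_apply]
    rw [← mul_sub, h]; ring
  · simp [iota, lift, Matrix.vecMulVec_apply]

lemma iota_comb (n : ℕ) (t : ℝ) (X Y Z : Fin n → Fin 2 → ℝ)
    (h : ∀ a b, X a b = t * Y a b + (1 - t) * Z a b) :
    iota n X = t • iota n Y + (1 - t) • iota n Z := by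
  ext i b
  rcases i with (a | a) | a
  · simp [iota, h]
  · simp only [iota, Matrix.add_apply, Matrix.smul_apply, Matrix.fromRows_apply_inl,
      Matrix.fromRows_apply_inr, Matrix.of_apply, smul_eq_mul, h]
    ring
  · simp only [iota, Matrix.add_apply, Matrix.smul_apply,
      Matrix.fromRows_apply_inr, smul_eq_mul]
    ring

lemma grad_mul_J {n : ℕ} (G : Matrix (Fin n) (Fin 2) ℝ) (a : Fin n) :
    (G * J) a 0 = - G a 1 ∧ (G * J) a 1 = G a 0 := by
  constructor <;> simp [J, Matrix.mul_apply, Fin.sum_univ_two]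

/-- **Answer to Q1 (negative), for every `n ≥ 5`.**  There are a strictly polyconvex function `f`
of class `C^∞` on the `n × 2` matrices and a radius `R > 0` for which some matrix `A` outside
`K_R` belongs to the rank-one convex hull of `K_R`. -/
theorem result_proof (n : ℕ) (hn : 5 ≤ n) :
    ∃ f : (Fin n → Fin 2 → ℝ) → ℝ, ContDiff ℝ (⊤ : ℕ∞) f ∧ StrictlyPolyconvex f ∧
      ∃ R : ℝ, 0 < R ∧ ∃ A, A ∉ KR f R ∧ A ∈ rcHull (KR f R) := by
  obtain ⟨f, hfs, hfp, hf⟩ := interp (XR n) (WR n) (TR n)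
    (fun i p q => by simp only [TR]; exact_mod_cast TZ_anti i p q) 991 (1/4000) (by norm_num)
    (Phi_norm hn) (fun i j hij => by
      rw [hh_eq hn]
      have h : (hZ i j : ℝ) ≤ -4 := by exact_mod_cast hZ_le i j hij
      linarith)
  -- the sixteen points lie in the inclusion set
  have hpt : ∀ i, iota n (XR n i) = stacked f (XR n i) := by
    intro i
    have hY : (grad f (XR n i) * J) =
        Matrix.of fun (a : Fin n) (b : Fin 2) => (SZ a : ℝ) * XR n i a b := by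
      ext a b
      obtain ⟨e0, e1⟩ := grad_mul_J (grad f (XR n i)) a
      fin_cases b
      · simp only [Fin.zero_eta, Fin.isValue, Matrix.of_apply]
        rw [e0, (hf i).2]; simp [WR, XR]
      · simp only [Fin.mk_one, Fin.isValue, Matrix.of_apply]
        rw [e1, (hf i).2]; simp [WR, XR]
    rw [stacked, hY, iota, (hf i).1, zero_smul, sub_zero]
    congr 1
    ext c d
    rw [Matrix.mul_apply]
    simp only [Matrix.transpose_apply, Matrix.of_apply]
    have h1 : ∑ a : Fin n, XR n i a c * ((SZ a : ℝ) * XR n i a d) =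
        ((∑ a ∈ range 5, XZ i a c * (SZ a * XZ i a d) : ℤ) : ℝ) := by
      push_cast
      exact sum_fin_eq hn (fun a => (XZ i a c : ℝ) * ((SZ a : ℝ) * (XZ i a d : ℝ)))
        (fun r hr => by simp [XZ_zero _ r hr])
    rw [h1, XZ_form i c d]
    rcases eq_or_ne c d with h | h
    · simp [h]
    · simp [h, Matrix.one_apply_ne h]
  -- the radius
  set M : ℝ := ∑ i : Fin 16, ∑ a, ∑ b, iota n (XR n i) a b ^ 2 with hM
  have hM0 : 0 ≤ M := Finset.sum_nonneg fun i _ => Finset.sum_nonneg fun a _ =>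
    Finset.sum_nonneg fun b _ => sq_nonneg _
  have hMi : ∀ i, ∑ a, ∑ b, iota n (XR n i) a b ^ 2 ≤ M := fun i =>
    Finset.single_le_sum (f := fun i => ∑ a, ∑ b, iota n (XR n i) a b ^ 2)
      (fun i _ => Finset.sum_nonneg fun a _ => Finset.sum_nonneg fun b _ => sq_nonneg _)
      (Finset.mem_univ i)
  have hKi : ∀ i, iota n (XR n i) ∈ KR f (M + 1) := by
    intro i
    refine ⟨⟨XR n i, hpt i⟩, (hMi i).trans ?_⟩
    nlinarith
  refine ⟨f, hfs, hfp, M + 1, by linarith, iota n (PR n 0), ?_, ?_⟩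
  · -- the point is not in the inclusion set
    rintro ⟨⟨X, hX⟩, -⟩
    have hXa : ∀ a b, PR n 0 a b = X a b := by
      intro a b
      have := congrFun (congrFun hX (Sum.inl (Sum.inl a))) b
      simpa [iota, stacked] using this
    have hYa : ∀ (a : Fin n) (b : Fin 2), (SZ a : ℝ) * PR n 0 a b = (grad f X * J) a b := by
      intro a b
      have := congrFun (congrFun hX (Sum.inl (Sum.inr a))) b
      simpa [iota, stacked] using this
    have hZ0 := congrFun (congrFun hX (Sum.inr 0)) 0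
    simp only [iota, stacked, Matrix.fromRows_apply_inr, Matrix.smul_apply, Matrix.one_apply_eq,
      smul_eq_mul, mul_one, Matrix.sub_apply, Matrix.mul_apply (M := (Matrix.of X).transpose),
      Matrix.transpose_apply, Matrix.of_apply] at hZ0
    have hJ : J 0 0 = 0 := rfl
    rw [hJ, mul_zero, sub_zero] at hZ0
    have h1 : ∑ a : Fin n, X a 0 * (grad f X * J) a 0 =
        ((∑ a ∈ range 5, PZ 0 a 0 * (SZ a * PZ 0 a 0) : ℤ) : ℝ) := by
      push_cast
      rw [← sum_fin_eq hn (fun a => (PZ 0 a 0 : ℝ) * ((SZ a : ℝ) * (PZ 0 a 0 : ℝ)))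
        (fun r hr => by simp [PZ_zero _ r hr])]
      refine Finset.sum_congr rfl fun a _ => ?_
      rw [← hXa, ← hYa]; simp [PR]
    rw [h1, P_form] at hZ0
    norm_num at hZ0
  · -- the point is in the hull
    set QR : Fin 16 → Fin n → Fin 2 → ℝ := fun i a b => 3 * PR n i a b - 2 * XR n i a b with hQR
    refine mem_rcHull_of_scheme (fun i => iota n (XR n i)) (fun i => iota n (PR n i))
      (fun i => iota n (QR i)) hKi ?_ ?_ ?_ ?_ 0
    · intro i
      have hfac : ∀ a b, XR n i a b - QR i a b = (3 * (bZ i a : ℝ)) * (xiZ i b : ℝ) := by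
        intro a b
        have h : ((XZ i a b - PZ i a b : ℤ) : ℝ) = ((bZ i a * xiZ i b : ℤ) : ℝ) := by
          rw [fac1']
        push_cast at h
        simp only [hQR, XR, PR]
        linarith
      show (iota n (XR n i) - iota n (QR i)).rank = 1
      rw [iota_sub n _ _ (fun a => 3 * (bZ i a : ℝ)) (fun b => (xiZ i b : ℝ)) hfac]
      apply rank_vecMulVec_one
      · intro h
        have h0 := congrFun h (Sum.inl (Sum.inl ⟨0, by omega⟩))
        simp only [lift, Pi.zero_apply] at h0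
        have : (bZ i 0 : ℝ) = 0 := by linarith
        exact b_ne i (by exact_mod_cast this)
      · intro h
        have h0 := congrFun h 0
        simp only [Pi.zero_apply] at h0
        exact xi_ne i (by exact_mod_cast h0)
    · intro i
      have hfac : ∀ a b, PR n (s1 i) a b - PR n (s2 i) a b = (dZ i a : ℝ) * (zeZ i b : ℝ) := by
        intro a b
        have h : ((PZ (s1 i) a b - PZ (s2 i) a b : ℤ) : ℝ) = ((dZ i a * zeZ i b : ℤ) : ℝ) := by
          rw [fac2']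
        push_cast at h
        simpa only [PR] using h
      show (iota n (PR n (s1 i)) - iota n (PR n (s2 i))).rank = 1
      rw [iota_sub n _ _ (fun a => (dZ i a : ℝ)) (fun b => (zeZ i b : ℝ)) hfac]
      apply rank_vecMulVec_one
      · intro h
        have h0 := congrFun h (Sum.inl (Sum.inl ⟨1, by omega⟩))
        simp only [lift, Pi.zero_apply] at h0
        exact d_ne i (by exact_mod_cast h0)
      · intro h
        have h0 := congrFun h 0
        have h1 := congrFun h 1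
        simp only [Pi.zero_apply] at h0 h1
        have h0' : zeZ i 0 = 0 := by exact_mod_cast h0
        have h1' : zeZ i 1 = 0 := by exact_mod_cast h1
        exact ze_ne i (by rw [h0', h1']; rfl)
    · intro i
      refine iota_comb n (2/3) _ _ _ fun a b => ?_
      simp only [hQR]; ring
    · intro i
      refine iota_comb n (1/3) _ _ _ fun a b => ?_
      have h : ((3 * (3 * PZ i a b - 2 * XZ i a b) : ℤ) : ℝ) =
          ((PZ (s1 i) a b + 2 * PZ (s2 i) a b : ℤ) : ℝ) := by rw [PQ]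
      push_cast at h
      simp only [hQR, XR, PR]
      linarith

end Pool.Agent.Results.MP_f3a7de_an.RcHullCounterexample
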